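import Pool.Agent.Run7.h262.SV.Top2

/-!
The dimension criterion.
-/

set_option autoImplicit false

open Filter Topology

namespace Run7.h262.SV

section
variable {Γ E : Type} [Group Γ] [NormedAddCommGroup E] [NormedSpace ℝ E] [FiniteDimensional ℝ E]
  {hol : Γ →* (E ≃ᵃ[ℝ] E)} {Ω : Set E}

/-- linear holonomy -/
noncomputable def linH (hol : Γ →* (E ≃ᵃ[ℝ] E)) : Γ →* (E →L[ℝ] E) where
  toFun γ := LinearMap.toContinuousLinearMap ((hol γ).linear : E →ₗ[ℝ] E)
  map_one' := by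
    refine ContinuousLinearMap.ext fun v => ?_
    change (hol 1).linear v = v
    rw [map_one]
    rfl
  map_mul' γ δ := by
    refine ContinuousLinearMap.ext fun v => ?_
    change (hol (γ * δ)).linear v = (hol γ).linear ((hol δ).linear v)
    exact lin_mul γ δ v

/-- a vector in the kernel -/
theorem exists_kernel {r : ℕ} {q : Fin r → ℕ} (N : Submodule ℝ E)
    (hN : ∑ i, q i < Module.finrank ℝ N + r)
    (F' : ∀ i : Fin r, E →L[ℝ] EuclideanSpace ℝ (Fin (q i)))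
    (y : ∀ i : Fin r, EuclideanSpace ℝ (Fin (q i))) (hy : ∀ i, y i ≠ 0) :
    ∃ v ∈ N, v ≠ 0 ∧ ∀ i, ∃ c : ℝ, F' i v = c • y i := by
  let Φ : (N × (Fin r → ℝ)) →ₗ[ℝ] (∀ i : Fin r, EuclideanSpace ℝ (Fin (q i))) :=
    LinearMap.pi fun i =>
      ((F' i : E →ₗ[ℝ] EuclideanSpace ℝ (Fin (q i))) ∘ₗ N.subtype ∘ₗ LinearMap.fst ℝ N _) -
        (((LinearMap.proj i : (Fin r → ℝ) →ₗ[ℝ] ℝ) ∘ₗ LinearMap.snd ℝ N _).smulRight (y i))
  have hΦ : ∀ (p : N × (Fin r → ℝ)) i, Φ p i = F' i (p.1 : E) - p.2 i • y i := fun p i => rfl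
  have h1 : Module.finrank ℝ (∀ i : Fin r, EuclideanSpace ℝ (Fin (q i))) <
      Module.finrank ℝ (N × (Fin r → ℝ)) := by
    rw [Module.finrank_pi_fintype, Module.finrank_prod, Module.finrank_fin_fun]
    simp only [finrank_euclideanSpace_fin]
    exact hN
  have h2 := LinearMap.ker_ne_bot_of_finrank_lt (f := Φ) h1
  obtain ⟨p, hp, hp0⟩ := (Submodule.ne_bot_iff _).1 h2
  rw [LinearMap.mem_ker] at hp
  have h3 : ∀ i, F' i (p.1 : E) = p.2 i • y i := by
    intro i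
    have := hΦ p i
    rw [hp] at this
    exact sub_eq_zero.1 this.symm
  refine ⟨p.1, p.1.2, ?_, fun i => ⟨p.2 i, h3 i⟩⟩
  intro h0
  apply hp0
  refine Prod.ext (Subtype.ext h0) (funext fun i => ?_)
  have h4 := h3 i
  rw [h0, map_zero] at h4
  exact (smul_eq_zero.1 h4.symm).resolve_right (hy i)

theorem BddBlock.mono {Sa Sb : Submodule ℝ E} {c c' : ℝ} (hc : c ≤ c') {γ : Γ}
    (h : BddBlock hol Sa Sb c γ) : BddBlock hol Sa Sb c' γ := by
  obtain ⟨s, hs, h1⟩ := h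
  refine ⟨s, hs, fun v hv => ?_⟩
  obtain ⟨⟨w, hw, h2⟩, w', hw', h3⟩ := h1 v hv
  have h4 : c * ‖v‖ ≤ c' * ‖v‖ := mul_le_mul_of_nonneg_right hc (norm_nonneg _)
  exact ⟨⟨w, hw, h2.trans h4⟩, w', hw', h3.trans h4⟩

end

section
variable {X Γ E : Type} [TopologicalSpace X] [Group Γ] [MulAction Γ X]
    [NormedAddCommGroup E] [NormedSpace ℝ E] [FiniteDimensional ℝ E] {D : X → E}
    {hol : Γ →* (E ≃ᵃ[ℝ] E)}

open Pool.Agent.N520.SV

theorem CvxData.of_top [Nonempty X] (h : CvxData X Γ E D hol) {K : Set E} (hKc : IsCompact K)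
    (hKD : K ⊆ Set.range D) (hK : ∀ x ∈ Set.range D, ∃ γ : Γ, hol γ x ∈ K)
    (S : ℕ → Submodule ℝ E) (r : ℕ) (h0 : S 0 = ⊥) (hr : S r = lines (Set.range D))
    (hm : ∀ i < r, S i < S (i + 1))
    (hinv : ∀ i ≤ r, ∀ γ : Γ, ∀ v ∈ S i, (hol γ).linear v ∈ S i)
    (Q : ℕ → Submodule ℝ (E → ℝ)) (hQ : ∀ i < r, NormSpace hol (S i) (S (i + 1)) (Q i))
    (gt : Γ → E → ℝ) (hgt : Factor hol (Set.range D) K gt)
    (hgk : ∀ x ∈ Set.range D, ∃ N : Submodule ℝ E,
      ∑ i ∈ Finset.range r, Module.finrank ℝ (Q i) < Module.finrank ℝ N + r ∧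
        ∀ v ∈ N, ∀ γ, fderiv ℝ (gt γ) x v = 0)
    (hgb : ∀ K₁ : Set E, IsCompact K₁ → K₁ ⊆ Set.range D → ∃ c : ℝ, ∀ γ, ∀ x ∈ K₁, gt γ x ≠ 0 →
      BddBlock hol (lines (Set.range D)) ⊤ c γ)
    (k : ℕ) (hk : Module.finrank ℝ E ≤ k + 1) :
    Negligible k (MulAction.orbitRel.Quotient Γ X) := by
  classical
  have hd := h.affDom
  let S' : ℕ → Submodule ℝ E := fun i => if i ≤ r then S i else ⊤
  have hS' : ∀ i ≤ r, S' i = S i := fun i hi => if_pos hi
  have hS'' : S' (r + 1) = ⊤ := if_neg (by omega)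
  have h0' : S' 0 = ⊥ := by rw [hS' 0 (Nat.zero_le r), h0]
  have hm' : ∀ i < r + 1, S' i ≤ S' (i + 1) := by
    intro i hi
    by_cases hir : i < r
    · rw [hS' i hir.le, hS' (i + 1) hir]
      exact (hm i hir).le
    · have : i = r := by omega
      subst this
      rw [hS'']
      exact le_top
  have hinv' : ∀ i ≤ r + 1, ∀ γ : Γ, ∀ v ∈ S' i, (hol γ).linear v ∈ S' i := by
    intro i hi γ v hv
    by_cases hir : i ≤ r
    · rw [hS' i hir] at hv ⊢
      exact hinv i hir γ v hv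
    · have : i = r + 1 := by omega
      subst this
      rw [hS'']
      trivial
  by_cases hsm : SmallBlocks hol S' (r + 1)
  · exact h.of_small_blocks S' (r + 1) h0' hS'' hm' hinv' hsm k hk
  have hsm' : ∃ δ > 0, ∀ γ : Γ, (∃ s : ℕ → ℝ, (∀ i, s i ≠ 0) ∧
      ∀ i < r + 1, ∀ v ∈ S' (i + 1), ∃ w ∈ S' i, ‖s i • linH hol γ v - v - w‖ ≤ δ * ‖v‖) →
        γ = 1 := by
    unfold SmallBlocks at hsm
    push Not at hsm
    obtain ⟨δ, hδ, h1⟩ := hsm
    refine ⟨δ, hδ, fun γ hγ => ?_⟩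
    by_contra hne
    obtain ⟨s, hs, h2⟩ := hγ
    obtain ⟨i, hi, v, hv, h3⟩ := h1 γ hne s hs
    obtain ⟨w, hw, h4⟩ := h2 i hi v hv
    exact absurd h4 (not_le.2 (h3 w hw))
  have hbl := fun i : Fin r => block_factor hd hKc hKD (hm i i.2)
    (fun γ v hv => hinv i i.2.le γ v hv) (fun γ v hv => hinv (i + 1) i.2 γ v hv) (hQ i i.2)
  choose F g hg hF hF0 hker hbd using hbl
  let g' : ℕ → Γ → E → ℝ := fun i => if hi : i < r then g ⟨i, hi⟩ else gt
  have hg'1 : ∀ i (hi : i < r), g' i = g ⟨i, hi⟩ := fun i hi => dif_pos hi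
  have hg'2 : g' r = gt := dif_neg (lt_irrefl r)
  refine h.of_factors K hK hKD (r + 1) g' ?_ ?_ ?_ k hk
  · intro i hi
    by_cases hir : i < r
    · rw [hg'1 i hir]
      exact hg _
    · have : i = r := by omega
      subst this
      rw [hg'2]
      exact hgt
  · intro K₁ hK₁ hK₁D
    choose c hc using fun i : Fin r => hbd i K₁ hK₁ hK₁D
    obtain ⟨ct, hct⟩ := hgb K₁ hK₁ hK₁D
    set C : ℝ := |ct| + ∑ i, |c i| with hC
    have hCt : ct ≤ C := by
      have h1 : 0 ≤ ∑ i, |c i| := Finset.sum_nonneg fun i _ => abs_nonneg _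
      have h2 := le_abs_self ct
      linarith
    have hCi : ∀ i, c i ≤ C := by
      intro i
      have h1 : |c i| ≤ ∑ i, |c i| :=
        Finset.single_le_sum (f := fun i => |c i|) (fun i _ => abs_nonneg _) (Finset.mem_univ i)
      have h2 := le_abs_self (c i)
      have h3 := abs_nonneg ct
      linarith
    refine (bdd_finite (linH hol) h0' hS'' hm' hinv' hsm' C).subset ?_
    rintro γ ⟨x, hx, hγ⟩
    have h1 : ∀ i, ∃ s : ℝ, i < r + 1 → 0 < s ∧ ∀ v ∈ S' (i + 1),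
        (∃ w ∈ S' i, ‖s • linH hol γ v - w‖ ≤ C * ‖v‖) ∧
          ∃ w ∈ S' i, ‖s⁻¹ • linH hol γ⁻¹ v - w‖ ≤ C * ‖v‖ := by
      intro i
      by_cases hi : i < r + 1
      · by_cases hir : i < r
        · have h2 := hγ i hi
          rw [hg'1 i hir] at h2
          obtain ⟨s, hs, h3⟩ := (hc ⟨i, hir⟩ γ x hx h2).mono (hCi ⟨i, hir⟩)
          refine ⟨s, fun _ => ⟨hs, ?_⟩⟩
          rw [hS' i hir.le, hS' (i + 1) hir]
          exact h3
        · have hi' : i = r := by omega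
          subst hi'
          have h2 := hγ i hi
          rw [hg'2] at h2
          obtain ⟨s, hs, h3⟩ := (hct γ x hx h2).mono hCt
          refine ⟨s, fun _ => ⟨hs, ?_⟩⟩
          rw [hS' i le_rfl, hS'', hr]
          exact h3
      · exact ⟨1, fun h2 => absurd h2 hi⟩
    choose s hs using h1
    exact ⟨s, fun i hi => (hs i hi).1, fun i hi => (hs i hi).2⟩
  · intro x hx
    obtain ⟨N, hN, hNt⟩ := hgk x hx
    rw [Finset.sum_range] at hN
    obtain ⟨v, hvN, hv0, hv⟩ := exists_kernel N hN (fun i => fderiv ℝ (F i) x) (fun i => F i x)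
      fun i => hF0 i x hx
    refine ⟨v, hv0, fun i hi γ => ?_⟩
    by_cases hir : i < r
    · rw [hg'1 i hir]
      obtain ⟨c, hc⟩ := hv ⟨i, hir⟩
      exact hker ⟨i, hir⟩ x hx v c hc γ
    · have hi' : i = r := by omega
      subst hi'
      rw [hg'2]
      exact hNt v hvN γ

theorem CvxData.of_dim [Nonempty X] (h : CvxData X Γ E D hol)
    (S : ℕ → Submodule ℝ E) (r : ℕ) (h0 : S 0 = ⊥) (hr : S r = lines (Set.range D))
    (hm : ∀ i < r, S i < S (i + 1))
    (hinv : ∀ i ≤ r, ∀ γ : Γ, ∀ v ∈ S i, (hol γ).linear v ∈ S i)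
    (Q : ℕ → Submodule ℝ (E → ℝ)) (hQ : ∀ i < r, NormSpace hol (S i) (S (i + 1)) (Q i))
    (hdim : ∑ i ∈ Finset.range r, Module.finrank ℝ (Q i) <
        Module.finrank ℝ (lines (Set.range D)) + r ∨
      (∃ o, o ∉ Set.range D ∧ ∀ x ∈ Set.range D, ∀ t : ℝ, 0 < t → o + t • (x - o) ∈ Set.range D) ∧
        ∑ i ∈ Finset.range r, Module.finrank ℝ (Q i) ≤
          Module.finrank ℝ (lines (Set.range D)) + r)
    (k : ℕ) (hk : Module.finrank ℝ E ≤ k + 1) :
    Negligible k (MulAction.orbitRel.Quotient Γ X) := by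
  have hd := h.affDom
  obtain ⟨K, hKc, hKD, hK⟩ := hd.cc
  rcases hdim with hdim | ⟨⟨o, ho, hcone⟩, hdim⟩
  · obtain ⟨gt, hgt, hgk, hgb⟩ := top_factor hd hKc hKD
    exact h.of_top hKc hKD hK S r h0 hr hm hinv Q hQ gt hgt
      (fun x hx => ⟨_, hdim, fun v hv γ => hgk x hx v hv γ⟩) hgb k hk
  · obtain ⟨gt, hgt, hgk, hgb⟩ := cone_factor hd hKc hKD ho hcone
    refine h.of_top hKc hKD hK S r h0 hr hm hinv Q hQ gt hgt (fun x hx => ?_) hgb k hk
    refine ⟨lines (Set.range D) ⊔ Submodule.span ℝ {x - o}, ?_, ?_⟩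
    · have h1 : lines (Set.range D) < lines (Set.range D) ⊔ Submodule.span ℝ {x - o} := by
        refine lt_of_le_of_ne le_sup_left fun h2 => ?_
        have h3 : x - o ∈ lines (Set.range D) := by
          rw [h2]
          exact Submodule.mem_sup_right (Submodule.mem_span_singleton_self _)
        have h4 := add_lines hd.isOpen hd.convex hx ((lines (Set.range D)).neg_mem h3)
        rw [neg_sub, add_sub_cancel] at h4
        exact ho h4
      have h2 := Submodule.finrank_lt_finrank_of_lt h1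
      omega
    · intro v hv γ
      obtain ⟨w, hw, u, hu, rfl⟩ := Submodule.mem_sup.1 hv
      obtain ⟨c, rfl⟩ := Submodule.mem_span_singleton.1 hu
      refine hgk x hx _ c ?_ γ
      rw [add_sub_cancel_right]
      exact hw

end

end Run7.h262.SV
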