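import Pool.Agent.N520.SV.Stm

/-!
The infimum of the norms.
-/

set_option autoImplicit false

namespace Run7.h262.SV

open Pool.Agent.N520.SV

theorem neg_inf {k : ℕ} {M : Type} [TopologicalSpace M] (h : Negligible k M)
    (z : Chain (k + 1) M) (hz : bdry k z = 0) :
    ⨅ c : Chain (k + 2) M, norm1 (z + bdry (k + 1) c) = 0 := by
  have h0 : ∀ c : Chain (k + 1) M, 0 ≤ norm1 c := fun c => Finset.sum_nonneg fun _ _ => abs_nonneg _
  have hbdd : BddBelow (Set.range fun c : Chain (k + 2) M => norm1 (z + bdry (k + 1) c)) :=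
    ⟨0, by rintro _ ⟨c, rfl⟩; exact h0 _⟩
  apply le_antisymm
  · refine le_of_forall_pos_le_add fun ε hε => ?_
    obtain ⟨c, hc⟩ := h z hz ε hε
    rw [zero_add]
    exact (ciInf_le hbdd c).trans hc.le
  · exact le_ciInf fun c => h0 _

end Run7.h262.SV
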