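import Pool.Agent.Run7.h262.SV.Glue

/-!
Virtually solvable normal subgroups.
-/

set_option autoImplicit false

namespace Run7.h262.SV

/-- the derived subgroups in the ambient group -/
def dser {Γ : Type} [Group Γ] (P : Subgroup Γ) : ℕ → Subgroup Γ
  | 0 => P
  | n + 1 => ⁅dser P n, dser P n⁆

theorem dser_eq {Γ : Type} [Group Γ] (P : Subgroup Γ) (n : ℕ) :
    dser P n = (derivedSeries P n).map P.subtype := by
  induction n with
  | zero =>
    rw [derivedSeries_zero]
    change P = _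
    ext x
    simp
  | succ n ih =>
    rw [derivedSeries_succ, Subgroup.map_commutator, ← ih]
    rfl

theorem dser_normal {Γ : Type} [Group Γ] (P : Subgroup Γ) (hP : P.Normal) (n : ℕ) :
    (dser P n).Normal := by
  induction n with
  | zero => exact hP
  | succ n ih =>
    have := ih
    exact Subgroup.commutator_normal _ _

theorem exists_abelian {Γ : Type} [Group Γ] (P : Subgroup Γ) (hP : P.Normal) (hne : P ≠ ⊥)
    (hs : Group.IsSolvable P) :
    ∃ A : Subgroup Γ, A.Normal ∧ A ≠ ⊥ ∧ ∀ a ∈ A, ∀ b ∈ A, a * b = b * a := by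
  classical
  obtain ⟨n, hn⟩ := hs
  have hex : ∃ n, dser P n = ⊥ := ⟨n, by rw [dser_eq, hn, Subgroup.map_bot]⟩
  have hm := Nat.find_spec hex
  have hmin := fun j => @Nat.find_min _ _ hex j
  cases hc : Nat.find hex with
  | zero =>
    rw [hc] at hm
    exact absurd hm hne
  | succ m =>
    rw [hc] at hm
    refine ⟨dser P m, dser_normal P hP m, hmin m (by omega), ?_⟩
    change ⁅dser P m, dser P m⁆ = ⊥ at hm
    rw [Subgroup.commutator_eq_bot_iff_le_centralizer] at hm
    intro a ha b hb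
    have := hm hb
    rw [Subgroup.mem_centralizer_iff] at this
    exact this a ha

/-- torsion free groups with a virtually solvable normal subgroup -/
theorem exists_abelian' {Γ : Type} [Group Γ] (htf : ∀ (γ : Γ) (n : ℕ), n ≠ 0 → γ ^ n = 1 → γ = 1)
    (N : Subgroup Γ) (hN : N.Normal) (hne : N ≠ ⊥) (S : Subgroup N) (hS : S.FiniteIndex)
    (hs : Group.IsSolvable S) :
    ∃ A : Subgroup Γ, A.Normal ∧ A ≠ ⊥ ∧ ∀ a ∈ A, ∀ b ∈ A, a * b = b * a := by
  classical
  set K : Subgroup N := S.normalCore with hK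
  have hKf : K.FiniteIndex := Subgroup.finiteIndex_normalCore S
  have hKn : K.Normal := Subgroup.normalCore_normal S
  have hKs : Group.IsSolvable K := by
    have := hs
    exact solvable_of_solvable_injective (Subgroup.inclusion_injective (Subgroup.normalCore_le S))
  set m := K.index with hm
  have hm0 : m ≠ 0 := hKf.index_ne_zero
  let P : Subgroup Γ := Subgroup.closure {x | ∃ n ∈ N, x = n ^ m}
  have hPn : P.Normal := by
    refine ⟨fun x hx γ => ?_⟩
    have h1 : P ≤ P.comap (MulAut.conj γ).toMonoidHom := by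
      refine (Subgroup.closure_le _).2 ?_
      rintro _ ⟨n, hn, rfl⟩
      change (MulAut.conj γ) (n ^ m) ∈ P
      rw [map_pow]
      refine Subgroup.subset_closure ⟨MulAut.conj γ n, ?_, rfl⟩
      exact hN.conj_mem n hn γ
    exact h1 hx
  have hPK : P ≤ K.map N.subtype := by
    refine (Subgroup.closure_le _).2 ?_
    rintro _ ⟨n, hn, rfl⟩
    refine ⟨⟨n, hn⟩ ^ m, ?_, rfl⟩
    exact Subgroup.pow_index_mem K _
  have hPs : Group.IsSolvable P := by
    have h1 : Group.IsSolvable (K.map N.subtype) := by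
      have := hKs
      exact solvable_of_surjective (N.subtype.subgroupMap_surjective K)
    exact solvable_of_solvable_injective (Subgroup.inclusion_injective hPK)
  refine exists_abelian P hPn ?_ hPs
  obtain ⟨⟨n, hn⟩, hn0⟩ := Subgroup.ne_bot_iff_exists_ne_one.1 hne
  have hn1 : n ≠ 1 := fun h1 => hn0 (Subtype.ext h1)
  intro hbot
  have h1 : n ^ m ∈ P := Subgroup.subset_closure ⟨n, hn, rfl⟩
  rw [hbot, Subgroup.mem_bot] at h1
  exact hn1 (htf n m hm0 h1)

section
variable {Γ E : Type} [Group Γ] [NormedAddCommGroup E] [NormedSpace ℝ E] [FiniteDimensional ℝ E]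
  {hol : Γ →* (E ≃ᵃ[ℝ] E)} {Ω : Set E}

theorem AffDom.torsionFree (h : AffDom Γ E hol Ω) (γ : Γ) (n : ℕ) (hn : n ≠ 0)
    (h1 : γ ^ n = 1) : γ = 1 := by
  obtain ⟨x, hx⟩ := h.nonempty
  have hn' : (n : ℝ) ≠ 0 := Nat.cast_ne_zero.2 hn
  have hn0 : (0 : ℝ) < n := Nat.cast_pos.2 (Nat.pos_of_ne_zero hn)
  set y : E := ∑ i ∈ Finset.range n, (n : ℝ)⁻¹ • hol (γ ^ i) x with hy
  have hyΩ : y ∈ Ω := by
    refine h.convex.sum_mem (fun i _ => (inv_pos.2 hn0).le) ?_ fun i _ => h.inv _ x hx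
    rw [Finset.sum_const, Finset.card_range, nsmul_eq_mul, mul_inv_cancel₀ hn']
  refine h.free γ y hyΩ ?_
  have h3 : ∀ y, hol γ y = (hol γ).linear y + hol γ 0 := aff_apply _
  have h4 : hol γ 0 = ∑ i ∈ Finset.range n, (n : ℝ)⁻¹ • hol γ 0 := by
    rw [Finset.sum_const, Finset.card_range, ← Nat.cast_smul_eq_nsmul ℝ, smul_smul,
      mul_inv_cancel₀ hn', one_smul]
  have h5 : hol γ y = ∑ i ∈ Finset.range n, (n : ℝ)⁻¹ • hol (γ ^ (i + 1)) x := by
    rw [h3, hy, map_sum]
    conv_lhs => rw [h4]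
    rw [← Finset.sum_add_distrib]
    refine Finset.sum_congr rfl fun i _ => ?_
    rw [map_smul, ← smul_add, ← h3, ← hol_mul, ← pow_succ']
  rw [h5, hy, ← sub_eq_zero]
  rw [← Finset.sum_sub_distrib, Finset.sum_range_sub (fun i => (n : ℝ)⁻¹ • hol (γ ^ i) x),
    h1, pow_zero, sub_self]

end

section
variable {X Γ E : Type} [TopologicalSpace X] [Group Γ] [MulAction Γ X]
    [NormedAddCommGroup E] [NormedSpace ℝ E] [FiniteDimensional ℝ E] {D : X → E}
    {hol : Γ →* (E ≃ᵃ[ℝ] E)}

open Pool.Agent.N520.SV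

theorem CvxData.of_normal [Nonempty X] (h : CvxData X Γ E D hol) (N : Subgroup Γ)
    (hN : N.Normal) (hne : N ≠ ⊥) (S : Subgroup N) (hS : S.FiniteIndex)
    (hs : Group.IsSolvable S) (k : ℕ) (hk : Module.finrank ℝ E ≤ k + 1) :
    Negligible k (MulAction.orbitRel.Quotient Γ X) := by
  obtain ⟨A, h1, h2, h3⟩ := exists_abelian' h.affDom.torsionFree N hN hne S hS hs
  exact h.of_abelian A h3 h1 h2 k hk

end

end Run7.h262.SV
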