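import Pool.Agent.Run7.h262.SV.It

/-!
Alternating forms on small simplices, for maps of small rank.
-/

set_option autoImplicit false

open Finset Filter Topology

namespace Run7.h262.SV

theorem alt_cont {ι : Type} [Fintype ι] {n : ℕ} (B : (ι → ℝ) [⋀^Fin n]→ₗ[ℝ] ℝ) :
    Continuous fun w : Fin n → (ι → ℝ) => B w := by
  classical
  have h : ∀ w : Fin n → (ι → ℝ), B w = ∑ r : Fin n → ι,
      (∏ i, w i (r i)) * B (fun i => Pi.single (r i) (1 : ℝ)) := by
    intro w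
    have h1 : w = fun i => ∑ j, (w i j) • (Pi.single j (1 : ℝ) : ι → ℝ) := by
      funext i
      exact pi_eq_sum_univ' (w i)
    conv_lhs => rw [h1]
    have h2 := B.toMultilinearMap.map_sum (fun i j => (w i j) • (Pi.single j (1 : ℝ) : ι → ℝ))
    refine h2.trans (Finset.sum_congr rfl fun r _ => ?_)
    exact B.toMultilinearMap.map_smul_univ _ _
  have h3 : (fun w : Fin n → (ι → ℝ) => B w) = fun w => ∑ r : Fin n → ι,
      (∏ i, w i (r i)) * B (fun i => Pi.single (r i) (1 : ℝ)) := funext h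
  rw [h3]
  fun_prop

theorem alt_sub {V : Type*} [AddCommGroup V] [Module ℝ V] {n : ℕ}
    (B : V [⋀^Fin (n + 1)]→ₗ[ℝ] ℝ) (a : V) (y : Fin n → V) :
    B (Fin.cons a y) = B.curryLeft a (fun i => y i - a) := by
  classical
  have h0 : B (Fin.cons a y) = B.curryLeft a y := rfl
  rw [h0]
  have h1 : y = (fun i => y i - a) + fun _ => a := by
    funext i
    simp
  conv_lhs => rw [h1]
  have h2 := (B.curryLeft a).toMultilinearMap.map_add_univ (fun i => y i - a) (fun _ => a)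
  refine h2.trans ?_
  rw [Finset.sum_eq_single Finset.univ]
  · rw [Finset.piecewise_univ]
    rfl
  · intro s _ hs
    obtain ⟨i, hi⟩ : ∃ i, i ∉ s := by
      by_contra hcon
      push Not at hcon
      exact hs (Finset.eq_univ_iff_forall.2 hcon)
    change B (Matrix.vecCons a (s.piecewise (fun i => y i - a) fun _ => a)) = 0
    refine B.map_eq_zero_of_eq _ (i := 0) (j := i.succ) ?_ (Fin.succ_ne_zero i).symm
    rw [Matrix.cons_val_zero, Matrix.cons_val_succ, Finset.piecewise_eq_of_notMem _ _ _ hi]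
  · intro h
    exact absurd (Finset.mem_univ _) h

theorem unif_diff {E W : Type*} [NormedAddCommGroup E] [NormedSpace ℝ E]
    [NormedAddCommGroup W] [NormedSpace ℝ W] (U : Set E) (hU : IsOpen U) (Λ : E → W)
    (hΛ : ContDiffOn ℝ 1 Λ U) (K : Set E) (hK : IsCompact K) (hKc : Convex ℝ K) (hKU : K ⊆ U)
    (η : ℝ) (hη : 0 < η) : ∃ δ > 0, ∀ x ∈ K, ∀ y ∈ K, ‖y - x‖ ≤ δ →
      ‖Λ y - Λ x - fderiv ℝ Λ x (y - x)‖ ≤ η * ‖y - x‖ := by
  have h1 : ContinuousOn (fderiv ℝ Λ) U := hΛ.continuousOn_fderiv_of_isOpen hU le_rfl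
  have h2 : UniformContinuousOn (fderiv ℝ Λ) K := hK.uniformContinuousOn_of_continuous (h1.mono hKU)
  obtain ⟨δ, hδ, h3⟩ := Metric.uniformContinuousOn_iff.1 h2 η hη
  refine ⟨δ / 2, by positivity, fun x hx y hy hxy => ?_⟩
  have h4 : Convex ℝ (K ∩ Metric.ball x δ) := hKc.inter (convex_ball x δ)
  refine h4.norm_image_sub_le_of_norm_hasFDerivWithin_le' (f' := fderiv ℝ Λ) ?_ ?_ ?_ ?_
  · intro z hz
    exact ((hΛ.differentiableOn one_ne_zero).differentiableAt
      (hU.mem_nhds (hKU hz.1))).hasFDerivAt.hasFDerivWithinAt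
  · intro z hz
    have := h3 z hz.1 x hx (Metric.mem_ball.1 hz.2)
    rw [dist_eq_norm] at this
    exact this.le
  · exact ⟨hx, Metric.mem_ball_self hδ⟩
  · refine ⟨hy, ?_⟩
    rw [Metric.mem_ball, dist_eq_norm]
    linarith

theorem small_simplex {E ι : Type} [NormedAddCommGroup E] [NormedSpace ℝ E]
    [FiniteDimensional ℝ E] [Fintype ι] (U : Set E) (hU : IsOpen U) (Λ : E → (ι → ℝ))
    (hΛ : ContDiffOn ℝ 1 Λ U) (hrk : ∀ x ∈ U, ∃ v : E, v ≠ 0 ∧ fderiv ℝ Λ x v = 0) (N : ℕ)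
    (hN : Module.finrank ℝ E ≤ N) (B : (ι → ℝ) [⋀^Fin (N + 1)]→ₗ[ℝ] ℝ) (K : Set E)
    (hK : IsCompact K) (hKc : Convex ℝ K) (hKU : K ⊆ U) (ε : ℝ) (hε : 0 < ε) :
    ∃ δ₀ > 0, ∀ δ : ℝ, 0 < δ → δ ≤ δ₀ → ∀ w : Fin (N + 1) → E, (∀ i, w i ∈ K) →
      (∀ i : Fin N, ‖w i.succ - w i.castSucc‖ ≤ δ) → |B (fun i => Λ (w i))| ≤ ε * δ ^ N := by
  obtain ⟨C₀, hC₀⟩ := hK.exists_bound_of_continuousOn (hΛ.continuousOn.mono hKU)
  obtain ⟨C₁, hC₁⟩ := hK.exists_bound_of_continuousOn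
    ((hΛ.continuousOn_fderiv_of_isOpen hU le_rfl).mono hKU)
  set R : ℝ := |C₀| + |C₁| * N + N with hR
  have hR0 : 0 ≤ R := by positivity
  have h1 : UniformContinuousOn (fun w : Fin (N + 1) → (ι → ℝ) => B w)
      (Metric.closedBall 0 R) :=
    (isCompact_closedBall 0 R).uniformContinuousOn_of_continuous (alt_cont B).continuousOn
  obtain ⟨ρ, hρ, h2⟩ := Metric.uniformContinuousOn_iff.1 h1 ε hε
  set η : ℝ := min 1 (ρ / 2 / (N + 1)) with hη
  have hη0 : 0 < η := by positivity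
  have hη1 : η ≤ 1 := min_le_left _ _
  have hη2 : η * N < ρ := by
    have h3 : η ≤ ρ / 2 / (N + 1) := min_le_right _ _
    have h4 : η * (N + 1) ≤ ρ / 2 := by
      rwa [le_div_iff₀ (by positivity)] at h3
    nlinarith
  obtain ⟨δ₁, hδ₁, h3⟩ := unif_diff U hU Λ hΛ K hK hKc hKU η hη0
  refine ⟨δ₁ / (N + 1), by positivity, fun δ hδ hδ0 w hw hd => ?_⟩
  have htel : ∀ i : Fin (N + 1), ‖w i - w 0‖ ≤ (i : ℕ) * δ := by
    intro i
    induction i using Fin.induction with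
    | zero => simp
    | succ i ih =>
      have e : w i.succ - w 0 = (w i.succ - w i.castSucc) + (w i.castSucc - w 0) := by abel
      rw [e]
      refine (norm_add_le _ _).trans ?_
      rw [Fin.val_succ]
      push_cast
      rw [Fin.val_castSucc] at ih
      linarith [hd i]
  set u : Fin N → E := fun i => w i.succ - w 0 with hu
  have hun : ∀ i, ‖u i‖ ≤ N * δ := by
    intro i
    refine (htel i.succ).trans ?_
    rw [Fin.val_succ]
    have : (i : ℕ) + 1 ≤ N := i.2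
    gcongr
  have hun' : ∀ i, ‖u i‖ ≤ δ₁ := by
    intro i
    refine (hun i).trans ?_
    have h4 : δ * (N + 1) ≤ δ₁ := by
      rwa [le_div_iff₀ (by positivity)] at hδ0
    nlinarith
  set D := fderiv ℝ Λ (w 0) with hD
  set a := Λ (w 0) with ha
  set β : Fin N → (ι → ℝ) := fun i => δ⁻¹ • (Λ (w i.succ) - a) with hβ
  set β' : Fin N → (ι → ℝ) := fun i => D (δ⁻¹ • u i) with hβ'
  have e1 : B (fun i => Λ (w i)) = δ ^ N * B (Fin.cons a β) := by
    have h4 : (fun i => Λ (w i)) = (Fin.cons a (fun i => Λ (w i.succ)) : Fin (N + 1) → (ι → ℝ)) := by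
      funext i
      refine Fin.cases ?_ (fun i => ?_) i
      · rfl
      · rfl
    rw [h4, alt_sub]
    have h5 : (fun i : Fin N => Λ (w i.succ) - a) = fun i => δ • β i := by
      funext i
      simp only [hβ]
      rw [smul_smul, mul_inv_cancel₀ hδ.ne', one_smul]
    rw [h5]
    have h6 := (B.curryLeft a).toMultilinearMap.map_smul_univ (fun _ => δ) β
    refine h6.trans ?_
    rw [Finset.prod_const, Finset.card_univ, Fintype.card_fin, smul_eq_mul]
    rfl
  have e2 : B (Fin.cons a β' : Fin (N + 1) → (ι → ℝ)) = 0 := by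
    change B.curryLeft a β' = 0
    refine AlternatingMap.map_linearDependent _ _ fun hli => ?_
    have hli' : LinearIndependent ℝ (fun i => (⟨β' i, ⟨δ⁻¹ • u i, rfl⟩⟩ :
        LinearMap.range (D : E →ₗ[ℝ] (ι → ℝ)))) :=
      LinearIndependent.of_comp (LinearMap.range (D : E →ₗ[ℝ] (ι → ℝ))).subtype hli
    have h4 := hli'.fintype_card_le_finrank
    rw [Fintype.card_fin] at h4
    have h5 := LinearMap.finrank_range_add_finrank_ker (D : E →ₗ[ℝ] (ι → ℝ))
    obtain ⟨v, hv0, hv⟩ := hrk (w 0) (hKU (hw 0))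
    have h6 : 0 < Module.finrank ℝ (LinearMap.ker (D : E →ₗ[ℝ] (ι → ℝ))) := by
      rw [Module.finrank_pos_iff_exists_ne_zero]
      exact ⟨⟨v, hv⟩, fun h => hv0 (congrArg Subtype.val h)⟩
    omega
  have hu1 : ∀ i, ‖δ⁻¹ • u i‖ ≤ N := by
    intro i
    rw [norm_smul, norm_inv, Real.norm_of_nonneg hδ.le, inv_mul_le_iff₀ hδ, mul_comm]
    exact hun i
  have hb' : ∀ i, ‖β' i‖ ≤ |C₁| * N := by
    intro i
    refine (D.le_opNorm _).trans ?_
    have : ‖D‖ ≤ |C₁| := (hC₁ _ (hw 0)).trans (le_abs_self _)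
    exact mul_le_mul this (hu1 i) (norm_nonneg _) (abs_nonneg _)
  have hbb : ∀ i, ‖β i - β' i‖ ≤ η * N := by
    intro i
    have h4 : β i - β' i = δ⁻¹ • (Λ (w i.succ) - Λ (w 0) - D (w i.succ - w 0)) := by
      simp only [hβ, hβ', hu, ha]
      rw [map_smul, ← smul_sub]
    rw [h4, norm_smul, norm_inv, Real.norm_of_nonneg hδ.le, inv_mul_le_iff₀ hδ]
    refine (h3 _ (hw 0) _ (hw _) (hun' i)).trans ?_
    have := hun i
    simp only [hu] at this
    nlinarith
  have hb : ∀ i, ‖β i‖ ≤ |C₁| * N + N := by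
    intro i
    have h4 : β i = β' i + (β i - β' i) := by abel
    rw [h4]
    refine (norm_add_le _ _).trans (add_le_add (hb' i) ((hbb i).trans ?_))
    have : (0 : ℝ) ≤ N := Nat.cast_nonneg N
    nlinarith
  have ha0 : ‖a‖ ≤ |C₀| := (hC₀ _ (hw 0)).trans (le_abs_self _)
  have hN0 : (0 : ℝ) ≤ N := Nat.cast_nonneg N
  have hC1N : 0 ≤ |C₁| * N := by positivity
  have hQ : (Fin.cons a β : Fin (N + 1) → (ι → ℝ)) ∈ Metric.closedBall 0 R := by
    rw [mem_closedBall_zero_iff, pi_norm_le_iff_of_nonneg hR0]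
    intro i
    refine Fin.cases ?_ (fun i => ?_) i
    · rw [Fin.cons_zero]
      linarith
    · rw [Fin.cons_succ]
      linarith [hb i, abs_nonneg C₀]
  have hQ' : (Fin.cons a β' : Fin (N + 1) → (ι → ℝ)) ∈ Metric.closedBall 0 R := by
    rw [mem_closedBall_zero_iff, pi_norm_le_iff_of_nonneg hR0]
    intro i
    refine Fin.cases ?_ (fun i => ?_) i
    · rw [Fin.cons_zero]
      linarith
    · rw [Fin.cons_succ]
      linarith [hb' i, abs_nonneg C₀]
  have hdist : dist (Fin.cons a β : Fin (N + 1) → (ι → ℝ)) (Fin.cons a β') < ρ := by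
    rw [dist_pi_lt_iff hρ]
    intro i
    refine Fin.cases ?_ (fun i => ?_) i
    · rw [Fin.cons_zero, Fin.cons_zero, dist_self]
      exact hρ
    · rw [Fin.cons_succ, Fin.cons_succ, dist_eq_norm]
      exact (hbb i).trans_lt hη2
  have h7 := h2 _ hQ _ hQ' hdist
  rw [e2, Real.dist_eq, sub_zero] at h7
  rw [e1, abs_mul, abs_of_pos (pow_pos hδ N), mul_comm]
  exact mul_le_mul_of_nonneg_right h7.le (pow_pos hδ N).le

end Run7.h262.SV
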