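import Pool.Agent.Run7.h262.SV.Core3

/-!
Equivariant partitions of unity.
-/

set_option autoImplicit false

open Finset Filter Topology

namespace Run7.h262.SV

/-- groups of affine maps dividing a convex domain -/
structure AffDom (Γ E : Type) [Group Γ] [NormedAddCommGroup E] [NormedSpace ℝ E]
    (hol : Γ →* (E ≃ᵃ[ℝ] E)) (Ω : Set E) : Prop where
  isOpen : IsOpen Ω
  convex : Convex ℝ Ω
  nonempty : Ω.Nonempty
  inv : ∀ γ : Γ, ∀ x ∈ Ω, hol γ x ∈ Ω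
  pd : ∀ K : Set E, IsCompact K → K ⊆ Ω → {γ : Γ | ∃ x ∈ K, hol γ x ∈ K}.Finite
  free : ∀ γ : Γ, ∀ x ∈ Ω, hol γ x = x → γ = 1
  cc : ∃ K : Set E, IsCompact K ∧ K ⊆ Ω ∧ ∀ x ∈ Ω, ∃ γ : Γ, hol γ x ∈ K

/-- equivariant partitions of unity -/
structure PreW (Γ S E : Type) [Group Γ] [MulAction Γ S] [NormedAddCommGroup E] [NormedSpace ℝ E]
    (hol : Γ →* (E ≃ᵃ[ℝ] E)) (U : Set E) (l : S → E → ℝ) : Prop where
  smooth : ∀ s, ContDiffOn ℝ 1 (l s) U
  fin : ∀ K : Set E, IsCompact K → K ⊆ U → {s | ∃ x ∈ K, l s x ≠ 0}.Finite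
  one : ∀ x ∈ U, ∑ᶠ s, l s x = 1
  equi : ∀ (γ : Γ) (s : S), ∀ x ∈ U, l (γ • s) (hol γ x) = l s x

section
variable {E : Type} [NormedAddCommGroup E] [NormedSpace ℝ E] [FiniteDimensional ℝ E]

theorem lf_nhds {ι F : Type} [NormedAddCommGroup F] [NormedSpace ℝ F] {U : Set E} (hU : IsOpen U)
    {l : ι → E → ℝ} (hfin : ∀ K : Set E, IsCompact K → K ⊆ U → {i | ∃ x ∈ K, l i x ≠ 0}.Finite)
    (x : E) (hx : x ∈ U) : ∃ T : Finset ι, ∀ᶠ y in 𝓝 x, y ∈ U ∧ (∀ i, l i y ≠ 0 → i ∈ T) ∧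
      ∀ c : ι → F, ∑ᶠ i, l i y • c i = ∑ i ∈ T, l i y • c i := by
  obtain ⟨K, hK, hxK, hKU⟩ := exists_compact_subset hU hx
  refine ⟨(hfin K hK hKU).toFinset, ?_⟩
  filter_upwards [mem_interior_iff_mem_nhds.1 hxK] with y hy
  have h1 : ∀ i, l i y ≠ 0 → i ∈ (hfin K hK hKU).toFinset := by
    intro i hi
    rw [Set.Finite.mem_toFinset]
    exact ⟨y, hy, hi⟩
  refine ⟨hKU hy, h1, fun c => ?_⟩
  refine finsum_eq_sum_of_support_subset _ fun i hi => ?_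
  refine Finset.mem_coe.2 (h1 i fun h0 => hi ?_)
  simp only
  rw [h0, zero_smul]

theorem lf_smooth {ι F : Type} [NormedAddCommGroup F] [NormedSpace ℝ F] {U : Set E}
    (hU : IsOpen U) {l : ι → E → ℝ} (hl : ∀ i, ContDiffOn ℝ 1 (l i) U)
    (hfin : ∀ K : Set E, IsCompact K → K ⊆ U → {i | ∃ x ∈ K, l i x ≠ 0}.Finite) (c : ι → F) :
    ContDiffOn ℝ 1 (fun x => ∑ᶠ i, l i x • c i) U := by
  intro x hx
  obtain ⟨T, hT⟩ := lf_nhds (F := F) hU hfin x hx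
  have h1 : ContDiffWithinAt ℝ 1 (fun x => ∑ i ∈ T, l i x • c i) U x :=
    ContDiffWithinAt.sum fun i _ => (hl i x hx).smul contDiffWithinAt_const
  refine h1.congr_of_eventuallyEq (mem_nhdsWithin_of_mem_nhds ?_) (hT.self_of_nhds.2.2 c)
  filter_upwards [hT] with y hy
  exact hy.2.2 c

end

section
variable {Γ E : Type} [Group Γ] [NormedAddCommGroup E] [NormedSpace ℝ E] [FiniteDimensional ℝ E]
  {hol : Γ →* (E ≃ᵃ[ℝ] E)}

theorem PreW.fin1 {S : Type} [MulAction Γ S] {U : Set E} {l : S → E → ℝ}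
    (h : PreW Γ S E hol U l) {x : E} (hx : x ∈ U) : {s | l s x ≠ 0}.Finite := by
  refine (h.fin {x} isCompact_singleton (by simpa using hx)).subset fun s hs => ?_
  exact ⟨x, rfl, hs⟩

theorem PreW.push {S S' : Type} [MulAction Γ S] [MulAction Γ S'] {U : Set E} (hU : IsOpen U)
    (hinv : ∀ γ : Γ, ∀ x ∈ U, hol γ x ∈ U) {l : S → E → ℝ}
    (h : PreW Γ S E hol U l) (π : S → S') (hπ : ∀ (γ : Γ) s, π (γ • s) = γ • π s) :
    ∃ l' : S' → E → ℝ, PreW Γ S' E hol U l' := by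
  classical
  refine ⟨fun s' x => ∑ᶠ s, l s x • (if π s = s' then (1 : ℝ) else 0), ?_, ?_, ?_, ?_⟩
  · intro s'
    exact lf_smooth hU h.smooth h.fin _
  · intro K hK hKU
    refine ((h.fin K hK hKU).image π).subset ?_
    rintro s' ⟨x, hx, h0⟩
    obtain ⟨s, hs⟩ : ∃ s, l s x • (if π s = s' then (1 : ℝ) else 0) ≠ 0 := by
      by_contra hcon
      push Not at hcon
      exact h0 (finsum_eq_zero_of_forall_eq_zero hcon)
    refine ⟨s, ⟨x, hx, left_ne_zero_of_smul hs⟩, ?_⟩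
    by_contra h1
    rw [if_neg h1, smul_zero] at hs
    exact hs rfl
  · intro x hx
    have hf := h.fin1 hx
    have e1 : ∀ s', ∑ᶠ s, l s x • (if π s = s' then (1 : ℝ) else 0) =
        ∑ s ∈ hf.toFinset, l s x • (if π s = s' then (1 : ℝ) else 0) := by
      intro s'
      refine finsum_eq_sum_of_support_subset _ fun s hs => ?_
      rw [Finset.mem_coe, Set.Finite.mem_toFinset]
      exact left_ne_zero_of_smul hs
    simp only [e1]
    rw [finsum_eq_sum_of_support_subset (s := hf.toFinset.image π), Finset.sum_comm]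
    · have e2 : ∀ s ∈ hf.toFinset, ∑ s' ∈ hf.toFinset.image π,
          l s x • (if π s = s' then (1 : ℝ) else 0) = l s x := by
        intro s hs
        rw [Finset.sum_eq_single (π s)]
        · rw [if_pos rfl, smul_eq_mul, mul_one]
        · intro b _ hb
          rw [if_neg (Ne.symm hb), smul_zero]
        · intro h1
          exact absurd (Finset.mem_image_of_mem π hs) h1
      rw [Finset.sum_congr rfl e2, ← h.one x hx]
      symm
      refine finsum_eq_sum_of_support_subset _ fun s hs => ?_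
      rw [Finset.mem_coe, Set.Finite.mem_toFinset]
      exact hs
    · intro s' hs'
      rw [Function.mem_support] at hs'
      obtain ⟨s, hs, hs1⟩ := Finset.exists_ne_zero_of_sum_ne_zero hs'
      have : π s = s' := by
        by_contra h1
        rw [if_neg h1, smul_zero] at hs1
        exact hs1 rfl
      rw [← this]
      exact Finset.mem_coe.2 (Finset.mem_image_of_mem π hs)
  · intro γ s' x hx
    rw [← finsum_comp_equiv (MulAction.toPerm γ)]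
    refine finsum_congr fun s => ?_
    rw [MulAction.toPerm_apply, h.equi γ s x hx, hπ]
    congr 1
    exact if_congr (smul_left_cancel_iff γ) rfl rfl

theorem exists_bump {Ω K : Set E} (hΩ : IsOpen Ω) (hK : IsCompact K) (hKΩ : K ⊆ Ω) :
    ∃ (ψ : E → ℝ) (K' : Set E), ContDiff ℝ 1 ψ ∧ IsCompact K' ∧ K' ⊆ Ω ∧
      (∀ x, ψ x ≠ 0 → x ∈ K') ∧ (∀ x, 0 ≤ ψ x) ∧ ∀ x ∈ K, 0 < ψ x := by
  classical
  have h1 : ∀ y ∈ K, ∃ f : E → ℝ, tsupport f ⊆ Ω ∧ HasCompactSupport f ∧ ContDiff ℝ 1 f ∧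
      Set.range f ⊆ Set.Icc 0 1 ∧ f y = 1 := fun y hy =>
    exists_contDiff_tsupport_subset (n := 1) (hΩ.mem_nhds (hKΩ hy))
  choose! f hf1 hf2 hf3 hf4 hf5 using h1
  obtain ⟨t, ht, hcov⟩ := hK.elim_nhds_subcover (fun y => {x | 0 < f y x}) (fun y hy => by
    refine IsOpen.mem_nhds (isOpen_lt continuous_const (hf3 y hy).continuous) ?_
    change 0 < f y y
    rw [hf5 y hy]
    exact one_pos)
  have hnn : ∀ y ∈ t, ∀ x, 0 ≤ f y x := fun y hy x => (hf4 y (ht y hy) ⟨x, rfl⟩).1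
  refine ⟨fun x => ∑ y ∈ t, f y x, ⋃ y ∈ t, tsupport (f y), ?_, ?_, ?_, ?_, ?_, ?_⟩
  · exact ContDiff.sum fun y hy => hf3 y (ht y hy)
  · exact t.finite_toSet.isCompact_biUnion fun y hy => hf2 y (ht y hy)
  · exact Set.iUnion₂_subset fun y hy => hf1 y (ht y hy)
  · intro x hx
    obtain ⟨y, hy, h2⟩ := Finset.exists_ne_zero_of_sum_ne_zero hx
    exact Set.mem_biUnion hy (subset_tsupport _ h2)
  · intro x
    exact Finset.sum_nonneg fun y hy => hnn y hy x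
  · intro x hx
    obtain ⟨y, hy, h2⟩ := Set.mem_iUnion₂.1 (hcov hx)
    exact Finset.sum_pos' (fun y hy => hnn y hy x) ⟨y, hy, h2⟩

theorem AffDom.fin2 {Ω : Set E} (h : AffDom Γ E hol Ω) {K K' : Set E} (hK : IsCompact K)
    (hK' : IsCompact K') (hKΩ : K ⊆ Ω) (hK'Ω : K' ⊆ Ω) :
    {γ : Γ | ∃ x ∈ K, hol γ⁻¹ x ∈ K'}.Finite := by
  have h1 := h.pd (K ∪ K') (hK.union hK') (Set.union_subset hKΩ hK'Ω)
  refine (h1.preimage (inv_injective.injOn)).subset ?_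
  rintro γ ⟨x, hx, h2⟩
  exact ⟨x, Or.inl hx, Or.inr h2⟩

theorem hol_mul (γ δ : Γ) (x : E) : hol (γ * δ) x = hol γ (hol δ x) := by
  rw [map_mul]
  rfl

theorem hol_inv (γ : Γ) (x : E) : hol γ⁻¹ (hol γ x) = x := by
  rw [← hol_mul, inv_mul_cancel, map_one]
  rfl

theorem hol_cont (γ : Γ) : Continuous (hol γ) :=
  (hol γ).toAffineMap.continuous_of_finiteDimensional

theorem hol_contDiff (γ : Γ) : ContDiff ℝ 1 (hol γ) := by
  have : (fun x : E => hol γ x) = fun x => (LinearMap.toContinuousLinearMap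
      ((hol γ).linear : E →ₗ[ℝ] E)) x + hol γ 0 := by
    funext x
    have h1 := (hol γ).map_vadd 0 x
    simp only [vadd_eq_add, add_zero] at h1
    exact h1
  change ContDiff ℝ 1 (fun x : E => hol γ x)
  rw [this]
  exact (ContinuousLinearMap.contDiff _).add contDiff_const

theorem AffDom.base {Ω : Set E} (h : AffDom Γ E hol Ω) :
    ∃ l : Γ → E → ℝ, PreW Γ Γ E hol Ω l ∧ ∀ γ, ∀ x ∈ Ω, 0 ≤ l γ x := by
  obtain ⟨K, hK, hKΩ, hcc⟩ := h.cc
  obtain ⟨ψ, K', hψ1, hK', hK'Ω, hψ2, hψ0, hψp⟩ := exists_bump h.isOpen hK hKΩ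
  let b : Γ → E → ℝ := fun γ x => ψ (hol γ⁻¹ x)
  have hbs : ∀ γ, ContDiffOn ℝ 1 (b γ) Ω := fun γ => (hψ1.comp (hol_contDiff γ⁻¹)).contDiffOn
  have hbf : ∀ K : Set E, IsCompact K → K ⊆ Ω → {γ | ∃ x ∈ K, b γ x ≠ 0}.Finite := by
    intro K₁ hK₁ hK₁Ω
    refine (h.fin2 hK₁ hK' hK₁Ω hK'Ω).subset ?_
    rintro γ ⟨x, hx, h0⟩
    exact ⟨x, hx, hψ2 _ h0⟩
  let Ψ : E → ℝ := fun x => ∑ᶠ γ, b γ x
  have hΨs : ContDiffOn ℝ 1 Ψ Ω := by
    have := lf_smooth h.isOpen hbs hbf (fun _ => (1 : ℝ))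
    simpa using this
  have hbfin : ∀ x ∈ Ω, (Function.support fun γ => b γ x).Finite := by
    intro x hx
    refine (hbf {x} isCompact_singleton (by simpa using hx)).subset fun γ hγ => ?_
    exact ⟨x, rfl, hγ⟩
  have hΨp : ∀ x ∈ Ω, 0 < Ψ x := by
    intro x hx
    obtain ⟨γ, hγ⟩ := hcc x hx
    have h1 : b γ⁻¹ x ≠ 0 := by
      simp only [b, inv_inv]
      exact (hψp _ hγ).ne'
    exact finsum_pos (fun γ => hψ0 _) ⟨γ⁻¹, by simpa [b] using hψp _ hγ⟩ (hbfin x hx)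
  have hbe : ∀ γ δ : Γ, ∀ x, b (γ * δ) (hol γ x) = b δ x := by
    intro γ δ x
    simp only [b]
    rw [mul_inv_rev, hol_mul, hol_inv]
  have hΨe : ∀ γ : Γ, ∀ x, Ψ (hol γ x) = Ψ x := by
    intro γ x
    simp only [Ψ]
    rw [← finsum_comp_equiv (Equiv.mulLeft γ)]
    exact finsum_congr fun δ => hbe γ δ x
  refine ⟨fun γ x => b γ x / Ψ x, ⟨?_, ?_, ?_, ?_⟩,
    fun γ x hx => div_nonneg (hψ0 _) (hΨp x hx).le⟩
  · intro γ
    exact (hbs γ).div hΨs fun x hx => (hΨp x hx).ne'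
  · intro K₁ hK₁ hK₁Ω
    refine (hbf K₁ hK₁ hK₁Ω).subset ?_
    rintro γ ⟨x, hx, h0⟩
    refine ⟨x, hx, fun h1 => h0 ?_⟩
    rw [h1, zero_div]
  · intro x hx
    have h1 : ∑ᶠ γ, b γ x / Ψ x = (∑ᶠ γ, b γ x) / Ψ x := by
      simp only [div_eq_mul_inv]
      exact (finsum_mul _ _).symm
    rw [h1]
    exact div_self (hΨp x hx).ne'
  · intro γ δ x hx
    simp only [smul_eq_mul]
    rw [hbe, hΨe]

end

end Run7.h262.SV
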