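import Pool.Agent.Run7.h262.SV.Lmap

/-!
The factor of a block.
-/

set_option autoImplicit false

open Filter Topology

namespace Run7.h262.SV

theorem joint_cont {U T : Type} [NormedAddCommGroup U] [NormedSpace ℝ U] [FiniteDimensional ℝ U]
    [TopologicalSpace T] (G : U → T → ℝ) (h1 : ∀ u v t, G (u + v) t = G u t + G v t)
    (h2 : ∀ (r : ℝ) u t, G (r • u) t = r * G u t) (h3 : ∀ u, Continuous (G u)) :
    Continuous fun p : U × T => G p.1 p.2 := by
  classical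
  let b := Module.finBasis ℝ U
  let L : T → U →ₗ[ℝ] ℝ := fun t =>
    { toFun := fun u => G u t
      map_add' := fun u v => h1 u v t
      map_smul' := fun r u => h2 r u t }
  have e1 : (fun p : U × T => G p.1 p.2) = fun p : U × T =>
      ∑ i, b.equivFun p.1 i * G (b i) p.2 := by
    funext p
    change L p.2 p.1 = ∑ i, b.equivFun p.1 i * L p.2 (b i)
    conv_lhs => rw [← b.sum_equivFun p.1, map_sum]
    exact Finset.sum_congr rfl fun i _ => by rw [map_smul, smul_eq_mul]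
  rw [e1]
  refine continuous_finsetSum _ fun i _ => ?_
  refine Continuous.mul ?_ ((h3 (b i)).comp continuous_snd)
  have h4 : Continuous fun u : U => b.equivFun u i :=
    (continuous_apply i).comp (LinearMap.continuous_of_finiteDimensional
      (b.equivFun : U →ₗ[ℝ] (Fin (Module.finrank ℝ U) → ℝ)))
  exact h4.comp continuous_fst

section
variable {Γ E : Type} [Group Γ] [NormedAddCommGroup E] [NormedSpace ℝ E]

/-- invariant finite dimensional spaces of homogeneous functions on a block -/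
structure NormSpace (hol : Γ →* (E ≃ᵃ[ℝ] E)) (Sa Sb : Submodule ℝ E) (Q : Submodule ℝ (E → ℝ)) :
    Prop where
  finite : Module.Finite ℝ Q
  inv : ∀ γ : Γ, ∀ f ∈ Q, (fun v => f ((hol γ).linear v)) ∈ Q
  cont : ∀ f ∈ Q, ContinuousOn f Sb
  hom : ∀ f ∈ Q, ∀ t : ℝ, ∀ v ∈ Sb, f (t • v) = t ^ 2 * f v
  add : ∀ f ∈ Q, ∀ v ∈ Sb, ∀ w ∈ Sa, f (v + w) = f v
  pos : ∃ f ∈ Q, ∀ v ∈ Sb, v ∉ Sa → 0 < f v

variable [FiniteDimensional ℝ E] {hol : Γ →* (E ≃ᵃ[ℝ] E)} {Ω : Set E}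

theorem lin_mul (γ δ : Γ) (v : E) :
    (hol (γ * δ)).linear v = (hol γ).linear ((hol δ).linear v) := by
  rw [map_mul]
  rfl

theorem lin_inv (γ : Γ) (v : E) : (hol γ⁻¹).linear ((hol γ).linear v) = v := by
  rw [← lin_mul, inv_mul_cancel, map_one]
  rfl

theorem lin_inv' (γ : Γ) (v : E) : (hol γ).linear ((hol γ⁻¹).linear v) = v := by
  rw [← lin_mul, mul_inv_cancel, map_one]
  rfl

/-- boundedness of a block modulo scalars -/
def BddBlock (hol : Γ →* (E ≃ᵃ[ℝ] E)) (Sa Sb : Submodule ℝ E) (c : ℝ) (γ : Γ) : Prop :=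
  ∃ s : ℝ, 0 < s ∧ ∀ v ∈ Sb, (∃ w ∈ Sa, ‖s • (hol γ).linear v - w‖ ≤ c * ‖v‖) ∧
    ∃ w ∈ Sa, ‖s⁻¹ • (hol γ⁻¹).linear v - w‖ ≤ c * ‖v‖

theorem block_factor (h : AffDom Γ E hol Ω) {K : Set E} (hK : IsCompact K) (hKΩ : K ⊆ Ω)
    {Sa Sb : Submodule ℝ E} (hlt : Sa < Sb) (hSa : ∀ γ : Γ, ∀ v ∈ Sa, (hol γ).linear v ∈ Sa)
    (hSb : ∀ γ : Γ, ∀ v ∈ Sb, (hol γ).linear v ∈ Sb) {Q : Submodule ℝ (E → ℝ)}
    (hQ : NormSpace hol Sa Sb Q) :
    ∃ (F : E → EuclideanSpace ℝ (Fin (Module.finrank ℝ Q))) (g : Γ → E → ℝ),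
      Factor hol Ω K g ∧ ContDiffOn ℝ 1 F Ω ∧ (∀ x ∈ Ω, F x ≠ 0) ∧
      (∀ x ∈ Ω, ∀ v, ∀ c : ℝ, fderiv ℝ F x v = c • F x → ∀ γ, fderiv ℝ (g γ) x v = 0) ∧
      ∀ K₁ : Set E, IsCompact K₁ → K₁ ⊆ Ω → ∃ c : ℝ, ∀ γ, ∀ x ∈ K₁, g γ x ≠ 0 →
        BddBlock hol Sa Sb c γ := by
  classical
  have hQf := hQ.finite
  let U := EuclideanSpace ℝ (Fin (Module.finrank ℝ Q))
  have hfr : Module.finrank ℝ U = Module.finrank ℝ Q := finrank_euclideanSpace_fin
  let e : U ≃ₗ[ℝ] Q := LinearEquiv.ofFinrankEq U Q hfr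
  let ev : U → E → ℝ := fun u v => (e u : E → ℝ) v
  have ev_add : ∀ u u' v, ev (u + u') v = ev u v + ev u' v := by
    intro u u' v
    change (e (u + u') : E → ℝ) v = _
    rw [map_add]
    rfl
  have ev_smul : ∀ (r : ℝ) u v, ev (r • u) v = r * ev u v := by
    intro r u v
    change (e (r • u) : E → ℝ) v = _
    rw [map_smul]
    rfl
  let σ' : Γ → U →ₗ[ℝ] U := fun γ =>
    { toFun := fun u => e.symm ⟨fun v => ev u ((hol γ⁻¹).linear v), hQ.inv γ⁻¹ _ (e u).2⟩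
      map_add' := fun u u' => by
        rw [← map_add]
        congr 1
        refine Subtype.ext (funext fun v => ?_)
        exact ev_add u u' _
      map_smul' := fun r u => by
        rw [RingHom.id_apply, ← map_smul]
        congr 1
        refine Subtype.ext (funext fun v => ?_)
        exact ev_smul r u _ }
  let σ : Γ → U →L[ℝ] U := fun γ => LinearMap.toContinuousLinearMap (σ' γ)
  have evσ : ∀ γ u v, ev (σ γ u) v = ev u ((hol γ⁻¹).linear v) := by
    intro γ u v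
    change (e (e.symm ⟨fun v => ev u ((hol γ⁻¹).linear v), _⟩) : E → ℝ) v = _
    rw [LinearEquiv.apply_symm_apply]
  have ev_ext : ∀ u u' : U, (∀ v, ev u v = ev u' v) → u = u' := by
    intro u u' h1
    exact e.injective (Subtype.ext (funext h1))
  have hσ : ∀ γ δ u, σ (γ * δ) u = σ γ (σ δ u) := by
    intro γ δ u
    refine ev_ext _ _ fun v => ?_
    rw [evσ, evσ, evσ, mul_inv_rev, lin_mul]
  have hσi : ∀ γ u, σ γ⁻¹ (σ γ u) = u := by
    intro γ u
    refine ev_ext _ _ fun v => ?_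
    rw [evσ, evσ, inv_inv, lin_inv]
  have hσ1 : ∀ u, σ 1 u = u := by
    intro u
    refine ev_ext _ _ fun v => ?_
    rw [evσ, inv_one, map_one]
    rfl
  obtain ⟨π, hπ1, hπ2⟩ := exists_pi Sa
  -- the unit sphere of the block
  let Z : Set Sb := {z | π (z : E) = 0 ∧ ‖z‖ = 1}
  have hZc : IsCompact Z := by
    refine Metric.isCompact_of_isClosed_isBounded ?_ ?_
    · refine IsClosed.inter ?_ ?_
      · exact isClosed_eq (π.continuous.comp continuous_subtype_val) continuous_const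
      · exact isClosed_eq continuous_norm continuous_const
    · refine isBounded_iff_forall_norm_le.2 ⟨1, fun z hz => hz.2.le⟩
  have evc : Continuous fun p : U × Sb => ev p.1 (p.2 : E) := by
    refine joint_cont (fun u (z : Sb) => ev u z) (fun u v t => ev_add u v t)
      (fun r u t => ev_smul r u t) fun u => ?_
    exact continuousOn_iff_continuous_restrict.1 (hQ.cont _ (e u).2)
  let C : Set U := {u | ∀ z ∈ Z, 0 < ev u (z : E)}
  have hproj : ∀ v ∈ Sb, v - π v ∈ Sb := fun v hv => Sb.sub_mem hv (hlt.le (hπ1 v))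
  have hππ : ∀ v, π (v - π v) = 0 := fun v => by rw [map_sub, hπ2 _ (hπ1 v), sub_self]
  have ev_red : ∀ u, ∀ v ∈ Sb, ev u v = ev u (v - π v) := by
    intro u v hv
    have := hQ.add _ (e u).2 (v - π v) (hproj v hv) (π v) (hπ1 v)
    rw [sub_add_cancel] at this
    exact this
  have hsc : ∀ u, ∀ v ∈ Sb, v - π v ≠ 0 → ∃ z ∈ Z, ev u v = ‖v - π v‖ ^ 2 * ev u (z : E) := by
    intro u v hv hne
    have hn : ‖v - π v‖ ≠ 0 := norm_ne_zero_iff.2 hne
    refine ⟨⟨‖v - π v‖⁻¹ • (v - π v), Sb.smul_mem _ (hproj v hv)⟩, ⟨?_, ?_⟩, ?_⟩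
    · change π (‖v - π v‖⁻¹ • (v - π v)) = 0
      rw [map_smul, hππ, smul_zero]
    · change ‖‖v - π v‖⁻¹ • (v - π v)‖ = 1
      rw [norm_smul, norm_inv, norm_norm, inv_mul_cancel₀ hn]
    · rw [ev_red u v hv]
      have h2 : ev u (‖v - π v‖⁻¹ • (v - π v)) = ‖v - π v‖⁻¹ ^ 2 * ev u (v - π v) :=
        hQ.hom _ (e u).2 _ _ (hproj v hv)
      rw [h2]
      field_simp
  have hCiff : ∀ u, u ∈ C ↔ ∀ v ∈ Sb, v ∉ Sa → 0 < ev u v := by
    intro u
    constructor
    · intro hu v hv hva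
      have hne : v - π v ≠ 0 := by
        intro h0
        rw [sub_eq_zero] at h0
        rw [h0] at hva
        exact hva (hπ1 v)
      obtain ⟨z, hz, h1⟩ := hsc u v hv hne
      rw [h1]
      have := norm_pos_iff.2 hne
      have := hu z hz
      positivity
    · intro hu z hz
      refine hu z z.2 fun hza => ?_
      have h1 := hπ2 _ hza
      rw [hz.1] at h1
      have h2 : ‖z‖ = 0 := by
        change ‖(z : E)‖ = 0
        rw [← h1, norm_zero]
      rw [hz.2] at h2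
      exact one_ne_zero h2
  have hCo : IsOpen C := by
    rw [isOpen_iff_mem_nhds]
    intro u hu
    have h1 : ∀ᶠ u' in 𝓝 u, ∀ z ∈ Z, 0 < ev u' (z : E) :=
      hZc.eventually_forall_of_forall_eventually fun z hz =>
        evc.continuousAt.eventually (lt_mem_nhds (hu z hz))
    exact h1
  have hCc : Convex ℝ C := by
    intro u hu u' hu' a b ha hb hab z hz
    rw [ev_add, ev_smul, ev_smul]
    have h1 := hu z hz
    have h2 := hu' z hz
    rcases ha.eq_or_lt with rfl | ha'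
    · have : b = 1 := by linarith
      subst this
      simpa using h2
    · have := mul_pos ha' h1
      have := mul_nonneg hb h2.le
      linarith
  have hCσ : ∀ γ, ∀ u ∈ C, σ γ u ∈ C := by
    intro γ u hu
    rw [hCiff] at hu ⊢
    intro v hv hva
    rw [evσ]
    refine hu _ (hSb _ v hv) fun h1 => hva ?_
    have := hSa γ _ h1
    rwa [lin_inv'] at this
  have hCs : ∀ t : ℝ, 0 < t → ∀ u ∈ C, t • u ∈ C := by
    intro t ht u hu z hz
    rw [ev_smul]
    exact mul_pos ht (hu z hz)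
  have hC0 : ∀ u ∈ C, u ≠ 0 := by
    rintro u hu rfl
    obtain ⟨v, hv, hva⟩ := SetLike.exists_of_lt hlt
    have h1 := (hCiff 0).1 hu v hv hva
    have h2 : ev 0 v = 0 := by
      have := ev_smul 0 (0 : U) v
      rwa [zero_smul, zero_mul] at this
    rw [h2] at h1
    exact lt_irrefl _ h1
  obtain ⟨f₀, hf₀, hf₀p⟩ := hQ.pos
  have hu₀ : e.symm ⟨f₀, hf₀⟩ ∈ C := by
    rw [hCiff]
    intro v hv hva
    change 0 < (e (e.symm ⟨f₀, hf₀⟩) : E → ℝ) v
    rw [LinearEquiv.apply_symm_apply]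
    exact hf₀p v hv hva
  obtain ⟨F, hF1, hF2, hF3⟩ := exists_lin_map h σ hσ hCc _ (fun γ => hCσ γ _ hu₀)
  have hnC : ∀ u ∈ C, nrm u ∈ C := fun u hu =>
    hCs _ (inv_pos.2 (norm_pos_iff.2 (hC0 u hu))) u hu
  have hncont : ContinuousOn (nrm : U → U) C :=
    nrm_smooth.continuousOn.mono fun u hu => hC0 u hu
  -- the bump function
  have hK1 : IsCompact ((fun x => nrm (F x)) '' K) :=
    hK.image_of_continuousOn (hncont.comp (hF1.continuousOn.mono hKΩ) fun x hx =>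
      hF2 x (hKΩ hx))
  have hK2 : (fun x => nrm (F x)) '' K ⊆ C := by
    rintro _ ⟨x, hx, rfl⟩
    exact hnC _ (hF2 x (hKΩ hx))
  obtain ⟨χ, K', hχ1, hK', hK'C, hχ2, hχ0, hχp⟩ := exists_bump hCo hK1 hK2
  refine ⟨F, fun γ x => χ (nrm (σ γ⁻¹ (F x))), ⟨?_, ?_, ?_, ?_⟩, hF1, fun x hx =>
    hC0 _ (hF2 x hx), ?_, ?_⟩
  · intro γ
    refine hχ1.comp_contDiffOn ?_
    refine (nrm_smooth (U := U)).comp ((σ γ⁻¹).contDiff.comp_contDiffOn hF1) fun x hx => ?_
    exact hC0 _ (hCσ _ _ (hF2 x hx))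
  · intro γ x hx
    exact hχ0 _
  · intro γ δ x hx
    rw [mul_inv_rev, hσ, hF3 γ x hx, hσi]
  · intro x hx
    rw [inv_one, hσ1]
    exact hχp _ ⟨x, hx, rfl⟩
  · intro x hx v c hv γ
    have hFd : DifferentiableAt ℝ F x :=
      (hF1.differentiableOn one_ne_zero).differentiableAt (h.isOpen.mem_nhds hx)
    have h1 := path_deriv hFd v
    have h2 : HasDerivAt (fun t : ℝ => σ γ⁻¹ (F (x + t • v))) (σ γ⁻¹ (fderiv ℝ F x v)) 0 :=
      (σ γ⁻¹).hasFDerivAt.comp_hasDerivAt (0 : ℝ) h1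
    rw [hv, map_smul] at h2
    have e0 : σ γ⁻¹ (F (x + (0 : ℝ) • v)) = σ γ⁻¹ (F x) := by rw [zero_smul, add_zero]
    have h3 := nrm_deriv (y := fun t : ℝ => σ γ⁻¹ (F (x + t • v))) (c := c)
      (by
        rw [e0]
        exact hC0 _ (hCσ _ _ (hF2 x hx)))
      (by
        rw [e0]
        exact h2)
    have h4 : HasDerivAt (fun t : ℝ => χ (nrm (σ γ⁻¹ (F (x + t • v))))) 0 0 := by
      have h5 : DifferentiableAt ℝ χ (nrm (σ γ⁻¹ (F (x + (0 : ℝ) • v)))) :=
        hχ1.differentiable one_ne_zero _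
      have h6 := h5.hasFDerivAt.comp_hasDerivAt (0 : ℝ) h3
      rw [map_zero] at h6
      exact h6
    have hgd : DifferentiableAt ℝ (fun x => χ (nrm (σ γ⁻¹ (F x)))) x := by
      have h7 : ContDiffOn ℝ 1 (fun x => χ (nrm (σ γ⁻¹ (F x)))) Ω := by
        refine hχ1.comp_contDiffOn ?_
        refine (nrm_smooth (U := U)).comp ((σ γ⁻¹).contDiff.comp_contDiffOn hF1) fun x hx => ?_
        exact hC0 _ (hCσ _ _ (hF2 x hx))
      exact (h7.differentiableOn one_ne_zero).differentiableAt (h.isOpen.mem_nhds hx)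
    exact (path_deriv hgd v).unique h4
  · intro K₁ hK₁ hK₁Ω
    have hA : IsCompact ((F '' K₁) ∪ K') :=
      (hK₁.image_of_continuousOn (hF1.continuousOn.mono hK₁Ω)).union hK'
    have hAC : (F '' K₁) ∪ K' ⊆ C := by
      refine Set.union_subset ?_ hK'C
      rintro _ ⟨x, hx, rfl⟩
      exact hF2 x (hK₁Ω hx)
    obtain ⟨m, M, hm, hM, hmM⟩ := cpt_bounds (hA.prod hZc) (f := fun p : U × Sb => ev p.1 (p.2 : E))
      evc.continuousOn fun p hp => hAC hp.1 p.2 hp.2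
    have low : ∀ u ∈ (F '' K₁) ∪ K', ∀ v ∈ Sb, m * ‖v - π v‖ ^ 2 ≤ ev u v := by
      intro u hu v hv
      by_cases hne : v - π v = 0
      · rw [hne, norm_zero]
        have h1 : ev u v = 0 := by
          rw [ev_red u v hv, hne]
          have := hQ.hom _ (e u).2 0 0 Sb.zero_mem
          rw [zero_smul] at this
          simpa using this
        rw [h1]
        simp
      · obtain ⟨z, hz, h1⟩ := hsc u v hv hne
        rw [h1, mul_comm]
        exact mul_le_mul_of_nonneg_left (hmM (u, z) ⟨hu, hz⟩).1 (by positivity)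
    have upp : ∀ u ∈ (F '' K₁) ∪ K', ∀ v ∈ Sb, ev u v ≤ M * ‖v - π v‖ ^ 2 := by
      intro u hu v hv
      by_cases hne : v - π v = 0
      · rw [hne, norm_zero]
        have h1 : ev u v = 0 := by
          rw [ev_red u v hv, hne]
          have := hQ.hom _ (e u).2 0 0 Sb.zero_mem
          rw [zero_smul] at this
          simpa using this
        rw [h1]
        simp
      · obtain ⟨z, hz, h1⟩ := hsc u v hv hne
        rw [h1, mul_comm]
        exact mul_le_mul_of_nonneg_right (hmM (u, z) ⟨hu, hz⟩).2 (by positivity)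
    set N : ℝ := 1 + ‖π‖ with hN
    have hN0 : 0 < N := by positivity
    have hvN : ∀ v, ‖v - π v‖ ≤ N * ‖v‖ := by
      intro v
      calc ‖v - π v‖ ≤ ‖v‖ + ‖π v‖ := norm_sub_le _ _
        _ ≤ ‖v‖ + ‖π‖ * ‖v‖ := by gcongr; exact π.le_opNorm v
        _ = N * ‖v‖ := by rw [hN]; ring
    set c : ℝ := Real.sqrt (M / m) * N with hc
    refine ⟨c, fun γ x hx hgx => ?_⟩
    have hu : F x ∈ (F '' K₁) ∪ K' := Or.inl ⟨x, hx, rfl⟩
    have hu' : nrm (σ γ⁻¹ (F x)) ∈ (F '' K₁) ∪ K' := Or.inr (hχ2 _ hgx)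
    have hw0 : 0 < ‖σ γ⁻¹ (F x)‖ := norm_pos_iff.2 (hC0 _ (hCσ _ _ (hF2 x (hK₁Ω hx))))
    set τ : ℝ := ‖σ γ⁻¹ (F x)‖⁻¹ with hτ
    have hτ0 : 0 < τ := inv_pos.2 hw0
    have key : ∀ v, ev (nrm (σ γ⁻¹ (F x))) v = τ * ev (F x) ((hol γ).linear v) := by
      intro v
      change ev (τ • σ γ⁻¹ (F x)) v = _
      rw [ev_smul, evσ, inv_inv]
    have hsq : ∀ a b t : ℝ, 0 ≤ a → 0 ≤ b → 0 < t → m * a ^ 2 ≤ t * (M * b ^ 2) →
        (Real.sqrt t)⁻¹ * a ≤ Real.sqrt (M / m) * b := by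
      intro a b t ha hb ht hab
      have h1 : ((Real.sqrt t)⁻¹ * a) ^ 2 ≤ (Real.sqrt (M / m) * b) ^ 2 := by
        rw [mul_pow, mul_pow, inv_pow, Real.sq_sqrt ht.le, Real.sq_sqrt (by positivity)]
        rw [inv_mul_le_iff₀ ht, ← mul_le_mul_iff_right₀ hm]
        calc m * a ^ 2 ≤ t * (M * b ^ 2) := hab
          _ = m * (t * (M / m * b ^ 2)) := by field_simp
      exact (sq_le_sq₀ (by positivity) (by positivity)).1 h1
    refine ⟨Real.sqrt τ, Real.sqrt_pos.2 hτ0, fun v hv => ⟨?_, ?_⟩⟩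
    · refine ⟨Real.sqrt τ • π ((hol γ).linear v), Sa.smul_mem _ (hπ1 _), ?_⟩
      rw [← smul_sub, norm_smul, Real.norm_of_nonneg (Real.sqrt_nonneg _)]
      have h1 := low _ hu _ (hSb γ v hv)
      have h2 := upp _ hu' v hv
      rw [key] at h2
      have h3 := hsq ‖(hol γ).linear v - π ((hol γ).linear v)‖ ‖v - π v‖ τ⁻¹ (norm_nonneg _)
        (norm_nonneg _) (inv_pos.2 hτ0) (by
          rw [← div_eq_inv_mul, le_div_iff₀ hτ0]
          calc _ = τ * (m * ‖(hol γ).linear v - π ((hol γ).linear v)‖ ^ 2) := by ring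
            _ ≤ τ * ev (F x) ((hol γ).linear v) := mul_le_mul_of_nonneg_left h1 hτ0.le
            _ ≤ _ := h2)
      rw [Real.sqrt_inv, inv_inv] at h3
      refine h3.trans ?_
      rw [hc, mul_assoc]
      exact mul_le_mul_of_nonneg_left (hvN v) (Real.sqrt_nonneg _)
    · refine ⟨(Real.sqrt τ)⁻¹ • π ((hol γ⁻¹).linear v), Sa.smul_mem _ (hπ1 _), ?_⟩
      rw [← smul_sub, norm_smul, Real.norm_of_nonneg (inv_nonneg.2 (Real.sqrt_nonneg _))]
      have h1 := low _ hu' _ (hSb γ⁻¹ v hv)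
      have h2 := upp _ hu v hv
      rw [key, lin_inv'] at h1
      have h3 := hsq ‖(hol γ⁻¹).linear v - π ((hol γ⁻¹).linear v)‖ ‖v - π v‖ τ (norm_nonneg _)
        (norm_nonneg _) hτ0 (h1.trans (mul_le_mul_of_nonneg_left h2 hτ0.le))
      refine h3.trans ?_
      rw [hc, mul_assoc]
      exact mul_le_mul_of_nonneg_left (hvN v) (Real.sqrt_nonneg _)

end

end Run7.h262.SV
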