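import Pool.Agent.Run7.h262.SV.Ana

/-!
Iterated subdivisions: the number and the size of the simplices.
-/

set_option autoImplicit false

open Finset Filter Topology

namespace Run7.h262.SV

variable {X E : Type} [NormedAddCommGroup E] [NormedSpace ℝ E]

/-- tuples in `K` whose consecutive differences are small -/
def Pd (D : X → E) (K : Set E) (δ : ℝ) {k : ℕ} (w : Fin (k + 1) → X) : Prop :=
  (∀ i, D (w i) ∈ K) ∧ ∀ i : Fin k, ‖D (w i.succ) - D (w i.castSucc)‖ ≤ δ

theorem sd_bound (D : X → E) (mid : X → X → X) (hmid : ∀ x y, D (mid x y) = midpoint ℝ (D x) (D y))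
    (hmm : ∀ x, mid x x = x) (K : Set E) (hK : Convex ℝ K) (δ : ℝ) (k : ℕ)
    (v : Fin (k + 1) → X) (hv : Pd D K δ v) (F : (Fin (k + 1) → X) → ℝ) (c : ℝ)
    (hF : ∀ w : Fin (k + 1) → X, w 0 = mid (v 0) (v (Fin.last k)) → Pd D K (δ / 2) w →
      |F w| ≤ c) : |pair F (sd mid (k + 1) (sg v))| ≤ 2 ^ k * c := by
  induction k with
  | zero =>
    change |pair F (sg v)| ≤ _
    rw [pair_sg, pow_zero, one_mul]
    refine hF v ?_ ⟨hv.1, fun i => i.elim0⟩
    exact (hmm _).symm
  | succ k ih =>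
    rw [sd_succ, pair_c, map_add, map_smul]
    set p := mid (v 0) (v (Fin.last (k + 1))) with hp
    have hpK : D p ∈ K := by
      rw [hp, hmid]
      exact hK.midpoint_mem (hv.1 _) (hv.1 _)
    have hcons : ∀ w : Fin (k + 1) → X, Pd D K (δ / 2) w → ‖D (w 0) - D p‖ ≤ δ / 2 →
        Pd D K (δ / 2) (Fin.cons p w : Fin (k + 2) → X) := by
      intro w hw h0
      refine ⟨fun i => ?_, fun i => ?_⟩
      · refine Fin.cases ?_ (fun i => ?_) i
        · exact hpK
        · exact hw.1 i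
      · refine Fin.cases ?_ (fun i => ?_) i
        · exact h0
        · exact hw.2 i
    have h1 := ih (Fin.tail v) ⟨fun i => hv.1 _, fun i => hv.2 i.succ⟩
      (fun τ => F (Fin.cons p τ : Fin (k + 2) → X)) (by
        intro w hw0 hw
        refine hF _ rfl (hcons w hw ?_)
        rw [hw0, hp, hmid, hmid]
        have e : midpoint ℝ (D (Fin.tail v 0)) (D (Fin.tail v (Fin.last k))) -
            midpoint ℝ (D (v 0)) (D (v (Fin.last (k + 1)))) =
            (2 : ℝ)⁻¹ • (D (v (Fin.succ 0)) - D (v (Fin.castSucc 0))) := by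
          have e1 : Fin.tail v (Fin.last k) = v (Fin.last (k + 1)) := rfl
          have e2 : Fin.tail v 0 = v (Fin.succ 0) := rfl
          rw [e1, e2, midpoint_eq_smul_add, midpoint_eq_smul_add, Fin.castSucc_zero, invOf_eq_inv]
          module
        rw [e, norm_smul, norm_inv, Real.norm_ofNat]
        have := hv.2 0
        linarith)
    have h2 := ih (Fin.init v) ⟨fun i => hv.1 _, fun i => hv.2 i.castSucc⟩
      (fun τ => F (Fin.cons p τ : Fin (k + 2) → X)) (by
        intro w hw0 hw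
        refine hF _ rfl (hcons w hw ?_)
        rw [hw0, hp, hmid, hmid]
        have e : midpoint ℝ (D (Fin.init v 0)) (D (Fin.init v (Fin.last k))) -
            midpoint ℝ (D (v 0)) (D (v (Fin.last (k + 1)))) =
            -((2 : ℝ)⁻¹ • (D (v (Fin.last k).succ) - D (v (Fin.last k).castSucc))) := by
          have e1 : Fin.init v (Fin.last k) = v (Fin.last k).castSucc := rfl
          have e2 : Fin.init v 0 = v 0 := rfl
          rw [e1, e2, midpoint_eq_smul_add, midpoint_eq_smul_add, Fin.succ_last, invOf_eq_inv]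
          module
        rw [e, norm_neg, norm_smul, norm_inv, Real.norm_ofNat]
        have := hv.2 (Fin.last k)
        linarith)
    have h3 : |(-1 : ℝ) ^ (k + 1) • pair (fun τ => F (Fin.cons p τ : Fin (k + 2) → X))
        (sd mid (k + 1) (sg (Fin.init v)))| =
        |pair (fun τ => F (Fin.cons p τ : Fin (k + 2) → X))
        (sd mid (k + 1) (sg (Fin.init v)))| := by
      rw [smul_eq_mul, abs_mul, abs_pow, abs_neg, abs_one, one_pow, one_mul]
    refine (abs_add_le _ _).trans ?_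
    rw [h3, pow_succ]
    linarith

/-- iterated subdivision -/
noncomputable def sdi (mid : X → X → X) (j k : ℕ) : (Tup X).Ch k →ₗ[ℝ] (Tup X).Ch k :=
  (sd mid k) ^ j

theorem sdi_zero (mid : X → X → X) (k : ℕ) : sdi mid 0 k = LinearMap.id := by
  rw [sdi, pow_zero]
  rfl

theorem sdi_succ (mid : X → X → X) (j k : ℕ) (x : (Tup X).Ch k) :
    sdi mid (j + 1) k x = sdi mid j k (sd mid k x) := by
  rw [sdi, pow_succ, Module.End.mul_apply]
  rfl

theorem d_sdi (mid : X → X → X) (j k : ℕ) (x : (Tup X).Ch (k + 1)) :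
    (Tup X).d k (sdi mid j (k + 1) x) = sdi mid j k ((Tup X).d k x) := by
  induction j generalizing x with
  | zero => rw [sdi_zero, sdi_zero]; rfl
  | succ j ih => rw [sdi_succ, sdi_succ, ih, d_sd]

theorem sdi_bound (D : X → E) (mid : X → X → X)
    (hmid : ∀ x y, D (mid x y) = midpoint ℝ (D x) (D y))
    (hmm : ∀ x, mid x x = x) (K : Set E) (hK : Convex ℝ K) (j : ℕ) (δ : ℝ) (k : ℕ)
    (v : Fin (k + 1) → X) (hv : Pd D K δ v) (F : (Fin (k + 1) → X) → ℝ) (c : ℝ)
    (hF : ∀ w : Fin (k + 1) → X, Pd D K (δ / 2 ^ j) w → |F w| ≤ c) :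
    |pair F (sdi mid j (k + 1) (sg v))| ≤ (2 ^ k) ^ j * c := by
  induction j generalizing δ v with
  | zero =>
    rw [sdi_zero, pow_zero, one_mul, LinearMap.id_apply, pair_sg]
    refine hF v ?_
    rwa [pow_zero, div_one]
  | succ j ih =>
    rw [sdi_succ]
    have h1 : ∀ y : (Tup X).Ch (k + 1), pair F (sdi mid j (k + 1) y) =
        pair (fun w => pair F (sdi mid j (k + 1) (sg w))) y := by
      intro y
      have : (pair F).comp (sdi mid j (k + 1)) =
          pair (fun w => pair F (sdi mid j (k + 1) (sg w))) := by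
        refine tup_ext fun t => ?_
        rw [LinearMap.comp_apply, pair_sg]
      exact LinearMap.congr_fun this y
    rw [h1, pow_succ, mul_comm _ ((2 : ℝ) ^ k), mul_assoc]
    refine sd_bound D mid hmid hmm K hK δ k v hv _ _ fun w _ hw => ?_
    refine ih (δ / 2) w hw fun w' hw' => hF w' ?_
    have e : δ / 2 / 2 ^ j = δ / 2 ^ (j + 1) := by
      rw [div_div, pow_succ, mul_comm]
    rwa [e] at hw'

theorem final_zero (D : X → E) (mid : X → X → X)
    (hmid : ∀ x y, D (mid x y) = midpoint ℝ (D x) (D y))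
    (hmm : ∀ x, mid x x = x) (K : Set E) (hK : Convex ℝ K) (N : ℕ) (x : (Tup X).Ch (N + 1))
    (hx : ∀ v : Fin (N + 1) → X, v ∈ x.support → ∀ i, D (v i) ∈ K) (F : (Fin (N + 1) → X) → ℝ)
    (hF : ∀ ε : ℝ, 0 < ε → ∃ δ₀ > 0, ∀ δ : ℝ, 0 < δ → δ ≤ δ₀ → ∀ w : Fin (N + 1) → X,
      Pd D K δ w → |F w| ≤ ε * δ ^ N)
    (r : ℝ) (hr : ∀ j, pair F (sdi mid j (N + 1) x) = r) : r = 0 := by
  classical
  set δ : ℝ := 1 + ∑ v ∈ x.support, ∑ i : Fin N,
    ‖D ((v : Fin (N + 1) → X) i.succ) - D ((v : Fin (N + 1) → X) i.castSucc)‖ with hδ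
  have hδ0 : 0 < δ := by positivity
  have hpd : ∀ v : Fin (N + 1) → X, v ∈ x.support → Pd D K δ v := by
    intro v hv
    refine ⟨hx v hv, fun i => ?_⟩
    have h1 : ‖D (v i.succ) - D (v i.castSucc)‖ ≤
        ∑ i : Fin N, ‖D (v i.succ) - D (v i.castSucc)‖ :=
      Finset.single_le_sum (f := fun i : Fin N => ‖D (v i.succ) - D (v i.castSucc)‖)
        (fun i _ => norm_nonneg _) (Finset.mem_univ i)
    have h2 : ∑ i : Fin N, ‖D (v i.succ) - D (v i.castSucc)‖ ≤ ∑ v ∈ x.support, ∑ i : Fin N,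
        ‖D ((v : Fin (N + 1) → X) i.succ) - D ((v : Fin (N + 1) → X) i.castSucc)‖ :=
      Finset.single_le_sum (f := fun v : Fin (N + 1) → X =>
        ∑ i : Fin N, ‖D (v i.succ) - D (v i.castSucc)‖)
        (fun v _ => Finset.sum_nonneg fun i _ => norm_nonneg _) hv
    linarith
  set A : ℝ := ∑ v ∈ x.support, |x v| with hA
  have hA0 : 0 ≤ A := Finset.sum_nonneg fun v _ => abs_nonneg _
  have key : ∀ ε : ℝ, 0 < ε → |r| ≤ A * (ε * δ ^ N) := by
    intro ε hε
    obtain ⟨δ₀, hδ₀, h1⟩ := hF ε hε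
    obtain ⟨j, hj⟩ : ∃ j : ℕ, δ / 2 ^ j ≤ δ₀ := by
      obtain ⟨j, hj⟩ := pow_unbounded_of_one_lt (δ / δ₀) (one_lt_two : (1 : ℝ) < 2)
      refine ⟨j, ?_⟩
      rw [div_le_iff₀ (by positivity)]
      rw [div_lt_iff₀ hδ₀] at hj
      linarith
    have h2 : ∀ v : Fin (N + 1) → X, v ∈ x.support →
        |pair F (sdi mid j (N + 1) (sg v))| ≤ ε * δ ^ N := by
      intro v hv
      refine (sdi_bound D mid hmid hmm K hK j δ N v (hpd v hv) F (ε * (δ / 2 ^ j) ^ N)
        (h1 _ (by positivity) hj)).trans (le_of_eq ?_)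
      rw [div_pow, ← pow_mul, ← pow_mul, mul_comm N j]
      field_simp
    have h3 : pair F (sdi mid j (N + 1) x) =
        ∑ v ∈ x.support, x v * pair F (sdi mid j (N + 1) (sg v)) := by
      have e : x = ∑ v ∈ x.support, x v • (sg v : (Tup X).Ch (N + 1)) := by
        conv_lhs => rw [← Finsupp.sum_single x]
        refine Finset.sum_congr rfl fun v _ => ?_
        rw [sg, Finsupp.smul_single, smul_eq_mul, mul_one]
      conv_lhs => rw [e]
      rw [map_sum, map_sum]
      refine Finset.sum_congr rfl fun v _ => ?_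
      rw [map_smul, map_smul, smul_eq_mul]
    rw [← hr j, h3, hA, Finset.sum_mul]
    refine (Finset.abs_sum_le_sum_abs _ _).trans (Finset.sum_le_sum fun v hv => ?_)
    rw [abs_mul]
    exact mul_le_mul_of_nonneg_left (h2 v hv) (abs_nonneg _)
  by_contra hr0
  have hr1 : 0 < |r| := abs_pos.2 hr0
  have h4 := key (|r| / (2 * (A + 1) * δ ^ N)) (by positivity)
  have h5 : A * (|r| / (2 * (A + 1) * δ ^ N) * δ ^ N) = A * |r| / (2 * (A + 1)) := by
    field_simp
  rw [h5, le_div_iff₀ (by positivity)] at h4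
  nlinarith

end Run7.h262.SV
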