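import Pool.Agent.Run7.h262.SV.Dim

/-!
The dimension criterion for proper actions on cones.
-/

set_option autoImplicit false

open Filter Topology

namespace Run7.h262.SV

section
variable {Γ E : Type} [Group Γ] [NormedAddCommGroup E] [NormedSpace ℝ E] [FiniteDimensional ℝ E]
  {hol : Γ →* (E ≃ᵃ[ℝ] E)} {Ω : Set E}

theorem rep_factor (h : AffDom Γ E hol Ω) {K : Set E} (hK : IsCompact K) (hKΩ : K ⊆ Ω)
    {U : Type} [NormedAddCommGroup U] [NormedSpace ℝ U] [FiniteDimensional ℝ U]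
    (σ : Γ → U →L[ℝ] U) (hσ : ∀ γ δ u, σ (γ * δ) u = σ γ (σ δ u)) (hσ1 : ∀ u, σ 1 u = u)
    {C : Set U} (hCo : IsOpen C) (hCc : Convex ℝ C) (hCn : C.Nonempty) (hC0 : (0 : U) ∉ C)
    (hCs : ∀ t : ℝ, 0 < t → ∀ u ∈ C, t • u ∈ C) (hCσ : ∀ γ, ∀ u ∈ C, σ γ u ∈ C) :
    ∃ (F : E → U) (g : Γ → E → ℝ),
      Factor hol Ω K g ∧ ContDiffOn ℝ 1 F Ω ∧ (∀ x ∈ Ω, F x ≠ 0) ∧
      (∀ x ∈ Ω, ∀ v, ∀ c : ℝ, fderiv ℝ F x v = c • F x → ∀ γ, fderiv ℝ (g γ) x v = 0) ∧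
      ∀ K₁ : Set E, IsCompact K₁ → K₁ ⊆ Ω → ∃ A : Set U, IsCompact A ∧ A ⊆ C ∧
        ∀ γ, ∀ x ∈ K₁, g γ x ≠ 0 → ∃ u ∈ A, ∃ t : ℝ, 0 < t ∧ t • σ γ⁻¹ u ∈ A := by
  classical
  have hσi : ∀ γ u, σ γ⁻¹ (σ γ u) = u := by
    intro γ u
    rw [← hσ, inv_mul_cancel, hσ1]
  have hC0' : ∀ u ∈ C, u ≠ 0 := by
    rintro u hu rfl
    exact hC0 hu
  obtain ⟨u₀, hu₀⟩ := hCn
  obtain ⟨F, hF1, hF2, hF3⟩ := exists_lin_map h σ hσ hCc u₀ (fun γ => hCσ γ _ hu₀)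
  let T := toEuclidean (E := U)
  have hT0 : ∀ u ∈ C, T u ≠ 0 := by
    intro u hu h0
    exact hC0' u hu (T.injective (h0.trans (map_zero T).symm))
  let ν : U → U := fun u => T.symm (nrm (T u))
  have hν : ∀ u, ν u = ‖T u‖⁻¹ • u := by
    intro u
    simp only [ν, nrm]
    rw [map_smul, ContinuousLinearEquiv.symm_apply_apply]
  have hνC : ∀ u ∈ C, ν u ∈ C := by
    intro u hu
    rw [hν]
    exact hCs _ (inv_pos.2 (norm_pos_iff.2 (hT0 u hu))) u hu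
  have hνs : ContDiffOn ℝ 1 ν C := by
    refine T.symm.contDiff.comp_contDiffOn ?_
    refine (nrm_smooth (U := EuclideanSpace ℝ (Fin (Module.finrank ℝ U)))).comp
      T.contDiff.contDiffOn fun u hu => ?_
    exact hT0 u hu
  -- the bump function
  have hK1 : IsCompact ((fun x => ν (F x)) '' K) :=
    hK.image_of_continuousOn (hνs.continuousOn.comp (hF1.continuousOn.mono hKΩ) fun x hx =>
      hF2 x (hKΩ hx))
  have hK2 : (fun x => ν (F x)) '' K ⊆ C := by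
    rintro _ ⟨x, hx, rfl⟩
    exact hνC _ (hF2 x (hKΩ hx))
  obtain ⟨χ, K', hχ1, hK', hK'C, hχ2, hχ0, hχp⟩ := exists_bump hCo hK1 hK2
  have hgs : ∀ γ, ContDiffOn ℝ 1 (fun x => χ (ν (σ γ⁻¹ (F x)))) Ω := by
    intro γ
    refine hχ1.comp_contDiffOn ?_
    exact hνs.comp ((σ γ⁻¹).contDiff.comp_contDiffOn hF1) fun x hx => hCσ _ _ (hF2 x hx)
  refine ⟨F, fun γ x => χ (ν (σ γ⁻¹ (F x))), ⟨hgs, ?_, ?_, ?_⟩, hF1, fun x hx =>
    hC0' _ (hF2 x hx), ?_, ?_⟩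
  · intro γ x hx
    exact hχ0 _
  · intro γ δ x hx
    rw [mul_inv_rev, hσ, hF3 γ x hx, hσi]
  · intro x hx
    rw [inv_one, hσ1]
    exact hχp _ ⟨x, hx, rfl⟩
  · intro x hx v c hv γ
    have hFd : DifferentiableAt ℝ F x :=
      (hF1.differentiableOn one_ne_zero).differentiableAt (h.isOpen.mem_nhds hx)
    have h1 := path_deriv hFd v
    have h2 : HasDerivAt (fun t : ℝ => σ γ⁻¹ (F (x + t • v))) (σ γ⁻¹ (fderiv ℝ F x v)) 0 :=
      (σ γ⁻¹).hasFDerivAt.comp_hasDerivAt (0 : ℝ) h1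
    have h2' : HasDerivAt (fun t : ℝ => T (σ γ⁻¹ (F (x + t • v))))
        (T (σ γ⁻¹ (fderiv ℝ F x v))) 0 :=
      T.toContinuousLinearMap.hasFDerivAt.comp_hasDerivAt (0 : ℝ) h2
    rw [hv, map_smul, map_smul] at h2'
    have e0 : σ γ⁻¹ (F (x + (0 : ℝ) • v)) = σ γ⁻¹ (F x) := by rw [zero_smul, add_zero]
    have h3 := nrm_deriv (y := fun t : ℝ => T (σ γ⁻¹ (F (x + t • v)))) (c := c)
      (by
        rw [e0]
        exact hT0 _ (hCσ _ _ (hF2 x hx)))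
      (by
        rw [e0]
        exact h2')
    have h3' : HasDerivAt (fun t : ℝ => ν (σ γ⁻¹ (F (x + t • v)))) 0 0 := by
      have h5 := T.symm.toContinuousLinearMap.hasFDerivAt.comp_hasDerivAt (0 : ℝ) h3
      rw [map_zero] at h5
      exact h5
    have h4 : HasDerivAt (fun t : ℝ => χ (ν (σ γ⁻¹ (F (x + t • v))))) 0 0 := by
      have h5 : DifferentiableAt ℝ χ (ν (σ γ⁻¹ (F (x + (0 : ℝ) • v)))) :=
        hχ1.differentiable one_ne_zero _
      have h6 := h5.hasFDerivAt.comp_hasDerivAt (0 : ℝ) h3'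
      rw [map_zero] at h6
      exact h6
    have hgd : DifferentiableAt ℝ (fun x => χ (ν (σ γ⁻¹ (F x)))) x :=
      ((hgs γ).differentiableOn one_ne_zero).differentiableAt (h.isOpen.mem_nhds hx)
    exact (path_deriv hgd v).unique h4
  · intro K₁ hK₁ hK₁Ω
    refine ⟨(F '' K₁) ∪ K', (hK₁.image_of_continuousOn (hF1.continuousOn.mono hK₁Ω)).union hK',
      ?_, fun γ x hx hg => ?_⟩
    · refine Set.union_subset ?_ hK'C
      rintro _ ⟨x, hx, rfl⟩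
      exact hF2 x (hK₁Ω hx)
    · refine ⟨F x, Or.inl ⟨x, hx, rfl⟩, ‖T (σ γ⁻¹ (F x))‖⁻¹, inv_pos.2 (norm_pos_iff.2
        (hT0 _ (hCσ _ _ (hF2 x (hK₁Ω hx))))), Or.inr ?_⟩
      have h1 := hχ2 _ hg
      rwa [hν] at h1

/-- a vector in the kernel -/
theorem exists_kernel' {p : ℕ} {U : Fin p → Type} [∀ j, NormedAddCommGroup (U j)]
    [∀ j, NormedSpace ℝ (U j)] [∀ j, FiniteDimensional ℝ (U j)] (N : Submodule ℝ E)
    (hN : ∑ j, Module.finrank ℝ (U j) < Module.finrank ℝ N + p)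
    (F' : ∀ j : Fin p, E →L[ℝ] U j) (y : ∀ j : Fin p, U j) (hy : ∀ j, y j ≠ 0) :
    ∃ v ∈ N, v ≠ 0 ∧ ∀ j, ∃ c : ℝ, F' j v = c • y j := by
  let Φ : (N × (Fin p → ℝ)) →ₗ[ℝ] (∀ j : Fin p, U j) :=
    LinearMap.pi fun j =>
      ((F' j : E →ₗ[ℝ] U j) ∘ₗ N.subtype ∘ₗ LinearMap.fst ℝ N _) -
        (((LinearMap.proj j : (Fin p → ℝ) →ₗ[ℝ] ℝ) ∘ₗ LinearMap.snd ℝ N _).smulRight (y j))
  have hΦ : ∀ (z : N × (Fin p → ℝ)) j, Φ z j = F' j (z.1 : E) - z.2 j • y j := fun z j => rfl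
  have h1 : Module.finrank ℝ (∀ j : Fin p, U j) < Module.finrank ℝ (N × (Fin p → ℝ)) := by
    rw [Module.finrank_pi_fintype, Module.finrank_prod, Module.finrank_fin_fun]
    exact hN
  have h2 := LinearMap.ker_ne_bot_of_finrank_lt (f := Φ) h1
  obtain ⟨z, hz, hz0⟩ := (Submodule.ne_bot_iff _).1 h2
  rw [LinearMap.mem_ker] at hz
  have h3 : ∀ j, F' j (z.1 : E) = z.2 j • y j := by
    intro j
    have := hΦ z j
    rw [hz] at this
    exact sub_eq_zero.1 this.symm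
  refine ⟨z.1, z.1.2, ?_, fun j => ⟨z.2 j, h3 j⟩⟩
  intro h0
  apply hz0
  refine Prod.ext (Subtype.ext h0) (funext fun j => ?_)
  have h4 := h3 j
  rw [h0, map_zero] at h4
  exact (smul_eq_zero.1 h4.symm).resolve_right (hy j)

theorem BddBlock.inv {Sa Sb : Submodule ℝ E} {c : ℝ} {γ : Γ}
    (h : BddBlock hol Sa Sb c γ⁻¹) : BddBlock hol Sa Sb c γ := by
  obtain ⟨s, hs, h1⟩ := h
  refine ⟨s⁻¹, inv_pos.2 hs, fun v hv => ?_⟩
  have h2 := h1 v hv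
  rw [inv_inv] at h2 ⊢
  exact ⟨h2.2, h2.1⟩

/-- invariant cones -/
structure ICone {U : Type} [NormedAddCommGroup U] [NormedSpace ℝ U]
    (σ : Γ →* (U ≃ₗ[ℝ] U)) (C : Set U) : Prop where
  isOpen : IsOpen C
  convex : Convex ℝ C
  nonempty : C.Nonempty
  zero : (0 : U) ∉ C
  smul : ∀ t : ℝ, 0 < t → ∀ u ∈ C, t • u ∈ C
  inv : ∀ γ, ∀ u ∈ C, σ γ u ∈ C

end

section
variable {X Γ E : Type} [TopologicalSpace X] [Group Γ] [MulAction Γ X]
    [NormedAddCommGroup E] [NormedSpace ℝ E] [FiniteDimensional ℝ E] {D : X → E}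
    {hol : Γ →* (E ≃ᵃ[ℝ] E)}

open Pool.Agent.N520.SV

theorem CvxData.of_topc [Nonempty X] (h : CvxData X Γ E D hol) {K : Set E} (hKc : IsCompact K)
    (hKD : K ⊆ Set.range D) (hK : ∀ x ∈ Set.range D, ∃ γ : Γ, hol γ x ∈ K)
    (S : ℕ → Submodule ℝ E) (r : ℕ) (h0 : S 0 = ⊥) (hr : S r = lines (Set.range D))
    (hm : ∀ i < r, S i ≤ S (i + 1))
    (hinv : ∀ i ≤ r, ∀ γ : Γ, ∀ v ∈ S i, (hol γ).linear v ∈ S i)
    {p : ℕ} {U : Fin p → Type} [∀ j, NormedAddCommGroup (U j)]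
    [∀ j, NormedSpace ℝ (U j)] [∀ j, FiniteDimensional ℝ (U j)]
    (σ : ∀ j, Γ →* (U j ≃ₗ[ℝ] U j)) (C : ∀ j, Set (U j)) (hC : ∀ j, ICone (σ j) (C j))
    (hP : ∀ A : ∀ j, Set (U j), (∀ j, IsCompact (A j)) → (∀ j, A j ⊆ C j) → ∃ c : ℝ, ∀ γ : Γ,
      (∀ j, ∃ u ∈ A j, ∃ t : ℝ, 0 < t ∧ t • σ j γ u ∈ A j) →
        ∀ i < r, BddBlock hol (S i) (S (i + 1)) c γ)
    (gt : Γ → E → ℝ) (hgt : Factor hol (Set.range D) K gt)
    (hgk : ∀ x ∈ Set.range D, ∃ N : Submodule ℝ E,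
      ∑ j, Module.finrank ℝ (U j) < Module.finrank ℝ N + p ∧
        ∀ v ∈ N, ∀ γ, fderiv ℝ (gt γ) x v = 0)
    (hgb : ∀ K₁ : Set E, IsCompact K₁ → K₁ ⊆ Set.range D → ∃ c : ℝ, ∀ γ, ∀ x ∈ K₁, gt γ x ≠ 0 →
      BddBlock hol (lines (Set.range D)) ⊤ c γ)
    (k : ℕ) (hk : Module.finrank ℝ E ≤ k + 1) :
    Negligible k (MulAction.orbitRel.Quotient Γ X) := by
  classical
  have hd := h.affDom
  let S' : ℕ → Submodule ℝ E := fun i => if i ≤ r then S i else ⊤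
  have hS' : ∀ i ≤ r, S' i = S i := fun i hi => if_pos hi
  have hS'' : S' (r + 1) = ⊤ := if_neg (by omega)
  have h0' : S' 0 = ⊥ := by rw [hS' 0 (Nat.zero_le r), h0]
  have hm' : ∀ i < r + 1, S' i ≤ S' (i + 1) := by
    intro i hi
    by_cases hir : i < r
    · rw [hS' i hir.le, hS' (i + 1) hir]
      exact hm i hir
    · have : i = r := by omega
      subst this
      rw [hS'']
      exact le_top
  have hinv' : ∀ i ≤ r + 1, ∀ γ : Γ, ∀ v ∈ S' i, (hol γ).linear v ∈ S' i := by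
    intro i hi γ v hv
    by_cases hir : i ≤ r
    · rw [hS' i hir] at hv ⊢
      exact hinv i hir γ v hv
    · have : i = r + 1 := by omega
      subst this
      rw [hS'']
      trivial
  by_cases hsm : SmallBlocks hol S' (r + 1)
  · exact h.of_small_blocks S' (r + 1) h0' hS'' hm' hinv' hsm k hk
  have hsm' : ∃ δ > 0, ∀ γ : Γ, (∃ s : ℕ → ℝ, (∀ i, s i ≠ 0) ∧
      ∀ i < r + 1, ∀ v ∈ S' (i + 1), ∃ w ∈ S' i, ‖s i • linH hol γ v - v - w‖ ≤ δ * ‖v‖) →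
        γ = 1 := by
    unfold SmallBlocks at hsm
    push Not at hsm
    obtain ⟨δ, hδ, h1⟩ := hsm
    refine ⟨δ, hδ, fun γ hγ => ?_⟩
    by_contra hne
    obtain ⟨s, hs, h2⟩ := hγ
    obtain ⟨i, hi, v, hv, h3⟩ := h1 γ hne s hs
    obtain ⟨w, hw, h4⟩ := h2 i hi v hv
    exact absurd h4 (not_le.2 (h3 w hw))
  have hbl := fun j : Fin p => rep_factor hd hKc hKD
    (fun γ => LinearMap.toContinuousLinearMap ((σ j γ : U j ≃ₗ[ℝ] U j) : U j →ₗ[ℝ] U j))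
    (fun γ δ u => by
      change σ j (γ * δ) u = σ j γ (σ j δ u)
      rw [map_mul]
      rfl)
    (fun u => by
      change σ j 1 u = u
      rw [map_one]
      rfl) (hC j).isOpen (hC j).convex (hC j).nonempty (hC j).zero (hC j).smul (hC j).inv
  choose F g hg hF hF0 hker hbd using hbl
  let g' : ℕ → Γ → E → ℝ := fun i => if hi : i < p then g ⟨i, hi⟩ else gt
  have hg'1 : ∀ i (hi : i < p), g' i = g ⟨i, hi⟩ := fun i hi => dif_pos hi
  have hg'2 : g' p = gt := dif_neg (lt_irrefl p)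
  refine h.of_factors K hK hKD (p + 1) g' ?_ ?_ ?_ k hk
  · intro i hi
    by_cases hir : i < p
    · rw [hg'1 i hir]
      exact hg _
    · have : i = p := by omega
      subst this
      rw [hg'2]
      exact hgt
  · intro K₁ hK₁ hK₁D
    choose A hA1 hA2 hA3 using fun j : Fin p => hbd j K₁ hK₁ hK₁D
    obtain ⟨c, hc⟩ := hP A hA1 hA2
    obtain ⟨ct, hct⟩ := hgb K₁ hK₁ hK₁D
    refine (bdd_finite (linH hol) h0' hS'' hm' hinv' hsm' (max c ct)).subset ?_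
    rintro γ ⟨x, hx, hγ⟩
    have hγ1 : ∀ i < r, BddBlock hol (S i) (S (i + 1)) c γ := by
      intro i hi
      refine BddBlock.inv (hc γ⁻¹ (fun j => ?_) i hi)
      have h2 := hγ j (by omega)
      rw [hg'1 j j.2] at h2
      exact hA3 j γ x hx h2
    have hγ2 : BddBlock hol (lines (Set.range D)) ⊤ ct γ := by
      have h2 := hγ p (by omega)
      rw [hg'2] at h2
      exact hct γ x hx h2
    have h1 : ∀ i, ∃ s : ℝ, i < r + 1 → 0 < s ∧ ∀ v ∈ S' (i + 1),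
        (∃ w ∈ S' i, ‖s • linH hol γ v - w‖ ≤ max c ct * ‖v‖) ∧
          ∃ w ∈ S' i, ‖s⁻¹ • linH hol γ⁻¹ v - w‖ ≤ max c ct * ‖v‖ := by
      intro i
      by_cases hi : i < r + 1
      · by_cases hir : i < r
        · obtain ⟨s, hs, h3⟩ := (hγ1 i hir).mono (le_max_left c ct)
          refine ⟨s, fun _ => ⟨hs, ?_⟩⟩
          rw [hS' i hir.le, hS' (i + 1) hir]
          exact h3
        · have hi' : i = r := by omega
          subst hi'
          obtain ⟨s, hs, h3⟩ := hγ2.mono (le_max_right c ct)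
          refine ⟨s, fun _ => ⟨hs, ?_⟩⟩
          rw [hS' i le_rfl, hS'', hr]
          exact h3
      · exact ⟨1, fun h2 => absurd h2 hi⟩
    choose s hs using h1
    exact ⟨s, fun i hi => (hs i hi).1, fun i hi => (hs i hi).2⟩
  · intro x hx
    obtain ⟨N, hN, hNt⟩ := hgk x hx
    obtain ⟨v, hvN, hv0, hv⟩ := exists_kernel' N hN (fun j => fderiv ℝ (F j) x) (fun j => F j x)
      fun j => hF0 j x hx
    refine ⟨v, hv0, fun i hi γ => ?_⟩
    by_cases hir : i < p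
    · rw [hg'1 i hir]
      obtain ⟨c, hc⟩ := hv ⟨i, hir⟩
      exact hker ⟨i, hir⟩ x hx v c hc γ
    · have hi' : i = p := by omega
      subst hi'
      rw [hg'2]
      exact hNt v hvN γ

theorem CvxData.of_cones [Nonempty X] (h : CvxData X Γ E D hol)
    (S : ℕ → Submodule ℝ E) (r : ℕ) (h0 : S 0 = ⊥) (hr : S r = lines (Set.range D))
    (hm : ∀ i < r, S i ≤ S (i + 1))
    (hinv : ∀ i ≤ r, ∀ γ : Γ, ∀ v ∈ S i, (hol γ).linear v ∈ S i)
    {p : ℕ} {U : Fin p → Type} [∀ j, NormedAddCommGroup (U j)]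
    [∀ j, NormedSpace ℝ (U j)] [∀ j, FiniteDimensional ℝ (U j)]
    (σ : ∀ j, Γ →* (U j ≃ₗ[ℝ] U j)) (C : ∀ j, Set (U j)) (hC : ∀ j, ICone (σ j) (C j))
    (hP : ∀ A : ∀ j, Set (U j), (∀ j, IsCompact (A j)) → (∀ j, A j ⊆ C j) → ∃ c : ℝ, ∀ γ : Γ,
      (∀ j, ∃ u ∈ A j, ∃ t : ℝ, 0 < t ∧ t • σ j γ u ∈ A j) →
        ∀ i < r, BddBlock hol (S i) (S (i + 1)) c γ)
    (hdim : ∑ j, Module.finrank ℝ (U j) < Module.finrank ℝ (lines (Set.range D)) + p ∨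
      (∃ o, o ∉ Set.range D ∧ ∀ x ∈ Set.range D, ∀ t : ℝ, 0 < t → o + t • (x - o) ∈ Set.range D) ∧
        ∑ j, Module.finrank ℝ (U j) ≤ Module.finrank ℝ (lines (Set.range D)) + p)
    (k : ℕ) (hk : Module.finrank ℝ E ≤ k + 1) :
    Negligible k (MulAction.orbitRel.Quotient Γ X) := by
  have hd := h.affDom
  obtain ⟨K, hKc, hKD, hK⟩ := hd.cc
  rcases hdim with hdim | ⟨⟨o, ho, hcone⟩, hdim⟩
  · obtain ⟨gt, hgt, hgk, hgb⟩ := top_factor hd hKc hKD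
    exact h.of_topc hKc hKD hK S r h0 hr hm hinv σ C hC hP gt hgt
      (fun x hx => ⟨_, hdim, fun v hv γ => hgk x hx v hv γ⟩) hgb k hk
  · obtain ⟨gt, hgt, hgk, hgb⟩ := cone_factor hd hKc hKD ho hcone
    refine h.of_topc hKc hKD hK S r h0 hr hm hinv σ C hC hP gt hgt (fun x hx => ?_) hgb k hk
    refine ⟨lines (Set.range D) ⊔ Submodule.span ℝ {x - o}, ?_, ?_⟩
    · have h1 : lines (Set.range D) < lines (Set.range D) ⊔ Submodule.span ℝ {x - o} := by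
        refine lt_of_le_of_ne le_sup_left fun h2 => ?_
        have h3 : x - o ∈ lines (Set.range D) := by
          rw [h2]
          exact Submodule.mem_sup_right (Submodule.mem_span_singleton_self _)
        have h4 := add_lines hd.isOpen hd.convex hx ((lines (Set.range D)).neg_mem h3)
        rw [neg_sub, add_sub_cancel] at h4
        exact ho h4
      have h2 := Submodule.finrank_lt_finrank_of_lt h1
      omega
    · intro v hv γ
      obtain ⟨w, hw, u, hu, rfl⟩ := Submodule.mem_sup.1 hv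
      obtain ⟨c, rfl⟩ := Submodule.mem_span_singleton.1 hu
      refine hgk x hx _ c ?_ γ
      rw [add_sub_cancel_right]
      exact hw

end

end Run7.h262.SV
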