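import Pool.Agent.Run7.h262.SV.Cnt

/-!
Comparison of the cocycle on tuples with its average.
-/

set_option autoImplicit false

open Finset Filter Topology

namespace Run7.h262.SV

theorem push_push {X Y Z : Type} (f : Y → Z) (g : X → Y) (k : ℕ) (x : (Tup X).Ch k) :
    push f k (push g k x) = push (fun a => f (g a)) k x := by
  have : (push f k).comp (push g k) = push (fun a => f (g a)) k := by
    refine tup_ext fun s => ?_
    rw [LinearMap.comp_apply, push_sg, push_sg, push_sg]
  exact LinearMap.congr_fun this x

theorem push_c {X Y : Type} (f : X → Y) (p : X) (k : ℕ) (x : (Tup X).Ch k) :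
    push f (k + 1) ((tupCone X).c p k x) = (tupCone Y).c (f p) k (push f k x) := by
  have : (push f (k + 1)).comp ((tupCone X).c p k) = ((tupCone Y).c (f p) k).comp (push f k) := by
    refine tup_ext fun s => ?_
    rw [LinearMap.comp_apply, LinearMap.comp_apply, tup_c, push_sg, push_sg, tup_c]
    congr 1
    funext i
    refine Fin.cases ?_ (fun i => ?_) i
    · rfl
    · rfl
  exact LinearMap.congr_fun this x

theorem push_sd {X : Type} (mid : X → X → X) (e : X → X)
    (he : ∀ x y, mid (e x) (e y) = e (mid x y)) (k : ℕ) (x : (Tup X).Ch k) :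
    sd mid k (push e k x) = push e k (sd mid k x) := by
  induction k with
  | zero => rfl
  | succ k ih =>
    cases k with
    | zero => rfl
    | succ k =>
      have : (sd mid (k + 2)).comp (push e (k + 2)) = (push e (k + 2)).comp (sd mid (k + 2)) := by
        refine tup_ext fun s => ?_
        rw [LinearMap.comp_apply, LinearMap.comp_apply, push_sg, sd_succ, sd_succ, push_c, he]
        simp only [map_add, map_smul]
        rw [← ih, ← ih, push_sg, push_sg]
        rfl
      exact LinearMap.congr_fun this x

theorem push_sdi {X : Type} (mid : X → X → X) (e : X → X)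
    (he : ∀ x y, mid (e x) (e y) = e (mid x y)) (j k : ℕ) (x : (Tup X).Ch k) :
    sdi mid j k (push e k x) = push e k (sdi mid j k x) := by
  induction j generalizing x with
  | zero => rw [sdi_zero]; rfl
  | succ j ih => rw [sdi_succ, sdi_succ, push_sd mid e he, ih]

theorem push_alt {X Y : Type} (e : X → Y) (k : ℕ) (x : (Tup X).Ch k) :
    alt k (push e k x) = push e k (alt k x) := by
  induction k with
  | zero => rfl
  | succ k ih =>
    have : (alt (k + 1)).comp (push e (k + 1)) = (push e (k + 1)).comp (alt (k + 1)) := by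
      refine tup_ext fun s => ?_
      rw [LinearMap.comp_apply, LinearMap.comp_apply, push_sg, alt_succ, alt_succ, map_sum]
      refine Finset.sum_congr rfl fun j _ => ?_
      rw [map_smul, push_c, ← ih, push_sg]
      rfl
    exact LinearMap.congr_fun this x

theorem push_altn {X Y : Type} (e : X → Y) (k : ℕ) (x : (Tup X).Ch k) :
    altn k (push e k x) = push e k (altn k x) := by
  rw [altn, altn, LinearMap.smul_apply, LinearMap.smul_apply, push_alt, map_smul]

theorem pair_push {X Y : Type} (e : X → Y) (k : ℕ) (F : (Fin k → Y) → ℝ) (x : (Tup X).Ch k) :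
    pair F (push e k x) = pair (fun τ => F (fun i => e (τ i))) x := by
  have : (pair F).comp (push e k) = pair (fun τ => F (fun i => e (τ i))) := by
    refine tup_ext fun s => ?_
    rw [LinearMap.comp_apply, push_sg, pair_sg, pair_sg]
  exact LinearMap.congr_fun this x

/-- the normalized functionals -/
abbrev NW (S : Type) : Type := {v : VV S // v (fun _ => 1) = 1}

theorem tuple_core {X S Γ : Type} (mid : X → X → X) (aX : Γ → X → X) (aS : Γ → S → S)
    (hmid : ∀ γ x y, mid (aX γ x) (aX γ y) = aX γ (mid x y)) (k : ℕ)
    (g : (Fin (k + 2) → S) → ℝ)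
    (hg : ∀ τ : Fin (k + 3) → S, ∑ i : Fin (k + 3), (-1 : ℝ) ^ (i : ℕ) * g (i.removeNth τ) = 0)
    (hgi : ∀ γ τ, g (fun i => aS γ (τ i)) = g τ) (κ : X → S)
    (hκ : ∀ γ x, κ (aX γ x) = aS γ (κ x)) (m : X → VV S) (hm1 : ∀ x, m x (fun _ => 1) = 1)
    (hm : ∀ γ x, m (aX γ x) = (m x).comp (LinearMap.funLeft ℝ ℝ (aS γ)))
    (x : (Tup X).Ch (k + 2))
    (hx : Null (fun γ (τ : Fin (k + 1) → X) i => aX γ (τ i)) ((Tup X).d (k + 1) x)) (j : ℕ) :
    pair (fun τ : Fin (k + 2) → X => (((k + 2).factorial : ℝ)⁻¹) *
      altG (k + 2) (it (k + 2) g) (fun i => m (τ i))) (sdi mid j (k + 2) x) =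
    pair (fun τ => g fun i => κ (τ i)) x := by
  let W := NW S
  let mW : X → W := fun x => ⟨m x, hm1 x⟩
  let κW : X → W := fun x => ⟨LinearMap.proj (κ x), rfl⟩
  let aW : Γ → W → W := fun γ v => ⟨v.1.comp (LinearMap.funLeft ℝ ℝ (aS γ)), v.2⟩
  have haW1 : ∀ γ x, mW (aX γ x) = aW γ (mW x) := fun γ x => Subtype.ext (hm γ x)
  have haW2 : ∀ γ x, κW (aX γ x) = aW γ (κW x) := fun γ x => Subtype.ext (by
    change (LinearMap.proj (κ (aX γ x)) : VV S) = _
    rw [hκ]
    rfl)
  let F : (Tup W).Ch (k + 2) →ₗ[ℝ] ℝ :=
    pair (fun τ : Fin (k + 2) → W => it (k + 2) g (fun i => (τ i).1))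
  have key := compare (tupCone W) (Γ := Γ) (S := Tup X) (T := Tup W)
    (fun k (s : Fin (k + 1) → X) => mW (s 0))
    (fun k => push κW k)
    (fun k => (push mW k).comp ((altn k).comp (sdi mid j k)))
    (fun k x => d_push κW k x)
    (fun k x => by
      simp only [LinearMap.comp_apply]
      rw [d_push, d_altn, d_sdi])
    (by
      refine tup_ext fun s => ?_
      simp only [LinearMap.comp_apply]
      have h1 : sdi mid j 0 (sg s) = sg s := by
        clear hx
        induction j with
        | zero => rw [sdi_zero]; rfl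
        | succ j ih => rw [sdi_succ]; exact ih
      have h2 : altn 0 (sg s) = sg s := by
        rw [altn, Nat.factorial_zero, Nat.cast_one, inv_one, one_smul]
        rfl
      rw [h1, h2, push_sg, push_sg]
      congr 1
      exact Subsingleton.elim _ _)
    (fun γ k (τ : Fin k → X) i => aX γ (τ i)) (fun γ k (τ : Fin k → W) i => aW γ (τ i)) aW
    (fun γ k i s => rfl)
    (fun γ p k s => by
      funext i
      refine Fin.cases ?_ (fun i => ?_) i
      · rfl
      · rfl)
    (fun γ k s => haW1 γ _)
    (fun γ k s => by
      change push κW k (sg _) = push (aW γ) k (push κW k (sg s))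
      rw [push_sg, push_sg, push_sg]
      congr 1
      funext i
      exact haW2 γ _)
    (fun γ k s => by
      change push mW k (altn k (sdi mid j k (sg _))) =
        push (aW γ) k (push mW k (altn k (sdi mid j k (sg s))))
      have h1 : sg (fun i => aX γ (s i)) = push (aX γ) k (sg s) := (push_sg _ _ _).symm
      rw [h1, push_sdi mid _ (hmid γ), push_altn, push_push, push_push]
      congr 2
      funext x
      exact haW1 γ x)
    k F
    (by
      intro y
      have : F.comp ((Tup W).d (k + 2)) = 0 := by
        refine tup_ext fun s => ?_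
        rw [LinearMap.comp_apply, tup_d, map_sum, LinearMap.zero_apply]
        simp only [map_smul, smul_eq_mul]
        refine (Finset.sum_congr rfl fun i _ => ?_).trans
          (it_cocycle (k + 2) g hg (fun i => (s i).1) fun i => (s i).2)
        congr 1
        change pair _ (sg _) = _
        rw [pair_sg]
        rfl
      exact LinearMap.congr_fun this y)
    (by
      intro γ s
      change pair _ (sg _) = pair _ (sg _)
      rw [pair_sg, pair_sg]
      change it (k + 2) g (fun i => (s i).1.comp (LinearMap.funLeft ℝ ℝ (aS γ))) = _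
      rw [it_comp]
      have e : (fun τ => g (aS γ ∘ τ)) = g := funext fun τ => hgi γ τ
      rw [e])
    x hx
  have e1 : F (push κW (k + 2) x) = pair (fun τ => g fun i => κ (τ i)) x := by
    change pair _ _ = _
    rw [pair_push]
    exact congrArg (fun h => pair h x) (funext fun τ => it_proj (k + 2) g fun i => κ (τ i))
  have e2 : F (((push mW (k + 2)).comp ((altn (k + 2)).comp (sdi mid j (k + 2)))) x) =
      pair (fun τ : Fin (k + 2) → X => (((k + 2).factorial : ℝ)⁻¹) *
        altG (k + 2) (it (k + 2) g) (fun i => m (τ i))) (sdi mid j (k + 2) x) := by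
    simp only [LinearMap.comp_apply]
    change pair _ _ = _
    rw [pair_push]
    have : ∀ y : (Tup X).Ch (k + 2), pair (fun τ : Fin (k + 2) → X =>
        it (k + 2) g (fun i => (mW (τ i)).1)) (altn (k + 2) y) =
        pair (fun τ : Fin (k + 2) → X => (((k + 2).factorial : ℝ)⁻¹) *
          altG (k + 2) (it (k + 2) g) (fun i => m (τ i))) y := by
      intro y
      have : (pair (fun τ : Fin (k + 2) → X => it (k + 2) g (fun i => (mW (τ i)).1))).comp
          (altn (k + 2)) = pair (fun τ : Fin (k + 2) → X => (((k + 2).factorial : ℝ)⁻¹) *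
          altG (k + 2) (it (k + 2) g) (fun i => m (τ i))) := by
        refine tup_ext fun s => ?_
        rw [LinearMap.comp_apply, altn, LinearMap.smul_apply, map_smul, pair_sg, smul_eq_mul]
        congr 1
        exact altG_apply m (k + 2) (it (k + 2) g) s
      exact LinearMap.congr_fun this y
    exact this _
  rw [← e1, ← e2]
  exact key

end Run7.h262.SV
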