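import Pool.Agent.Run7.h262.SV.Core1

/-!
Vanishing of invariant cocycles on cycles, for equivariant maps of small rank.
-/

set_option autoImplicit false

open Finset Filter Topology

namespace Run7.h262.SV

/-- equivariant families of weights of small rank on the open set `U` -/
structure Weights (Γ X S E : Type) [Group Γ] [MulAction Γ X] [MulAction Γ S]
    [NormedAddCommGroup E] [NormedSpace ℝ E] (D : X → E) (U : Set E) (l : S → E → ℝ) : Prop where
  smooth : ∀ s, ContDiffOn ℝ 1 (l s) U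
  fin : ∀ K : Set E, IsCompact K → K ⊆ U → {s | ∃ x ∈ K, l s x ≠ 0}.Finite
  one : ∀ x ∈ U, ∑ᶠ s, l s x = 1
  equi : ∀ (γ : Γ) s x, l (γ • s) (D (γ • x)) = l s (D x)
  rank : ∀ x ∈ U, ∃ v : E, v ≠ 0 ∧ ∀ s, fderiv ℝ (l s) x v = 0

section
variable {Γ X S E : Type} [Group Γ] [MulAction Γ X] [MulAction Γ S]
    [NormedAddCommGroup E] [NormedSpace ℝ E] {D : X → E} {U : Set E} {l : S → E → ℝ}

theorem Weights.fin1 (h : Weights Γ X S E D U l) {x : E} (hx : x ∈ U) :
    {s | l s x ≠ 0}.Finite := by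
  refine (h.fin {x} isCompact_singleton (by simpa using hx)).subset fun s hs => ?_
  exact ⟨x, rfl, hs⟩

/-- the functional of a family of weights -/
noncomputable def wt (l : S → E → ℝ) (x : E) : VV S :=
  open Classical in
  if h : {s | l s x ≠ 0}.Finite then ∑ s ∈ h.toFinset, l s x • (LinearMap.proj s : VV S) else 0

theorem wt_eq (x : E) (T : Finset S) (hT : ∀ s, l s x ≠ 0 → s ∈ T) :
    wt l x = ∑ s ∈ T, l s x • (LinearMap.proj s : VV S) := by
  have h : {s | l s x ≠ 0}.Finite := T.finite_toSet.subset fun s hs => hT s hs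
  rw [wt, dif_pos h]
  refine Finset.sum_subset (fun s hs => hT s (by simpa using hs)) fun s _ hs => ?_
  have : l s x = 0 := by
    by_contra h0
    exact hs (by simpa using h0)
  rw [this, zero_smul]

theorem wt_apply (x : E) (hx : {s | l s x ≠ 0}.Finite) (u : S → ℝ) :
    wt l x u = ∑ᶠ s, l s x * u s := by
  rw [wt_eq x hx.toFinset (fun s hs => by simpa using hs), LinearMap.sum_apply,
    finsum_eq_sum_of_support_subset (s := hx.toFinset)]
  · rfl
  · intro s hs
    rw [Function.mem_support] at hs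
    simpa using left_ne_zero_of_mul hs

theorem tuple_zero [FiniteDimensional ℝ E] (hU : IsOpen U) (hUc : Convex ℝ U)
    (hDU : ∀ x, D x ∈ U) (mid : X → X → X)
    (hmid : ∀ x y, D (mid x y) = midpoint ℝ (D x) (D y)) (hmm : ∀ x, mid x x = x)
    (hmidγ : ∀ (γ : Γ) x y, mid (γ • x) (γ • y) = γ • (mid x y))
    (h : Weights Γ X S E D U l) (k : ℕ) (hk : Module.finrank ℝ E ≤ k + 1)
    (g : (Fin (k + 2) → S) → ℝ)
    (hg : ∀ τ : Fin (k + 3) → S, ∑ i : Fin (k + 3), (-1 : ℝ) ^ (i : ℕ) * g (i.removeNth τ) = 0)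
    (hgi : ∀ (γ : Γ) τ, g (fun i => γ • (τ i)) = g τ) (κ : X → S)
    (hκ : ∀ (γ : Γ) x, κ (γ • x) = γ • (κ x))
    (x : (Tup X).Ch (k + 2))
    (hx : Null (fun (γ : Γ) (τ : Fin (k + 1) → X) i => γ • (τ i)) ((Tup X).d (k + 1) x)) :
    pair (fun τ => g fun i => κ (τ i)) x = 0 := by
  classical
  set c : ℝ := ((k + 2).factorial : ℝ)⁻¹ with hc
  have hcore := fun j => tuple_core mid (fun (γ : Γ) x => γ • x) (fun (γ : Γ) (s : S) => γ • s) hmidγ
    k g hg hgi κ hκ (fun x => wt l (D x)) (by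
      intro x
      rw [wt_apply _ (h.fin1 (hDU x))]
      simp only [mul_one]
      exact h.one _ (hDU x)) (by
      intro γ x
      refine LinearMap.ext fun u => ?_
      rw [LinearMap.comp_apply, wt_apply _ (h.fin1 (hDU _)), wt_apply _ (h.fin1 (hDU _)),
        ← finsum_comp_equiv (MulAction.toPerm γ)]
      refine finsum_congr fun s => ?_
      rw [MulAction.toPerm_apply, h.equi]
      rfl) x hx j
  -- the compact set of the vertices
  set V : Set E := {y | ∃ v ∈ x.support, ∃ i, y = D ((v : Fin (k + 2) → X) i)} with hV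
  have hVf : V.Finite := by
    have : V = ⋃ v ∈ x.support, Set.range (fun i => D ((v : Fin (k + 2) → X) i)) := by
      ext y
      simp only [hV, Set.mem_setOf_eq, Set.mem_iUnion, Set.mem_range]
      constructor
      · rintro ⟨v, hv, i, rfl⟩
        exact ⟨v, hv, i, rfl⟩
      · rintro ⟨v, hv, i, rfl⟩
        exact ⟨v, hv, i, rfl⟩
    rw [this]
    exact Set.Finite.biUnion x.support.finite_toSet fun v _ => Set.finite_range _
  set K : Set E := convexHull ℝ V with hK
  have hKc : IsCompact K := hVf.isCompact_convexHull ℝ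
  have hKU : K ⊆ U := convexHull_min (by rintro _ ⟨v, _, i, rfl⟩; exact hDU _) hUc
  have hKf := h.fin K hKc hKU
  let T := hKf.toFinset
  let Λ : E → (T → ℝ) := fun y s => l s.1 y
  have hΛ : ContDiffOn ℝ 1 Λ U := contDiffOn_pi.2 fun s => h.smooth s.1
  let L : (T → ℝ) →ₗ[ℝ] VV S :=
    { toFun := fun u => ∑ s : T, u s • (LinearMap.proj s.1 : VV S)
      map_add' := fun u u' => by
        rw [← Finset.sum_add_distrib]
        exact Finset.sum_congr rfl fun s _ => add_smul _ _ _
      map_smul' := fun a u => by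
        rw [RingHom.id_apply, Finset.smul_sum]
        exact Finset.sum_congr rfl fun s _ => mul_smul _ _ _ }
  have hL : ∀ y ∈ K, wt l y = L (Λ y) := by
    intro y hy
    rw [wt_eq y T fun s hs => by
      rw [Set.Finite.mem_toFinset]
      exact ⟨y, hy, hs⟩]
    exact (Finset.sum_coe_sort T fun s => l s y • (LinearMap.proj s : VV S)).symm
  let B : (T → ℝ) [⋀^Fin (k + 2)]→ₗ[ℝ] ℝ :=
    c • (altG (k + 2) (it (k + 2) g)).compLinearMap L
  refine final_zero D mid hmid hmm K (convex_convexHull ℝ V) (k + 1) x ?_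
    (fun τ : Fin (k + 2) → X => c * altG (k + 2) (it (k + 2) g) (fun i => wt l (D (τ i)))) ?_ _ hcore
  · intro v hv i
    exact subset_convexHull ℝ V ⟨v, hv, i, rfl⟩
  · intro ε hε
    obtain ⟨δ₀, hδ₀, h1⟩ := small_simplex U hU Λ hΛ (by
      intro y hy
      obtain ⟨v, hv0, hv⟩ := h.rank y hy
      refine ⟨v, hv0, ?_⟩
      have hd : ∀ s : T, DifferentiableAt ℝ (fun y => l s.1 y) y := fun s =>
        ((h.smooth s.1).differentiableOn one_ne_zero).differentiableAt (hU.mem_nhds hy)
      rw [fderiv_pi hd]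
      funext s
      exact hv s.1) (k + 1) hk B K hKc (convex_convexHull ℝ V) hKU ε hε
    refine ⟨δ₀, hδ₀, fun δ hδ hδ0 w hw => ?_⟩
    have h2 := h1 δ hδ hδ0 (fun i => D (w i)) hw.1 hw.2
    refine le_trans (le_of_eq ?_) h2
    congr 1
    change _ = c * altG (k + 2) (it (k + 2) g) (fun i => L (Λ (D (w i))))
    congr 2
    funext i
    exact hL _ (hw.1 i)

end

end Run7.h262.SV
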