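import Pool.Agent.Run7.h262.SV.Sing
import Pool.Agent.N340.SV.HB
import Pool.Agent.N278.SV.Lift

/-!
The criterion for the vanishing of the seminorm.
-/

set_option autoImplicit false

open Finset Filter Topology

namespace Run7.h262.SV

open Pool.Agent.N520.SV

/-- the action on functionals and cosets -/
noncomputable def ev {Γ S : Type} (μ : S → VV Γ) : Γ ⊕ S → VV Γ :=
  Sum.elim (fun γ => LinearMap.proj γ) μ

theorem ev_nice {Γ S : Type} (μ : S → VV Γ) (h : ∀ s, Nice (μ s)) (p : Γ ⊕ S) :
    Nice (ev μ p) := by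
  cases p with
  | inl γ => exact fun u C hu => hu γ
  | inr s => exact h s

theorem ev_one {Γ S : Type} (μ : S → VV Γ) (h : ∀ s, μ s (fun _ => 1) = 1) (p : Γ ⊕ S) :
    ev μ p (fun _ => 1) = 1 := by
  cases p with
  | inl γ => rfl
  | inr s => exact h s

/-- the action on the disjoint union -/
instance actSum {Γ S : Type} [Group Γ] [MulAction Γ S] : MulAction Γ (Γ ⊕ S) where
  smul γ p := Sum.map (fun x => γ * x) (fun s => γ • s) p
  one_smul p := by
    cases p with
    | inl x => exact congrArg Sum.inl (one_mul x)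
    | inr s => exact congrArg Sum.inr (one_smul Γ s)
  mul_smul γ δ p := by
    cases p with
    | inl x => exact congrArg Sum.inl (mul_assoc γ δ x)
    | inr s => exact congrArg Sum.inr (mul_smul γ δ s)

theorem smul_inl {Γ S : Type} [Group Γ] [MulAction Γ S] (γ x : Γ) :
    γ • (Sum.inl x : Γ ⊕ S) = Sum.inl (γ * x) := rfl

theorem smul_inr {Γ S : Type} [Group Γ] [MulAction Γ S] (γ : Γ) (s : S) :
    γ • (Sum.inr s : Γ ⊕ S) = Sum.inr (γ • s) := rfl

theorem kappa_exists {Γ X : Type} [Group Γ] [MulAction Γ X]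
    (hfree : ∀ (γ : Γ) (x : X), γ • x = x → γ = 1) :
    ∃ κ : X → Γ, ∀ (γ : Γ) x, κ (γ • x) = γ * κ x := by
  classical
  let r : X → X := fun x => (Quotient.out (Quotient.mk (MulAction.orbitRel Γ X) x))
  have hr : ∀ x, ∃ γ : Γ, γ • r x = x := by
    intro x
    have h1 : (MulAction.orbitRel Γ X) (r x) x := Quotient.mk_out (s := MulAction.orbitRel Γ X) x
    obtain ⟨γ, hγ⟩ := (MulAction.orbitRel Γ X).symm h1
    exact ⟨γ, hγ⟩
  choose κ hκ using hr
  refine ⟨κ, fun γ x => ?_⟩
  have h1 : r (γ • x) = r x := by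
    have : (Quotient.mk (MulAction.orbitRel Γ X) (γ • x)) = Quotient.mk (MulAction.orbitRel Γ X) x :=
      Quotient.sound (MulAction.orbitRel_apply.2 ⟨γ, rfl⟩)
    simp only [r]
    rw [this]
  have h2 : κ (γ • x) • r x = (γ * κ x) • r x := by
    rw [← h1, hκ, h1, mul_smul, hκ]
  have h3 : ((γ * κ x)⁻¹ * κ (γ • x)) • r x = r x := by
    rw [mul_smul, h2, inv_smul_smul]
  have h4 := hfree _ _ h3
  rw [inv_mul_eq_one] at h4
  exact h4.symm

/-- pairing of functions and singular chains -/
noncomputable def pairs {X : Type} [TopologicalSpace X] {k : ℕ}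
    (h : C(stdSimplex ℝ (Fin k), X) → ℝ) : (Sing X).Ch k →ₗ[ℝ] ℝ :=
  Finsupp.linearCombination ℝ h

theorem pairs_ss {X : Type} [TopologicalSpace X] {k : ℕ}
    (h : C(stdSimplex ℝ (Fin k), X) → ℝ) (s : C(stdSimplex ℝ (Fin k), X)) :
    pairs h (ss s) = h s := by
  rw [pairs, ss, Finsupp.linearCombination_single, one_smul]

theorem lmap_ss {X : Type} [TopologicalSpace X] {k : ℕ} (f : (Sing X).B k → (Sing X).B k)
    (s : (Sing X).B k) : Finsupp.lmapDomain ℝ ℝ f (ss s : (Sing X).Ch k) = ss (f s) := by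
  rw [ss, Finsupp.lmapDomain_apply, Finsupp.mapDomain_single]
  rfl

/-- lifts of chains -/
noncomputable def liftc {X M : Type} [TopologicalSpace X] [TopologicalSpace M] {k : ℕ}
    (L : C(Sx k, M) → C(Sx k, X)) : Chain k M →ₗ[ℝ] (Sing X).Ch (k + 1) :=
  Finsupp.lmapDomain ℝ ℝ L

theorem liftc_single {X M : Type} [TopologicalSpace X] [TopologicalSpace M] {k : ℕ}
    (L : C(Sx k, M) → C(Sx k, X)) (σ : C(Sx k, M)) : liftc L (Finsupp.single σ 1) = ss (L σ) := by
  rw [liftc, Finsupp.lmapDomain_apply, Finsupp.mapDomain_single]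
  rfl

theorem bdry_single {M : Type} [TopologicalSpace M] {k : ℕ} (σ : C(Sx (k + 1), M)) :
    bdry k (Finsupp.single σ 1) =
      ∑ i : Fin (k + 2), (-1 : ℝ) ^ (i : ℕ) • Finsupp.single (σ.comp (face i)) (1 : ℝ) := by
  unfold bdry
  rw [Finsupp.linearCombination_single, one_smul]

theorem core {X Γ E S : Type} [NormedAddCommGroup E] [NormedSpace ℝ E]
    [FiniteDimensional ℝ E] [TopologicalSpace X] [T2Space X] [LocallyCompactSpace X] [Nonempty X]
    [Group Γ] [MulAction Γ X] [MulAction Γ S] (D : X → E) (hol : Γ →* (E ≃ᵃ[ℝ] E))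
    (hcont : ∀ γ : Γ, Continuous fun x : X => γ • x)
    (hpd : ∀ K : Set X, IsCompact K → {γ : Γ | ∃ x ∈ K, γ • x ∈ K}.Finite)
    (hfree : ∀ (γ : Γ) (x : X), γ • x = x → γ = 1)
    (hD : IsOpenEmbedding D) (hc : Convex ℝ (Set.range D))
    (hequi : ∀ (γ : Γ) (x : X), D (γ • x) = hol γ (D x)) (k : ℕ)
    (hk : Module.finrank ℝ E ≤ k + 1) (l : S → E → ℝ) (hw : Weights Γ X S E D (Set.range D) l)
    (μ : S → VV Γ) (hμ1 : ∀ s, μ s (fun _ => 1) = 1) (hμn : ∀ s, Nice (μ s))
    (hμe : ∀ (γ : Γ) s (u : Γ → ℝ) (C : ℝ), (∀ x, |u x| ≤ C) →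
      μ (γ • s) u = μ s (fun x => u (γ * x))) :
    Negligible k (MulAction.orbitRel.Quotient Γ X) := by
  classical
  refine Pool.Agent.N340.SV.HB.t_hb _ _ fun φ hφb hφ => ?_
  obtain ⟨Cφ, hCφ⟩ := hφb
  -- it is enough that the cocycle vanishes on the cycles
  suffices hcyc : ∀ z : Chain (k + 1) (MulAction.orbitRel.Quotient Γ X), bdry k z = 0 →
      Finsupp.linearCombination ℝ φ z = 0 by
    have h1 : (Finsupp.linearCombination ℝ φ : Chain (k + 1) (MulAction.orbitRel.Quotient Γ X) →ₗ[ℝ] ℝ) ∈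
        (LinearMap.ker (bdry (M := MulAction.orbitRel.Quotient Γ X) k)).dualAnnihilator := by
      rw [Submodule.mem_dualAnnihilator]
      exact fun z hz => hcyc z hz
    rw [← LinearMap.range_dualMap_eq_dualAnnihilator_ker] at h1
    obtain ⟨ψ, hψ⟩ := h1
    refine ⟨fun σ => ψ (Finsupp.single σ 1), fun σ => ?_⟩
    have h2 := LinearMap.congr_fun hψ (Finsupp.single σ 1)
    rw [Finsupp.linearCombination_single, one_smul, LinearMap.dualMap_apply] at h2
    rw [← h2, bdry_single, map_sum]
    refine Finset.sum_congr rfl fun i _ => ?_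
    rw [map_smul, smul_eq_mul]
  intro z hz
  -- the projection
  obtain ⟨qc, hqc⟩ : ∃ qc : C(X, MulAction.orbitRel.Quotient Γ X), ∀ x, qc x = Quotient.mk'' x :=
    ⟨⟨fun x => Quotient.mk'' x, continuous_quot_mk⟩, fun _ => rfl⟩
  have hq : ∀ (γ : Γ) (x : X), qc (γ • x) = qc x := fun γ x => by
    rw [hqc, hqc]
    exact Quotient.sound' (MulAction.orbitRel_apply.2 ⟨γ, rfl⟩)
  have hlift := fun k σ => Pool.Agent.N278.SV.t_lift X Γ hcont hpd hfree k σ
  choose lf hlf using fun (k : ℕ) (σ : C(Sx k, MulAction.orbitRel.Quotient Γ X)) => (hlift k σ).1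
  have hlf' : ∀ k σ, qc.comp (lf k σ) = σ := fun k σ => by
    ext p
    rw [ContinuousMap.comp_apply, hqc]
    exact hlf k σ p
  -- the action on simplices
  let ac : Γ → (k : ℕ) → C(stdSimplex ℝ (Fin k), X) → C(stdSimplex ℝ (Fin k), X) :=
    fun γ k s => (⟨fun x => γ • x, hcont γ⟩ : C(X, X)).comp s
  have hqac : ∀ γ k s, qc.comp (ac γ k s) = qc.comp s := fun γ k s => by
    ext p
    exact hq γ _
  -- functions which are invariant come from the quotient
  have hinv : ∀ (h : C(Sx k, X) → ℝ), (∀ γ s, h (ac γ (k + 1) s) = h s) → ∀ s,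
      h s = h (lf k (qc.comp s)) := by
    intro h hh s
    obtain ⟨γ, hγ⟩ := (hlift k (qc.comp s)).2 (lf k (qc.comp s)) s (hlf k _) (fun p => by
      rw [← hqc]
      rfl)
    have : s = ac γ (k + 1) (lf k (qc.comp s)) := by
      ext p
      exact hγ p
    conv_lhs => rw [this]
    exact hh γ _
  -- the lifted chain
  let z' : (Sing X).Ch (k + 2) := liftc (lf (k + 1)) z
  let F : (Sing X).Ch (k + 2) →ₗ[ℝ] ℝ :=
    pairs (fun s : C(stdSimplex ℝ (Fin (k + 2)), X) => φ (qc.comp s))
  have hFss : ∀ s : C(stdSimplex ℝ (Fin (k + 2)), X), F (ss s) = φ (qc.comp s) := fun s =>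
    pairs_ss _ s
  have hFz : F z' = Finsupp.linearCombination ℝ φ z := by
    have : F.comp (liftc (lf (k + 1))) = Finsupp.linearCombination ℝ φ := by
      refine ch_ext fun σ => ?_
      rw [LinearMap.comp_apply, liftc_single, hFss, Finsupp.linearCombination_single, one_smul,
        hlf']
    exact LinearMap.congr_fun this z
  rw [← hFz]
  have hnull : Null (fun γ => ac γ (k + 1)) ((Sing X).d (k + 1) z') := by
    intro h hh
    change pairs h ((Sing X).d (k + 1) z') = 0
    have h1 : (pairs h).comp (((Sing X).d (k + 1)).comp (liftc (lf (k + 1)))) =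
        (Finsupp.linearCombination ℝ fun σ => h (lf k σ)).comp (bdry k) := by
      refine ch_ext fun σ => ?_
      rw [LinearMap.comp_apply, LinearMap.comp_apply, LinearMap.comp_apply, liftc_single,
        bdry_single, sing_d, map_sum, map_sum]
      refine Finset.sum_congr rfl fun i _ => ?_
      rw [map_smul, map_smul, Finsupp.linearCombination_single, pairs_ss, one_smul]
      congr 1
      refine (hinv h hh _).trans ?_
      congr 2
      rw [← ContinuousMap.comp_assoc, hlf']
      rfl
    have h2 := LinearMap.congr_fun h1 z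
    rw [LinearMap.comp_apply, LinearMap.comp_apply, LinearMap.comp_apply, hz, map_zero] at h2
    exact h2
  obtain ⟨κ, hκ⟩ := kappa_exists hfree
  obtain ⟨x₀⟩ : Nonempty X := inferInstance
  have hke : ∀ (γ : Γ) x, κ (γ • x) • x₀ = γ • (κ x • x₀) := fun γ x => by
    rw [hκ, mul_smul]
  -- the first comparison
  have step1 := compare (singCone D hD hc) (Γ := Γ) (S := Sing X) (T := Sing X)
    (fun k (s : C(stdSimplex ℝ (Fin (k + 1)), X)) => s (stdSimplex.vertex 0))
    (fun k => LinearMap.id)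
    (fun k => (smap D hD hc k).comp ((push (fun x => κ x • x₀) k).comp (vmap k)))
    (fun k x => rfl)
    (fun k x => by
      simp only [LinearMap.comp_apply]
      rw [d_smap, d_push, d_vmap])
    (by
      refine sing_ext fun s => ?_
      simp only [LinearMap.comp_apply, LinearMap.id_apply]
      rw [vmap_ss, push_sg, smap_sg]
      congr 1
      refine ContinuousMap.ext fun q => ?_
      exfalso
      have := stdSimplex.sum_eq_one q
      simp at this)
    ac ac (fun γ x => γ • x)
    (fun γ k i s => rfl)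
    (fun γ p k s => xcn_equi D hD hc _ (hcont γ) (hol γ) (hequi γ) p k s)
    (fun γ k s => rfl)
    (fun γ k s => by
      exact (lmap_ss (ac γ k) s).symm)
    (fun γ k s => by
      change smap D hD hc k (push (fun x => κ x • x₀) k (vmap k (ss (ac γ k s)))) =
        Finsupp.lmapDomain ℝ ℝ (ac γ k) (smap D hD hc k (push (fun x => κ x • x₀) k
          (vmap k (ss s))))
      rw [vmap_ss, vmap_ss, push_sg, push_sg, smap_sg, smap_sg]
      refine Eq.trans ?_ (lmap_ss (ac γ k) _).symm
      congr 1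
      have h1 : (fun i => κ (verts k (ac γ k s) i) • x₀) =
          fun i => γ • (κ (verts k s i) • x₀) := by
        funext i
        exact hke γ _
      rw [h1]
      exact strt_equi D hD hc _ (hcont γ) (hol γ) (hequi γ) k _)
    k F
    (by
      intro y
      have : F.comp ((Sing X).d (k + 2)) = 0 := by
        refine sing_ext fun s => ?_
        rw [LinearMap.comp_apply, sing_d, map_sum, LinearMap.zero_apply]
        refine (Finset.sum_congr rfl fun i _ => ?_).trans (hφ (qc.comp s))
        rw [map_smul, hFss, smul_eq_mul]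
        rfl
      exact LinearMap.congr_fun this y)
    (by
      intro γ s
      change F (ss _) = F (ss _)
      rw [hFss, hFss, hqac])
    z' hnull
  rw [LinearMap.id_apply] at step1
  rw [← step1]
  -- the cocycle on the group
  let f : (Fin (k + 2) → Γ) → ℝ := fun τ => φ (qc.comp (strt D hD hc (k + 2) fun i => τ i • x₀))
  have hfb : ∀ τ, |f τ| ≤ Cφ := fun τ => hCφ _
  have hfi : ∀ (γ : Γ) τ, f (fun i => γ * τ i) = f τ := by
    intro γ τ
    change φ _ = φ _
    congr 1
    have h1 : (fun i => (γ * τ i) • x₀) = fun i => γ • (τ i • x₀) := by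
      funext i
      rw [mul_smul]
    rw [h1, strt_equi D hD hc _ (hcont γ) (hol γ) (hequi γ)]
    exact hqac γ _ _
  have hfc : ∀ τ : Fin (k + 3) → Γ,
      ∑ i : Fin (k + 3), (-1 : ℝ) ^ (i : ℕ) * f (i.removeNth τ) = 0 := by
    intro τ
    refine (Finset.sum_congr rfl fun i _ => ?_).trans
      (hφ (qc.comp (strt D hD hc (k + 3) fun i => τ i • x₀)))
    congr 1
    change φ _ = φ _
    congr 1
    rw [ContinuousMap.comp_assoc]
    congr 1
    exact (strt_del D hD hc (k + 2) (fun i => τ i • x₀) i).symm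
  -- the cocycle on the disjoint union
  let g : (Fin (k + 2) → Γ ⊕ S) → ℝ := fun τ => it (k + 2) f (fun i => ev μ (τ i))
  have hgc : ∀ τ : Fin (k + 3) → Γ ⊕ S,
      ∑ i : Fin (k + 3), (-1 : ℝ) ^ (i : ℕ) * g (i.removeNth τ) = 0 := fun τ =>
    it_cocycle (k + 2) f hfc (fun i => ev μ (τ i)) fun i => ev_one μ hμ1 _
  have hgi : ∀ (γ : Γ) (τ : Fin (k + 2) → Γ ⊕ S), g (fun i => γ • τ i) = g τ := by
    intro γ τ
    have h1 : it (k + 2) f (fun i => ev μ (γ • τ i)) =
        it (k + 2) f (fun i => (ev μ (τ i)).comp (LinearMap.funLeft ℝ ℝ fun x => γ * x)) := by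
      refine it_congr (k + 2) f Cφ hfb _ _ (fun i => ev_nice μ hμn _) (fun i u C hu => ?_) ?_
      · exact ev_nice μ hμn _ _ _ fun x => hu _
      · intro i u C hu
        rw [LinearMap.comp_apply]
        cases h2 : τ i with
        | inl x => rfl
        | inr s =>
          rw [smul_inr]
          exact hμe γ s u C hu
    change it (k + 2) f (fun i => ev μ (γ • τ i)) = it (k + 2) f (fun i => ev μ (τ i))
    rw [h1, it_comp]
    have h2 : (fun τ : Fin (k + 2) → Γ => f ((fun x => γ * x) ∘ τ)) = f := funext fun τ => hfi γ τ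
    rw [h2]
  -- the midpoints
  have hmidm : ∀ x y : X, midpoint ℝ (D x) (D y) ∈ Set.range D := fun x y =>
    hc.midpoint_mem ⟨x, rfl⟩ ⟨y, rfl⟩
  choose mid hmid using hmidm
  have hmm : ∀ x, mid x x = x := fun x => hD.injective (by rw [hmid, midpoint_self])
  have hmidγ : ∀ (γ : Γ) x y, mid (γ • x) (γ • y) = γ • (mid x y) := by
    intro γ x y
    apply hD.injective
    rw [hmid, hequi, hequi, hequi, hmid]
    exact ((hol γ).toAffineMap.map_midpoint (D x) (D y)).symm
  -- the weights
  let l' : Γ ⊕ S → E → ℝ := Sum.elim (fun _ _ => 0) l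
  have hinl : ∀ x, l' (Sum.inl x) = fun _ => 0 := fun x => rfl
  have hw' : Weights Γ X (Γ ⊕ S) E D (Set.range D) l' := by
    refine ⟨?_, ?_, ?_, ?_, ?_⟩
    · rintro (x | s)
      · exact contDiffOn_const
      · exact hw.smooth s
    · intro K hK hKU
      refine ((hw.fin K hK hKU).image Sum.inr).subset ?_
      rintro (x | s) ⟨y, hy, h0⟩
      · exact absurd rfl h0
      · exact ⟨s, ⟨y, hy, h0⟩, rfl⟩
    · intro x hx
      rw [← hw.one x hx]
      have hf := hw.fin1 hx
      rw [finsum_eq_sum_of_support_subset (s := hf.toFinset) (fun s => l s x)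
        (by intro s hs; simpa using hs),
        finsum_eq_sum_of_support_subset (s := hf.toFinset.map ⟨Sum.inr, Sum.inr_injective⟩)
          (fun p => l' p x) (by
            rintro (y | s) hs
            · exact absurd rfl hs
            · refine Finset.mem_coe.2 (Finset.mem_map.2 ⟨s, ?_, rfl⟩)
              rw [Set.Finite.mem_toFinset]
              exact hs), Finset.sum_map]
      rfl
    · rintro γ (y | s) x
      · rfl
      · exact hw.equi γ s x
    · intro x hx
      obtain ⟨v, hv0, hv⟩ := hw.rank x hx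
      refine ⟨v, hv0, ?_⟩
      rintro (y | s)
      · rw [hinl, fderiv_fun_const]
        rfl
      · exact hv s
  have hnull2 : Null (fun (γ : Γ) (τ : Fin (k + 1) → X) i => γ • (τ i))
      ((Tup X).d (k + 1) (vmap (k + 2) z')) := by
    intro h hh
    change pair h ((Tup X).d (k + 1) (vmap (k + 2) z')) = 0
    rw [d_vmap]
    have h1 := hnull (fun s => h (verts (k + 1) s)) (fun γ s => hh γ _)
    rw [← h1]
    have h2 : (pair h).comp (vmap (k + 1)) = pairs (fun s : C(stdSimplex ℝ (Fin (k + 1)), X) =>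
          h (verts (k + 1) s)) := by
      refine sing_ext fun s => ?_
      rw [LinearMap.comp_apply, vmap_ss, pair_sg, pairs_ss]
    exact LinearMap.congr_fun h2 _
  have hfin := tuple_zero (hD.isOpen_range) hc (fun x => ⟨x, rfl⟩) mid hmid hmm hmidγ hw' k hk g
    hgc hgi (fun x => Sum.inl (κ x)) (fun γ x => by rw [smul_inl, hκ]) (vmap (k + 2) z') hnull2
  rw [LinearMap.comp_apply, LinearMap.comp_apply, ← hfin]
  have hFs : ∀ y : (Tup X).Ch (k + 2), F (smap D hD hc (k + 2) (push (fun x => κ x • x₀) (k + 2) y)) =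
      pair (fun τ => g fun i => Sum.inl (κ (τ i))) y := by
    intro y
    have : F.comp ((smap D hD hc (k + 2)).comp (push (fun x => κ x • x₀) (k + 2))) =
        pair (fun τ => g fun i => Sum.inl (κ (τ i))) := by
      refine tup_ext fun s => ?_
      rw [LinearMap.comp_apply, LinearMap.comp_apply, push_sg, smap_sg, hFss, pair_sg]
      exact (it_proj (k + 2) f fun i => κ (s i)).symm
    exact LinearMap.congr_fun this y
  exact hFs _

end Run7.h262.SV
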