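import Pool.Agent.Run7.h262.SV.Flag2
import Pool.Agent.Run7.h262.SV.Solv

/-!
Affine groups with small linear parts.
-/

set_option autoImplicit false

open Filter Topology

namespace Run7.h262.SV

section
variable {Γ E : Type} [Group Γ] [NormedAddCommGroup E] [NormedSpace ℝ E] [FiniteDimensional ℝ E]
  {hol : Γ →* (E ≃ᵃ[ℝ] E)} {Ω : Set E}

theorem AffDom.discrete (h : AffDom Γ E hol Ω) :
    ∃ r > 0, ∀ γ : Γ, ‖(hat.comp hol) γ - 1‖ < r → γ = 1 := by
  classical
  obtain ⟨x, hx⟩ := h.nonempty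
  obtain ⟨r₀, hr₀, hball⟩ := Metric.nhds_basis_closedBall.mem_iff.1 (h.isOpen.mem_nhds hx)
  have hK : IsCompact (Metric.closedBall x r₀) := isCompact_closedBall x r₀
  have hfin : {γ : Γ | hol γ x ∈ Metric.closedBall x r₀}.Finite := by
    refine (h.pd _ hK hball).subset fun γ hγ => ?_
    exact ⟨x, Metric.mem_closedBall_self hr₀.le, hγ⟩
  obtain ⟨r₁, hr₁, h1⟩ : ∃ r₁ > 0, ∀ γ ∈ hfin.toFinset, γ ≠ 1 → r₁ ≤ ‖hol γ x - x‖ := by
    have h2 : ∀ T : Finset Γ, ∃ r₁ > 0, ∀ γ ∈ T, γ ≠ 1 → r₁ ≤ ‖hol γ x - x‖ := by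
      intro T
      induction T using Finset.induction_on with
      | empty => exact ⟨1, one_pos, fun γ hγ => absurd hγ (Finset.notMem_empty γ)⟩
      | insert a T _ ih =>
        obtain ⟨r, hr, ih⟩ := ih
        by_cases ha : a = 1
        · refine ⟨r, hr, fun γ hγ hγ1 => ?_⟩
          rcases Finset.mem_insert.1 hγ with rfl | h3
          · exact absurd ha hγ1
          · exact ih γ h3 hγ1
        · have h3 : 0 < ‖hol a x - x‖ := by
            rw [norm_pos_iff, sub_ne_zero]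
            exact fun h4 => ha (h.free a x hx h4)
          refine ⟨min r ‖hol a x - x‖, lt_min hr h3, fun γ hγ hγ1 => ?_⟩
          rcases Finset.mem_insert.1 hγ with rfl | h4
          · exact min_le_right _ _
          · exact (min_le_left _ _).trans (ih γ h4 hγ1)
    exact h2 _
  set c : ℝ := ‖((x, 1) : E × ℝ)‖ + 1 with hc
  have hc0 : 0 < c := by positivity
  refine ⟨min r₀ r₁ / c, div_pos (lt_min hr₀ hr₁) hc0, fun γ hγ => ?_⟩
  have h3 : ‖hol γ x - x‖ < min r₀ r₁ := by
    have e1 : hol γ x - x = (((hat.comp hol) γ - 1) (x, 1)).1 := by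
      change _ = (hat (hol γ) (x, 1) - (x, 1)).1
      rw [hat_pt]
      rfl
    have h4 : ‖hol γ x - x‖ ≤ ‖(hat.comp hol) γ - 1‖ * ‖((x, 1) : E × ℝ)‖ := by
      rw [e1]
      exact (norm_fst_le _).trans (ContinuousLinearMap.le_opNorm _ _)
    refine lt_of_le_of_lt h4 ?_
    rw [lt_div_iff₀ hc0] at hγ
    refine lt_of_le_of_lt (mul_le_mul_of_nonneg_left ?_ (norm_nonneg _)) hγ
    rw [hc]
    linarith
  by_contra hne
  have h4 : γ ∈ hfin.toFinset := by
    rw [Set.Finite.mem_toFinset]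
    change dist (hol γ x) x ≤ r₀
    rw [dist_eq_norm]
    exact h3.le.trans (min_le_left _ _)
  have h5 := h1 γ h4 hne
  exact absurd (h3.trans_le (min_le_right _ _)) (not_lt.2 h5)

/-- groups with small diagonal blocks up to scalars -/
def SmallBlocks (hol : Γ →* (E ≃ᵃ[ℝ] E)) (S : ℕ → Submodule ℝ E) (m : ℕ) : Prop :=
  ∀ δ > 0, ∃ γ : Γ, γ ≠ 1 ∧ ∃ s : ℕ → ℝ, (∀ i, s i ≠ 0) ∧
    ∀ i < m, ∀ v ∈ S (i + 1), ∃ w ∈ S i, ‖s i • (hol γ).linear v - v - w‖ ≤ δ * ‖v‖

theorem AffDom.small_blocks (h : AffDom Γ E hol Ω) (S : ℕ → Submodule ℝ E) (m : ℕ)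
    (h0 : S 0 = ⊥) (hn : S m = ⊤) (hm : ∀ i < m, S i ≤ S (i + 1))
    (hinv : ∀ i ≤ m, ∀ γ : Γ, ∀ v ∈ S i, (hol γ).linear v ∈ S i) (hsm : SmallBlocks hol S m) :
    ∃ A : Subgroup Γ, A.Normal ∧ A ≠ ⊥ ∧ ∀ a ∈ A, ∀ b ∈ A, a * b = b * a := by
  classical
  let S' : ℕ → Submodule ℝ (E × ℝ) := fun i => if i ≤ m then (S i).prod ⊥ else ⊤
  have hS' : ∀ i ≤ m, S' i = (S i).prod ⊥ := fun i hi => if_pos hi
  have hS'' : S' (m + 1) = ⊤ := if_neg (by omega)
  have hd : ∃ r > 0, ∀ γ : Γ, ‖(hat.comp hol) γ - 1‖ < r → γ = 1 := h.discrete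
  refine flag_zas (V := E × ℝ) (S := S') (n := m + 1) (hat.comp hol) hd ?_ hS'' ?_ ?_ ?_
  · rw [hS' 0 (Nat.zero_le m), h0, Submodule.prod_bot]
  · intro i hi
    by_cases him : i < m
    · rw [hS' i him.le, hS' (i + 1) him]
      exact Submodule.prod_mono (hm i him) le_rfl
    · have : i = m := by omega
      subst this
      rw [hS'']
      exact le_top
  · intro i hi γ v hv
    by_cases him : i ≤ m
    · rw [hS' i him] at hv ⊢
      obtain ⟨h1, h2⟩ := hv
      replace h2 : v.2 = 0 := h2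
      have e1 : (hat.comp hol) γ v = ((hol γ).linear v.1, 0) := by
        change hat (hol γ) v = _
        rw [hat_apply, h2, zero_smul, add_zero]
      rw [e1]
      exact ⟨hinv i him γ _ h1, rfl⟩
    · have : i = m + 1 := by omega
      subst this
      rw [hS'']
      trivial
  · intro δ hδ
    obtain ⟨γ, hγ, s, hs, h1⟩ := hsm δ hδ
    refine ⟨γ, hγ, fun i => if i < m then s i else 1, fun i => ?_, fun i hi v hv => ?_⟩
    · simp only
      split_ifs
      · exact hs i
      · exact one_ne_zero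
    · by_cases him : i < m
      · rw [hS' (i + 1) him] at hv
        obtain ⟨h2, h3⟩ := hv
        replace h3 : v.2 = 0 := h3
        obtain ⟨w, hw, h4⟩ := h1 i him v.1 h2
        refine ⟨(w, 0), ?_, ?_⟩
        · rw [hS' i him.le]
          exact ⟨hw, rfl⟩
        · have e1 : (hat.comp hol) γ v = ((hol γ).linear v.1, 0) := by
            change hat (hol γ) v = _
            rw [hat_apply, h3, zero_smul, add_zero]
          rw [e1]
          simp only [if_pos him]
          have e2 : s i • (((hol γ).linear v.1, 0) : E × ℝ) - v - (w, 0) =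
              (s i • (hol γ).linear v.1 - v.1 - w, 0) := by
            ext
            · rfl
            · simp [h3]
          rw [e2, Prod.norm_mk, norm_zero, max_eq_left (norm_nonneg _)]
          exact h4.trans (mul_le_mul_of_nonneg_left (norm_fst_le v) hδ.le)
      · have : i = m := by omega
        subst this
        refine ⟨(hat.comp hol) γ v - v, ?_, ?_⟩
        · rw [hS' i le_rfl, hn]
          refine ⟨trivial, ?_⟩
          rw [SetLike.mem_coe, Submodule.mem_bot]
          change v.2 - v.2 = 0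
          exact sub_self _
        · simp only [if_neg him, one_smul]
          rw [sub_self, norm_zero]
          positivity

end

section
variable {X Γ E : Type} [TopologicalSpace X] [Group Γ] [MulAction Γ X]
    [NormedAddCommGroup E] [NormedSpace ℝ E] [FiniteDimensional ℝ E] {D : X → E}
    {hol : Γ →* (E ≃ᵃ[ℝ] E)}

open Pool.Agent.N520.SV

theorem CvxData.of_small_blocks [Nonempty X] (h : CvxData X Γ E D hol) (S : ℕ → Submodule ℝ E)
    (m : ℕ) (h0 : S 0 = ⊥) (hn : S m = ⊤) (hm : ∀ i < m, S i ≤ S (i + 1))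
    (hinv : ∀ i ≤ m, ∀ γ : Γ, ∀ v ∈ S i, (hol γ).linear v ∈ S i) (hsm : SmallBlocks hol S m)
    (k : ℕ) (hk : Module.finrank ℝ E ≤ k + 1) :
    Negligible k (MulAction.orbitRel.Quotient Γ X) := by
  obtain ⟨A, h1, h2, h3⟩ := h.affDom.small_blocks S m h0 hn hm hinv hsm
  exact h.of_abelian A h3 h1 h2 k hk

end

end Run7.h262.SV
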