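import Pool.Agent.Run7.h262.SV.Norml

/-!
The criterion for products of factors.
-/

set_option autoImplicit false

open Filter Topology

namespace Run7.h262.SV

open Pool.Agent.N520.SV

section
variable {X Γ E : Type} [TopologicalSpace X] [Group Γ] [MulAction Γ X]
    [NormedAddCommGroup E] [NormedSpace ℝ E] [FiniteDimensional ℝ E] {D : X → E}
    {hol : Γ →* (E ≃ᵃ[ℝ] E)}

theorem CvxData.of_fam [Nonempty X] (h : CvxData X Γ E D hol) (b : Γ → E → ℝ)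
    (hs : ∀ γ, ContDiffOn ℝ 1 (b γ) (Set.range D))
    (hf : ∀ K : Set E, IsCompact K → K ⊆ Set.range D → {γ | ∃ x ∈ K, b γ x ≠ 0}.Finite)
    (h0 : ∀ γ, ∀ x ∈ Set.range D, 0 ≤ b γ x) (hp : ∀ x ∈ Set.range D, ∃ γ, 0 < b γ x)
    (he : ∀ γ δ : Γ, ∀ x ∈ Set.range D, b (γ * δ) (hol γ x) = b δ x)
    (hker : ∀ x ∈ Set.range D, ∃ v : E, v ≠ 0 ∧ ∀ γ, fderiv ℝ (b γ) x v = 0)
    (k : ℕ) (hk : Module.finrank ℝ E ≤ k + 1) :
    Negligible k (MulAction.orbitRel.Quotient Γ X) := by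
  obtain ⟨l, hl, hl'⟩ := normalise (hol := hol) h.emb.isOpen_range b hs hf h0 hp he
  have h1 : T2Space X := h.emb.isEmbedding.t2Space
  have h2 : LocallyCompactSpace X := h.emb.locallyCompactSpace
  have hw : Weights Γ X Γ E D (Set.range D) l := by
    refine ⟨hl.smooth, hl.fin, hl.one, ?_, ?_⟩
    · intro γ s x
      rw [h.equi]
      exact hl.equi γ s (D x) ⟨x, rfl⟩
    · intro x hx
      obtain ⟨v, hv, hv'⟩ := hker x hx
      exact ⟨v, hv, hl' x hx v hv'⟩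
  exact core D hol h.cont h.pd h.free h.emb h.convex h.equi k hk l hw
    (fun γ => LinearMap.proj γ) (fun s => rfl) (fun s u C hu => hu s) (fun γ s u C hu => rfl)

/-- factors of equivariant families -/
structure Factor (hol : Γ →* (E ≃ᵃ[ℝ] E)) (Ω K : Set E) (g : Γ → E → ℝ) : Prop where
  smooth : ∀ γ, ContDiffOn ℝ 1 (g γ) Ω
  nonneg : ∀ γ, ∀ x ∈ Ω, 0 ≤ g γ x
  equi : ∀ γ δ : Γ, ∀ x ∈ Ω, g (γ * δ) (hol γ x) = g δ x
  pos : ∀ x ∈ K, 0 < g 1 x

theorem CvxData.of_factors [Nonempty X] (h : CvxData X Γ E D hol) (K : Set E)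
    (hK : ∀ x ∈ Set.range D, ∃ γ : Γ, hol γ x ∈ K) (hKD : K ⊆ Set.range D) (n : ℕ)
    (g : ℕ → Γ → E → ℝ) (hg : ∀ i < n, Factor hol (Set.range D) K (g i))
    (hf : ∀ K₁ : Set E, IsCompact K₁ → K₁ ⊆ Set.range D →
      {γ | ∃ x ∈ K₁, ∀ i < n, g i γ x ≠ 0}.Finite)
    (hker : ∀ x ∈ Set.range D, ∃ v : E, v ≠ 0 ∧ ∀ i < n, ∀ γ, fderiv ℝ (g i γ) x v = 0)
    (k : ℕ) (hk : Module.finrank ℝ E ≤ k + 1) :
    Negligible k (MulAction.orbitRel.Quotient Γ X) := by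
  classical
  have hinv : ∀ (γ : Γ), ∀ x ∈ Set.range D, hol γ x ∈ Set.range D := h.affDom.inv
  have hs : ∀ γ, ContDiffOn ℝ 1 (fun x => ∏ i ∈ Finset.range n, g i γ x) (Set.range D) := by
    intro γ
    exact contDiffOn_prod fun i hi => (hg i (Finset.mem_range.1 hi)).smooth γ
  refine h.of_fam (fun γ x => ∏ i ∈ Finset.range n, g i γ x) hs ?_ ?_ ?_ ?_ ?_ k hk
  · intro K₁ hK₁ hK₁D
    refine (hf K₁ hK₁ hK₁D).subset ?_
    rintro γ ⟨x, hx, h1⟩
    refine ⟨x, hx, fun i hi => ?_⟩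
    exact (Finset.prod_ne_zero_iff.1 h1) i (Finset.mem_range.2 hi)
  · intro γ x hx
    exact Finset.prod_nonneg fun i hi => (hg i (Finset.mem_range.1 hi)).nonneg γ x hx
  · intro x hx
    obtain ⟨γ, hγ⟩ := hK x hx
    refine ⟨γ⁻¹, Finset.prod_pos fun i hi => ?_⟩
    have h1 := (hg i (Finset.mem_range.1 hi)).equi γ⁻¹ 1 (hol γ x) (hKD hγ)
    rw [mul_one, hol_inv] at h1
    rw [h1]
    exact (hg i (Finset.mem_range.1 hi)).pos _ hγ
  · intro γ δ x hx
    exact Finset.prod_congr rfl fun i hi => (hg i (Finset.mem_range.1 hi)).equi γ δ x hx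
  · intro x hx
    obtain ⟨v, hv, h1⟩ := hker x hx
    refine ⟨v, hv, fun γ => ?_⟩
    have hdiff : ∀ {f : E → ℝ}, ContDiffOn ℝ 1 f (Set.range D) → DifferentiableAt ℝ f x :=
      fun hf => (hf.differentiableOn one_ne_zero).differentiableAt
        (h.emb.isOpen_range.mem_nhds hx)
    have h2 := path_deriv (hdiff (hs γ)) v
    have h3 : ∀ i ∈ Finset.range n, HasDerivAt (fun t : ℝ => g i γ (x + t • v)) 0 0 := by
      intro i hi
      have h4 := path_deriv (hdiff ((hg i (Finset.mem_range.1 hi)).smooth γ)) v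
      rwa [h1 i (Finset.mem_range.1 hi) γ] at h4
    have h5 := HasDerivAt.fun_finsetProd (u := Finset.range n) h3
    simp only [smul_zero, Finset.sum_const_zero] at h5
    exact h2.unique h5

end

end Run7.h262.SV
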