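import Pool.Agent.Run7.h262.SV.Zas2

/-!
Invariant flags and their graded representations.
-/

set_option autoImplicit false

open Filter Topology

namespace Run7.h262.SV

section proj
variable {V : Type} [NormedAddCommGroup V] [NormedSpace ℝ V] [FiniteDimensional ℝ V]

theorem exists_pi (W : Submodule ℝ V) : ∃ π : V →L[ℝ] V, (∀ v, π v ∈ W) ∧ ∀ v ∈ W, π v = v := by
  obtain ⟨g, hg⟩ := W.subtype.exists_leftInverse_of_injective (Submodule.ker_subtype W)
  refine ⟨LinearMap.toContinuousLinearMap (W.subtype ∘ₗ g), fun v => (g v).2, fun v hv => ?_⟩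
  have := LinearMap.congr_fun hg ⟨v, hv⟩
  exact congrArg Subtype.val this

/-- descending projections -/
noncomputable def dproj (π : ℕ → (V →L[ℝ] V)) (n : ℕ) : ℕ → (V →L[ℝ] V)
  | 0 => 1
  | k + 1 => π (n - (k + 1)) * dproj π n k

/-- projections of a flag -/
structure FProj (S : ℕ → Submodule ℝ V) (n : ℕ) (P : ℕ → (V →L[ℝ] V)) : Prop where
  mono : ∀ i j, i ≤ j → j ≤ n → S i ≤ S j
  mem : ∀ i < n, ∀ v, P i v ∈ S (i + 1)
  kill : ∀ i < n, ∀ v ∈ S i, P i v = 0
  sub : ∀ i < n, ∀ v ∈ S (i + 1), v - P i v ∈ S i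
  idem : ∀ i < n, P i * P i = P i
  orth : ∀ i < n, ∀ j < n, i ≠ j → P i * P j = 0
  sum : ∑ i ∈ Finset.range n, P i = 1

theorem exists_fproj (S : ℕ → Submodule ℝ V) (n : ℕ) (h0 : S 0 = ⊥) (hn : S n = ⊤)
    (hm : ∀ i < n, S i ≤ S (i + 1)) : ∃ P, FProj S n P := by
  have hmono : ∀ i j, i ≤ j → j ≤ n → S i ≤ S j := by
    intro i j hij
    induction j, hij using Nat.le_induction with
    | base => exact fun _ => le_rfl
    | succ j _ ih => exact fun h => (ih (by omega)).trans (hm j (by omega))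
  have hπ : ∀ i, ∃ π : V →L[ℝ] V, (∀ v, π v ∈ S i) ∧ ∀ v ∈ S i, π v = v := fun i =>
    exists_pi (S i)
  choose π hπ1 hπ2 using hπ
  have a1 : ∀ k, k ≤ n → ∀ v, dproj π n k v ∈ S (n - k) := by
    intro k
    cases k with
    | zero =>
      intro _ v
      rw [Nat.sub_zero, hn]
      trivial
    | succ k => exact fun _ v => hπ1 _ _
  have a2 : ∀ k, k ≤ n → ∀ v ∈ S (n - k), dproj π n k v = v := by
    intro k
    induction k with
    | zero => exact fun _ v _ => rfl
    | succ k ih =>
      intro hk v hv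
      have h1 : v ∈ S (n - k) := hmono _ _ (by omega) (by omega) hv
      change π (n - (k + 1)) (dproj π n k v) = v
      rw [ih (by omega) v h1]
      exact hπ2 _ v hv
  have a3 : ∀ k k', k' ≤ k → k ≤ n → dproj π n k * dproj π n k' = dproj π n k := by
    intro k k' hk
    induction k, hk using Nat.le_induction with
    | base =>
      intro h
      refine ContinuousLinearMap.ext fun v => ?_
      exact a2 _ h _ (a1 _ h v)
    | succ k hk ih =>
      intro h
      change π (n - (k + 1)) * dproj π n k * dproj π n k' = π (n - (k + 1)) * dproj π n k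
      rw [mul_assoc, ih (by omega)]
  let q : ℕ → (V →L[ℝ] V) := fun i => dproj π n (n - i)
  have q1 : ∀ i ≤ n, ∀ v, q i v ∈ S i := by
    intro i hi v
    have := a1 (n - i) (by omega) v
    rwa [Nat.sub_sub_self hi] at this
  have q2 : ∀ i ≤ n, ∀ v ∈ S i, q i v = v := by
    intro i hi v hv
    refine a2 (n - i) (by omega) v ?_
    rwa [Nat.sub_sub_self hi]
  have q3 : ∀ i j, i ≤ j → j ≤ n → q i * q j = q i := by
    intro i j hij hj
    exact a3 (n - i) (n - j) (by omega) (by omega)
  have q3' : ∀ i j, i ≤ j → j ≤ n → ∀ v, q i (q j v) = q i v := by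
    intro i j hij hj v
    exact congrArg (fun Y : V →L[ℝ] V => Y v) (q3 i j hij hj)
  have pp : ∀ i v, (q (i + 1) - q i) v = q (i + 1) v - q i v := fun i v => rfl
  refine ⟨fun i => q (i + 1) - q i, hmono, ?_, ?_, ?_, ?_, ?_, ?_⟩
  · intro i hi v
    exact Submodule.sub_mem _ (q1 _ (by omega) v) (hmono i (i + 1) (by omega) (by omega)
      (q1 _ (by omega) v))
  · intro i hi v hv
    rw [pp, q2 _ (by omega) v hv, q2 _ (by omega) v (hmono i (i + 1) (by omega) (by omega) hv),
      sub_self]
  · intro i hi v hv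
    rw [pp, q2 _ (by omega) v hv, sub_sub_cancel]
    exact q1 _ (by omega) v
  · intro i hi
    refine ContinuousLinearMap.ext fun v => ?_
    change (q (i + 1) - q i) ((q (i + 1) - q i) v) = (q (i + 1) - q i) v
    rw [pp i v, map_sub, pp, pp, q3' _ _ le_rfl (by omega), q3' _ _ (by omega) (by omega)]
    have h1 : q (i + 1) (q i v) = q i v := q2 _ (by omega) _
      (hmono i (i + 1) (by omega) (by omega) (q1 _ (by omega) v))
    rw [h1, q3' _ _ le_rfl (by omega), sub_self, sub_zero]
  · intro i hi j hj hij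
    refine ContinuousLinearMap.ext fun v => ?_
    change (q (i + 1) - q i) ((q (j + 1) - q j) v) = 0
    rcases lt_or_gt_of_ne hij with h | h
    · rw [pp j v, map_sub, pp, pp, q3' _ _ (by omega) (by omega), q3' _ _ (by omega) (by omega),
        q3' _ _ (by omega) (by omega), q3' _ _ (by omega) (by omega), sub_self]
    · have h1 : (q (j + 1) - q j) v ∈ S i := by
        rw [pp]
        exact Submodule.sub_mem _ (hmono _ _ (by omega) (by omega) (q1 _ (by omega) v))
          (hmono _ _ (by omega) (by omega) (q1 _ (by omega) v))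
      rw [pp, q2 _ (by omega) _ h1,
        q2 _ (by omega) _ (hmono i (i + 1) (by omega) (by omega) h1), sub_self]
  · rw [Finset.sum_range_sub]
    have h1 : q n = 1 := by
      refine ContinuousLinearMap.ext fun v => ?_
      refine q2 n le_rfl v ?_
      rw [hn]
      trivial
    have h2 : q 0 = 0 := by
      refine ContinuousLinearMap.ext fun v => ?_
      have := q1 0 (by omega) v
      rw [h0, Submodule.mem_bot] at this
      exact this
    rw [h1, h2, sub_zero]

end proj

section gr
variable {Γ V : Type} [Group Γ] [NormedAddCommGroup V] [NormedSpace ℝ V] [FiniteDimensional ℝ V]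
  {S : ℕ → Submodule ℝ V} {n : ℕ} {P : ℕ → (V →L[ℝ] V)}

/-- block scalars -/
noncomputable def bsc (P : ℕ → (V →L[ℝ] V)) (n : ℕ) (s : ℕ → ℝ) : V →L[ℝ] V :=
  ∑ i ∈ Finset.range n, s i • P i

theorem bsc_mul (hP : FProj S n P) (s t : ℕ → ℝ) :
    bsc P n s * bsc P n t = bsc P n fun i => s i * t i := by
  unfold bsc
  rw [Finset.sum_mul]
  refine Finset.sum_congr rfl fun i hi => ?_
  rw [Finset.mul_sum, Finset.sum_eq_single i]
  · rw [smul_mul_smul_comm, hP.idem i (Finset.mem_range.1 hi)]
  · intro j hj hji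
    rw [smul_mul_smul_comm, hP.orth i (Finset.mem_range.1 hi) j (Finset.mem_range.1 hj)
      (Ne.symm hji), smul_zero]
  · exact fun h => absurd hi h

theorem bsc_one (hP : FProj S n P) : bsc P n (fun _ => 1) = 1 := by
  unfold bsc
  simp only [one_smul]
  exact hP.sum

/-- the diagonal blocks -/
noncomputable def diag (P : ℕ → (V →L[ℝ] V)) (n : ℕ) (X : V →L[ℝ] V) : V →L[ℝ] V :=
  ∑ i ∈ Finset.range n, P i * X * P i

theorem diag_mul (hP : FProj S n P) {X Y : V →L[ℝ] V} (hX : ∀ i ≤ n, ∀ v ∈ S i, X v ∈ S i)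
    (hY : ∀ i ≤ n, ∀ v ∈ S i, Y v ∈ S i) : diag P n (X * Y) = diag P n X * diag P n Y := by
  unfold diag
  rw [Finset.sum_mul]
  refine Finset.sum_congr rfl fun i hi => ?_
  rw [Finset.mem_range] at hi
  rw [Finset.mul_sum, Finset.sum_eq_single i]
  · refine ContinuousLinearMap.ext fun v => ?_
    have e1 : (P i * X * P i * (P i * Y * P i)) v = P i (X (P i (Y (P i v)))) := by
      have := hP.idem i hi
      rw [show P i * X * P i * (P i * Y * P i) = P i * X * (P i * P i) * Y * P i by
        simp only [mul_assoc], this]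
      rfl
    rw [e1]
    change P i (X (Y (P i v))) = _
    have h1 : Y (P i v) ∈ S (i + 1) := hY _ (by omega) _ (hP.mem i hi v)
    have h2 := hP.kill i hi _ (hX i (by omega) _ (hP.sub i hi _ h1))
    rw [map_sub, map_sub, sub_eq_zero] at h2
    exact h2
  · intro j hj hji
    rw [show P i * X * P i * (P j * Y * P j) = P i * X * (P i * P j) * Y * P j by
      simp only [mul_assoc], hP.orth i hi j (Finset.mem_range.1 hj) (Ne.symm hji)]
    simp only [mul_zero, zero_mul]
  · exact fun h => absurd (Finset.mem_range.2 hi) h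

/-- the graded representation -/
noncomputable def gr (hP : FProj S n P) (ρ : Γ →* (V →L[ℝ] V))
    (hinv : ∀ i ≤ n, ∀ γ : Γ, ∀ v ∈ S i, ρ γ v ∈ S i) : Γ →* (V →L[ℝ] V) where
  toFun γ := diag P n (ρ γ)
  map_one' := by
    rw [map_one]
    unfold diag
    rw [← hP.sum]
    refine Finset.sum_congr rfl fun i hi => ?_
    rw [hP.sum, mul_one, hP.idem i (Finset.mem_range.1 hi)]
  map_mul' γ δ := by
    rw [map_mul]
    exact diag_mul hP (fun i hi => hinv i hi γ) fun i hi => hinv i hi δ

theorem gr_apply (hP : FProj S n P) (ρ : Γ →* (V →L[ℝ] V))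
    (hinv : ∀ i ≤ n, ∀ γ : Γ, ∀ v ∈ S i, ρ γ v ∈ S i) (γ : Γ) :
    gr hP ρ hinv γ = ∑ i ∈ Finset.range n, P i * ρ γ * P i := rfl

theorem bsc_diag (hP : FProj S n P) (s : ℕ → ℝ) (X : V →L[ℝ] V) :
    bsc P n s * diag P n X = ∑ i ∈ Finset.range n, s i • (P i * X * P i) := by
  unfold bsc diag
  rw [Finset.sum_mul]
  refine Finset.sum_congr rfl fun i hi => ?_
  rw [Finset.mul_sum, Finset.sum_eq_single i]
  · rw [smul_mul_assoc, ← mul_assoc, ← mul_assoc, hP.idem i (Finset.mem_range.1 hi)]
  · intro j hj hji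
    rw [smul_mul_assoc, ← mul_assoc, ← mul_assoc, hP.orth i (Finset.mem_range.1 hi) j
      (Finset.mem_range.1 hj) (Ne.symm hji), zero_mul, zero_mul, smul_zero]
  · exact fun h => absurd hi h

theorem diag_bsc (hP : FProj S n P) (s : ℕ → ℝ) (X : V →L[ℝ] V) :
    diag P n X * bsc P n s = ∑ i ∈ Finset.range n, s i • (P i * X * P i) := by
  unfold bsc diag
  rw [Finset.sum_mul]
  refine Finset.sum_congr rfl fun i hi => ?_
  rw [Finset.mul_sum, Finset.sum_eq_single i]
  · rw [mul_smul_comm, mul_assoc, hP.idem i (Finset.mem_range.1 hi)]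
  · intro j hj hji
    rw [mul_smul_comm, mul_assoc, hP.orth i (Finset.mem_range.1 hi) j
      (Finset.mem_range.1 hj) (Ne.symm hji), mul_zero, smul_zero]
  · exact fun h => absurd hi h

/-- conjugation by block scalars -/
theorem bsc_conj (hP : FProj S n P) (s t : ℕ → ℝ) (X : V →L[ℝ] V) :
    bsc P n s * X * bsc P n t =
      ∑ i ∈ Finset.range n, ∑ j ∈ Finset.range n, (s i * t j) • (P i * X * P j) := by
  unfold bsc
  rw [Finset.sum_mul, Finset.sum_mul]
  refine Finset.sum_congr rfl fun i hi => ?_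
  rw [Finset.mul_sum]
  refine Finset.sum_congr rfl fun j hj => ?_
  rw [smul_mul_assoc, smul_mul_assoc, mul_smul_comm, smul_smul]

end gr

end Run7.h262.SV
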