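import Pool.Agent.Run7.h262.SV.Flag

/-!
Commutative normal subgroups from small elements of the graded representation.
-/

set_option autoImplicit false

open Filter Topology

namespace Run7.h262.SV

variable {Γ V : Type} [Group Γ] [NormedAddCommGroup V] [NormedSpace ℝ V] [FiniteDimensional ℝ V]
  {S : ℕ → Submodule ℝ V} {n : ℕ} {P : ℕ → (V →L[ℝ] V)}

theorem conj_tendsto (hP : FProj S n P) {X : V →L[ℝ] V} (hX : ∀ i ≤ n, ∀ v ∈ S i, X v ∈ S i) :
    Tendsto (fun t : ℝ => bsc P n (fun i => t ^ i) * X * bsc P n fun i => (t ^ i)⁻¹) atTop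
      (𝓝 (diag P n X)) := by
  simp only [bsc_conj hP]
  unfold diag
  refine tendsto_finsetSum _ fun i hi => ?_
  rw [Finset.mem_range] at hi
  have e1 : P i * X * P i = ∑ j ∈ Finset.range n, if j = i then P i * X * P i else 0 := by
    rw [Finset.sum_ite_eq' (Finset.range n) i, if_pos (Finset.mem_range.2 hi)]
  rw [e1]
  refine tendsto_finsetSum _ fun j hj => ?_
  rw [Finset.mem_range] at hj
  rcases lt_trichotomy i j with h | h | h
  · rw [if_neg (by omega)]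
    have h1 : Tendsto (fun t : ℝ => t ^ i / t ^ j) atTop (𝓝 0) := tendsto_pow_div_pow_atTop_zero h
    have h2 := h1.smul_const (P i * X * P j)
    rw [zero_smul] at h2
    simpa [div_eq_mul_inv] using h2
  · subst h
    rw [if_pos rfl]
    refine tendsto_const_nhds.congr' ?_
    filter_upwards [eventually_gt_atTop 0] with t ht
    rw [mul_inv_cancel₀ (pow_ne_zero _ ht.ne'), one_smul]
  · rw [if_neg (by omega)]
    have h1 : P i * X * P j = 0 := by
      refine ContinuousLinearMap.ext fun v => ?_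
      change P i (X (P j v)) = 0
      refine hP.kill i hi _ (hX i hi.le _ ?_)
      exact hP.mono (j + 1) i (by omega) hi.le (hP.mem j hj v)
    simp only [h1, smul_zero]
    exact tendsto_const_nhds

theorem conj_small (hP : FProj S n P) (F : Finset (V →L[ℝ] V))
    (hF : ∀ X ∈ F, ∀ i ≤ n, ∀ v ∈ S i, X v ∈ S i) (η : ℝ) (hη : 0 < η) :
    ∃ t : ℝ, 0 < t ∧ ∀ X ∈ F,
      ‖bsc P n (fun i => t ^ i) * X * bsc P n (fun i => (t ^ i)⁻¹) - diag P n X‖ < η := by
  have h1 : ∀ᶠ t : ℝ in atTop, ∀ X ∈ F,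
      ‖bsc P n (fun i => t ^ i) * X * bsc P n (fun i => (t ^ i)⁻¹) - diag P n X‖ < η := by
    refine (Filter.eventually_all_finset F).2 fun X hX => ?_
    have h2 := Metric.tendsto_nhds.1 (conj_tendsto hP (hF X hX)) η hη
    simpa only [dist_eq_norm] using h2
  obtain ⟨t, h2, h3⟩ := (h1.and (eventually_gt_atTop 0)).exists
  exact ⟨t, h3, h2⟩

theorem flag_zas [Nontrivial V] (ρ : Γ →* (V →L[ℝ] V))
    (hρ : ∃ r > 0, ∀ γ : Γ, ‖ρ γ - 1‖ < r → γ = 1) (h0 : S 0 = ⊥) (hn : S n = ⊤)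
    (hm : ∀ i < n, S i ≤ S (i + 1)) (hinv : ∀ i ≤ n, ∀ γ : Γ, ∀ v ∈ S i, ρ γ v ∈ S i)
    (hsm : ∀ δ > 0, ∃ γ : Γ, γ ≠ 1 ∧ ∃ s : ℕ → ℝ, (∀ i, s i ≠ 0) ∧
      ∀ i < n, ∀ v ∈ S (i + 1), ∃ w ∈ S i, ‖s i • ρ γ v - v - w‖ ≤ δ * ‖v‖) :
    ∃ A : Subgroup Γ, A.Normal ∧ A ≠ ⊥ ∧ ∀ a ∈ A, ∀ b ∈ A, a * b = b * a := by
  classical
  obtain ⟨P, hP⟩ := exists_fproj S n h0 hn hm
  set σ := gr hP ρ hinv with hσ
  have hσi : ∀ γ : Γ, σ γ * σ γ⁻¹ = 1 := fun γ => by rw [← map_mul, mul_inv_cancel, map_one]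
  by_cases hd : ∃ r > 0, ∀ γ : Γ, ‖σ γ - 1‖ < r → γ = 1
  · -- the graded representation is discrete and faithful
    have hzc : ∀ s (δ : Γ), bsc P n s * σ δ = σ δ * bsc P n s := by
      intro s δ
      exact (bsc_diag hP s (ρ δ)).trans (diag_bsc hP s (ρ δ)).symm
    refine zassenhaus σ hd (fun δ => {γ | ∃ s : ℕ → ℝ, (∀ i, s i ≠ 0) ∧
      ‖bsc P n s * σ γ - 1‖ < δ}) ?_ ?_ ?_ ?_
    · rintro δ δ' h γ ⟨s, h1, h2⟩
      exact ⟨s, h1, h2.trans_le h⟩
    · intro δ hδ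
      set C : ℝ := ∑ i ∈ Finset.range n, ‖P i‖ * ‖P i‖ with hC
      have hC0 : 0 ≤ C := Finset.sum_nonneg fun i _ => mul_nonneg (norm_nonneg _) (norm_nonneg _)
      obtain ⟨γ, hγ, s, hs, h1⟩ := hsm (δ / (C + 1)) (by positivity)
      refine ⟨γ, ⟨s, hs, ?_⟩, hγ⟩
      have e1 : bsc P n s * σ γ - 1 = ∑ i ∈ Finset.range n, (s i • (P i * ρ γ * P i) - P i) := by
        rw [Finset.sum_sub_distrib, hP.sum]
        congr 1
        exact bsc_diag hP s (ρ γ)
      rw [e1]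
      have h2 : ∀ i ∈ Finset.range n, ‖s i • (P i * ρ γ * P i) - P i‖ ≤
          ‖P i‖ * ‖P i‖ * (δ / (C + 1)) := by
        intro i hi
        rw [Finset.mem_range] at hi
        refine ContinuousLinearMap.opNorm_le_bound _ (by positivity) fun v => ?_
        obtain ⟨w, hw, h3⟩ := h1 i hi (P i v) (hP.mem i hi v)
        have e2 : (s i • (P i * ρ γ * P i) - P i) v = P i (s i • ρ γ (P i v) - P i v - w) := by
          have e3 : P i (P i v) = P i v := congrArg (fun Y : V →L[ℝ] V => Y v) (hP.idem i hi)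
          rw [map_sub, map_sub, hP.kill i hi w hw, e3, sub_zero, map_smul]
          rfl
        rw [e2]
        calc ‖P i (s i • ρ γ (P i v) - P i v - w)‖ ≤ ‖P i‖ * ‖s i • ρ γ (P i v) - P i v - w‖ :=
              (P i).le_opNorm _
          _ ≤ ‖P i‖ * (δ / (C + 1) * ‖P i v‖) := mul_le_mul_of_nonneg_left h3 (norm_nonneg _)
          _ ≤ ‖P i‖ * (δ / (C + 1) * (‖P i‖ * ‖v‖)) := by
              refine mul_le_mul_of_nonneg_left ?_ (norm_nonneg _)
              exact mul_le_mul_of_nonneg_left ((P i).le_opNorm v) (by positivity)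
          _ = ‖P i‖ * ‖P i‖ * (δ / (C + 1)) * ‖v‖ := by ring
      calc _ ≤ ∑ i ∈ Finset.range n, ‖s i • (P i * ρ γ * P i) - P i‖ := norm_sum_le _ _
        _ ≤ ∑ i ∈ Finset.range n, ‖P i‖ * ‖P i‖ * (δ / (C + 1)) := Finset.sum_le_sum h2
        _ = C * (δ / (C + 1)) := by rw [← Finset.sum_mul]
        _ < δ := by
          rw [mul_div_assoc', div_lt_iff₀ (by positivity)]
          nlinarith
    · intro γ δ hδ
      refine ⟨δ / (‖σ γ‖ * ‖σ γ⁻¹‖ + 1), by positivity, ?_⟩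
      rintro u ⟨s, hs, h1⟩
      refine ⟨s, hs, ?_⟩
      have e1 : bsc P n s * σ (γ * u * γ⁻¹) - 1 = σ γ * (bsc P n s * σ u - 1) * σ γ⁻¹ := by
        rw [mul_sub, sub_mul, mul_one, hσi, map_mul, map_mul, ← mul_assoc, ← mul_assoc, hzc]
        simp only [mul_assoc]
      rw [e1]
      calc _ ≤ ‖σ γ‖ * ‖bsc P n s * σ u - 1‖ * ‖σ γ⁻¹‖ := by
            refine (norm_mul_le _ _).trans (mul_le_mul_of_nonneg_right (norm_mul_le _ _)
              (norm_nonneg _))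
        _ = (‖σ γ‖ * ‖σ γ⁻¹‖) * ‖bsc P n s * σ u - 1‖ := by ring
        _ ≤ (‖σ γ‖ * ‖σ γ⁻¹‖) * (δ / (‖σ γ‖ * ‖σ γ⁻¹‖ + 1)) :=
            mul_le_mul_of_nonneg_left h1.le (by positivity)
        _ < δ := by
          rw [mul_div_assoc', div_lt_iff₀ (by positivity)]
          have := norm_nonneg (σ γ)
          have := norm_nonneg (σ γ⁻¹)
          nlinarith
    · refine ⟨1 / 8, by norm_num, fun F hF => ⟨{z | ∃ s : ℕ → ℝ, (∀ i, s i ≠ 0) ∧ z = bsc P n s},
        1, 1, ⟨one_mul 1, one_mul 1, ?_, ?_⟩, ?_, ?_⟩⟩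
      · rintro _ ⟨s, _, rfl⟩ _ ⟨t, _, rfl⟩
        rw [bsc_mul hP, bsc_mul hP]
        simp only [mul_comm]
      · rintro _ ⟨s, _, rfl⟩ δ
        rw [one_mul, mul_one]
        exact hzc s δ
      · exact ⟨fun _ => 1, fun _ => one_ne_zero, (bsc_one hP).symm⟩
      · intro a ha
        obtain ⟨s, hs, h1⟩ := hF (Finset.mem_coe.2 ha)
        refine ⟨bsc P n s, ⟨s, hs, rfl⟩, bsc P n fun i => (s i)⁻¹, ?_, ?_, ?_⟩
        · rw [bsc_mul hP]
          simp only [mul_inv_cancel₀ (hs _)]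
          exact bsc_one hP
        · rw [bsc_mul hP]
          simp only [inv_mul_cancel₀ (hs _)]
          exact bsc_one hP
        · rw [one_mul, mul_one]
          exact h1.le
  · -- small elements
    push Not at hd
    refine zassenhaus ρ hρ (fun δ => {γ | ‖σ γ - 1‖ < δ}) ?_ ?_ ?_ ?_
    · intro δ δ' h γ h1
      exact lt_of_lt_of_le h1 h
    · intro δ hδ
      obtain ⟨γ, h1, h2⟩ := hd δ hδ
      exact ⟨γ, h1, h2⟩
    · intro γ δ hδ
      refine ⟨δ / (‖σ γ‖ * ‖σ γ⁻¹‖ + 1), by positivity, fun u hu => ?_⟩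
      change ‖σ u - 1‖ < _ at hu
      change ‖σ (γ * u * γ⁻¹) - 1‖ < δ
      have e1 : σ (γ * u * γ⁻¹) - 1 = σ γ * (σ u - 1) * σ γ⁻¹ := by
        rw [mul_sub, sub_mul, mul_one, hσi, map_mul, map_mul]
      rw [e1]
      calc _ ≤ ‖σ γ‖ * ‖σ u - 1‖ * ‖σ γ⁻¹‖ := by
            refine (norm_mul_le _ _).trans (mul_le_mul_of_nonneg_right (norm_mul_le _ _)
              (norm_nonneg _))
        _ = (‖σ γ‖ * ‖σ γ⁻¹‖) * ‖σ u - 1‖ := by ring
        _ ≤ (‖σ γ‖ * ‖σ γ⁻¹‖) * (δ / (‖σ γ‖ * ‖σ γ⁻¹‖ + 1)) :=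
            mul_le_mul_of_nonneg_left hu.le (by positivity)
        _ < δ := by
          rw [mul_div_assoc', div_lt_iff₀ (by positivity)]
          have := norm_nonneg (σ γ)
          have := norm_nonneg (σ γ⁻¹)
          nlinarith
    · refine ⟨1 / 16, by norm_num, fun F hF => ?_⟩
      obtain ⟨t, ht, h1⟩ := conj_small hP (F.image ρ) (by
        intro X hX
        obtain ⟨a, _, rfl⟩ := Finset.mem_image.1 hX
        exact fun i hi => hinv i hi a) (1 / 16) (by norm_num)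
      refine ⟨{1}, bsc P n fun i => t ^ i, bsc P n fun i => (t ^ i)⁻¹, ⟨?_, ?_, ?_, ?_⟩, rfl, ?_⟩
      · rw [bsc_mul hP]
        simp only [inv_mul_cancel₀ (pow_ne_zero _ ht.ne')]
        exact bsc_one hP
      · rw [bsc_mul hP]
        simp only [mul_inv_cancel₀ (pow_ne_zero _ ht.ne')]
        exact bsc_one hP
      · rintro _ rfl _ rfl
        rfl
      · rintro _ rfl δ
        rw [one_mul, mul_one]
      · intro a ha
        refine ⟨1, rfl, 1, one_mul 1, one_mul 1, ?_⟩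
        rw [one_mul]
        have h2 := h1 _ (Finset.mem_image_of_mem ρ ha)
        have h3 : ‖σ a - 1‖ < 1 / 16 := hF (Finset.mem_coe.2 ha)
        have e1 : bsc P n (fun i => t ^ i) * ρ a * bsc P n (fun i => (t ^ i)⁻¹) - 1 =
            (bsc P n (fun i => t ^ i) * ρ a * bsc P n (fun i => (t ^ i)⁻¹) - diag P n (ρ a)) +
              (σ a - 1) := by
          change _ = _ + (diag P n (ρ a) - 1)
          abel
        rw [e1]
        refine (norm_add_le _ _).trans ?_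
        linarith

end Run7.h262.SV
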