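import Pool.Agent.Run7.h262.SV.Hat

/-!
The domain of the points whose orbits under the torus stay in the domain.
-/

set_option autoImplicit false

open Filter Topology

namespace Run7.h262.SV

variable {Γ E : Type} [Group Γ] [NormedAddCommGroup E] [NormedSpace ℝ E] [FiniteDimensional ℝ E]
  {hol : Γ →* (E ≃ᵃ[ℝ] E)} {A : Subgroup Γ} {Ω : Set E}

theorem actp_comb (Y : AA E) (x y : E) (a b : ℝ) (hab : a + b = 1) :
    actp Y (a • x + b • y) = a • actp Y x + b • actp Y y := by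
  unfold actp
  have h1 : ((a • x + b • y, 1) : E × ℝ) = a • (x, 1) + b • (y, 1) := by
    ext
    · rfl
    · simp [hab]
  rw [h1, map_add, map_smul, map_smul]
  rfl

theorem actp_cont : Continuous fun p : E × AA E => actp p.2 p.1 := by
  unfold actp
  fun_prop

theorem hh_add (hA : ∀ a ∈ A, ∀ b ∈ A, a * b = b * a) {X Y : AA E} (hX : X ∈ HH hol A hA)
    (hY : Y ∈ HH hol A hA) (x : E) :
    actp (NormedSpace.exp (X + Y)) x = actp (NormedSpace.exp X) (actp (NormedSpace.exp Y) x) := by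
  rw [exp_add' (SS_comm hol A hA (HH_le hol A hA hX) (HH_le hol A hA hY)),
    actp_mul _ _ (exp_snd Y (HH_snd hol A hA hY))]

theorem ll_act (hA : ∀ a ∈ A, ∀ b ∈ A, a * b = b * a) {X : AA E} (hX : X ∈ LL hol A hA) :
    ∃ a ∈ A, ∀ x, actp (NormedSpace.exp X) x = hol a x := by
  obtain ⟨_, _, a, ha, h3⟩ := hX
  refine ⟨a, ha, fun x => ?_⟩
  rw [h3, actp_hat]

theorem hh_conj_act (hA : ∀ a ∈ A, ∀ b ∈ A, a * b = b * a) (γ : Γ) {X : AA E}
    (hX : X ∈ HH hol A hA) (x : E) :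
    actp (NormedSpace.exp X) (hol γ x) =
      hol γ (actp (NormedSpace.exp (hat (hol γ⁻¹) * X * hat (hol γ))) x) := by
  have h1 : hat (hol γ) * (hat (hol γ⁻¹) * X * hat (hol γ)) = X * hat (hol γ) := by
    rw [← mul_assoc, ← mul_assoc, hat_mul_inv, one_mul]
  have h2 := exp_semiconj' h1
  have h3 : actp (hat (hol γ) * NormedSpace.exp (hat (hol γ⁻¹) * X * hat (hol γ))) x =
      actp (NormedSpace.exp X * hat (hol γ)) x := by rw [h2]
  have hs : ∀ w, (NormedSpace.exp (hat (hol γ⁻¹) * X * hat (hol γ)) w).2 = w.2 := by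
    refine exp_snd _ fun w => ?_
    change (X _).2 = 0
    exact HH_snd hol A hA hX _
  have hs' : ∀ w, (hat (hol γ) w).2 = w.2 := fun w => rfl
  rw [actp_mul _ _ hs, actp_mul _ _ hs', actp_hat, actp_hat] at h3
  exact h3.symm

/-- the points whose orbits stay in the domain -/
def OH (hol : Γ →* (E ≃ᵃ[ℝ] E)) (A : Subgroup Γ) (Ω : Set E)
    (hA : ∀ a ∈ A, ∀ b ∈ A, a * b = b * a) : Set E :=
  {x | ∀ X ∈ HH hol A hA, actp (NormedSpace.exp X) x ∈ Ω}

theorem OH_sub (hA : ∀ a ∈ A, ∀ b ∈ A, a * b = b * a) : OH hol A Ω hA ⊆ Ω := by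
  intro x hx
  have := hx 0 (Submodule.zero_mem _)
  rw [NormedSpace.exp_zero] at this
  exact this

theorem hh_cpt (hA : ∀ a ∈ A, ∀ b ∈ A, a * b = b * a) :
    ∃ Q : Set (AA E), IsCompact Q ∧ Q ⊆ HH hol A hA ∧
      ∀ X ∈ HH hol A hA, ∃ q ∈ Q, X - q ∈ LL hol A hA := by
  obtain ⟨Q, hQ, hQL⟩ := span_cpt (V := HH hol A hA)
    ((LL hol A hA).comap (HH hol A hA).subtype.toAddMonoidHom) Submodule.span_span_coe_preimage
  refine ⟨(HH hol A hA).subtypeL '' Q, hQ.image (HH hol A hA).subtypeL.continuous, ?_, ?_⟩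
  · rintro _ ⟨q, _, rfl⟩
    exact q.2
  · intro X hX
    obtain ⟨q, hq, h⟩ := hQL ⟨X, hX⟩
    exact ⟨q, ⟨q, hq, rfl⟩, h⟩

theorem OH_iff (hA : ∀ a ∈ A, ∀ b ∈ A, a * b = b * a) (hinv : ∀ γ : Γ, ∀ x ∈ Ω, hol γ x ∈ Ω)
    {Q : Set (AA E)} (hQ1 : Q ⊆ HH hol A hA)
    (hQ : ∀ X ∈ HH hol A hA, ∃ q ∈ Q, X - q ∈ LL hol A hA) (x : E) :
    x ∈ OH hol A Ω hA ↔ ∀ q ∈ Q, actp (NormedSpace.exp q) x ∈ Ω := by
  refine ⟨fun h q hq => h q (hQ1 hq), fun h X hX => ?_⟩
  obtain ⟨q, hq, h1⟩ := hQ X hX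
  obtain ⟨a, ha, h2⟩ := ll_act hA h1
  have h3 : X = (X - q) + q := by abel
  rw [h3, hh_add hA (Submodule.subset_span h1) (hQ1 hq), h2]
  exact hinv a _ (h q hq)

theorem OH_isOpen (hA : ∀ a ∈ A, ∀ b ∈ A, a * b = b * a) (hΩ : IsOpen Ω)
    (hinv : ∀ γ : Γ, ∀ x ∈ Ω, hol γ x ∈ Ω) : IsOpen (OH hol A Ω hA) := by
  obtain ⟨Q, hQ, hQ1, hQL⟩ := hh_cpt (hol := hol) hA
  rw [isOpen_iff_mem_nhds]
  intro x hx
  rw [OH_iff hA hinv hQ1 hQL] at hx
  have h1 : ∀ᶠ y in 𝓝 x, ∀ q ∈ Q, actp (NormedSpace.exp q) y ∈ Ω := by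
    refine hQ.eventually_forall_of_forall_eventually fun q hq => ?_
    have h2 : Continuous fun p : E × AA E => actp (NormedSpace.exp p.2) p.1 := by
      have h3 : Continuous fun p : E × AA E => (p.1, NormedSpace.exp p.2) :=
        continuous_fst.prodMk (exp_cont'.comp continuous_snd)
      exact actp_cont.comp h3
    exact h2.continuousAt.eventually (hΩ.mem_nhds (hx q hq))
  filter_upwards [h1] with y hy
  rw [OH_iff hA hinv hQ1 hQL]
  exact hy

theorem OH_convex (hA : ∀ a ∈ A, ∀ b ∈ A, a * b = b * a) (hΩ : Convex ℝ Ω) :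
    Convex ℝ (OH hol A Ω hA) := by
  intro x hx y hy a b ha hb hab X hX
  rw [actp_comb _ _ _ _ _ hab]
  exact hΩ (hx X hX) (hy X hX) ha hb hab

theorem OH_inv (hA : ∀ a ∈ A, ∀ b ∈ A, a * b = b * a) (hN : A.Normal)
    (hinv : ∀ γ : Γ, ∀ x ∈ Ω, hol γ x ∈ Ω) (γ : Γ) (x : E) (hx : x ∈ OH hol A Ω hA) :
    hol γ x ∈ OH hol A Ω hA := by
  intro X hX
  rw [hh_conj_act hA γ hX]
  refine hinv γ _ (hx _ ?_)
  have := HH_conj hol A hA hN γ⁻¹ hX
  rwa [inv_inv] at this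

/-- convex combinations of elements of the subgroup preserve the domain -/
theorem cv_act (hΩ : Convex ℝ Ω) (hinv : ∀ γ : Γ, ∀ x ∈ Ω, hol γ x ∈ Ω) {Y : AA E}
    (hY : Y ∈ convexHull ℝ ((fun a => hat (hol a)) '' (A : Set Γ))) {x : E} (hx : x ∈ Ω) :
    actp Y x ∈ Ω := by
  have h1 : convexHull ℝ ((fun a => hat (hol a)) '' (A : Set Γ)) ⊆ {Y | actp Y x ∈ Ω} := by
    refine convexHull_min ?_ ?_
    · rintro _ ⟨a, _, rfl⟩
      change actp (hat (hol a)) x ∈ Ω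
      rw [actp_hat]
      exact hinv a x hx
    · intro Y hY Z hZ a b ha hb hab
      change actp (a • Y + b • Z) x ∈ Ω
      have h2 : actp (a • Y + b • Z) x = a • actp Y x + b • actp Z x := rfl
      rw [h2]
      exact hΩ hY hZ ha hb hab
  exact h1 hY

theorem cv_mul {Y Z : AA E}
    (hY : Y ∈ convexHull ℝ ((fun a => hat (hol a)) '' (A : Set Γ)))
    (hZ : Z ∈ convexHull ℝ ((fun a => hat (hol a)) '' (A : Set Γ))) :
    Y * Z ∈ convexHull ℝ ((fun a => hat (hol a)) '' (A : Set Γ)) := by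
  have h1 : ∀ a ∈ A, ∀ Z ∈ convexHull ℝ ((fun a => hat (hol a)) '' (A : Set Γ)),
      hat (hol a) * Z ∈ convexHull ℝ ((fun a => hat (hol a)) '' (A : Set Γ)) := by
    intro a ha Z hZ
    have h2 : convexHull ℝ ((fun a => hat (hol a)) '' (A : Set Γ)) ⊆
        {Z | hat (hol a) * Z ∈ convexHull ℝ ((fun a => hat (hol a)) '' (A : Set Γ))} := by
      refine convexHull_min ?_ ?_
      · rintro _ ⟨b, hb, rfl⟩
        change hat (hol a) * hat (hol b) ∈ convexHull ℝ ((fun a => hat (hol a)) '' (A : Set Γ))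
        rw [← map_mul, ← map_mul]
        exact subset_convexHull _ _ ⟨a * b, A.mul_mem ha hb, rfl⟩
      · intro Z hZ W hW r s hr hs hrs
        change hat (hol a) * (r • Z + s • W) ∈ convexHull ℝ ((fun a => hat (hol a)) '' (A : Set Γ))
        rw [mul_add, mul_smul_comm, mul_smul_comm]
        exact convex_convexHull ℝ _ hZ hW hr hs hrs
    exact h2 hZ
  have h2 : convexHull ℝ ((fun a => hat (hol a)) '' (A : Set Γ)) ⊆
      {Y | Y * Z ∈ convexHull ℝ ((fun a => hat (hol a)) '' (A : Set Γ))} := by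
    refine convexHull_min ?_ ?_
    · rintro _ ⟨b, hb, rfl⟩
      exact h1 b hb Z hZ
    · intro Y hY W hW r s hr hs hrs
      change (r • Y + s • W) * Z ∈ convexHull ℝ ((fun a => hat (hol a)) '' (A : Set Γ))
      rw [add_mul, smul_mul_assoc, smul_mul_assoc]
      exact convex_convexHull ℝ _ hY hW hr hs hrs
  exact h2 hY

theorem cv_pow {Y : AA E} (hY : Y ∈ convexHull ℝ ((fun a => hat (hol a)) '' (A : Set Γ))) (n : ℕ) :
    Y ^ n ∈ convexHull ℝ ((fun a => hat (hol a)) '' (A : Set Γ)) := by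
  induction n with
  | zero =>
    rw [pow_zero]
    refine subset_convexHull _ _ ⟨1, A.one_mem, ?_⟩
    simp only [map_one]
  | succ n ih =>
    rw [pow_succ]
    exact cv_mul ih hY

theorem cv_SS {Y : AA E} (hY : Y ∈ convexHull ℝ ((fun a => hat (hol a)) '' (A : Set Γ))) :
    Y ∈ SS hol A :=
  convexHull_min Submodule.subset_span (SS hol A).convex hY

theorem SS_affine {Y : AA E} (hY : Y ∈ SS hol A) (h1 : (Y (0, 1)).2 = 1) :
    Y ∈ affineSpan ℝ ((fun a => hat (hol a)) '' (A : Set Γ)) := by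
  set S : AffineSubspace ℝ (AA E) := affineSpan ℝ ((fun a => hat (hol a)) '' (A : Set Γ)) with hS
  have hone : (1 : AA E) ∈ S := subset_affineSpan ℝ _ ⟨1, A.one_mem, by simp only [map_one]⟩
  have key : ∀ Y ∈ SS hol A, Y - (Y (0, 1)).2 • (1 : AA E) ∈ S.direction := by
    intro Y hY
    refine Submodule.span_induction
      (p := fun Y _ => Y - (Y (0, 1)).2 • (1 : AA E) ∈ S.direction) ?_ ?_ ?_ ?_ hY
    · rintro _ ⟨a, ha, rfl⟩
      simp only [hat_apply, one_smul]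
      exact S.vsub_mem_direction (subset_affineSpan ℝ _ ⟨a, ha, rfl⟩) hone
    · simp
    · intro X Y _ _ hX hY
      have e : X + Y - ((X + Y) (0, 1)).2 • (1 : AA E) =
          (X - (X (0, 1)).2 • (1 : AA E)) + (Y - (Y (0, 1)).2 • (1 : AA E)) := by
        rw [add_apply, Prod.snd_add, add_smul]
        abel
      rw [e]
      exact S.direction.add_mem hX hY
    · intro r X _ hX
      have e : r • X - ((r • X) (0, 1)).2 • (1 : AA E) = r • (X - (X (0, 1)).2 • (1 : AA E)) := by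
        rw [smul_apply, Prod.smul_snd, smul_sub, smul_smul, smul_eq_mul]
      rw [e]
      exact S.direction.smul_mem r hX
  have h2 := key Y hY
  rw [h1, one_smul] at h2
  have h3 := S.vadd_mem_of_mem_direction h2 hone
  rwa [vadd_eq_add, sub_add_cancel] at h3

theorem OH_nonempty (hA : ∀ a ∈ A, ∀ b ∈ A, a * b = b * a) (hΩ : Convex ℝ Ω)
    (hne : Ω.Nonempty) (hinv : ∀ γ : Γ, ∀ x ∈ Ω, hol γ x ∈ Ω) : (OH hol A Ω hA).Nonempty := by
  obtain ⟨Q, hQ, hQ1, hQL⟩ := hh_cpt (hol := hol) hA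
  set C := convexHull ℝ ((fun a => hat (hol a)) '' (A : Set Γ)) with hC
  have hCne : C.Nonempty := ⟨hat (hol 1), subset_convexHull _ _ ⟨1, A.one_mem, rfl⟩⟩
  obtain ⟨P, hP⟩ := hCne.intrinsicInterior (convex_convexHull ℝ _)
  obtain ⟨p, hp, rfl⟩ := mem_intrinsicInterior.1 hP
  rw [mem_interior_iff_mem_nhds, Metric.mem_nhds_iff] at hp
  obtain ⟨δ, hδ, hball⟩ := hp
  have hPC : (p : AA E) ∈ C := intrinsicInterior_subset hP
  have hPS : (p : AA E) ∈ SS hol A := cv_SS hPC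
  have hP1 : ((p : AA E) (0, 1)).2 = 1 := by
    have h1 : C ⊆ {Y | (Y (0, 1)).2 = 1} := by
      refine convexHull_min ?_ ?_
      · rintro _ ⟨a, _, rfl⟩
        simp only [Set.mem_ofPred_eq, hat_apply]
      · intro Y hY Z hZ a b _ _ hab
        change a * (Y (0, 1)).2 + b * (Z (0, 1)).2 = 1
        rw [show (Y (0, 1)).2 = 1 from hY, show (Z (0, 1)).2 = 1 from hZ, mul_one, mul_one, hab]
    exact h1 hPC
  -- small multiples
  have hcont : Continuous fun Y : AA E => NormedSpace.exp Y * (p : AA E) :=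
    exp_cont'.mul continuous_const
  have h0 : ∀ᶠ Y in 𝓝 (0 : AA E), dist (NormedSpace.exp Y * (p : AA E)) (p : AA E) < δ := by
    have h1 := hcont.tendsto 0
    rw [NormedSpace.exp_zero, one_mul] at h1
    exact h1 (Metric.ball_mem_nhds _ hδ)
  obtain ⟨η, hη, h1⟩ := Metric.eventually_nhds_iff.1 h0
  obtain ⟨R, hR⟩ := hQ.isBounded.exists_norm_le
  obtain ⟨n, hn⟩ := exists_nat_gt (|R| / η)
  have hn0 : 0 < (n : ℝ) := lt_of_le_of_lt (by positivity) hn
  have hn1 : n ≠ 0 := by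
    rintro rfl
    simp at hn0
  have key : ∀ q ∈ Q, NormedSpace.exp ((n : ℝ)⁻¹ • (q : AA E)) * (p : AA E) ∈ C := by
    intro q hq
    have hqS : (n : ℝ)⁻¹ • (q : AA E) ∈ SS hol A :=
      Submodule.smul_mem _ _ (HH_le hol A hA (hQ1 hq))
    have h2 : dist ((n : ℝ)⁻¹ • (q : AA E)) 0 < η := by
      rw [dist_zero_right, norm_smul, norm_inv, Real.norm_of_nonneg hn0.le,
        inv_mul_lt_iff₀ hn0]
      rw [div_lt_iff₀ hη] at hn
      exact lt_of_le_of_lt ((hR q hq).trans (le_abs_self R)) hn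
    have h3 := h1 h2
    have h4 : NormedSpace.exp ((n : ℝ)⁻¹ • (q : AA E)) * (p : AA E) ∈ affineSpan ℝ C := by
      have e : affineSpan ℝ C = affineSpan ℝ ((fun a => hat (hol a)) '' (A : Set Γ)) :=
        affineSpan_convexHull _
      refine (le_of_eq e.symm) (SS_affine (SS_mul hol A (SS_exp hol A hqS) hPS) ?_)
      rw [mul_apply_eq_comp, exp_snd _ (fun w => ?_), hP1]
      rw [smul_apply, Prod.smul_snd, HH_snd hol A hA (hQ1 hq), smul_zero]
    exact hball (show (⟨_, h4⟩ : affineSpan ℝ C) ∈ Metric.ball p δ from h3)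
  obtain ⟨x₀, hx₀⟩ := hne
  have hpn : ∀ w, (((p : AA E) ^ n) w).2 = w.2 := by
    intro w
    have hS := SS_snd hol A (cv_SS (cv_pow hPC n)) w
    have h2 : ∀ n : ℕ, (((p : AA E) ^ n) (0, 1)).2 = 1 := by
      intro n
      induction n with
      | zero => rfl
      | succ n ih =>
        rw [pow_succ', mul_apply_eq_comp, SS_snd hol A hPS, hP1, ih, mul_one]
    rw [hS, h2, one_mul]
  refine ⟨actp ((p : AA E) ^ n) x₀, ?_⟩
  rw [OH_iff hA hinv hQ1 hQL]
  intro q hq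
  rw [← actp_mul _ _ hpn]
  refine cv_act (A := A) hΩ hinv ?_ hx₀
  have h2 : NormedSpace.exp (q : AA E) * (p : AA E) ^ n =
      (NormedSpace.exp ((n : ℝ)⁻¹ • (q : AA E)) * (p : AA E)) ^ n := by
    have hqS : (n : ℝ)⁻¹ • (q : AA E) ∈ SS hol A :=
      Submodule.smul_mem _ _ (HH_le hol A hA (hQ1 hq))
    have hc : Commute (NormedSpace.exp ((n : ℝ)⁻¹ • (q : AA E))) (p : AA E) :=
      SS_comm hol A hA (SS_exp hol A hqS) hPS
    rw [hc.mul_pow]
    congr 1
    let _ : NormedAlgebra ℚ (AA E) := NormedAlgebra.restrictScalars ℚ ℝ (AA E)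
    rw [← NormedSpace.exp_nsmul]
    congr 1
    rw [← Nat.cast_smul_eq_nsmul ℝ, smul_smul, mul_inv_cancel₀ hn0.ne', one_smul]
  rw [h2]
  exact cv_pow (key q hq) n

end Run7.h262.SV
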