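import Pool.Agent.Run7.h262.SV.Inst

/-!
The seminorm of quotients with a nontrivial commutative normal subgroup.
-/

set_option autoImplicit false

open Filter Topology

namespace Run7.h262.SV

open Pool.Agent.N520.SV

/-- closed affine manifolds whose developing map is injective with convex image -/
structure CvxData (X Γ E : Type) [TopologicalSpace X] [Group Γ] [MulAction Γ X]
    [NormedAddCommGroup E] [NormedSpace ℝ E] (D : X → E) (hol : Γ →* (E ≃ᵃ[ℝ] E)) : Prop where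
  emb : IsOpenEmbedding D
  convex : Convex ℝ (Set.range D)
  equi : ∀ (γ : Γ) (x : X), D (γ • x) = hol γ (D x)
  free : ∀ (γ : Γ) (x : X), γ • x = x → γ = 1
  pd : ∀ K : Set X, IsCompact K → {γ : Γ | ∃ x ∈ K, γ • x ∈ K}.Finite
  cc : ∃ K : Set X, IsCompact K ∧ ∀ x : X, ∃ γ : Γ, γ • x ∈ K

section
variable {X Γ E : Type} [TopologicalSpace X] [Group Γ] [MulAction Γ X]
    [NormedAddCommGroup E] [NormedSpace ℝ E] [FiniteDimensional ℝ E] {D : X → E}
    {hol : Γ →* (E ≃ᵃ[ℝ] E)}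

theorem CvxData.affDom [Nonempty X] (h : CvxData X Γ E D hol) :
    AffDom Γ E hol (Set.range D) := by
  refine ⟨h.emb.isOpen_range, h.convex, Set.range_nonempty D, ?_, ?_, ?_, ?_⟩
  · rintro γ _ ⟨x, rfl⟩
    exact ⟨γ • x, h.equi γ x⟩
  · intro K hK hKD
    have h1 : IsCompact (D ⁻¹' K) := (h.emb.isInducing.isCompact_preimage_iff hKD).2 hK
    refine (h.pd _ h1).subset ?_
    rintro γ ⟨x, hx, h2⟩
    obtain ⟨y, rfl⟩ := hKD hx
    refine ⟨y, hx, ?_⟩
    change D (γ • y) ∈ K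
    rw [h.equi]
    exact h2
  · rintro γ _ ⟨x, rfl⟩ h1
    rw [← h.equi] at h1
    exact h.free γ x (h.emb.injective h1)
  · obtain ⟨K, hK, h1⟩ := h.cc
    refine ⟨D '' K, hK.image h.emb.continuous, Set.image_subset_range _ _, ?_⟩
    rintro _ ⟨x, rfl⟩
    obtain ⟨γ, hγ⟩ := h1 x
    exact ⟨γ, γ • x, hγ, h.equi γ x⟩

theorem CvxData.cont (h : CvxData X Γ E D hol) (γ : Γ) : Continuous fun x : X => γ • x := by
  rw [h.emb.isInducing.continuous_iff]
  have : (D ∘ fun x : X => γ • x) = fun x => hol γ (D x) := funext fun x => h.equi γ x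
  rw [this]
  exact (hol_cont γ).comp h.emb.continuous

/-- weights give the vanishing of the seminorm -/
theorem CvxData.of_weights [Nonempty X] (h : CvxData X Γ E D hol) (A : Subgroup Γ)
    (hA : ∀ a ∈ A, ∀ b ∈ A, a * b = b * a) (l : (Γ ⧸ A) → E → ℝ)
    (hl : Weights Γ X (Γ ⧸ A) E D (Set.range D) l) (k : ℕ) (hk : Module.finrank ℝ E ≤ k + 1) :
    Negligible k (MulAction.orbitRel.Quotient Γ X) := by
  have h1 : T2Space X := h.emb.isEmbedding.t2Space
  have h2 : LocallyCompactSpace X := h.emb.locallyCompactSpace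
  obtain ⟨μ, hμ1, hμn, hμe⟩ := coset_means A hA
  exact core D hol h.cont h.pd h.free h.emb h.convex h.equi k hk l hl μ hμ1 hμn hμe

/-- nontrivial commutative normal subgroups -/
theorem CvxData.of_abelian [Nonempty X] (h : CvxData X Γ E D hol) (A : Subgroup Γ)
    (hA : ∀ a ∈ A, ∀ b ∈ A, a * b = b * a) (hN : A.Normal) (hne : A ≠ ⊥)
    (k : ℕ) (hk : Module.finrank ℝ E ≤ k + 1) :
    Negligible k (MulAction.orbitRel.Quotient Γ X) := by
  obtain ⟨⟨a, ha⟩, ha0⟩ := Subgroup.ne_bot_iff_exists_ne_one.1 hne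
  have ha1 : a ≠ 1 := fun h1 => ha0 (Subtype.ext h1)
  have hd := h.affDom
  obtain ⟨l, hl⟩ := ab_weights hA hN hd a ha (no_two hd a ha1)
  obtain ⟨l', hl'⟩ := pull_weights hd (fun x => ⟨x, rfl⟩) h.equi
    (OH_isOpen hA hd.isOpen hd.inv) (OH_convex hA hd.convex)
    (OH_nonempty hA hd.convex hd.nonempty hd.inv) (fun γ x hx => OH_inv hA hN hd.inv γ x hx) hl
  exact h.of_weights A hA l' hl' k hk

end

end Run7.h262.SV
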