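import Mathlib

/-!
Squares of units of commutative finite dimensional real algebras are exponentials.
-/

set_option autoImplicit false

open Filter Topology Polynomial

namespace Run7.h262.SV

section
variable {R : Type} [NormedRing R] [NormedAlgebra ℝ R] [CompleteSpace R]

theorem exp_add' {x y : R} (h : Commute x y) :
    NormedSpace.exp (x + y) = NormedSpace.exp x * NormedSpace.exp y := by
  let _ : NormedAlgebra ℚ R := NormedAlgebra.restrictScalars ℚ ℝ R
  exact NormedSpace.exp_add_of_commute h

theorem exp_cont' : Continuous (NormedSpace.exp : R → R) := by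
  let _ : NormedAlgebra ℚ R := NormedAlgebra.restrictScalars ℚ ℝ R
  exact NormedSpace.exp_continuous

theorem exp_unit' (x : R) : NormedSpace.exp x * NormedSpace.exp (-x) = 1 := by
  rw [← exp_add' ((Commute.refl x).neg_right), add_neg_cancel, NormedSpace.exp_zero]

theorem exp_semiconj' {x a b : R} (h : x * a = b * x) :
    x * NormedSpace.exp a = NormedSpace.exp b * x := by
  let _ : NormedAlgebra ℚ R := NormedAlgebra.restrictScalars ℚ ℝ R
  exact SemiconjBy.exp_right (𝔸 := R) (x := x) (a := a) (b := b) h

theorem exp_nhds_one : {y : R | ∃ x, NormedSpace.exp x = y} ∈ 𝓝 (1 : R) := by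
  let _ : NormedAlgebra ℚ R := NormedAlgebra.restrictScalars ℚ ℝ R
  have h1 := (hasStrictFDerivAt_exp_zero (𝕂 := ℝ) (𝔸 := R)).map_nhds_eq_of_surj (by
    rw [LinearMap.range_eq_top]
    exact fun y => ⟨y, rfl⟩)
  rw [NormedSpace.exp_zero] at h1
  rw [← h1]
  refine Filter.mem_map.2 ?_
  exact Filter.univ_mem' fun x => ⟨x, rfl⟩

end

theorem map_exp' {R B : Type} [NormedRing R] [NormedAlgebra ℝ R] [FiniteDimensional ℝ R]
    [NormedRing B] [NormedAlgebra ℝ B] (f : R →ₐ[ℝ] B) (hf : Continuous f) (x : R) :
    f (NormedSpace.exp x) = NormedSpace.exp (f x) := by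
  have : CompleteSpace R := FiniteDimensional.complete ℝ R
  let _ : NormedAlgebra ℚ R := NormedAlgebra.restrictScalars ℚ ℝ R
  let _ : NormedAlgebra ℚ B := NormedAlgebra.restrictScalars ℚ ℝ B
  exact NormedSpace.map_exp f hf x

theorem exp_mem' {B : Type} [NormedRing B] [NormedAlgebra ℝ B] (R : Subalgebra ℝ B)
    (hR : IsClosed (R : Set B)) {x : B} (hx : x ∈ R) : NormedSpace.exp x ∈ R := by
  rw [NormedSpace.exp_eq_tsum ℝ]
  exact tsum_mem hR fun n => R.smul_mem (pow_mem hx n) _

/-- the path used to connect `1` to the square of a unit -/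
noncomputable def np {R : Type} [Ring R] [Algebra ℝ R] (c : R) (p : ℂ) : R :=
  1 + (2 * p.re) • c + (p.re ^ 2 + p.im ^ 2) • c ^ 2

theorem square_exp {R : Type} [NormedRing R] [NormedAlgebra ℝ R] [FiniteDimensional ℝ R]
    (hcomm : ∀ x y : R, x * y = y * x) (a b : R) (hab : a * b = 1) :
    ∃ X : R, NormedSpace.exp X = a * a := by
  have : CompleteSpace R := FiniteDimensional.complete ℝ R
  set c : R := a - 1 with hc
  set m : ℝ[X] := minpoly ℝ c with hm
  have hint : IsIntegral ℝ c := Algebra.IsIntegral.isIntegral c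
  have hm0 : m ≠ 0 := minpoly.ne_zero hint
  have hun : ∀ x y : R, x * y = 1 → IsUnit x := fun x y h => ⟨⟨x, y, h, (hcomm y x).trans h⟩, rfl⟩
  -- the non units are countable
  set NU : Set ℂ := {p | ¬ IsUnit (np c p)} with hNU
  have hcount : NU.Countable := by
    have hfin : {p : ℂ | ∃ z ∈ (m.map (algebraMap ℝ ℂ)).rootSet ℂ,
        1 + p * z = 0 ∨ 1 + (starRingEnd ℂ) p * z = 0}.Finite := by
      have h1 : {p : ℂ | ∃ z ∈ (m.map (algebraMap ℝ ℂ)).rootSet ℂ,
          1 + p * z = 0 ∨ 1 + (starRingEnd ℂ) p * z = 0} ⊆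
          ((fun z : ℂ => -z⁻¹) '' (m.map (algebraMap ℝ ℂ)).rootSet ℂ) ∪
          ((fun z : ℂ => (starRingEnd ℂ) (-z⁻¹)) '' (m.map (algebraMap ℝ ℂ)).rootSet ℂ) := by
        rintro p ⟨z, hz, h | h⟩
        · left
          refine ⟨z, hz, ?_⟩
          have hz0 : z ≠ 0 := by
            rintro rfl
            rw [mul_zero, add_zero] at h
            exact one_ne_zero h
          have : p * z = -1 := by linear_combination h
          simp only
          field_simp
          linear_combination -this
        · right
          refine ⟨z, hz, ?_⟩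
          have hz0 : z ≠ 0 := by
            rintro rfl
            rw [mul_zero, add_zero] at h
            exact one_ne_zero h
          have h2 : (starRingEnd ℂ) p = -z⁻¹ := by
            field_simp
            linear_combination h
          simp only
          rw [← h2, Complex.conj_conj]
      exact (((Polynomial.rootSet_finite _ _).image _).union
        ((Polynomial.rootSet_finite _ _).image _)).subset h1
    refine (hfin.subset fun p hp => ?_).countable
    by_contra hcon
    apply hp
    set n : ℝ[X] := 1 + C (2 * p.re) * X + C (p.re ^ 2 + p.im ^ 2) * X ^ 2 with hn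
    have hcop : IsCoprime n m := by
      refine (Polynomial.isCoprime_iff_aeval_ne_zero_of_isAlgClosed (k := ℝ) ℂ n m).2 fun z => ?_
      by_contra hz
      push Not at hz
      apply hcon
      refine ⟨z, ?_, ?_⟩
      · rw [Polynomial.mem_rootSet]
        refine ⟨(Polynomial.map_ne_zero_iff (algebraMap ℝ ℂ).injective).2 hm0, ?_⟩
        rw [Polynomial.aeval_map_algebraMap]
        exact hz.2
      · have h1 : aeval z n = (1 + p * z) * (1 + (starRingEnd ℂ) p * z) := by
          have e1 : (starRingEnd ℂ) p * p = ((p.re ^ 2 + p.im ^ 2 : ℝ) : ℂ) := by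
            rw [mul_comm, Complex.mul_conj, Complex.normSq_apply]
            push_cast
            ring
          have e2 : p + (starRingEnd ℂ) p = ((2 * p.re : ℝ) : ℂ) := by
            rw [Complex.add_conj]
          have e3 : aeval z n = 1 + ((2 * p.re : ℝ) : ℂ) * z +
              ((p.re ^ 2 + p.im ^ 2 : ℝ) : ℂ) * z ^ 2 := by
            rw [hn]
            simp [Complex.coe_algebraMap]
          rw [e3, ← e1, ← e2]
          ring
        rw [h1] at hz
        exact mul_eq_zero.1 hz.1
    obtain ⟨u, v, huv⟩ := hcop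
    have h2 := congrArg (aeval c) huv
    rw [map_add, map_mul, map_mul, hm, minpoly.aeval, mul_zero, add_zero, map_one] at h2
    have h3 : aeval c n = np c p := by
      rw [hn, np]
      simp [Algebra.smul_def]
    rw [h3] at h2
    exact hun _ _ ((hcomm _ _).trans h2)
  have hconn : IsPreconnected (NUᶜ) := by
    refine (Set.Countable.isPathConnected_compl_of_one_lt_rank ?_ hcount).isConnected.isPreconnected
    rw [Complex.rank_real_complex]
    exact_mod_cast one_lt_two
  have hnpc : Continuous (np c) := by
    unfold np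
    have h1 : Continuous fun p : ℂ => (2 * p.re) := by fun_prop
    have h2 : Continuous fun p : ℂ => (p.re ^ 2 + p.im ^ 2) := by fun_prop
    exact (continuous_const.add (h1.smul continuous_const)).add (h2.smul continuous_const)
  -- the relation
  let P : ℂ → ℂ → Prop := fun p q => ∃ X : R, np c q = NormedSpace.exp X * np c p
  have hP : P 0 1 := by
    refine hconn.induction₂ P ?_ ?_ ?_ ?_ ?_
    · intro p hp
      have hu : IsUnit (np c p) := by
        by_contra h
        exact hp h
      obtain ⟨w, hw⟩ := hu
      have h1 : Tendsto (fun q => np c q * (↑w⁻¹ : R)) (𝓝 p) (𝓝 1) := by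
        have h2 : Tendsto (fun q => np c q * (↑w⁻¹ : R)) (𝓝 p) (𝓝 (np c p * (↑w⁻¹ : R))) :=
          (hnpc.tendsto p).mul_const _
        rwa [← hw, Units.mul_inv] at h2
      refine mem_nhdsWithin_of_mem_nhds ?_
      filter_upwards [h1 exp_nhds_one] with q hq
      obtain ⟨X, hX⟩ := hq
      refine ⟨X, ?_⟩
      rw [hX, ← hw, mul_assoc, Units.inv_mul, mul_one]
    · rintro p q r _ _ _ ⟨X, hX⟩ ⟨Y, hY⟩
      refine ⟨Y + X, ?_⟩
      rw [hY, hX, exp_add' (hcomm Y X), mul_assoc]
    · rintro p q _ _ ⟨X, hX⟩
      refine ⟨-X, ?_⟩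
      rw [hX, ← mul_assoc, hcomm (NormedSpace.exp (-X)), exp_unit', one_mul]
    · intro h
      apply h
      simp [np]
    · intro h
      apply h
      have h1 : np c 1 = a * a := by
        rw [np, hc]
        simp only [Complex.one_re, Complex.one_im]
        norm_num
        rw [two_smul, sq]
        noncomm_ring
      rw [h1]
      refine hun _ (b * b) ?_
      rw [mul_assoc, ← mul_assoc a b b, hab, one_mul, hab]
  obtain ⟨X, hX⟩ := hP
  refine ⟨X, ?_⟩
  have h0 : np c 0 = 1 := by simp [np]
  have h1 : np c 1 = a * a := by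
    rw [np, hc]
    simp only [Complex.one_re, Complex.one_im]
    norm_num
    rw [two_smul, sq]
    noncomm_ring
  rw [← h1, hX, h0, mul_one]

end Run7.h262.SV
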