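import Mathlib

/-!
Averages of periodic functions on vector spaces.
-/

set_option autoImplicit false

open Filter Topology MeasureTheory

namespace Run7.h262.SV

theorem param_smooth {E T : Type} [NormedAddCommGroup E] [NormedSpace ℝ E]
    [FiniteDimensional ℝ E] [TopologicalSpace T] [CompactSpace T] [MeasurableSpace T]
    [BorelSpace T] (μ : Measure T) [IsFiniteMeasure μ] {U : Set E} (hU : IsOpen U)
    (F : E → T → ℝ) (F' : E → T → (E →L[ℝ] ℝ))
    (h1 : ContinuousOn (fun p : E × T => F p.1 p.2) (U ×ˢ Set.univ))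
    (h2 : ContinuousOn (fun p : E × T => F' p.1 p.2) (U ×ˢ Set.univ))
    (h3 : ∀ y ∈ U, ∀ θ, HasFDerivAt (fun y => F y θ) (F' y θ) y) :
    ContDiffOn ℝ 1 (fun y => ∫ θ, F y θ ∂μ) U := by
  have hc1 : ∀ y ∈ U, Continuous (F y) := fun y hy => by
    have h4 : Continuous fun θ : T => (y, θ) := by fun_prop
    exact (h1.comp_continuous h4 fun θ => ⟨hy, trivial⟩)
  have hc2 : ∀ y ∈ U, Continuous (F' y) := fun y hy => by
    have h4 : Continuous fun θ : T => (y, θ) := by fun_prop
    exact (h2.comp_continuous h4 fun θ => ⟨hy, trivial⟩)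
  have hbd : ∀ y ∈ U, ∃ C : ℝ, ∀ᶠ y' in 𝓝 y, y' ∈ U ∧ ∀ θ, ‖F' y' θ‖ ≤ C := by
    intro y hy
    obtain ⟨K, hK, hyK, hKU⟩ := exists_compact_subset hU hy
    obtain ⟨C, hC⟩ := (hK.prod isCompact_univ).exists_bound_of_continuousOn
      (h2.mono (Set.prod_mono hKU (le_refl (Set.univ : Set T))))
    refine ⟨C, ?_⟩
    filter_upwards [mem_interior_iff_mem_nhds.1 hyK] with y' hy'
    exact ⟨hKU hy', fun θ => hC (y', θ) ⟨hy', trivial⟩⟩
  have hder : ∀ y ∈ U, HasFDerivAt (fun y => ∫ θ, F y θ ∂μ) (∫ θ, F' y θ ∂μ) y := by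
    intro y hy
    obtain ⟨C, hC⟩ := hbd y hy
    refine hasFDerivAt_integral_of_dominated_of_fderiv_le (bound := fun _ => C)
      (s := {y' | y' ∈ U ∧ ∀ θ, ‖F' y' θ‖ ≤ C}) hC ?_ ?_ ?_ ?_ ?_ ?_
    · filter_upwards [hU.mem_nhds hy] with y' hy'
      exact (hc1 y' hy').aestronglyMeasurable
    · refine Integrable.of_bound (hc1 y hy).aestronglyMeasurable
        (C := (isCompact_univ.exists_bound_of_continuousOn (hc1 y hy).continuousOn).choose) ?_
      exact Eventually.of_forall fun θ =>
        (isCompact_univ.exists_bound_of_continuousOn (hc1 y hy).continuousOn).choose_spec θ trivial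
    · exact (hc2 y hy).aestronglyMeasurable
    · exact Eventually.of_forall fun θ y' hy' => hy'.2 θ
    · exact integrable_const C
    · exact Eventually.of_forall fun θ y' hy' => h3 y' hy'.1 θ
  have hcont : ContinuousOn (fun y => ∫ θ, F' y θ ∂μ) U := by
    intro y hy
    obtain ⟨C, hC⟩ := hbd y hy
    refine ContinuousAt.continuousWithinAt ?_
    refine continuousAt_of_dominated (bound := fun _ => C) ?_ ?_ (integrable_const C) ?_
    · filter_upwards [hU.mem_nhds hy] with y' hy'
      exact (hc2 y' hy').aestronglyMeasurable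
    · filter_upwards [hC] with y' hy'
      exact Eventually.of_forall fun θ => hy'.2 θ
    · refine Eventually.of_forall fun θ => ?_
      have h4 : ContinuousAt (fun p : E × T => F' p.1 p.2) (y, θ) :=
        (h2 (y, θ) ⟨hy, trivial⟩).continuousAt ((hU.prod isOpen_univ).mem_nhds ⟨hy, trivial⟩)
      have h5 : ContinuousAt (fun y' : E => (y', θ)) y := by fun_prop
      exact ContinuousAt.comp (f := fun y' : E => (y', θ)) (g := fun p : E × T => F' p.1 p.2) h4 h5
  rw [show (1 : WithTop ℕ∞) = 0 + 1 from (zero_add 1).symm, contDiffOn_succ_iff_fderiv_of_isOpen hU]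
  refine ⟨fun y hy => (hder y hy).differentiableAt.differentiableWithinAt, by simp, ?_⟩
  rw [contDiffOn_zero]
  refine hcont.congr fun y hy => ?_
  exact (hder y hy).fderiv

section
variable {V : Type} [NormedAddCommGroup V] [NormedSpace ℝ V] [FiniteDimensional ℝ V]

theorem span_cpt (L : AddSubgroup V) (hL : Submodule.span ℝ (L : Set V) = ⊤) :
    ∃ Q : Set V, IsCompact Q ∧ ∀ x, ∃ q ∈ Q, x - q ∈ L := by
  classical
  obtain ⟨b, hbL, hbs, hli⟩ := exists_linearIndependent ℝ (L : Set V)
  rw [hL] at hbs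
  let B := Module.Basis.mk hli (by rw [Subtype.range_coe, hbs])
  have : Fintype b := FiniteDimensional.fintypeBasisIndex B
  have hBL : ∀ i, B i ∈ L := fun i => by
    rw [Module.Basis.mk_apply]
    exact hbL i.2
  let f : (b → ℝ) → V := fun c => ∑ i, c i • B i
  have hf : Continuous f := by
    refine continuous_finsetSum _ fun i _ => ?_
    exact (continuous_apply i).smul continuous_const
  refine ⟨f '' Set.pi Set.univ (fun _ => Set.Icc (0 : ℝ) 1),
    (isCompact_univ_pi fun _ => isCompact_Icc).image hf, fun x => ?_⟩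
  refine ⟨f fun i => Int.fract (B.repr x i), ⟨_, fun i _ => ⟨Int.fract_nonneg _,
    (Int.fract_lt_one _).le⟩, rfl⟩, ?_⟩
  have h1 : x - f (fun i => Int.fract (B.repr x i)) = ∑ i, ⌊B.repr x i⌋ • B i := by
    conv_lhs => rw [← B.sum_repr x]
    simp only [f]
    rw [← Finset.sum_sub_distrib]
    refine Finset.sum_congr rfl fun i _ => ?_
    rw [B.sum_repr, ← sub_smul, Int.self_sub_fract, Int.cast_smul_eq_zsmul]
  rw [h1]
  exact sum_mem fun i _ => L.zsmul_mem (hBL i) _

/-- periodic functions -/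
def Per {W : Type} (L : AddSubgroup V) (f : V → W) : Prop := ∀ x, ∀ l ∈ L, f (x + l) = f x

theorem per_out {W : Type} (L : AddSubgroup V) (f : V → W) (hf : Per L f) (x : V) :
    f (Quotient.out (x : V ⧸ L)) = f x := by
  obtain ⟨l, hl⟩ := QuotientAddGroup.mk_out_eq_add L x
  rw [hl]
  exact hf x l l.2

theorem tcont {E W : Type} [TopologicalSpace E] [TopologicalSpace W]
    (L : AddSubgroup V) {U : Set E} (hU : IsOpen U) (g : E → V → W)
    (hp : ∀ y ∈ U, Per L (g y))
    (hc : ContinuousOn (fun p : E × V => g p.1 p.2) (U ×ˢ Set.univ)) :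
    ContinuousOn (fun p : E × (V ⧸ L) => g p.1 (Quotient.out p.2)) (U ×ˢ Set.univ) := by
  rintro ⟨y, θ⟩ ⟨hy, -⟩
  refine ContinuousAt.continuousWithinAt ?_
  obtain ⟨x, rfl⟩ := QuotientAddGroup.mk_surjective θ
  unfold ContinuousAt
  rw [nhds_prod_eq, QuotientAddGroup.nhds_eq L x, ← Filter.map_id (f := 𝓝 y), Filter.prod_map_map_eq,
    Filter.tendsto_map'_iff, ← nhds_prod_eq]
  change Tendsto (fun p : E × V => g p.1 (Quotient.out ((p.2 : V ⧸ L)))) (𝓝 (y, x))
    (𝓝 (g y (Quotient.out (x : V ⧸ L))))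
  rw [per_out L (g y) (hp y hy)]
  have h1 : ContinuousAt (fun p : E × V => g p.1 p.2) (y, x) :=
    (hc (y, x) ⟨hy, trivial⟩).continuousAt ((hU.prod isOpen_univ).mem_nhds ⟨hy, trivial⟩)
  refine Tendsto.congr' ?_ h1
  filter_upwards [(hU.prod isOpen_univ).mem_nhds (show (y, x) ∈ U ×ˢ Set.univ from ⟨hy, trivial⟩)]
    with p hp'
  exact (per_out L (g p.1) (hp p.1 hp'.1) p.2).symm

/-- averages of periodic functions -/
theorem exists_avg (L : AddSubgroup V) (hL : ∃ Q : Set V, IsCompact Q ∧ ∀ x, ∃ q ∈ Q, x - q ∈ L) :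
    ∃ J : (V → ℝ) → ℝ, J (fun _ => 1) = 1 ∧ J (fun _ => 0) = 0 ∧
      (∀ (ι : Type) (s : Finset ι) (f : ι → V → ℝ), (∀ i ∈ s, Continuous (f i)) →
        (∀ i ∈ s, Per L (f i)) → J (fun x => ∑ i ∈ s, f i x) = ∑ i ∈ s, J (f i)) ∧
      (∀ f : V → ℝ, Per L f → ∀ v : V, J (fun x => f (x + v)) = J f) ∧
      (∀ f : V → ℝ, Continuous f → Per L f → ∀ α : V ≃L[ℝ] V, (∀ x ∈ L, α x ∈ L) →
        J (fun x => f (α x)) = J f) ∧
      (∀ (E : Type) [NormedAddCommGroup E] [NormedSpace ℝ E] [FiniteDimensional ℝ E] (U : Set E)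
        (_ : IsOpen U) (g : E → V → ℝ) (_ : ∀ y ∈ U, Per L (g y))
        (_ : ContDiffOn ℝ 1 (fun p : E × V => g p.1 p.2) (U ×ˢ Set.univ)),
        ContDiffOn ℝ 1 (fun y => J (g y)) U) := by
  classical
  obtain ⟨Q, hQ, hQL⟩ := hL
  have hT : CompactSpace (V ⧸ L) := by
    refine ⟨?_⟩
    have : (Set.univ : Set (V ⧸ L)) = (QuotientAddGroup.mk : V → V ⧸ L) '' Q := by
      symm
      rw [Set.eq_univ_iff_forall]
      intro θ
      obtain ⟨x, rfl⟩ := QuotientAddGroup.mk_surjective θ
      obtain ⟨q, hq, hxq⟩ := hQL x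
      refine ⟨q, hq, ?_⟩
      rw [QuotientAddGroup.eq]
      have e : -q + x = x - q := by abel
      rw [e]
      exact hxq
    rw [this]
    exact hQ.image QuotientAddGroup.continuous_mk
  let _ : MeasurableSpace (V ⧸ L) := borel _
  have : BorelSpace (V ⧸ L) := ⟨rfl⟩
  let K₀ : TopologicalSpace.PositiveCompacts (V ⧸ L) := ⊤
  let μ : Measure (V ⧸ L) := Measure.addHaarMeasure K₀
  have hμ1 : IsProbabilityMeasure μ := ⟨Measure.addHaarMeasure_self⟩
  have hcq : ∀ f : V → ℝ, Continuous f → Per L f →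
      Continuous fun θ : V ⧸ L => f (Quotient.out θ) := by
    intro f hf hp
    rw [(QuotientAddGroup.isQuotientMap_mk L).continuous_iff]
    refine hf.congr fun x => ?_
    exact (per_out L f hp x).symm
  have hint : ∀ f : V → ℝ, Continuous f → Per L f →
      Integrable (fun θ : V ⧸ L => f (Quotient.out θ)) μ := by
    intro f hf hp
    exact (hcq f hf hp).integrable_of_hasCompactSupport (HasCompactSupport.of_compactSpace _)
  refine ⟨fun f => ∫ θ : V ⧸ L, f (Quotient.out θ) ∂μ, ?_, ?_, ?_, ?_, ?_, ?_⟩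
  · simp
  · simp
  · intro ι s f hf hp
    exact integral_finsetSum s fun i hi => hint (f i) (hf i hi) (hp i hi)
  · intro f hp v
    have h1 : ∀ θ : V ⧸ L, f (Quotient.out θ + v) = f (Quotient.out ((v : V ⧸ L) + θ)) := by
      intro θ
      have h2 : ((v : V ⧸ L) + θ) = ((Quotient.out θ + v : V) : V ⧸ L) := by
        rw [QuotientAddGroup.mk_add, add_comm]
        congr 1
        exact (QuotientAddGroup.out_eq' θ).symm
      rw [h2, per_out L f hp]
    simp only [h1]
    exact integral_add_left_eq_self (fun θ : V ⧸ L => f (Quotient.out θ)) (v : V ⧸ L)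
  · intro f hf hp α hα
    let A : (V ⧸ L) →+ (V ⧸ L) := QuotientAddGroup.map L L (α : V →+ V) hα
    have hA : ∀ x : V, A (x : V ⧸ L) = ((α x : V) : V ⧸ L) := fun x => rfl
    have hAc : Continuous A := by
      rw [(QuotientAddGroup.isQuotientMap_mk L).continuous_iff]
      exact QuotientAddGroup.continuous_mk.comp α.continuous
    have hAs : Function.Surjective A := by
      intro θ
      obtain ⟨x, rfl⟩ := QuotientAddGroup.mk_surjective θ
      exact ⟨((α.symm x : V) : V ⧸ L), by rw [hA, ContinuousLinearEquiv.apply_symm_apply]⟩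
    have h1 : (Measure.map A μ).IsAddHaarMeasure :=
      Measure.isAddHaarMeasure_map_of_isFiniteMeasure μ A hAc hAs
    have h2 : IsProbabilityMeasure (Measure.map A μ) :=
      Measure.isProbabilityMeasure_map hAc.measurable.aemeasurable
    have h3 : Measure.map A μ = μ := Measure.isAddHaarMeasure_eq_of_isProbabilityMeasure _ _
    have h4 : ∀ θ : V ⧸ L, f (α (Quotient.out θ)) = f (Quotient.out (A θ)) := by
      intro θ
      have h5 : A θ = ((α (Quotient.out θ) : V) : V ⧸ L) := by
        rw [← hA]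
        congr 1
        exact (QuotientAddGroup.out_eq' θ).symm
      rw [h5, per_out L f hp]
    simp only [h4]
    have h6 := integral_map (μ := μ) hAc.measurable.aemeasurable
      (f := fun θ : V ⧸ L => f (Quotient.out θ)) (hcq f hf hp).aestronglyMeasurable
    rw [h3] at h6
    exact h6.symm
  · intro E _ _ _ U hU g hp hg
    have hUV : IsOpen (U ×ˢ (Set.univ : Set V)) := hU.prod isOpen_univ
    let g' : E → V → (E →L[ℝ] ℝ) := fun y x =>
      (fderiv ℝ (fun p : E × V => g p.1 p.2) (y, x)).comp (ContinuousLinearMap.inl ℝ E V)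
    have hd : ∀ y ∈ U, ∀ x, HasFDerivAt (fun y => g y x) (g' y x) y := by
      intro y hy x
      have h1 : HasFDerivAt (fun p : E × V => g p.1 p.2)
          (fderiv ℝ (fun p : E × V => g p.1 p.2) (y, x)) (y, x) :=
        ((hg.differentiableOn one_ne_zero).differentiableAt (hUV.mem_nhds ⟨hy, trivial⟩)).hasFDerivAt
      exact HasFDerivAt.comp (f := fun y : E => (y, x)) y h1 (hasFDerivAt_prodMk_left y x)
    refine param_smooth μ hU (fun y θ => g y (Quotient.out θ)) (fun y θ => g' y (Quotient.out θ))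
      ?_ ?_ ?_
    · exact tcont L hU g hp hg.continuousOn
    · refine tcont L hU g' ?_ ?_
      · intro y hy x l hl
        have h1 := hd y hy (x + l)
        have h2 := hd y hy x
        refine h1.unique (h2.congr_of_eventuallyEq ?_)
        filter_upwards [hU.mem_nhds hy] with y' hy'
        exact hp y' hy' x l hl
      · have h1 : ContinuousOn (fderiv ℝ (fun p : E × V => g p.1 p.2)) (U ×ˢ Set.univ) :=
          hg.continuousOn_fderiv_of_isOpen hUV le_rfl
        exact h1.clm_comp continuousOn_const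
    · intro y hy θ
      exact hd y hy _

end

end Run7.h262.SV
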