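import Pool.Agent.Run7.h262.SV.Base
import Pool.Agent.Run7.h262.SV.Log
import Pool.Agent.Run7.h262.SV.Torus

/-!
Affine maps as linear maps, and the one parameter groups of a commutative normal subgroup.
-/

set_option autoImplicit false

open Filter Topology

namespace Run7.h262.SV

/-- linear maps of `E × ℝ` -/
abbrev AA (E : Type) [NormedAddCommGroup E] [NormedSpace ℝ E] : Type := (E × ℝ) →L[ℝ] (E × ℝ)

section
variable {E : Type} [NormedAddCommGroup E] [NormedSpace ℝ E] [FiniteDimensional ℝ E]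

theorem aff_apply (g : E ≃ᵃ[ℝ] E) (x : E) : g x = g.linear x + g 0 := by
  have h1 := g.map_vadd 0 x
  simp only [vadd_eq_add, add_zero] at h1
  exact h1

/-- affine maps as linear maps -/
noncomputable def hat : (E ≃ᵃ[ℝ] E) →* AA E where
  toFun g := LinearMap.toContinuousLinearMap
    { toFun := fun w => (g.linear w.1 + w.2 • g 0, w.2)
      map_add' := fun w w' => by
        ext
        · simp only [Prod.fst_add, map_add, Prod.snd_add, add_smul]
          abel
        · rfl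
      map_smul' := fun c w => by
        ext
        · simp only [Prod.smul_fst, map_smul, Prod.smul_snd, smul_eq_mul, RingHom.id_apply,
            smul_add, mul_smul]
        · rfl }
  map_one' := by
    refine ContinuousLinearMap.ext fun w => ?_
    refine Prod.ext ?_ rfl
    change w.1 + w.2 • (0 : E) = w.1
    rw [smul_zero, add_zero]
  map_mul' g h := by
    refine ContinuousLinearMap.ext fun w => ?_
    refine Prod.ext ?_ rfl
    change g.linear (h.linear w.1) + w.2 • g (h 0) = g.linear (h.linear w.1 + w.2 • h 0) + w.2 • g 0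
    rw [aff_apply g (h 0), map_add, map_smul, smul_add, add_assoc]

theorem hat_apply (g : E ≃ᵃ[ℝ] E) (w : E × ℝ) : hat g w = (g.linear w.1 + w.2 • g 0, w.2) := rfl

theorem hat_pt (g : E ≃ᵃ[ℝ] E) (x : E) : hat g (x, 1) = (g x, 1) := by
  rw [hat_apply, one_smul, ← aff_apply]

theorem hat_inj {g h : E ≃ᵃ[ℝ] E} (hgh : hat g = hat h) : g = h := by
  ext x
  have h1 := congrArg (fun Y : AA E => (Y (x, 1)).1) hgh
  simp only [hat_pt] at h1
  exact h1

/-- the action on points -/
def actp (Y : AA E) (x : E) : E := (Y (x, 1)).1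

theorem actp_hat (g : E ≃ᵃ[ℝ] E) (x : E) : actp (hat g) x = g x := by
  rw [actp, hat_pt]

theorem actp_mul (Z Y : AA E) (hY : ∀ w, (Y w).2 = w.2) (x : E) :
    actp (Z * Y) x = actp Z (actp Y x) := by
  unfold actp
  have : Y (x, 1) = ((Y (x, 1)).1, 1) := Prod.ext rfl (hY _)
  rw [mul_apply_eq_comp, this]

theorem exp_snd (X : AA E) (hX : ∀ w, (X w).2 = 0) (w : E × ℝ) :
    (NormedSpace.exp X w).2 = w.2 := by
  let z : AA E := (ContinuousLinearMap.inr ℝ E ℝ).comp (ContinuousLinearMap.snd ℝ E ℝ)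
  have hz : ∀ w, z w = (0, w.2) := fun w => rfl
  have h1 : z * X = 0 * z := by
    refine ContinuousLinearMap.ext fun w => ?_
    rw [mul_apply_eq_comp, hz, hX, zero_mul]
    rfl
  have h2 := exp_semiconj' h1
  rw [NormedSpace.exp_zero, one_mul] at h2
  have h3 := congrArg (fun Y : AA E => (Y w).2) h2
  simp only [mul_apply_eq_comp, hz] at h3
  exact h3

theorem exp_fix (X : AA E) (w : E × ℝ) (hX : X w = 0) : NormedSpace.exp X w = w := by
  let z : AA E := (ContinuousLinearMap.snd ℝ E ℝ).smulRight w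
  have hz : ∀ u, z u = u.2 • w := fun w => rfl
  have h1 : z * 0 = X * z := by
    refine ContinuousLinearMap.ext fun u => ?_
    rw [mul_apply_eq_comp, mul_apply_eq_comp, hz, hz, map_smul, hX,
      smul_zero, zero_apply]
    simp
  have h2 := exp_semiconj' h1
  rw [NormedSpace.exp_zero, mul_one] at h2
  have h3 := congrArg (fun Y : AA E => (Y (0, 1))) h2
  simp only [mul_apply_eq_comp, hz, one_smul] at h3
  exact h3.symm

theorem exp_contDiff : ContDiff ℝ 1 (NormedSpace.exp : AA E → AA E) := by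
  have h1 : ∀ x : AA E, ContDiffAt ℝ 1 (NormedSpace.exp : AA E → AA E) x := fun x =>
    (NormedSpace.exp_analytic (𝕂 := ℝ) x).contDiffAt
  exact contDiff_iff_contDiffAt.2 h1

end

section
variable {Γ E : Type} [Group Γ] [NormedAddCommGroup E] [NormedSpace ℝ E] [FiniteDimensional ℝ E]
  (hol : Γ →* (E ≃ᵃ[ℝ] E)) (A : Subgroup Γ)

/-- the span of the subgroup -/
noncomputable def SS : Submodule ℝ (AA E) := Submodule.span ℝ ((fun a => hat (hol a)) '' (A : Set Γ))

theorem SS_hat {a : Γ} (ha : a ∈ A) : hat (hol a) ∈ SS hol A := Submodule.subset_span ⟨a, ha, rfl⟩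

theorem SS_comm (hA : ∀ a ∈ A, ∀ b ∈ A, a * b = b * a) {X Y : AA E} (hX : X ∈ SS hol A)
    (hY : Y ∈ SS hol A) : X * Y = Y * X := by
  refine Submodule.span_induction₂ (p := fun X Y _ _ => X * Y = Y * X) ?_ ?_ ?_ ?_ ?_ ?_ ?_ hX hY
  · rintro _ _ ⟨a, ha, rfl⟩ ⟨b, hb, rfl⟩
    simp only
    rw [← map_mul, ← map_mul, ← map_mul, ← map_mul, hA a ha b hb]
  · intro Y _
    rw [zero_mul, mul_zero]
  · intro Y _
    rw [zero_mul, mul_zero]
  · intro X Y Z _ _ _ h1 h2
    rw [add_mul, mul_add, h1, h2]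
  · intro X Y Z _ _ _ h1 h2
    rw [add_mul, mul_add, h1, h2]
  · intro r X Y _ _ h
    rw [smul_mul_assoc, mul_smul_comm, h]
  · intro r X Y _ _ h
    rw [smul_mul_assoc, mul_smul_comm, h]

theorem SS_mul {X Y : AA E} (hX : X ∈ SS hol A) (hY : Y ∈ SS hol A) : X * Y ∈ SS hol A := by
  refine Submodule.span_induction₂ (p := fun X Y _ _ => X * Y ∈ SS hol A) ?_ ?_ ?_ ?_ ?_ ?_ ?_ hX hY
  · rintro _ _ ⟨a, ha, rfl⟩ ⟨b, hb, rfl⟩
    simp only
    rw [← map_mul, ← map_mul]
    exact SS_hat hol A (A.mul_mem ha hb)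
  · intro Y _
    rw [zero_mul]
    exact Submodule.zero_mem _
  · intro Y _
    rw [mul_zero]
    exact Submodule.zero_mem _
  · intro X Y Z _ _ _ h1 h2
    rw [add_mul]
    exact Submodule.add_mem _ h1 h2
  · intro X Y Z _ _ _ h1 h2
    rw [mul_add]
    exact Submodule.add_mem _ h1 h2
  · intro r X Y _ _ h
    rw [smul_mul_assoc]
    exact Submodule.smul_mem _ _ h
  · intro r X Y _ _ h
    rw [mul_smul_comm]
    exact Submodule.smul_mem _ _ h

theorem SS_one : (1 : AA E) ∈ SS hol A := by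
  have := SS_hat hol A A.one_mem
  rwa [map_one, map_one] at this

/-- the span as a subalgebra -/
noncomputable def SSa : Subalgebra ℝ (AA E) :=
  (SS hol A).toSubalgebra (SS_one hol A) fun _ _ hx hy => SS_mul hol A hx hy

theorem mem_SSa {X : AA E} : X ∈ SSa hol A ↔ X ∈ SS hol A := Iff.rfl

theorem SS_exp {X : AA E} (hX : X ∈ SS hol A) : NormedSpace.exp X ∈ SS hol A := by
  have h1 : IsClosed ((SSa hol A : Subalgebra ℝ (AA E)) : Set (AA E)) :=
    (SS hol A).closed_of_finiteDimensional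
  exact exp_mem' (SSa hol A) h1 hX

theorem hat_conj (γ a : Γ) : hat (hol (γ * a * γ⁻¹)) * hat (hol γ) = hat (hol γ) * hat (hol a) := by
  rw [← map_mul, ← map_mul, ← map_mul, ← map_mul, inv_mul_cancel_right]

theorem hat_inv_mul (γ : Γ) : hat (hol γ⁻¹) * hat (hol γ) = 1 := by
  rw [← map_mul, ← map_mul, inv_mul_cancel, map_one, map_one]

theorem hat_mul_inv (γ : Γ) : hat (hol γ) * hat (hol γ⁻¹) = 1 := by
  rw [← map_mul, ← map_mul, mul_inv_cancel, map_one, map_one]

theorem SS_conj (hN : A.Normal) (γ : Γ) {X : AA E} (hX : X ∈ SS hol A) :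
    hat (hol γ) * X * hat (hol γ⁻¹) ∈ SS hol A := by
  refine Submodule.span_induction (p := fun X _ => hat (hol γ) * X * hat (hol γ⁻¹) ∈ SS hol A)
    ?_ ?_ ?_ ?_ hX
  · rintro _ ⟨a, ha, rfl⟩
    simp only
    rw [← map_mul, ← map_mul, ← map_mul, ← map_mul]
    exact SS_hat hol A (hN.conj_mem a ha γ)
  · rw [mul_zero, zero_mul]
    exact Submodule.zero_mem _
  · intro X Y _ _ h1 h2
    rw [mul_add, add_mul]
    exact Submodule.add_mem _ h1 h2
  · intro r X _ h
    rw [mul_smul_comm, smul_mul_assoc]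
    exact Submodule.smul_mem _ _ h

/-- the second coordinate -/
theorem SS_snd {X : AA E} (hX : X ∈ SS hol A) : ∀ w : E × ℝ, (X w).2 = (X (0, 1)).2 * w.2 := by
  refine Submodule.span_induction
    (p := fun X _ => ∀ w : E × ℝ, (X w).2 = (X (0, 1)).2 * w.2) ?_ ?_ ?_ ?_ hX
  · rintro _ ⟨a, ha, rfl⟩ w
    simp only [hat_apply, one_mul]
  · intro w
    simp
  · intro X Y _ _ h1 h2 w
    rw [add_apply, add_apply, Prod.snd_add, h1, h2,
      Prod.snd_add]
    ring
  · intro r X _ h w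
    rw [smul_apply, smul_apply, Prod.smul_snd, h,
      Prod.smul_snd, smul_eq_mul, smul_eq_mul]
    ring

/-- the logarithms of the elements of the subgroup -/
noncomputable def LL (hA : ∀ a ∈ A, ∀ b ∈ A, a * b = b * a) : AddSubgroup (AA E) where
  carrier := {X | X ∈ SS hol A ∧ (∀ w, (X w).2 = 0) ∧ ∃ a ∈ A, NormedSpace.exp X = hat (hol a)}
  add_mem' := by
    rintro X Y ⟨h1, h2, a, ha, h3⟩ ⟨k1, k2, b, hb, k3⟩
    refine ⟨Submodule.add_mem _ h1 k1, fun w => ?_, a * b, A.mul_mem ha hb, ?_⟩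
    · rw [add_apply, Prod.snd_add, h2, k2, add_zero]
    · rw [exp_add' (SS_comm hol A hA h1 k1), h3, k3, map_mul, map_mul]
  zero_mem' := by
    refine ⟨Submodule.zero_mem _, fun w => rfl, 1, A.one_mem, ?_⟩
    rw [NormedSpace.exp_zero, map_one, map_one]
  neg_mem' := by
    rintro X ⟨h1, h2, a, ha, h3⟩
    refine ⟨Submodule.neg_mem _ h1, fun w => ?_, a⁻¹, A.inv_mem ha, ?_⟩
    · rw [neg_apply, Prod.snd_neg, h2, neg_zero]
    · have h4 := exp_unit' X
      rw [h3] at h4
      have h5 : hat (hol a⁻¹) * (hat (hol a) * NormedSpace.exp (-X)) = hat (hol a⁻¹) * 1 := by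
        rw [h4]
      rwa [← mul_assoc, hat_inv_mul, one_mul, mul_one] at h5

/-- the Lie algebra of the torus -/
noncomputable def HH (hA : ∀ a ∈ A, ∀ b ∈ A, a * b = b * a) : Submodule ℝ (AA E) :=
  Submodule.span ℝ (LL hol A hA : Set (AA E))

theorem HH_le (hA : ∀ a ∈ A, ∀ b ∈ A, a * b = b * a) : HH hol A hA ≤ SS hol A :=
  Submodule.span_le.2 fun _ hX => hX.1

theorem HH_snd (hA : ∀ a ∈ A, ∀ b ∈ A, a * b = b * a) {X : AA E} (hX : X ∈ HH hol A hA) :
    ∀ w, (X w).2 = 0 := by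
  refine Submodule.span_induction (p := fun X _ => ∀ w : E × ℝ, (X w).2 = 0) ?_ ?_ ?_ ?_ hX
  · intro X hX
    exact hX.2.1
  · intro w
    rfl
  · intro X Y _ _ h1 h2 w
    rw [add_apply, Prod.snd_add, h1, h2, add_zero]
  · intro r X _ h w
    rw [smul_apply, Prod.smul_snd, h, smul_zero]

theorem LL_conj (hA : ∀ a ∈ A, ∀ b ∈ A, a * b = b * a) (hN : A.Normal) (γ : Γ) {X : AA E}
    (hX : X ∈ LL hol A hA) : hat (hol γ) * X * hat (hol γ⁻¹) ∈ LL hol A hA := by
  obtain ⟨h1, h2, a, ha, h3⟩ := hX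
  refine ⟨SS_conj hol A hN γ h1, fun w => ?_, γ * a * γ⁻¹, hN.conj_mem a ha γ, ?_⟩
  · rw [mul_apply_eq_comp, mul_apply_eq_comp]
    change (X _).2 = 0
    exact h2 _
  · have h4 : hat (hol γ) * X = (hat (hol γ) * X * hat (hol γ⁻¹)) * hat (hol γ) := by
      rw [mul_assoc (hat (hol γ) * X), hat_inv_mul, mul_one]
    have h5 := exp_semiconj' h4
    rw [h3, ← hat_conj] at h5
    set Y := NormedSpace.exp (hat (hol γ) * X * hat (hol γ⁻¹)) with hY
    calc Y = Y * (hat (hol γ) * hat (hol γ⁻¹)) := by rw [hat_mul_inv, mul_one]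
      _ = (Y * hat (hol γ)) * hat (hol γ⁻¹) := by rw [mul_assoc]
      _ = (hat (hol (γ * a * γ⁻¹)) * hat (hol γ)) * hat (hol γ⁻¹) := by rw [h5]
      _ = hat (hol (γ * a * γ⁻¹)) := by rw [mul_assoc, hat_mul_inv, mul_one]

theorem HH_conj (hA : ∀ a ∈ A, ∀ b ∈ A, a * b = b * a) (hN : A.Normal) (γ : Γ) {X : AA E}
    (hX : X ∈ HH hol A hA) : hat (hol γ) * X * hat (hol γ⁻¹) ∈ HH hol A hA := by
  refine Submodule.span_induction
    (p := fun X _ => hat (hol γ) * X * hat (hol γ⁻¹) ∈ HH hol A hA) ?_ ?_ ?_ ?_ hX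
  · intro X hX
    exact Submodule.subset_span (LL_conj hol A hA hN γ hX)
  · rw [mul_zero, zero_mul]
    exact Submodule.zero_mem _
  · intro X Y _ _ h1 h2
    rw [mul_add, add_mul]
    exact Submodule.add_mem _ h1 h2
  · intro r X _ h
    rw [mul_smul_comm, smul_mul_assoc]
    exact Submodule.smul_mem _ _ h

/-- squares of elements of the subgroup have logarithms -/
theorem LL_square (hA : ∀ a ∈ A, ∀ b ∈ A, a * b = b * a) {a : Γ} (ha : a ∈ A) :
    ∃ X ∈ LL hol A hA, NormedSpace.exp X = hat (hol (a * a)) := by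
  let R := SSa hol A
  have hcomm : ∀ x y : R, x * y = y * x := fun x y =>
    Subtype.ext (SS_comm hol A hA x.2 y.2)
  obtain ⟨X, hX⟩ := square_exp (R := R) hcomm ⟨hat (hol a), SS_hat hol A ha⟩
    ⟨hat (hol a⁻¹), SS_hat hol A (A.inv_mem ha)⟩ (Subtype.ext (hat_mul_inv hol a))
  have h1 : NormedSpace.exp (X : AA E) = hat (hol (a * a)) := by
    have h2 := map_exp' (SSa hol A).val continuous_subtype_val X
    rw [hX] at h2
    rw [map_mul, map_mul]
    exact h2.symm
  have hs := SS_snd hol A X.2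
  set c : ℝ := ((X : AA E) (0, 1)).2 with hc
  -- the second coordinate of the logarithm is zero
  have hc0 : c = 0 := by
    let z : AA E := (ContinuousLinearMap.inr ℝ E ℝ).comp (ContinuousLinearMap.snd ℝ E ℝ)
    have hz : ∀ w, z w = (0, w.2) := fun w => rfl
    have h3 : z * (X : AA E) = (algebraMap ℝ (AA E) c) * z := by
      refine ContinuousLinearMap.ext fun w => ?_
      rw [mul_apply_eq_comp, hz, hs, mul_apply_eq_comp, hz]
      rw [Algebra.algebraMap_eq_smul_one]
      simp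
    have h4 := exp_semiconj' h3
    have h5 : NormedSpace.exp (algebraMap ℝ (AA E) c) = algebraMap ℝ (AA E) (Real.exp c) := by
      rw [Real.exp_eq_exp_ℝ]
      exact (NormedSpace.algebraMap_exp_comm c).symm
    rw [h5, h1] at h4
    have h6 := congrArg (fun Y : AA E => (Y (0, 1)).2) h4
    simp only [mul_apply_eq_comp, hz, hat_apply] at h6
    rw [Algebra.algebraMap_eq_smul_one] at h6
    simp only [smul_apply, one_apply_eq_self, Prod.smul_snd,
      smul_eq_mul, mul_one] at h6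
    exact Real.exp_eq_one_iff c |>.1 h6.symm
  refine ⟨X, ⟨X.2, fun w => ?_, a * a, A.mul_mem ha ha, h1⟩, h1⟩
  rw [hs, hc0, zero_mul]

end

end Run7.h262.SV
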