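import Pool.Agent.Run7.h262.SV.It
import Pool.Agent.N225.SV.Mean

/-!
Invariant means as functionals on all functions.
-/

set_option autoImplicit false

namespace Run7.h262.SV

theorem exists_mean (A : Type) [Group A] (h : Pool.Agent.Helper240.Amen.InvHB A) :
    ∃ M : VV A, M (fun _ => 1) = 1 ∧ Nice M ∧
      ∀ (u : A → ℝ) (C : ℝ), (∀ x, |u x| ≤ C) → ∀ δ : A, M (fun x => u (δ * x)) = M u := by
  classical
  have bdd : ∀ f : Pool.Agent.Helper240.Amen.Bdd A, BddAbove (Set.range f.1) := by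
    intro f
    obtain ⟨C, hC⟩ := f.2
    refine ⟨C, ?_⟩
    rintro _ ⟨x, rfl⟩
    exact (le_abs_self _).trans (hC x)
  obtain ⟨M, hM1, hM2⟩ := h (Pool.Agent.Helper240.Amen.Bdd A) (Pool.Agent.Helper240.Amen.tra A)
    (fun f => ⨆ x, f.1 x) (by
      intro c hc f
      exact (Real.mul_iSup_of_nonneg hc.le _).symm) (by
      intro f g
      apply ciSup_le
      intro x
      exact add_le_add (le_ciSup (bdd f) x) (le_ciSup (bdd g) x)) (by
      intro g f
      apply ciSup_le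
      intro x
      exact le_ciSup (bdd f) (g⁻¹ * x))
  have hle : ∀ (f : Pool.Agent.Helper240.Amen.Bdd A) (c : ℝ), (∀ x, f.1 x ≤ c) → M f ≤ c :=
    fun f c hf => (hM1 f).trans (ciSup_le hf)
  obtain ⟨M', hM'⟩ := M.exists_extend
  have hM'' : ∀ (f : A → ℝ) (hf : f ∈ Pool.Agent.Helper240.Amen.Bdd A), M' f = M ⟨f, hf⟩ := by
    intro f hf
    exact LinearMap.congr_fun hM' ⟨f, hf⟩
  refine ⟨M', ?_, ?_, ?_⟩
  · have h1 : (fun _ : A => (1 : ℝ)) ∈ Pool.Agent.Helper240.Amen.Bdd A := ⟨1, fun x => by simp⟩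
    rw [hM'' _ h1]
    refine le_antisymm (hle _ _ fun x => le_rfl) ?_
    have := hle (-⟨fun _ : A => (1 : ℝ), h1⟩) (-1) (fun x => le_rfl)
    rw [map_neg] at this
    linarith
  · intro u C hu
    have hu' : u ∈ Pool.Agent.Helper240.Amen.Bdd A := ⟨C, hu⟩
    rw [hM'' _ hu', abs_le]
    constructor
    · have := hle (-⟨u, hu'⟩) C (fun x => (neg_le_abs _).trans (hu x))
      rw [map_neg] at this
      linarith
    · exact hle _ _ fun x => (le_abs_self _).trans (hu x)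
  · intro u C hu δ
    have hu' : u ∈ Pool.Agent.Helper240.Amen.Bdd A := ⟨C, hu⟩
    have hδ : (fun x => u (δ * x)) ∈ Pool.Agent.Helper240.Amen.Bdd A := ⟨C, fun x => hu _⟩
    rw [hM'' _ hu', hM'' _ hδ, ← hM2 δ⁻¹ ⟨u, hu'⟩]
    congr 1
    apply Subtype.ext
    funext x
    change u (δ * x) = u (δ⁻¹⁻¹ * x)
    rw [inv_inv]

/-- means on the cosets of a normal commutative subgroup -/
theorem coset_means {Γ : Type} [Group Γ] (A : Subgroup Γ)
    (hA : ∀ a ∈ A, ∀ b ∈ A, a * b = b * a) :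
    ∃ μ : (Γ ⧸ A) → VV Γ, (∀ s, μ s (fun _ => 1) = 1) ∧ (∀ s, Nice (μ s)) ∧
      ∀ (γ : Γ) s (u : Γ → ℝ) (C : ℝ), (∀ x, |u x| ≤ C) →
        μ (γ • s) u = μ s (fun x => u (γ * x)) := by
  have hinv : Pool.Agent.Helper240.Amen.InvHB A := by
    refine Pool.Agent.Helper240.Amen.InvHB.of_derived 1 A ?_
    rw [derivedSeries_one, commutator_eq_bot_iff_center_eq_top, Subgroup.eq_top_iff']
    intro a
    rw [Subgroup.mem_center_iff]
    intro b
    exact Subtype.ext (hA b b.2 a a.2)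
  obtain ⟨M, hM1, hMn, hMi⟩ := exists_mean A hinv
  refine ⟨fun s => M.comp (LinearMap.funLeft ℝ ℝ fun a : A => Quotient.out s * (a : Γ)),
    fun s => hM1, fun s u C hu => hMn _ C fun a => hu _, ?_⟩
  intro γ s u C hu
  simp only [LinearMap.comp_apply]
  have h1 : (γ * Quotient.out s : Γ)⁻¹ * Quotient.out (γ • s) ∈ A := by
    rw [← QuotientGroup.eq]
    have e1 : ((γ * Quotient.out s : Γ) : Γ ⧸ A) = γ • s := by
      conv_rhs => rw [← QuotientGroup.out_eq' s]
      rfl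
    rw [e1]
    exact (QuotientGroup.out_eq' _).symm
  set a₀ : A := ⟨_, h1⟩ with ha₀
  have h2 : ∀ a : A, Quotient.out (γ • s) * (a : Γ) = γ * (Quotient.out s * ((a₀ * a : A) : Γ)) := by
    intro a
    rw [Subgroup.coe_mul, ha₀]
    group
  have h3 : (LinearMap.funLeft ℝ ℝ fun a : A => Quotient.out (γ • s) * (a : Γ)) u =
      fun a : A => (LinearMap.funLeft ℝ ℝ fun a : A => Quotient.out s * (a : Γ))
        (fun x => u (γ * x)) (a₀ * a) := by
    funext a
    simp only [LinearMap.funLeft_apply]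
    rw [h2]
  rw [h3]
  exact hMi (fun a : A => u (γ * (Quotient.out s * (a : Γ)))) C (fun a => hu _) a₀

end Run7.h262.SV
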