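import Pool.Agent.Run7.h262.SV.Wt
import Pool.Agent.Run7.h262.SV.Mean2

/-!
The torus of a commutative normal subgroup, and the pulled back weights.
-/

set_option autoImplicit false

open Filter Topology

namespace Run7.h262.SV

variable {Γ E : Type} [Group Γ] [NormedAddCommGroup E] [NormedSpace ℝ E] [FiniteDimensional ℝ E]
  {hol : Γ →* (E ≃ᵃ[ℝ] E)} {A : Subgroup Γ} {Ω : Set E}

/-- conjugation -/
noncomputable def cjl (hA : ∀ a ∈ A, ∀ b ∈ A, a * b = b * a) (hN : A.Normal) (γ : Γ) :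
    HH hol A hA →ₗ[ℝ] HH hol A hA where
  toFun X := ⟨hat (hol γ) * X * hat (hol γ⁻¹), HH_conj hol A hA hN γ X.2⟩
  map_add' X Y := Subtype.ext (by
    change hat (hol γ) * ((X : AA E) + Y) * hat (hol γ⁻¹) = _
    rw [mul_add, add_mul]
    rfl)
  map_smul' r X := Subtype.ext (by
    change hat (hol γ) * (r • (X : AA E)) * hat (hol γ⁻¹) = _
    rw [mul_smul_comm, smul_mul_assoc]
    rfl)

theorem cjl_cjl (hA : ∀ a ∈ A, ∀ b ∈ A, a * b = b * a) (hN : A.Normal) (γ δ : Γ)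
    (h : γ * δ = 1) : (cjl (hol := hol) hA hN γ) ∘ₗ (cjl hA hN δ) = LinearMap.id := by
  have hδ : δ = γ⁻¹ := (inv_eq_of_mul_eq_one_right h).symm
  subst hδ
  refine LinearMap.ext fun X => Subtype.ext ?_
  change hat (hol γ) * (hat (hol γ⁻¹) * (X : AA E) * hat (hol γ⁻¹⁻¹)) * hat (hol γ⁻¹) = X
  rw [inv_inv]
  calc hat (hol γ) * (hat (hol γ⁻¹) * (X : AA E) * hat (hol γ)) * hat (hol γ⁻¹)
      = (hat (hol γ) * hat (hol γ⁻¹)) * (X : AA E) * (hat (hol γ) * hat (hol γ⁻¹)) := by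
        simp only [mul_assoc]
    _ = X := by rw [hat_mul_inv, one_mul, mul_one]

theorem flow_inst (hA : ∀ a ∈ A, ∀ b ∈ A, a * b = b * a) (hN : A.Normal) :
    Flow (HH hol A hA) (HH hol A hA).subtypeL
      ((LL hol A hA).comap (HH hol A hA).subtype.toAddMonoidHom) hol A := by
  refine ⟨?_, ?_, ?_, ?_, ?_⟩
  · intro X Y x
    rw [map_add]
    exact hh_add hA X.2 Y.2 x
  · intro l hl
    exact ll_act hA hl
  · intro X w
    exact HH_snd hol A hA X.2 w
  · intro γ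
    let α : HH hol A hA ≃ₗ[ℝ] HH hol A hA :=
      LinearEquiv.ofLinear (cjl hA hN γ⁻¹) (cjl hA hN γ) (cjl_cjl hA hN _ _ (inv_mul_cancel γ))
        (cjl_cjl hA hN _ _ (mul_inv_cancel γ))
    refine ⟨α.toContinuousLinearEquiv, ?_, ?_⟩
    · intro X hX
      exact LL_conj hol A hA hN γ⁻¹ hX
    · intro X x
      have h1 := hh_conj_act hA γ X.2 x
      have h2 : (HH hol A hA).subtypeL (α.toContinuousLinearEquiv X) =
          hat (hol γ⁻¹) * (X : AA E) * hat (hol γ) := by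
        change hat (hol γ⁻¹) * (X : AA E) * hat (hol γ⁻¹⁻¹) = _
        rw [inv_inv]
      rw [h2]
      exact h1
  · exact span_cpt _ Submodule.span_span_coe_preimage

/-- a commutative normal subgroup with an element of order different from one and two gives
weights of deficient rank -/
theorem ab_weights (hA : ∀ a ∈ A, ∀ b ∈ A, a * b = b * a) (hN : A.Normal)
    (h : AffDom Γ E hol Ω) (a : Γ) (ha : a ∈ A) (ha2 : a * a ≠ 1) :
    ∃ l : (Γ ⧸ A) → E → ℝ, RankW Γ (Γ ⧸ A) E hol (OH hol A Ω hA) l := by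
  obtain ⟨X₀, hX₀, hX₁⟩ := LL_square hol A hA ha
  have hX₂ : X₀ ∈ HH hol A hA := Submodule.subset_span hX₀
  refine flow_weights (flow_inst hA hN) hN h (OH hol A Ω hA) (OH_isOpen hA h.isOpen h.inv)
    (fun x hx X => hx X X.2) (fun γ x hx => OH_inv hA hN h.inv γ x hx) ⟨X₀, hX₂⟩ ?_
  intro x hx h0
  change (X₀ (x, 1)).1 = 0 at h0
  have h1 : X₀ (x, 1) = 0 := Prod.ext h0 (HH_snd hol A hA hX₂ _)
  have h2 := exp_fix X₀ (x, 1) h1
  rw [hX₁, hat_pt] at h2
  exact ha2 (h.free _ x (OH_sub hA hx) (congrArg Prod.fst h2))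

/-- elements of order two have fixed points -/
theorem no_two (h : AffDom Γ E hol Ω) (a : Γ) (ha : a ≠ 1) : a * a ≠ 1 := by
  intro h2
  obtain ⟨x, hx⟩ := h.nonempty
  have h3 : hol a (hol a x) = x := by
    rw [← hol_mul, h2, map_one]
    rfl
  have h4 : midpoint ℝ x (hol a x) ∈ Ω := h.convex.midpoint_mem hx (h.inv a x hx)
  refine ha (h.free a _ h4 ?_)
  have h5 : hol a (midpoint ℝ x (hol a x)) = midpoint ℝ (hol a x) (hol a (hol a x)) :=
    (hol a).toAffineMap.map_midpoint x (hol a x)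
  rw [h5, h3, midpoint_comm]

/-- equivariant smooth maps -/
theorem exists_map (h : AffDom Γ E hol Ω) {O : Set E} (hO : Convex ℝ O) (hne : O.Nonempty)
    (hinv : ∀ γ : Γ, ∀ x ∈ O, hol γ x ∈ O) :
    ∃ P : E → E, ContDiffOn ℝ 1 P Ω ∧ (∀ x ∈ Ω, P x ∈ O) ∧
      ∀ γ : Γ, ∀ x ∈ Ω, P (hol γ x) = hol γ (P x) := by
  classical
  obtain ⟨b, hb, hb0⟩ := h.base
  obtain ⟨p, hp⟩ := hne
  have hfin : ∀ x ∈ Ω, {γ | b γ x ≠ 0}.Finite := fun x hx => hb.fin1 hx
  have hsum : ∀ x (hx : x ∈ Ω) (c : Γ → E),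
      ∑ᶠ γ, b γ x • c γ = ∑ γ ∈ (hfin x hx).toFinset, b γ x • c γ := by
    intro x hx c
    refine finsum_eq_sum_of_support_subset _ fun s hs => ?_
    rw [Finset.mem_coe, Set.Finite.mem_toFinset]
    exact left_ne_zero_of_smul hs
  have hone : ∀ x (hx : x ∈ Ω), ∑ γ ∈ (hfin x hx).toFinset, b γ x = 1 := by
    intro x hx
    rw [← hb.one x hx]
    symm
    refine finsum_eq_sum_of_support_subset _ fun s hs => ?_
    rw [Finset.mem_coe, Set.Finite.mem_toFinset]
    exact hs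
  refine ⟨fun x => ∑ᶠ γ, b γ x • hol γ p, lf_smooth h.isOpen hb.smooth hb.fin _, ?_, ?_⟩
  · intro x hx
    simp only
    rw [hsum x hx]
    exact hO.sum_mem (fun γ _ => hb0 γ x hx) (hone x hx) fun γ _ => hinv γ p hp
  · intro γ x hx
    simp only
    rw [← finsum_comp_equiv (Equiv.mulLeft γ)]
    have e1 : ∀ δ : Γ, b ((Equiv.mulLeft γ) δ) (hol γ x) • hol ((Equiv.mulLeft γ) δ) p =
        b δ x • hol γ (hol δ p) := by
      intro δ
      have h1 := hb.equi γ δ x hx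
      rw [Equiv.coe_mulLeft, hol_mul]
      rw [smul_eq_mul] at h1
      rw [h1]
    rw [finsum_congr e1, hsum x hx, hsum x hx]
    have h3 : ∀ y, hol γ y = (hol γ).linear y + hol γ 0 := aff_apply _
    rw [h3 (∑ δ ∈ _, b δ x • hol δ p), map_sum]
    have h4 : hol γ 0 = ∑ δ ∈ (hfin x hx).toFinset, b δ x • hol γ 0 := by
      rw [← Finset.sum_smul, hone x hx, one_smul]
    conv_rhs => rw [h4]
    rw [← Finset.sum_add_distrib]
    refine Finset.sum_congr rfl fun δ _ => ?_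
    conv_lhs => rw [h3 (hol δ p), smul_add]
    rw [map_smul]

/-- the pulled back weights -/
theorem pull_weights {X S : Type} [MulAction Γ X] [MulAction Γ S] {D : X → E}
    (h : AffDom Γ E hol Ω) (hDΩ : ∀ x, D x ∈ Ω)
    (hequi : ∀ (γ : Γ) (x : X), D (γ • x) = hol γ (D x)) {O : Set E} (hOo : IsOpen O)
    (hO : Convex ℝ O) (hne : O.Nonempty) (hinv : ∀ γ : Γ, ∀ x ∈ O, hol γ x ∈ O)
    {l : S → E → ℝ} (hl : RankW Γ S E hol O l) :
    ∃ l' : S → E → ℝ, Weights Γ X S E D Ω l' := by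
  obtain ⟨P, hP1, hP2, hP3⟩ := exists_map h hO hne hinv
  refine ⟨fun s x => l s (P x), ?_, ?_, ?_, ?_, ?_⟩
  · intro s
    exact (hl.smooth s).comp hP1 hP2
  · intro K hK hKΩ
    refine (hl.fin (P '' K) (hK.image_of_continuousOn (hP1.continuousOn.mono hKΩ)) ?_).subset ?_
    · rintro _ ⟨x, hx, rfl⟩
      exact hP2 x (hKΩ hx)
    · rintro s ⟨x, hx, h0⟩
      exact ⟨P x, ⟨x, hx, rfl⟩, h0⟩
  · intro x hx
    exact hl.one _ (hP2 x hx)
  · intro γ s x
    rw [hequi, hP3 γ _ (hDΩ x)]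
    exact hl.equi γ s _ (hP2 _ (hDΩ x))
  · intro x hx
    have hd : DifferentiableAt ℝ P x :=
      ((hP1.differentiableOn one_ne_zero).differentiableAt (h.isOpen.mem_nhds hx))
    have hls : ∀ s, DifferentiableAt ℝ (l s) (P x) := fun s =>
      (((hl.smooth s).differentiableOn one_ne_zero).differentiableAt (hOo.mem_nhds (hP2 x hx)))
    have hchain : ∀ s v, fderiv ℝ (fun x => l s (P x)) x v =
        fderiv ℝ (l s) (P x) (fderiv ℝ P x v) := by
      intro s v
      have := fderiv_comp x (hls s) hd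
      change fderiv ℝ (l s ∘ P) x v = _
      rw [this]
      rfl
    obtain ⟨w, hw, hw0⟩ := hl.rank (P x) (hP2 x hx)
    by_cases hinj : Function.Injective (fderiv ℝ P x)
    · have hsurj : Function.Surjective ((fderiv ℝ P x : E →L[ℝ] E) : E →ₗ[ℝ] E) :=
        LinearMap.surjective_of_injective hinj
      obtain ⟨v, hv⟩ := hsurj w
      refine ⟨v, ?_, fun s => ?_⟩
      · rintro rfl
        rw [map_zero] at hv
        exact hw hv.symm
      · rw [hchain]
        have hv' : fderiv ℝ P x v = w := hv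
        rw [hv']
        exact hw0 s
    · rw [injective_iff_map_eq_zero] at hinj
      push Not at hinj
      obtain ⟨v, hv, hv0⟩ := hinj
      refine ⟨v, hv0, fun s => ?_⟩
      rw [hchain, hv, map_zero]

end Run7.h262.SV
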