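import Pool.Agent.Run7.h262.SV.Sd

/-!
Iterated functionals.
-/

set_option autoImplicit false

open Finset

namespace Run7.h262.SV

/-- functionals on functions -/
abbrev VV (X : Type) : Type := (X → ℝ) →ₗ[ℝ] ℝ

variable {X : Type}

/-- iterated functionals, as a multilinear map of the functionals -/
noncomputable def it : (k : ℕ) → ((Fin k → X) → ℝ) → MultilinearMap ℝ (fun _ : Fin k => VV X) ℝ
  | 0, f => MultilinearMap.constOfIsEmpty ℝ _ (f Fin.elim0)
  | k + 1, f => LinearMap.uncurryLeft
      { toFun := fun v => v.compMultilinearMap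
          (MultilinearMap.pi fun x => it k fun τ => f (Fin.cons x τ : Fin (k + 1) → X))
        map_add' := fun v w => by
          ext m
          rfl
        map_smul' := fun c v => by
          ext m
          rfl }

theorem it_zero (f : (Fin 0 → X) → ℝ) (m : Fin 0 → VV X) : it 0 f m = f Fin.elim0 := rfl

theorem it_succ (k : ℕ) (f : (Fin (k + 1) → X) → ℝ) (m : Fin (k + 1) → VV X) :
    it (k + 1) f m = m 0 (fun x => it k (fun τ => f (Fin.cons x τ : Fin (k + 1) → X))
      (Fin.tail m)) := rfl

theorem it_sum {ι : Type*} (s : Finset ι) (c : ι → ℝ) (k : ℕ) (f : ι → (Fin k → X) → ℝ)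
    (m : Fin k → VV X) :
    it k (fun τ => ∑ i ∈ s, c i * f i τ) m = ∑ i ∈ s, c i * it k (f i) m := by
  induction k with
  | zero => rfl
  | succ k ih =>
    rw [it_succ]
    have h1 : (fun x => it k (fun τ => ∑ i ∈ s, c i * f i (Fin.cons x τ : Fin (k + 1) → X))
        (Fin.tail m)) = ∑ i ∈ s, c i • fun x => it k (fun τ => f i (Fin.cons x τ : Fin (k + 1) → X))
          (Fin.tail m) := by
      funext x
      rw [ih (fun i τ => f i (Fin.cons x τ : Fin (k + 1) → X))]
      simp
    rw [h1, map_sum]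
    refine Finset.sum_congr rfl fun i _ => ?_
    rw [map_smul, it_succ, smul_eq_mul]

theorem it_del (k : ℕ) (f : (Fin k → X) → ℝ) (m : Fin (k + 1) → VV X)
    (hm : ∀ i, m i (fun _ => 1) = 1) (i : Fin (k + 1)) :
    it (k + 1) (fun τ => f (i.removeNth τ)) m = it k f (i.removeNth m) := by
  induction k with
  | zero =>
    have hi : i = 0 := Fin.eq_zero i
    subst hi
    rw [it_succ]
    have h1 : (fun x : X => it 0 (fun τ => f ((0 : Fin 1).removeNth (Fin.cons x τ : Fin 1 → X)))
        (Fin.tail m)) = f Fin.elim0 • (fun _ => (1 : ℝ)) := by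
      funext x
      rw [it_zero]
      simp only [Pi.smul_apply, smul_eq_mul, mul_one]
      congr 1
    rw [h1, map_smul, hm, smul_eq_mul, mul_one]
    rfl
  | succ k ih =>
    rw [it_succ]
    refine Fin.cases ?_ (fun i => ?_) i
    · have h1 : (fun x : X => it (k + 1)
          (fun τ => f ((0 : Fin (k + 2)).removeNth (Fin.cons x τ : Fin (k + 2) → X)))
          (Fin.tail m)) = it (k + 1) f (Fin.tail m) • (fun _ => (1 : ℝ)) := by
        funext x
        simp only [Pi.smul_apply, smul_eq_mul, mul_one, Fin.removeNth_zero, Fin.tail_cons]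
      rw [h1, map_smul, hm, smul_eq_mul, mul_one, Fin.removeNth_zero]
    · rw [it_succ]
      congr 1
      funext x
      have h1 : ∀ τ : Fin (k + 1) → X, (i.succ).removeNth (Fin.cons x τ : Fin (k + 2) → X) =
          (Fin.cons x (i.removeNth τ) : Fin (k + 1) → X) := by
        intro τ
        funext j
        refine Fin.cases ?_ (fun j => ?_) j
        · simp [Fin.removeNth]
        · simp [Fin.removeNth]
      simp only [h1]
      rw [ih (fun τ => f (Fin.cons x τ : Fin (k + 1) → X)) (Fin.tail m) (fun j => hm _) i]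
      congr 1
      funext j
      simp [Fin.tail, Fin.removeNth]

theorem it_cocycle (k : ℕ) (f : (Fin k → X) → ℝ)
    (hf : ∀ τ : Fin (k + 1) → X, ∑ i : Fin (k + 1), (-1 : ℝ) ^ (i : ℕ) * f (i.removeNth τ) = 0)
    (m : Fin (k + 1) → VV X) (hm : ∀ i, m i (fun _ => 1) = 1) :
    ∑ i : Fin (k + 1), (-1 : ℝ) ^ (i : ℕ) * it k f (i.removeNth m) = 0 := by
  have h1 := it_sum Finset.univ (fun i : Fin (k + 1) => (-1 : ℝ) ^ (i : ℕ)) (k + 1)
    (fun i τ => f (i.removeNth τ)) m
  simp only [hf] at h1
  have h2 : it (k + 1) (fun _ : Fin (k + 1) → X => (0 : ℝ)) m = 0 := by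
    have := it_sum (∅ : Finset ℕ) (fun _ => (0 : ℝ)) (k + 1) (fun _ _ => (0 : ℝ)) m
    simpa using this
  rw [h2] at h1
  simp only [it_del k f m hm] at h1
  exact h1.symm

theorem it_comp (k : ℕ) (e : X → X) (f : (Fin k → X) → ℝ) (m : Fin k → VV X) :
    it k f (fun i => (m i).comp (LinearMap.funLeft ℝ ℝ e)) = it k (fun τ => f (e ∘ τ)) m := by
  induction k with
  | zero =>
    rw [it_zero, it_zero]
    congr 1
    exact Subsingleton.elim _ _
  | succ k ih =>
    rw [it_succ, it_succ, LinearMap.comp_apply]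
    congr 1
    funext x
    rw [LinearMap.funLeft_apply]
    have h1 : ∀ τ : Fin k → X, e ∘ (Fin.cons x τ : Fin (k + 1) → X) =
        (Fin.cons (e x) (e ∘ τ) : Fin (k + 1) → X) := by
      intro τ
      funext j
      refine Fin.cases ?_ (fun j => ?_) j
      · rfl
      · rfl
    simp only [h1]
    exact ih (fun τ => f (Fin.cons (e x) τ : Fin (k + 1) → X)) (Fin.tail m)

theorem it_proj (k : ℕ) (f : (Fin k → X) → ℝ) (τ : Fin k → X) :
    it k f (fun i => (LinearMap.proj (τ i) : VV X)) = f τ := by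
  induction k with
  | zero =>
    rw [it_zero]
    congr 1
    exact Subsingleton.elim _ _
  | succ k ih =>
    rw [it_succ]
    change it k (fun τ' => f (Fin.cons (τ 0) τ' : Fin (k + 1) → X)) _ = _
    have := ih (fun τ' => f (Fin.cons (τ 0) τ' : Fin (k + 1) → X)) (Fin.tail τ)
    rw [Fin.cons_self_tail] at this
    exact this

/-- functionals bounded by the supremum norm -/
def Nice (v : VV X) : Prop := ∀ (u : X → ℝ) (C : ℝ), (∀ x, |u x| ≤ C) → |v u| ≤ C

theorem it_bound (k : ℕ) (f : (Fin k → X) → ℝ) (C : ℝ) (hf : ∀ τ, |f τ| ≤ C)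
    (m : Fin k → VV X) (hm : ∀ i, Nice (m i)) : |it k f m| ≤ C := by
  induction k with
  | zero => exact hf _
  | succ k ih =>
    rw [it_succ]
    exact hm 0 _ C fun x => ih _ (fun τ => hf _) _ fun i => hm _

theorem it_congr (k : ℕ) (f : (Fin k → X) → ℝ) (C : ℝ) (hf : ∀ τ, |f τ| ≤ C)
    (m m' : Fin k → VV X) (hm : ∀ i, Nice (m i)) (hm' : ∀ i, Nice (m' i))
    (h : ∀ i (u : X → ℝ) (C : ℝ), (∀ x, |u x| ≤ C) → m i u = m' i u) : it k f m = it k f m' := by
  induction k with
  | zero => rfl
  | succ k ih =>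
    rw [it_succ, it_succ]
    have h1 : (fun x => it k (fun τ => f (Fin.cons x τ : Fin (k + 1) → X)) (Fin.tail m)) =
        fun x => it k (fun τ => f (Fin.cons x τ : Fin (k + 1) → X)) (Fin.tail m') := by
      funext x
      exact ih _ (fun τ => hf _) _ _ (fun i => hm _) (fun i => hm' _) fun i => h _
    rw [h1]
    exact h 0 _ C fun x => it_bound k _ C (fun τ => hf _) _ fun i => hm' _

/-- the alternation of a multilinear map -/
noncomputable def altG {V : Type} [AddCommGroup V] [Module ℝ V] : (k : ℕ) →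
    MultilinearMap ℝ (fun _ : Fin k => V) ℝ →ₗ[ℝ] V [⋀^Fin k]→ₗ[ℝ] ℝ
  | 0 =>
    { toFun := fun G => AlternatingMap.constOfIsEmpty ℝ V (Fin 0) (G Fin.elim0)
      map_add' := fun G G' => by ext; rfl
      map_smul' := fun c G => by ext; rfl }
  | k + 1 =>
    { toFun := fun G => AlternatingMap.alternatizeUncurryFin ((altG k).comp G.curryLeft)
      map_add' := fun G G' => by
        rw [← AlternatingMap.alternatizeUncurryFin_add]
        congr 1
        ext v : 1
        change altG k ((G + G').curryLeft v) = altG k (G.curryLeft v) + altG k (G'.curryLeft v)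
        rw [← map_add]
        rfl
      map_smul' := fun c G => by
        rw [RingHom.id_apply, ← AlternatingMap.alternatizeUncurryFin_smul]
        congr 1
        ext v : 1
        change altG k ((c • G).curryLeft v) = c • altG k (G.curryLeft v)
        rw [← map_smul]
        rfl }

/-- pairing of functions and chains -/
noncomputable def pair {Y : Type} {k : ℕ} (F : (Fin k → Y) → ℝ) : (Tup Y).Ch k →ₗ[ℝ] ℝ :=
  Finsupp.linearCombination ℝ F

theorem pair_sg {Y : Type} {k : ℕ} (F : (Fin k → Y) → ℝ) (τ : Fin k → Y) :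
    pair F (sg τ) = F τ := by
  rw [pair, sg, Finsupp.linearCombination_single, one_smul]

theorem tup_ext {Y : Type} {k : ℕ} {M : Type*} [AddCommGroup M] [Module ℝ M]
    {f g : (Tup Y).Ch k →ₗ[ℝ] M} (h : ∀ s : Fin k → Y, f (sg s) = g (sg s)) : f = g :=
  ch_ext h

theorem pair_c {Y : Type} {k : ℕ} (F : (Fin (k + 1) → Y) → ℝ) (p : Y) (x : (Tup Y).Ch k) :
    pair F ((tupCone Y).c p k x) = pair (fun τ => F (Fin.cons p τ : Fin (k + 1) → Y)) x := by
  have : (pair F).comp ((tupCone Y).c p k) =
      pair (fun τ => F (Fin.cons p τ : Fin (k + 1) → Y)) := by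
    refine tup_ext fun t => ?_
    rw [LinearMap.comp_apply, tup_c, pair_sg, pair_sg]
  exact LinearMap.congr_fun this x

theorem altG_apply {V : Type} [AddCommGroup V] [Module ℝ V] {Y : Type} (μ : Y → V) (k : ℕ)
    (G : MultilinearMap ℝ (fun _ : Fin k => V) ℝ) (τ : Fin k → Y) :
    pair (fun τ : Fin k → Y => G (fun i => μ (τ i))) (alt k (sg τ)) =
      altG k G (fun i => μ (τ i)) := by
  induction k with
  | zero =>
    change pair _ (sg τ) = G Fin.elim0
    rw [pair_sg]
    congr 1
    exact Subsingleton.elim _ _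
  | succ k ih =>
    rw [alt_succ, map_sum]
    change _ = AlternatingMap.alternatizeUncurryFin ((altG k).comp G.curryLeft) _
    rw [AlternatingMap.alternatizeUncurryFin_apply]
    refine Finset.sum_congr rfl fun j _ => ?_
    rw [map_smul, pair_c]
    have h1 := ih (G.curryLeft (μ (τ j))) (j.removeNth τ)
    have h2 : (fun τ' : Fin k → Y => G (fun i => μ ((Fin.cons (τ j) τ' : Fin (k + 1) → Y) i))) =
        fun τ' : Fin k → Y => G.curryLeft (μ (τ j)) (fun i => μ (τ' i)) := by
      funext t
      rw [MultilinearMap.curryLeft_apply]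
      congr 1
      funext i
      refine Fin.cases ?_ (fun i => ?_) i
      · rfl
      · rfl
    have h3 : ∀ r : ℝ, ((-1 : ℤ) ^ (j : ℕ)) • r = (-1 : ℝ) ^ (j : ℕ) • r := by
      intro r
      rw [zsmul_eq_mul, smul_eq_mul]
      push_cast
      rfl
    rw [h2, h1, h3]
    rfl

/-- push forward of tuples -/
noncomputable def push {X Y : Type} (m : X → Y) (k : ℕ) : (Tup X).Ch k →ₗ[ℝ] (Tup Y).Ch k :=
  Finsupp.lmapDomain ℝ ℝ (fun τ : Fin k → X => (fun i => m (τ i) : Fin k → Y))

theorem push_sg {X Y : Type} (m : X → Y) (k : ℕ) (τ : Fin k → X) :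
    push m k (sg τ) = sg (fun i => m (τ i)) := by
  rw [push, sg, Finsupp.lmapDomain_apply, Finsupp.mapDomain_single]
  rfl

theorem d_push {X Y : Type} (m : X → Y) (k : ℕ) (x : (Tup X).Ch (k + 1)) :
    (Tup Y).d k (push m (k + 1) x) = push m k ((Tup X).d k x) := by
  have : ((Tup Y).d k).comp (push m (k + 1)) = (push m k).comp ((Tup X).d k) := by
    refine tup_ext fun s => ?_
    rw [LinearMap.comp_apply, LinearMap.comp_apply, push_sg, tup_d, tup_d, map_sum]
    refine Finset.sum_congr rfl fun i _ => ?_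
    rw [map_smul, push_sg]
    rfl
  exact LinearMap.congr_fun this x

end Run7.h262.SV
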