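import Pool.Agent.Run7.h262.SV.Eng

/-!
Equivariant maps to cones in linear representations.
-/

set_option autoImplicit false

open Filter Topology

namespace Run7.h262.SV

section
variable {Γ E : Type} [Group Γ] [NormedAddCommGroup E] [NormedSpace ℝ E] [FiniteDimensional ℝ E]
  {hol : Γ →* (E ≃ᵃ[ℝ] E)} {Ω : Set E}

theorem exists_lin_map {U : Type} [NormedAddCommGroup U] [NormedSpace ℝ U]
    (h : AffDom Γ E hol Ω) (σ : Γ → U →L[ℝ] U) (hσ : ∀ γ δ u, σ (γ * δ) u = σ γ (σ δ u))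
    {C : Set U} (hC : Convex ℝ C) (u₀ : U) (hu₀ : ∀ γ, σ γ u₀ ∈ C) :
    ∃ F : E → U, ContDiffOn ℝ 1 F Ω ∧ (∀ x ∈ Ω, F x ∈ C) ∧
      ∀ γ : Γ, ∀ x ∈ Ω, F (hol γ x) = σ γ (F x) := by
  classical
  obtain ⟨b, hb, hb0⟩ := h.base
  have hfin : ∀ x ∈ Ω, {γ | b γ x ≠ 0}.Finite := fun x hx => hb.fin1 hx
  have hsum : ∀ x (hx : x ∈ Ω) (c : Γ → U),
      ∑ᶠ γ, b γ x • c γ = ∑ γ ∈ (hfin x hx).toFinset, b γ x • c γ := by
    intro x hx c
    refine finsum_eq_sum_of_support_subset _ fun s hs => ?_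
    rw [Finset.mem_coe, Set.Finite.mem_toFinset]
    exact left_ne_zero_of_smul hs
  have hone : ∀ x (hx : x ∈ Ω), ∑ γ ∈ (hfin x hx).toFinset, b γ x = 1 := by
    intro x hx
    rw [← hb.one x hx]
    symm
    refine finsum_eq_sum_of_support_subset _ fun s hs => ?_
    rw [Finset.mem_coe, Set.Finite.mem_toFinset]
    exact hs
  refine ⟨fun x => ∑ᶠ γ, b γ x • σ γ u₀, lf_smooth h.isOpen hb.smooth hb.fin _, ?_, ?_⟩
  · intro x hx
    simp only
    rw [hsum x hx]
    exact hC.sum_mem (fun γ _ => hb0 γ x hx) (hone x hx) fun γ _ => hu₀ γ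
  · intro γ x hx
    simp only
    rw [← finsum_comp_equiv (Equiv.mulLeft γ)]
    have e1 : ∀ δ : Γ, b ((Equiv.mulLeft γ) δ) (hol γ x) • σ ((Equiv.mulLeft γ) δ) u₀ =
        b δ x • σ γ (σ δ u₀) := by
      intro δ
      have h1 := hb.equi γ δ x hx
      rw [Equiv.coe_mulLeft, hσ]
      rw [smul_eq_mul] at h1
      rw [h1]
    rw [finsum_congr e1, hsum x hx, hsum x hx, map_sum]
    exact Finset.sum_congr rfl fun δ _ => (map_smul _ _ _).symm

end

section
variable {U : Type} [NormedAddCommGroup U] [InnerProductSpace ℝ U]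

/-- unit vectors -/
noncomputable def nrm (u : U) : U := ‖u‖⁻¹ • u

theorem nrm_smooth : ContDiffOn ℝ 1 (nrm : U → U) {0}ᶜ := by
  intro u hu
  have hu0 : u ≠ 0 := hu
  have h1 : ContDiffAt ℝ 1 (fun u : U => ‖u‖) u := contDiffAt_norm ℝ hu0
  exact ((h1.inv (norm_ne_zero_iff.2 hu0)).smul contDiffAt_id).contDiffWithinAt

theorem nrm_smul (u : U) (t : ℝ) (ht : 0 < t) : nrm (t • u) = nrm u := by
  unfold nrm
  rw [norm_smul, Real.norm_of_nonneg ht.le, mul_inv, smul_smul, mul_right_comm,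
    inv_mul_cancel₀ ht.ne', one_mul]

/-- the derivative of the normalised path vanishes if the velocity is radial -/
theorem nrm_deriv {y : ℝ → U} {c : ℝ} (hy0 : y 0 ≠ 0) (hy : HasDerivAt y (c • y 0) 0) :
    HasDerivAt (fun t => nrm (y t)) 0 0 := by
  have h1 : DifferentiableAt ℝ (nrm : U → U) (y 0) :=
    ((nrm_smooth (U := U)).differentiableOn one_ne_zero).differentiableAt
      (isOpen_compl_singleton.mem_nhds hy0)
  have h2 : HasDerivAt (fun t => nrm (y t)) (fderiv ℝ (nrm : U → U) (y 0) (c • y 0)) 0 :=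
    h1.hasFDerivAt.comp_hasDerivAt (0 : ℝ) hy
  have h3 : fderiv ℝ (nrm : U → U) (y 0) (y 0) = 0 := by
    have h4 : HasDerivAt (fun t : ℝ => y 0 + t • y 0) (y 0) 0 := by
      have := ((hasDerivAt_id (0 : ℝ)).smul_const (y 0)).const_add (y 0)
      simpa using this
    have h5 : HasDerivAt (fun t : ℝ => nrm (y 0 + t • y 0))
        (fderiv ℝ (nrm : U → U) (y 0) (y 0)) 0 := by
      have h6 : HasFDerivAt (nrm : U → U) (fderiv ℝ (nrm : U → U) (y 0)) (y 0 + (0 : ℝ) • y 0) := by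
        rw [zero_smul, add_zero]
        exact h1.hasFDerivAt
      exact h6.comp_hasDerivAt (0 : ℝ) h4
    have h7 : (fun t : ℝ => nrm (y 0 + t • y 0)) =ᶠ[𝓝 0] fun _ => nrm (y 0) := by
      filter_upwards [lt_mem_nhds (show (-1 : ℝ) < 0 by norm_num)] with t ht
      have e1 : y 0 + t • y 0 = (1 + t) • y 0 := by rw [add_smul, one_smul]
      rw [e1, nrm_smul _ _ (by linarith)]
    exact h5.unique ((hasDerivAt_const (0 : ℝ) (nrm (y 0))).congr_of_eventuallyEq h7)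
  rw [map_smul, h3, smul_zero] at h2
  exact h2

end

/-- positive continuous functions on compact sets are bounded away from zero -/
theorem cpt_bounds {T : Type} [TopologicalSpace T] {K : Set T} (hK : IsCompact K) {f : T → ℝ}
    (hf : ContinuousOn f K) (hp : ∀ x ∈ K, 0 < f x) :
    ∃ m M : ℝ, 0 < m ∧ 0 < M ∧ ∀ x ∈ K, m ≤ f x ∧ f x ≤ M := by
  rcases K.eq_empty_or_nonempty with rfl | hne
  · exact ⟨1, 1, one_pos, one_pos, fun x hx => absurd hx (Set.notMem_empty x)⟩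
  · obtain ⟨a, ha, h1⟩ := hK.exists_isMinOn hne hf
    obtain ⟨b, hb, h2⟩ := hK.exists_isMaxOn hne hf
    exact ⟨f a, f b, hp a ha, hp b hb, fun x hx => ⟨h1 hx, h2 hx⟩⟩

end Run7.h262.SV
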