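import Pool.Agent.Run7.h262.SV.Disc

/-!
Normalising weights, and finiteness of sets of elements bounded modulo scalars.
-/

set_option autoImplicit false

open Filter Topology

namespace Run7.h262.SV

section
variable {Γ E : Type} [Group Γ] [NormedAddCommGroup E] [NormedSpace ℝ E] [FiniteDimensional ℝ E]
  {hol : Γ →* (E ≃ᵃ[ℝ] E)} {Ω : Set E}

theorem path_deriv {F : Type} [NormedAddCommGroup F] [NormedSpace ℝ F] {f : E → F} {x : E}
    (hf : DifferentiableAt ℝ f x) (v : E) :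
    HasDerivAt (fun t : ℝ => f (x + t • v)) (fderiv ℝ f x v) 0 := by
  have h1 : HasDerivAt (fun t : ℝ => x + t • v) v 0 := by
    have := ((hasDerivAt_id (0 : ℝ)).smul_const v).const_add x
    simpa using this
  have h2 : HasFDerivAt f (fderiv ℝ f x) (x + (0 : ℝ) • v) := by
    rw [zero_smul, add_zero]
    exact hf.hasFDerivAt
  exact h2.comp_hasDerivAt (0 : ℝ) h1

theorem normalise (hΩ : IsOpen Ω) (b : Γ → E → ℝ) (hs : ∀ γ, ContDiffOn ℝ 1 (b γ) Ω)
    (hf : ∀ K : Set E, IsCompact K → K ⊆ Ω → {γ | ∃ x ∈ K, b γ x ≠ 0}.Finite)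
    (h0 : ∀ γ, ∀ x ∈ Ω, 0 ≤ b γ x) (hp : ∀ x ∈ Ω, ∃ γ, 0 < b γ x)
    (he : ∀ γ δ : Γ, ∀ x ∈ Ω, b (γ * δ) (hol γ x) = b δ x) :
    ∃ l : Γ → E → ℝ, PreW Γ Γ E hol Ω l ∧ ∀ x ∈ Ω, ∀ v, (∀ γ, fderiv ℝ (b γ) x v = 0) →
      ∀ γ, fderiv ℝ (l γ) x v = 0 := by
  classical
  let Ψ : E → ℝ := fun x => ∑ᶠ γ, b γ x
  have hΨs : ContDiffOn ℝ 1 Ψ Ω := by
    have := lf_smooth hΩ hs hf (fun _ => (1 : ℝ))
    simpa using this
  have hbfin : ∀ x ∈ Ω, (Function.support fun γ => b γ x).Finite := by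
    intro x hx
    refine (hf {x} isCompact_singleton (by simpa using hx)).subset fun γ hγ => ?_
    exact ⟨x, rfl, hγ⟩
  have hΨp : ∀ x ∈ Ω, 0 < Ψ x := by
    intro x hx
    obtain ⟨γ, hγ⟩ := hp x hx
    exact finsum_pos (fun γ => h0 γ x hx) ⟨γ, hγ⟩ (hbfin x hx)
  have hΨe : ∀ γ : Γ, ∀ x ∈ Ω, Ψ (hol γ x) = Ψ x := by
    intro γ x hx
    simp only [Ψ]
    rw [← finsum_comp_equiv (Equiv.mulLeft γ)]
    exact finsum_congr fun δ => he γ δ x hx
  have hls : ∀ γ, ContDiffOn ℝ 1 (fun x => b γ x / Ψ x) Ω := fun γ =>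
    (hs γ).div hΨs fun x hx => (hΨp x hx).ne'
  refine ⟨fun γ x => b γ x / Ψ x, ⟨hls, ?_, ?_, ?_⟩, ?_⟩
  · intro K₁ hK₁ hK₁Ω
    refine (hf K₁ hK₁ hK₁Ω).subset ?_
    rintro γ ⟨x, hx, h0⟩
    refine ⟨x, hx, fun h1 => h0 ?_⟩
    rw [h1, zero_div]
  · intro x hx
    have h1 : ∑ᶠ γ, b γ x / Ψ x = (∑ᶠ γ, b γ x) / Ψ x := by
      simp only [div_eq_mul_inv]
      exact (finsum_mul _ _).symm
    rw [h1]
    exact div_self (hΨp x hx).ne'
  · intro γ δ x hx
    simp only [smul_eq_mul]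
    rw [he γ δ x hx, hΨe γ x hx]
  · intro x hx v hv γ
    have hdiff : ∀ {f : E → ℝ}, ContDiffOn ℝ 1 f Ω → DifferentiableAt ℝ f x := fun hf =>
      (hf.differentiableOn one_ne_zero).differentiableAt (hΩ.mem_nhds hx)
    have hb : ∀ γ, HasDerivAt (fun t : ℝ => b γ (x + t • v)) 0 0 := by
      intro γ
      have := path_deriv (hdiff (hs γ)) v
      rwa [hv γ] at this
    have hpath : Tendsto (fun t : ℝ => x + t • v) (𝓝 0) (𝓝 x) := by
      have h1 : Continuous fun t : ℝ => x + t • v := by fun_prop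
      have := h1.tendsto 0
      rwa [zero_smul, add_zero] at this
    have hΨ : HasDerivAt (fun t : ℝ => Ψ (x + t • v)) 0 0 := by
      obtain ⟨T, hT⟩ := lf_nhds (F := ℝ) hΩ hf x hx
      have h1 : HasDerivAt (fun t : ℝ => ∑ γ ∈ T, b γ (x + t • v)) (∑ γ ∈ T, (0 : ℝ)) 0 := by
        have := HasDerivAt.fun_sum (u := T) (fun γ _ => hb γ)
        exact this
      rw [Finset.sum_const_zero] at h1
      refine h1.congr_of_eventuallyEq ?_
      filter_upwards [hpath.eventually hT] with t ht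
      have := ht.2.2 fun _ => (1 : ℝ)
      simpa using this
    have h1 := path_deriv (hdiff (hls γ)) v
    have hx0 : Ψ (x + (0 : ℝ) • v) ≠ 0 := by
      rw [zero_smul, add_zero]
      exact (hΨp x hx).ne'
    have h2 := (hb γ).div hΨ hx0
    have h3 := h1.unique h2
    rw [h3]
    ring

end

section
variable {Γ V : Type} [Group Γ] [NormedAddCommGroup V] [NormedSpace ℝ V] [FiniteDimensional ℝ V]

/-- elements bounded modulo scalars on the quotients of a flag -/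
def BddBlocks (ρ : Γ →* (V →L[ℝ] V)) (S : ℕ → Submodule ℝ V) (n : ℕ) (c : ℝ) (γ : Γ) : Prop :=
  ∃ s : ℕ → ℝ, (∀ i < n, 0 < s i) ∧ ∀ i < n, ∀ v ∈ S (i + 1),
    (∃ w ∈ S i, ‖s i • ρ γ v - w‖ ≤ c * ‖v‖) ∧ ∃ w ∈ S i, ‖(s i)⁻¹ • ρ γ⁻¹ v - w‖ ≤ c * ‖v‖

theorem bdd_finite (ρ : Γ →* (V →L[ℝ] V)) {S : ℕ → Submodule ℝ V} {n : ℕ} (h0 : S 0 = ⊥)
    (hn : S n = ⊤) (hm : ∀ i < n, S i ≤ S (i + 1))
    (hinv : ∀ i ≤ n, ∀ γ : Γ, ∀ v ∈ S i, ρ γ v ∈ S i)
    (hsm : ∃ δ > 0, ∀ γ : Γ, (∃ s : ℕ → ℝ, (∀ i, s i ≠ 0) ∧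
      ∀ i < n, ∀ v ∈ S (i + 1), ∃ w ∈ S i, ‖s i • ρ γ v - v - w‖ ≤ δ * ‖v‖) → γ = 1) (c : ℝ) :
    {γ | BddBlocks ρ S n c γ}.Finite := by
  classical
  obtain ⟨δ, hδ, hsm⟩ := hsm
  obtain ⟨P, hP⟩ := exists_fproj S n h0 hn hm
  set σ := gr hP ρ hinv with hσ
  have hσi : ∀ γ : Γ, σ γ * σ γ⁻¹ = 1 := fun γ => by rw [← map_mul, mul_inv_cancel, map_one]
  have hσi' : ∀ γ : Γ, σ γ⁻¹ * σ γ = 1 := fun γ => by rw [← map_mul, inv_mul_cancel, map_one]
  set C : ℝ := ∑ i ∈ Finset.range n, ‖P i‖ * ‖P i‖ with hC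
  have hC0 : 0 ≤ C := Finset.sum_nonneg fun i _ => mul_nonneg (norm_nonneg _) (norm_nonneg _)
  set c' : ℝ := |c| with hc'
  -- bounds for the graded representation
  have hbd : ∀ (γ : Γ) (s : ℕ → ℝ), (∀ i < n, ∀ v ∈ S (i + 1), ∃ w ∈ S i,
      ‖s i • ρ γ v - w‖ ≤ c * ‖v‖) → ‖bsc P n s * σ γ‖ ≤ C * c' := by
    intro γ s hs
    have e1 : bsc P n s * σ γ = ∑ i ∈ Finset.range n, s i • (P i * ρ γ * P i) :=
      bsc_diag hP s (ρ γ)
    rw [e1]
    have h2 : ∀ i ∈ Finset.range n, ‖s i • (P i * ρ γ * P i)‖ ≤ ‖P i‖ * ‖P i‖ * c' := by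
      intro i hi
      rw [Finset.mem_range] at hi
      refine ContinuousLinearMap.opNorm_le_bound _ (by positivity) fun v => ?_
      obtain ⟨w, hw, h3⟩ := hs i hi (P i v) (hP.mem i hi v)
      have e2 : (s i • (P i * ρ γ * P i)) v = P i (s i • ρ γ (P i v) - w) := by
        rw [map_sub, hP.kill i hi w hw, sub_zero, map_smul]
        rfl
      rw [e2]
      calc ‖P i (s i • ρ γ (P i v) - w)‖ ≤ ‖P i‖ * ‖s i • ρ γ (P i v) - w‖ := (P i).le_opNorm _
        _ ≤ ‖P i‖ * (c * ‖P i v‖) := mul_le_mul_of_nonneg_left h3 (norm_nonneg _)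
        _ ≤ ‖P i‖ * (c' * ‖P i v‖) := by
            refine mul_le_mul_of_nonneg_left ?_ (norm_nonneg _)
            exact mul_le_mul_of_nonneg_right (le_abs_self c) (norm_nonneg _)
        _ ≤ ‖P i‖ * (c' * (‖P i‖ * ‖v‖)) := by
            refine mul_le_mul_of_nonneg_left ?_ (norm_nonneg _)
            exact mul_le_mul_of_nonneg_left ((P i).le_opNorm v) (abs_nonneg c)
        _ = ‖P i‖ * ‖P i‖ * c' * ‖v‖ := by ring
    calc _ ≤ ∑ i ∈ Finset.range n, ‖s i • (P i * ρ γ * P i)‖ := norm_sum_le _ _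
      _ ≤ ∑ i ∈ Finset.range n, ‖P i‖ * ‖P i‖ * c' := Finset.sum_le_sum h2
      _ = C * c' := by rw [← Finset.sum_mul]
  -- small elements
  have hsmall : ∀ (γ : Γ) (s : ℕ → ℝ), (∀ i < n, s i ≠ 0) →
      ‖bsc P n s * σ γ - 1‖ * (C + 1) ≤ δ → γ = 1 := by
    intro γ s hs h1
    refine hsm γ ⟨fun i => if i < n then s i else 1, fun i => ?_, fun i hi v hv => ?_⟩
    · simp only
      split_ifs with h
      · exact hs i h
      · exact one_ne_zero
    · simp only [if_pos hi]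
      set u := ρ γ (P i v) with hu
      have hu1 : u ∈ S (i + 1) := hinv _ (by omega) γ _ (hP.mem i hi v)
      have hv1 : v - P i v ∈ S i := hP.sub i hi v hv
      refine ⟨s i • ρ γ (v - P i v) + s i • (u - P i u) - (v - P i v), ?_, ?_⟩
      · refine Submodule.sub_mem _ (Submodule.add_mem _ (Submodule.smul_mem _ _ ?_)
          (Submodule.smul_mem _ _ (hP.sub i hi u hu1))) hv1
        exact hinv i hi.le γ _ hv1
      · have e1 : s i • ρ γ v - v - (s i • ρ γ (v - P i v) + s i • (u - P i u) - (v - P i v)) =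
            s i • P i u - P i v := by
          rw [map_sub, smul_sub, smul_sub]
          abel
        have e3 : P i (P i v) = P i v := congrArg (fun Y : V →L[ℝ] V => Y v) (hP.idem i hi)
        have e2 : (bsc P n s * σ γ - 1) (P i v) = s i • P i u - P i v := by
          have e4 : bsc P n s * σ γ = ∑ j ∈ Finset.range n, s j • (P j * ρ γ * P j) :=
            bsc_diag hP s (ρ γ)
          rw [e4]
          change (∑ j ∈ Finset.range n, s j • (P j * ρ γ * P j)) (P i v) - P i v = _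
          congr 1
          rw [ContinuousLinearMap.sum_apply, Finset.sum_eq_single i]
          · change s i • P i (ρ γ (P i (P i v))) = _
            rw [e3]
          · intro j hj hji
            change s j • P j (ρ γ (P j (P i v))) = 0
            have e5 : P j (P i v) = 0 :=
              congrArg (fun Y : V →L[ℝ] V => Y v) (hP.orth j (Finset.mem_range.1 hj) i hi hji)
            rw [e5, map_zero, map_zero, smul_zero]
          · exact fun h => absurd (Finset.mem_range.2 hi) h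
        rw [e1, ← e2]
        have h2 : ‖P i‖ ≤ C + 1 := by
          have h3 : ‖P i‖ * ‖P i‖ ≤ C :=
            Finset.single_le_sum (f := fun i => ‖P i‖ * ‖P i‖)
              (fun j _ => mul_nonneg (norm_nonneg _) (norm_nonneg _)) (Finset.mem_range.2 hi)
          nlinarith [sq_nonneg (‖P i‖ - 1), norm_nonneg (P i)]
        calc _ ≤ ‖bsc P n s * σ γ - 1‖ * ‖P i v‖ := ContinuousLinearMap.le_opNorm _ _
          _ ≤ ‖bsc P n s * σ γ - 1‖ * (‖P i‖ * ‖v‖) :=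
              mul_le_mul_of_nonneg_left ((P i).le_opNorm v) (norm_nonneg _)
          _ ≤ ‖bsc P n s * σ γ - 1‖ * ((C + 1) * ‖v‖) := by
              refine mul_le_mul_of_nonneg_left ?_ (norm_nonneg _)
              exact mul_le_mul_of_nonneg_right h2 (norm_nonneg _)
          _ = ‖bsc P n s * σ γ - 1‖ * (C + 1) * ‖v‖ := by ring
          _ ≤ δ * ‖v‖ := mul_le_mul_of_nonneg_right h1 (norm_nonneg _)
  -- finiteness
  by_contra hinf
  have hinf' : {γ | BddBlocks ρ S n c γ}.Infinite := hinf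
  let f := hinf'.natEmbedding
  have hf : ∀ k, BddBlocks ρ S n c (f k) := fun k => (f k).2
  choose s hs1 hs2 using hf
  let a : ℕ → (V →L[ℝ] V) := fun k => bsc P n (s k) * σ (f k)
  have ha : ∀ k, a k ∈ Metric.closedBall (0 : V →L[ℝ] V) (C * c') := by
    intro k
    rw [mem_closedBall_zero_iff]
    exact hbd _ _ fun i hi v hv => (hs2 k i hi v hv).1
  obtain ⟨x, -, φ, hφ, hlim⟩ := (isCompact_closedBall (0 : V →L[ℝ] V) (C * c')).tendsto_subseq ha
  have hcau := hlim.cauchySeq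
  have hε : 0 < δ / ((C * c' + 1) * (C + 1)) := by positivity
  obtain ⟨N, hN⟩ := Metric.cauchySeq_iff.1 hcau _ hε
  have h1 := hN N le_rfl (N + 1) (Nat.le_succ N)
  rw [dist_eq_norm] at h1
  set k := φ N with hk
  set l := φ (N + 1) with hl
  change ‖a k - a l‖ < _ at h1
  have hkl : k ≠ l := (hφ (Nat.lt_succ_self N)).ne
  have hne : (f k : Γ) * (f l : Γ)⁻¹ ≠ 1 := by
    intro h2
    exact hkl (f.injective (Subtype.ext (mul_inv_eq_one.1 h2)))
  refine hne (hsmall _ (fun i => s k i * (s l i)⁻¹) (fun i hi =>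
    mul_ne_zero (hs1 k i hi).ne' (inv_ne_zero (hs1 l i hi).ne')) ?_)
  have hB : ‖bsc P n (fun i => (s l i)⁻¹) * σ (f l : Γ)⁻¹‖ ≤ C * c' := hbd _ _ fun i hi v hv =>
    (hs2 l i hi v hv).2
  have hzc : ∀ t (δ : Γ), bsc P n t * σ δ = σ δ * bsc P n t := by
    intro t δ
    exact (bsc_diag hP t (ρ δ)).trans (diag_bsc hP t (ρ δ)).symm
  have key : ∀ t t' : ℕ → ℝ, ∀ γ γ' : Γ, (bsc P n t * σ γ) * (bsc P n t' * σ γ') =
      bsc P n (fun i => t i * t' i) * σ (γ * γ') := by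
    intro t t' γ γ'
    rw [map_mul, ← bsc_mul hP]
    calc _ = bsc P n t * (σ γ * bsc P n t') * σ γ' := by simp only [mul_assoc]
      _ = bsc P n t * (bsc P n t' * σ γ) * σ γ' := by rw [hzc]
      _ = _ := by simp only [mul_assoc]
  have e1 : bsc P n (fun i => s k i * (s l i)⁻¹) * σ ((f k : Γ) * (f l : Γ)⁻¹) - 1 =
      (a k - a l) * (bsc P n (fun i => (s l i)⁻¹) * σ (f l : Γ)⁻¹) := by
    rw [sub_mul]
    simp only [a]
    rw [key, key, mul_inv_cancel, map_one, mul_one]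
    congr 1
    rw [← bsc_one hP]
    unfold bsc
    refine Finset.sum_congr rfl fun i hi => ?_
    change (1 : ℝ) • P i = (s l i * (s l i)⁻¹) • P i
    rw [mul_inv_cancel₀ (hs1 l i (Finset.mem_range.1 hi)).ne']
  rw [e1]
  have hcc : 0 ≤ C * c' := by positivity
  calc ‖(a k - a l) * (bsc P n (fun i => (s l i)⁻¹) * σ (f l : Γ)⁻¹)‖ * (C + 1)
      ≤ ‖a k - a l‖ * ‖bsc P n (fun i => (s l i)⁻¹) * σ (f l : Γ)⁻¹‖ * (C + 1) :=
        mul_le_mul_of_nonneg_right (norm_mul_le _ _) (by positivity)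
    _ ≤ δ / ((C * c' + 1) * (C + 1)) * (C * c' + 1) * (C + 1) := by
        refine mul_le_mul_of_nonneg_right (mul_le_mul h1.le (hB.trans (by linarith))
          (norm_nonneg _) hε.le) (by positivity)
    _ = δ := by
        field_simp

end

end Run7.h262.SV
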