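import Pool.Agent.Run7.h262.SV.Semi

/-!
Edgewise subdivision and alternation of tuples.
-/

set_option autoImplicit false

open Finset

namespace Run7.h262.SV

variable {S : Type}

/-- a tuple as a chain -/
noncomputable def sg {k : ℕ} (s : Fin k → S) : (Tup S).Ch k := Finsupp.single s 1

theorem tup_d (k : ℕ) (s : Fin (k + 1) → S) :
    (Tup S).d k (sg s) = ∑ i : Fin (k + 1), (-1 : ℝ) ^ (i : ℕ) • sg (i.removeNth s) :=
  (Tup S).d_single k s

theorem tup_c (p : S) (k : ℕ) (s : Fin k → S) :
    (tupCone S).c p k (sg s) = sg (Fin.cons p s : Fin (k + 1) → S) :=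
  (tupCone S).c_single p k s 1

/-- edgewise subdivision -/
noncomputable def sd (mid : S → S → S) : (k : ℕ) → (Tup S).Ch k →ₗ[ℝ] (Tup S).Ch k
  | 0 => LinearMap.id
  | 1 => LinearMap.id
  | k + 2 => Finsupp.linearCombination ℝ fun s : Fin (k + 2) → S =>
      (tupCone S).c (mid (s 0) (s (Fin.last (k + 1)))) (k + 1)
        (sd mid (k + 1) (sg (Fin.tail s)) + (-1 : ℝ) ^ (k + 1) • sd mid (k + 1) (sg (Fin.init s)))

theorem sd_succ (mid : S → S → S) (k : ℕ) (s : Fin (k + 2) → S) :
    sd mid (k + 2) (sg s) = (tupCone S).c (mid (s 0) (s (Fin.last (k + 1)))) (k + 1)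
        (sd mid (k + 1) (sg (Fin.tail s)) +
          (-1 : ℝ) ^ (k + 1) • sd mid (k + 1) (sg (Fin.init s))) := by
  rw [sd, sg, Finsupp.linearCombination_single, one_smul]

theorem d_sd_aux (mid : S → S → S) (k : ℕ)
    (ih : ∀ x : (Tup S).Ch (k + 1), (Tup S).d k (sd mid (k + 1) x) = sd mid k ((Tup S).d k x))
    (s : Fin (k + 2) → S) :
    (Tup S).d (k + 1) (sd mid (k + 2) (sg s)) = sd mid (k + 1) ((Tup S).d (k + 1) (sg s)) := by
  have h0 : (0 : Fin (k + 2)).removeNth s = Fin.tail s := Fin.removeNth_zero s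
  have hl : (Fin.last (k + 1)).removeNth s = Fin.init s := Fin.removeNth_last s
  rw [sd_succ, (tupCone S).d_c, tup_d, map_sum]
  simp only [map_smul, map_add]
  rw [ih, ih]
  cases k with
  | zero =>
    rw [Fin.sum_univ_succ, Fin.sum_univ_one, h0, tup_d, tup_d, Fin.sum_univ_one, Fin.sum_univ_one]
    have h1 : (Fin.succ (0 : Fin 1)).removeNth s = Fin.init s := hl
    rw [h1]
    have h2 : Fin.removeNth 0 (Fin.tail s) = Fin.removeNth 0 (Fin.init s) :=
      Subsingleton.elim _ _
    rw [h2]
    simp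
  | succ k =>
    have e1 : ∀ j : Fin (k + 1), (j.castSucc.succ).removeNth s 0 = s 0 := fun j => by
      simp [Fin.removeNth]
    have e2 : ∀ j : Fin (k + 1), (j.castSucc.succ).removeNth s (Fin.last (k + 1)) =
        s (Fin.last (k + 2)) := fun j => by
      have : j.castSucc.succ.succAbove (Fin.last (k + 1)) = Fin.last (k + 2) := by
        rw [Fin.succAbove_of_lt_succ, Fin.succ_last]
        rw [Fin.succ_last, Fin.lt_def]
        simp only [Fin.val_succ, Fin.val_castSucc, Fin.val_last]
        omega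
      rw [Fin.removeNth, this]
    have e3 : ∀ j : Fin (k + 1), Fin.tail ((j.castSucc.succ).removeNth s) =
        j.castSucc.removeNth (Fin.tail s) := fun j => by
      funext i
      simp [Fin.tail, Fin.removeNth]
    have e4 : ∀ j : Fin (k + 1), Fin.init ((j.castSucc.succ).removeNth s) =
        j.succ.removeNth (Fin.init s) := fun j => by
      funext i
      have : j.castSucc.succ.succAbove i.castSucc = (j.succ.succAbove i).castSucc := by
        rw [Fin.succ_castSucc]
        exact Fin.castSucc_succAbove_castSucc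
      simp only [Fin.init, Fin.removeNth]
      rw [this]
    have e5 : (Fin.last (k + 1)).removeNth (Fin.tail s) =
        (0 : Fin (k + 2)).removeNth (Fin.init s) := by
      rw [Fin.removeNth_last, Fin.removeNth_zero]
      rfl
    set c := (tupCone S).c (mid (s 0) (s (Fin.last (k + 1 + 1)))) (k + 1) with hc
    set X := sd mid (k + 1) (sg ((0 : Fin (k + 2)).removeNth (Fin.init s))) with hX
    set A : Fin (k + 1) → (Tup S).Ch (k + 1) :=
      fun j => sd mid (k + 1) (sg (j.castSucc.removeNth (Fin.tail s))) with hAd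
    set B : Fin (k + 1) → (Tup S).Ch (k + 1) :=
      fun j => sd mid (k + 1) (sg (j.succ.removeNth (Fin.init s))) with hBd
    have hmid : ∀ j : Fin (k + 1), sd mid (k + 2) (sg ((j.castSucc.succ).removeNth s)) =
        c (A j + (-1 : ℝ) ^ (k + 1) • B j) := by
      intro j
      rw [sd_succ, e1, e2, e3, e4]
    have hA : c (sd mid (k + 1) ((Tup S).d (k + 1) (sg (Fin.tail s)))) =
        ∑ j : Fin (k + 1), (-1 : ℝ) ^ (j : ℕ) • c (A j) + (-1 : ℝ) ^ (k + 1) • c X := by
      rw [tup_d, Fin.sum_univ_castSucc, e5]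
      simp only [map_add, map_sum, map_smul, Fin.val_castSucc, Fin.val_last]
      rfl
    have hB : c (sd mid (k + 1) ((Tup S).d (k + 1) (sg (Fin.init s)))) =
        c X - ∑ j : Fin (k + 1), (-1 : ℝ) ^ (j : ℕ) • c (B j) := by
      rw [tup_d, Fin.sum_univ_succ]
      simp only [map_add, map_sum, map_smul, Fin.val_zero, pow_zero, one_smul, Fin.val_succ,
        pow_succ, mul_neg, mul_one, neg_smul, Finset.sum_neg_distrib, ← sub_eq_add_neg, map_sub]
      rfl
    have hT : ∑ j : Fin (k + 1), (-1 : ℝ) ^ ((j : ℕ) + 1) • c (A j + (-1 : ℝ) ^ (k + 1) • B j) =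
        - ∑ j : Fin (k + 1), (-1 : ℝ) ^ (j : ℕ) • c (A j)
          - (-1 : ℝ) ^ (k + 1) • ∑ j : Fin (k + 1), (-1 : ℝ) ^ (j : ℕ) • c (B j) := by
      rw [Finset.smul_sum, ← Finset.sum_neg_distrib, ← Finset.sum_sub_distrib]
      refine Finset.sum_congr rfl fun j _ => ?_
      rw [map_add, map_smul, smul_add, smul_smul, smul_smul, pow_succ (-1 : ℝ) (j : ℕ)]
      module
    rw [Fin.sum_univ_succ, Fin.sum_univ_castSucc]
    simp only [hmid, Fin.val_succ, Fin.val_castSucc, Fin.val_zero, pow_zero, one_smul, Fin.val_last]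
    rw [hT, hA, hB, h0, Fin.succ_last, hl]
    have e6 : (-1 : ℝ) ^ (k + 1 + 1) = - (-1 : ℝ) ^ (k + 1) := by
      rw [pow_succ]
      ring
    rw [e6]
    module

theorem d_sd (mid : S → S → S) (k : ℕ) (x : (Tup S).Ch (k + 1)) :
    (Tup S).d k (sd mid (k + 1) x) = sd mid k ((Tup S).d k x) := by
  induction k with
  | zero => rfl
  | succ k ih =>
    have : ((Tup S).d (k + 1)).comp (sd mid (k + 2)) =
        (sd mid (k + 1)).comp ((Tup S).d (k + 1)) := ch_ext fun s => d_sd_aux mid k ih s
    exact LinearMap.congr_fun this x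

/-- alternation -/
noncomputable def alt : (k : ℕ) → (Tup S).Ch k →ₗ[ℝ] (Tup S).Ch k
  | 0 => LinearMap.id
  | k + 1 => Finsupp.linearCombination ℝ fun s : Fin (k + 1) → S =>
      ∑ j : Fin (k + 1), (-1 : ℝ) ^ (j : ℕ) • (tupCone S).c (s j) k (alt k (sg (j.removeNth s)))

theorem alt_succ (k : ℕ) (s : Fin (k + 1) → S) :
    alt (k + 1) (sg s) = ∑ j : Fin (k + 1), (-1 : ℝ) ^ (j : ℕ) •
      (tupCone S).c (s j) k (alt k (sg (j.removeNth s))) := by
  rw [alt, sg, Finsupp.linearCombination_single, one_smul]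

theorem d_alt (k : ℕ) (x : (Tup S).Ch (k + 1)) :
    (Tup S).d k (alt (k + 1) x) = ((k : ℝ) + 1) • alt k ((Tup S).d k x) := by
  induction k with
  | zero =>
    have : ((Tup S).d 0).comp (alt 1) = (((0 : ℕ) : ℝ) + 1) • (alt 0).comp ((Tup S).d 0) := by
      refine ch_ext fun (s : Fin 1 → S) => ?_
      change (Tup S).d 0 (alt 1 (sg s)) = (((0 : ℕ) : ℝ) + 1) • alt 0 ((Tup S).d 0 (sg s))
      rw [alt_succ, tup_d, Fin.sum_univ_one, Fin.sum_univ_one, map_smul, map_smul,
        (tupCone S).d_c_zero]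
      simp
    exact LinearMap.congr_fun this x
  | succ k ih =>
    have : ((Tup S).d (k + 1)).comp (alt (k + 2)) =
        (((k + 1 : ℕ) : ℝ) + 1) • (alt (k + 1)).comp ((Tup S).d (k + 1)) := by
      refine ch_ext fun (s : Fin (k + 2) → S) => ?_
      change (Tup S).d (k + 1) (alt (k + 2) (sg s)) =
        (((k + 1 : ℕ) : ℝ) + 1) • alt (k + 1) ((Tup S).d (k + 1) (sg s))
      have h1 : (Tup S).d (k + 1) (alt (k + 2) (sg s)) = alt (k + 1) ((Tup S).d (k + 1) (sg s)) -
          ((k : ℝ) + 1) • ∑ j : Fin (k + 2), ∑ i : Fin (k + 1), (-1 : ℝ) ^ ((j : ℕ) + (i : ℕ)) •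
            (tupCone S).c (s j) k (alt k (sg (i.removeNth (j.removeNth s)))) := by
        rw [alt_succ, tup_d, map_sum, map_sum, Finset.smul_sum, ← Finset.sum_sub_distrib]
        refine Finset.sum_congr rfl fun j _ => ?_
        rw [map_smul, (tupCone S).d_c, ih, map_smul, tup_d, map_sum, map_sum, smul_sub, smul_smul,
          mul_comm ((-1 : ℝ) ^ (j : ℕ)), mul_smul, map_smul]
        congr 2
        rw [Finset.smul_sum]
        refine Finset.sum_congr rfl fun i _ => ?_
        rw [map_smul, map_smul, smul_smul, ← pow_add]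
      have h2 : alt (k + 1) ((Tup S).d (k + 1) (sg s)) =
          ∑ j : Fin (k + 2), ∑ i : Fin (k + 1), (-1 : ℝ) ^ ((j : ℕ) + (i : ℕ)) •
            (tupCone S).c ((j.removeNth s) i) k (alt k (sg (i.removeNth (j.removeNth s)))) := by
        rw [tup_d, map_sum]
        refine Finset.sum_congr rfl fun j _ => ?_
        rw [map_smul, alt_succ, Finset.smul_sum]
        refine Finset.sum_congr rfl fun i _ => ?_
        rw [smul_smul, ← pow_add]
      have h3 := anti_sum (fun (j : Fin (k + 2)) (i : Fin (k + 1)) =>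
        (tupCone S).c (s j) k (alt k (sg (i.removeNth (j.removeNth s)))) +
        (tupCone S).c ((j.removeNth s) i) k (alt k (sg (i.removeNth (j.removeNth s))))) (by
          intro j i
          rw [← Fin.removeNth_removeNth_eq_swap]
          have h4 : (j.succAbove i).removeNth s (i.predAbove j) = s j := by
            rw [Fin.removeNth, Fin.succAbove_succAbove_predAbove]
          rw [h4]
          exact add_comm _ _)
      simp only [smul_add, Finset.sum_add_distrib] at h3
      rw [← h2] at h3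
      rw [h1, eq_neg_of_add_eq_zero_left h3]
      push_cast
      module
    exact LinearMap.congr_fun this x

/-- normalized alternation -/
noncomputable def altn (k : ℕ) : (Tup S).Ch k →ₗ[ℝ] (Tup S).Ch k :=
  ((k.factorial : ℝ)⁻¹) • alt k

theorem d_altn (k : ℕ) (x : (Tup S).Ch (k + 1)) :
    (Tup S).d k (altn (k + 1) x) = altn k ((Tup S).d k x) := by
  rw [altn, altn, LinearMap.smul_apply, LinearMap.smul_apply, map_smul, d_alt, smul_smul]
  congr 1
  rw [Nat.factorial_succ]
  push_cast
  have h1 : ((k : ℝ) + 1) ≠ 0 := by positivity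
  field_simp

end Run7.h262.SV
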