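import Mathlib

/-!
Augmented semisimplicial sets with cones, and the comparison of equivariant chain maps.
-/

set_option autoImplicit false

open Finset

namespace Run7.h262.SV

theorem anti_sum {M : Type*} [AddCommGroup M] [Module ℝ M] {k : ℕ}
    (Ψ : Fin (k + 2) → Fin (k + 1) → M)
    (h : ∀ j i, Ψ (j.succAbove i) (i.predAbove j) = Ψ j i) :
    ∑ j : Fin (k + 2), ∑ i : Fin (k + 1), ((-1 : ℝ) ^ ((j : ℕ) + (i : ℕ))) • Ψ j i = 0 := by
  rw [← Fintype.sum_prod_type']
  refine Finset.sum_involution (fun p _ => (p.1.succAbove p.2, p.2.predAbove p.1)) ?_ ?_ ?_ ?_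
  · rintro ⟨j, i⟩ _
    simp only
    rw [h, Fin.neg_one_pow_succAbove_add_predAbove, neg_smul, add_neg_cancel]
  · rintro ⟨j, i⟩ _ _ hh
    exact Fin.succAbove_ne j i (congrArg Prod.fst hh)
  · intro a _
    exact Finset.mem_univ _
  · rintro ⟨j, i⟩ _
    simp only [Fin.succAbove_succAbove_predAbove, Fin.predAbove_predAbove_succAbove]

/-- augmented semisimplicial sets; `B k` is the set of simplices with `k` vertices -/
structure Semi where
  B : ℕ → Type
  del : (k : ℕ) → Fin (k + 1) → B (k + 1) → B k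
  rel : ∀ (k : ℕ) (j : Fin (k + 2)) (i : Fin (k + 1)) (s : B (k + 2)),
    del k (i.predAbove j) (del (k + 1) (j.succAbove i) s) = del k i (del (k + 1) j s)

/-- chains -/
abbrev Semi.Ch (S : Semi) (k : ℕ) : Type := S.B k →₀ ℝ

/-- boundary -/
noncomputable def Semi.d (S : Semi) (k : ℕ) : S.Ch (k + 1) →ₗ[ℝ] S.Ch k :=
  Finsupp.linearCombination ℝ fun s =>
    ∑ i : Fin (k + 1), (-1 : ℝ) ^ (i : ℕ) • Finsupp.single (S.del k i s) (1 : ℝ)

theorem Semi.d_single (S : Semi) (k : ℕ) (s : S.B (k + 1)) :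
    S.d k (Finsupp.single s 1) =
      ∑ i : Fin (k + 1), (-1 : ℝ) ^ (i : ℕ) • Finsupp.single (S.del k i s) (1 : ℝ) := by
  rw [Semi.d, Finsupp.linearCombination_single, one_smul]

theorem ch_ext {B : Type} {M : Type*} [AddCommGroup M] [Module ℝ M] {f g : (B →₀ ℝ) →ₗ[ℝ] M}
    (h : ∀ s, f (Finsupp.single s 1) = g (Finsupp.single s 1)) : f = g :=
  Finsupp.lhom_ext' fun s => LinearMap.ext_ring (h s)

theorem Semi.d_d (S : Semi) (k : ℕ) (x : S.Ch (k + 2)) : S.d k (S.d (k + 1) x) = 0 := by
  have : (S.d k).comp (S.d (k + 1)) = 0 := by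
    refine ch_ext fun s => ?_
    rw [LinearMap.comp_apply, S.d_single, map_sum, LinearMap.zero_apply]
    simp only [map_smul, S.d_single, Finset.smul_sum, smul_smul, ← pow_add]
    exact anti_sum (fun j i => Finsupp.single (S.del k i (S.del (k + 1) j s)) (1 : ℝ))
      fun j i => by rw [S.rel]
  exact LinearMap.congr_fun this x

/-- cones -/
structure Coned (S : Semi) (P : Type) where
  cone : P → (k : ℕ) → S.B k → S.B (k + 1)
  zero : ∀ p k s, S.del k 0 (cone p k s) = s
  succ : ∀ p k (s : S.B (k + 1)) (i : Fin (k + 1)),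
    S.del (k + 1) i.succ (cone p (k + 1) s) = cone p k (S.del k i s)

/-- cones of chains -/
noncomputable def Coned.c {S : Semi} {P : Type} (C : Coned S P) (p : P) (k : ℕ) :
    S.Ch k →ₗ[ℝ] S.Ch (k + 1) := Finsupp.lmapDomain ℝ ℝ (C.cone p k)

theorem Coned.c_single {S : Semi} {P : Type} (C : Coned S P) (p : P) (k : ℕ) (s : S.B k) (r : ℝ) :
    C.c p k (Finsupp.single s r) = Finsupp.single (C.cone p k s) r := by
  rw [Coned.c, Finsupp.lmapDomain_apply, Finsupp.mapDomain_single]

theorem Coned.d_c {S : Semi} {P : Type} (C : Coned S P) (p : P) (k : ℕ) (x : S.Ch (k + 1)) :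
    S.d (k + 1) (C.c p (k + 1) x) = x - C.c p k (S.d k x) := by
  have : (S.d (k + 1)).comp (C.c p (k + 1)) = LinearMap.id - (C.c p k).comp (S.d k) := by
    refine ch_ext fun s => ?_
    simp only [LinearMap.comp_apply, LinearMap.sub_apply, LinearMap.id_apply]
    rw [C.c_single, S.d_single, S.d_single, Fin.sum_univ_succ, map_sum]
    simp only [map_smul, C.c_single, C.zero, C.succ, Fin.val_zero, pow_zero, one_smul,
      Fin.val_succ, pow_succ, mul_neg, mul_one, neg_smul, Finset.sum_neg_distrib]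
    rw [sub_eq_add_neg]
  exact LinearMap.congr_fun this x

theorem Coned.d_c_zero {S : Semi} {P : Type} (C : Coned S P) (p : P) (x : S.Ch 0) :
    S.d 0 (C.c p 0 x) = x := by
  have : (S.d 0).comp (C.c p 0) = LinearMap.id := by
    refine ch_ext fun s => ?_
    simp only [LinearMap.comp_apply, LinearMap.id_apply]
    rw [C.c_single, S.d_single]
    simp [C.zero]
  exact LinearMap.congr_fun this x

/-- the homotopy -/
noncomputable def hom {S T : Semi} {P : Type} (C : Coned T P) (base : (k : ℕ) → S.B (k + 1) → P)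
    (f g : (k : ℕ) → S.Ch k →ₗ[ℝ] T.Ch k) : (k : ℕ) → S.Ch k →ₗ[ℝ] T.Ch (k + 1)
  | 0 => 0
  | k + 1 => Finsupp.linearCombination ℝ fun s => C.c (base k s) (k + 1)
      (g (k + 1) (Finsupp.single s 1) - f (k + 1) (Finsupp.single s 1)
        - hom C base f g k (S.d k (Finsupp.single s 1)))

theorem hom_succ {S T : Semi} {P : Type} (C : Coned T P) (base : (k : ℕ) → S.B (k + 1) → P)
    (f g : (k : ℕ) → S.Ch k →ₗ[ℝ] T.Ch k) (k : ℕ) (s : S.B (k + 1)) :
    hom C base f g (k + 1) (Finsupp.single s 1) = C.c (base k s) (k + 1)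
      (g (k + 1) (Finsupp.single s 1) - f (k + 1) (Finsupp.single s 1)
        - hom C base f g k (S.d k (Finsupp.single s 1))) := by
  rw [hom, Finsupp.linearCombination_single, one_smul]

theorem d_hom {S T : Semi} {P : Type} (C : Coned T P) (base : (k : ℕ) → S.B (k + 1) → P)
    (f g : (k : ℕ) → S.Ch k →ₗ[ℝ] T.Ch k)
    (hf : ∀ k x, T.d k (f (k + 1) x) = f k (S.d k x))
    (hg : ∀ k x, T.d k (g (k + 1) x) = g k (S.d k x)) (h0 : f 0 = g 0) (k : ℕ)
    (x : S.Ch (k + 1)) :
    T.d (k + 1) (hom C base f g (k + 1) x) =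
      g (k + 1) x - f (k + 1) x - hom C base f g k (S.d k x) := by
  induction k with
  | zero =>
    have : (T.d 1).comp (hom C base f g 1) = g 1 - f 1 - (hom C base f g 0).comp (S.d 0) := by
      refine ch_ext fun s => ?_
      simp only [LinearMap.comp_apply, LinearMap.sub_apply]
      have e : T.d 0 (g (0 + 1) (Finsupp.single s 1) - f (0 + 1) (Finsupp.single s 1)
          - hom C base f g 0 (S.d 0 (Finsupp.single s 1))) = 0 := by
        rw [map_sub, map_sub, hf, hg, h0]
        simp [hom]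
      rw [hom_succ, C.d_c, e, map_zero, sub_zero]
    exact LinearMap.congr_fun this x
  | succ k ih =>
    have : (T.d (k + 2)).comp (hom C base f g (k + 2)) =
        g (k + 2) - f (k + 2) - (hom C base f g (k + 1)).comp (S.d (k + 1)) := by
      refine ch_ext fun s => ?_
      simp only [LinearMap.comp_apply, LinearMap.sub_apply]
      have e : T.d (k + 1) (g (k + 1 + 1) (Finsupp.single s 1) - f (k + 1 + 1) (Finsupp.single s 1)
          - hom C base f g (k + 1) (S.d (k + 1) (Finsupp.single s 1))) = 0 := by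
        rw [map_sub, map_sub, hf, hg, ih, S.d_d, map_zero]
        simp
      rw [hom_succ, C.d_c, e, map_zero, sub_zero]
    exact LinearMap.congr_fun this x

/-- chains on which the invariant functions vanish -/
def Null {Γ B : Type} (act : Γ → B → B) (x : B →₀ ℝ) : Prop :=
  ∀ h : B → ℝ, (∀ γ s, h (act γ s) = h s) → Finsupp.linearCombination ℝ h x = 0

theorem hom_act {S T : Semi} {P Γ : Type} (C : Coned T P) (base : (k : ℕ) → S.B (k + 1) → P)
    (f g : (k : ℕ) → S.Ch k →ₗ[ℝ] T.Ch k)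
    (aS : Γ → (k : ℕ) → S.B k → S.B k) (aT : Γ → (k : ℕ) → T.B k → T.B k) (aP : Γ → P → P)
    (dS : ∀ γ k i s, S.del k i (aS γ (k + 1) s) = aS γ k (S.del k i s))
    (cT : ∀ γ p k s, C.cone (aP γ p) k (aT γ k s) = aT γ (k + 1) (C.cone p k s))
    (hb : ∀ γ k s, base k (aS γ (k + 1) s) = aP γ (base k s))
    (hf : ∀ γ k s, f k (Finsupp.single (aS γ k s) 1) =
      Finsupp.lmapDomain ℝ ℝ (aT γ k) (f k (Finsupp.single s 1)))
    (hg : ∀ γ k s, g k (Finsupp.single (aS γ k s) 1) =
      Finsupp.lmapDomain ℝ ℝ (aT γ k) (g k (Finsupp.single s 1)))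
    (γ : Γ) (k : ℕ) (x : S.Ch k) :
    hom C base f g k (Finsupp.lmapDomain ℝ ℝ (aS γ k) x) =
      Finsupp.lmapDomain ℝ ℝ (aT γ (k + 1)) (hom C base f g k x) := by
  induction k with
  | zero => simp [hom]
  | succ k ih =>
    have : (hom C base f g (k + 1)).comp (Finsupp.lmapDomain ℝ ℝ (aS γ (k + 1))) =
        (Finsupp.lmapDomain ℝ ℝ (aT γ (k + 2))).comp (hom C base f g (k + 1)) := by
      refine ch_ext fun s => ?_
      have hd : S.d k (Finsupp.single (aS γ (k + 1) s) 1) =
          Finsupp.lmapDomain ℝ ℝ (aS γ k) (S.d k (Finsupp.single s 1)) := by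
        rw [S.d_single, S.d_single, map_sum]
        refine Finset.sum_congr rfl fun i _ => ?_
        rw [map_smul, Finsupp.lmapDomain_apply, Finsupp.mapDomain_single, dS]
      have hc : ∀ (p : P) (y : T.Ch (k + 1)), C.c (aP γ p) (k + 1)
          (Finsupp.lmapDomain ℝ ℝ (aT γ (k + 1)) y) =
          Finsupp.lmapDomain ℝ ℝ (aT γ (k + 2)) (C.c p (k + 1) y) := by
        intro p y
        have : (C.c (aP γ p) (k + 1)).comp (Finsupp.lmapDomain ℝ ℝ (aT γ (k + 1))) =
          (Finsupp.lmapDomain ℝ ℝ (aT γ (k + 2))).comp (C.c p (k + 1)) := by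
          refine ch_ext fun t => ?_
          simp only [LinearMap.comp_apply]
          rw [C.c_single, Finsupp.lmapDomain_apply, Finsupp.mapDomain_single, C.c_single,
            Finsupp.lmapDomain_apply, Finsupp.mapDomain_single, cT]
        exact LinearMap.congr_fun this y
      simp only [LinearMap.comp_apply]
      rw [Finsupp.lmapDomain_apply, Finsupp.mapDomain_single, hom_succ, hom_succ, hb, hd, ih, hf,
        hg, ← map_sub, ← map_sub, hc]
    exact LinearMap.congr_fun this x

theorem compare {S T : Semi} {P Γ : Type} (C : Coned T P) (base : (k : ℕ) → S.B (k + 1) → P)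
    (f g : (k : ℕ) → S.Ch k →ₗ[ℝ] T.Ch k)
    (hdf : ∀ k x, T.d k (f (k + 1) x) = f k (S.d k x))
    (hdg : ∀ k x, T.d k (g (k + 1) x) = g k (S.d k x)) (h0 : f 0 = g 0)
    (aS : Γ → (k : ℕ) → S.B k → S.B k) (aT : Γ → (k : ℕ) → T.B k → T.B k) (aP : Γ → P → P)
    (dS : ∀ γ k i s, S.del k i (aS γ (k + 1) s) = aS γ k (S.del k i s))
    (cT : ∀ γ p k s, C.cone (aP γ p) k (aT γ k s) = aT γ (k + 1) (C.cone p k s))
    (hb : ∀ γ k s, base k (aS γ (k + 1) s) = aP γ (base k s))
    (hf : ∀ γ k s, f k (Finsupp.single (aS γ k s) 1) =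
      Finsupp.lmapDomain ℝ ℝ (aT γ k) (f k (Finsupp.single s 1)))
    (hg : ∀ γ k s, g k (Finsupp.single (aS γ k s) 1) =
      Finsupp.lmapDomain ℝ ℝ (aT γ k) (g k (Finsupp.single s 1)))
    (k : ℕ) (F : T.Ch (k + 2) →ₗ[ℝ] ℝ) (hF : ∀ x, F (T.d (k + 2) x) = 0)
    (hFi : ∀ γ s, F (Finsupp.single (aT γ (k + 2) s) 1) = F (Finsupp.single s 1))
    (x : S.Ch (k + 2)) (hx : Null (fun γ => aS γ (k + 1)) (S.d (k + 1) x)) :
    F (g (k + 2) x) = F (f (k + 2) x) := by
  have h1 := d_hom C base f g hdf hdg h0 (k + 1) x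
  have h2 := hF (hom C base f g (k + 2) x)
  rw [h1, map_sub, map_sub] at h2
  have h3 : F (hom C base f g (k + 1) (S.d (k + 1) x)) = 0 := by
    have h4 := hx (fun s => F (hom C base f g (k + 1) (Finsupp.single s 1))) (by
      intro γ s
      have h5 := hom_act C base f g aS aT aP dS cT hb hf hg γ (k + 1) (Finsupp.single s 1)
      rw [Finsupp.lmapDomain_apply, Finsupp.mapDomain_single] at h5
      rw [h5]
      have h6 : F.comp (Finsupp.lmapDomain ℝ ℝ (aT γ (k + 2))) = F := by
        refine ch_ext fun t => ?_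
        rw [LinearMap.comp_apply, Finsupp.lmapDomain_apply, Finsupp.mapDomain_single, hFi]
      exact LinearMap.congr_fun h6 _)
    rw [← h4]
    have h7 : F.comp (hom C base f g (k + 1)) = Finsupp.linearCombination ℝ
        (fun s => F (hom C base f g (k + 1) (Finsupp.single s 1))) := by
      refine ch_ext fun t => ?_
      rw [LinearMap.comp_apply, Finsupp.linearCombination_single, one_smul]
    exact LinearMap.congr_fun h7 _
  rw [h3, sub_zero, sub_eq_zero] at h2
  exact h2

/-- the complex of tuples -/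
def Tup (S : Type) : Semi where
  B := fun k => Fin k → S
  del := fun k i s => i.removeNth s
  rel := fun k j i s => (Fin.removeNth_removeNth_eq_swap s i j).symm

/-- cones in the complex of tuples -/
def tupCone (S : Type) : Coned (Tup S) S where
  cone := fun p k s => (Fin.cons p s : Fin (k + 1) → S)
  zero := by
    intro p k s
    funext i
    simp [Tup, Fin.removeNth]
  succ := by
    intro p k s i
    funext j
    refine Fin.cases ?_ (fun j => ?_) j
    · simp [Tup, Fin.removeNth]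
    · simp [Tup, Fin.removeNth]

end Run7.h262.SV
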