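import Pool.Agent.Run7.h262.SV.Core2
import Pool.Agent.N951.SV.Cone

/-!
Singular simplices of a space with a developing map onto a convex set.
-/

set_option autoImplicit false

open Finset Filter Topology

namespace Run7.h262.SV

open Pool.Agent.N520.SV Pool.Agent.N951.SV

/-- faces -/
noncomputable def fc {k : ℕ} (i : Fin (k + 1)) :
    C(stdSimplex ℝ (Fin k), stdSimplex ℝ (Fin (k + 1))) :=
  ⟨stdSimplex.map i.succAbove, stdSimplex.continuous_map _⟩

theorem fc_apply {k : ℕ} (i : Fin (k + 1)) (p : stdSimplex ℝ (Fin k)) :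
    fc i p = stdSimplex.map i.succAbove p := rfl

theorem fc_fc {k : ℕ} (j : Fin (k + 2)) (i : Fin (k + 1)) (p : stdSimplex ℝ (Fin k)) :
    fc (j.succAbove i) (fc (i.predAbove j) p) = fc j (fc i p) := by
  rw [fc_apply, fc_apply, fc_apply, fc_apply, stdSimplex.map_comp_apply,
    stdSimplex.map_comp_apply]
  congr 1
  funext l
  exact Fin.succAbove_succAbove_succAbove_predAbove j i l

/-- the augmented complex of singular simplices -/
noncomputable def Sing (X : Type) [TopologicalSpace X] : Semi where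
  B := fun k => C(stdSimplex ℝ (Fin k), X)
  del := fun _ i s => s.comp (fc i)
  rel := by
    intro k j i s
    ext p
    simp only [ContinuousMap.comp_apply]
    rw [fc_fc]

section cone
variable {E : Type} [NormedAddCommGroup E] [NormedSpace ℝ E]

/-- cones in a vector space -/
noncomputable def ecn (p : E) : (k : ℕ) → C(stdSimplex ℝ (Fin k), E) →
    C(stdSimplex ℝ (Fin (k + 1)), E)
  | 0, _ => ContinuousMap.const _ p
  | _ + 1, s => ⟨fun t => AffineMap.lineMap p (s (tl t)) (1 - t.1 0), cone_cont p s⟩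

theorem ecn_mem (U : Set E) (hU : Convex ℝ U) (p : E) (hp : p ∈ U) (k : ℕ)
    (s : C(stdSimplex ℝ (Fin k), E)) (hs : ∀ q, s q ∈ U) (t : stdSimplex ℝ (Fin (k + 1))) :
    ecn p k s t ∈ U := by
  cases k with
  | zero => exact hp
  | succ k =>
    refine hU.lineMap_mem hp (hs _) ⟨?_, ?_⟩
    · have := stdSimplex.le_one t 0
      change 0 ≤ 1 - t 0
      linarith
    · have := stdSimplex.zero_le t 0
      change 1 - t 0 ≤ 1
      linarith

theorem ecn_zero (p : E) (k : ℕ) (s : C(stdSimplex ℝ (Fin k), E)) (q : stdSimplex ℝ (Fin k)) :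
    ecn p k s (fc 0 q) = s q := by
  cases k with
  | zero =>
    exfalso
    have := stdSimplex.sum_eq_one q
    simp at this
  | succ k =>
    change AffineMap.lineMap p (s (tl (face 0 q))) (1 - (face 0 q).1 0) = s q
    have h0 : (face 0 q).1 0 = 0 := face_self 0 q
    have h1 : tl (face 0 q) = q := by
      apply Subtype.ext
      funext i
      rw [tl_apply _ (by rw [h0]; norm_num), h0, sub_zero, div_one]
      have := face_succAbove 0 q i
      rwa [Fin.succAbove_zero] at this
    rw [h1, h0, sub_zero, AffineMap.lineMap_apply_one]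

theorem ecn_succ (p : E) (k : ℕ) (s : C(stdSimplex ℝ (Fin (k + 1)), E)) (i : Fin (k + 1))
    (t : stdSimplex ℝ (Fin (k + 1))) :
    ecn p (k + 1) s (fc i.succ t) = ecn p k (s.comp (fc i)) t := by
  cases k with
  | zero =>
    change AffineMap.lineMap p (s (tl (face i.succ t))) (1 - (face i.succ t).1 0) = p
    have h0 : (face i.succ t).1 0 = t.1 0 := by
      have := face_succAbove i.succ t 0
      rwa [Fin.succ_succAbove_zero] at this
    have h1 : t.1 0 = 1 := by
      have := stdSimplex.sum_eq_one t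
      rwa [Fin.sum_univ_one] at this
    rw [h0, h1, sub_self, AffineMap.lineMap_apply_zero]
  | succ k =>
    change AffineMap.lineMap p (s (tl (face i.succ t))) (1 - (face i.succ t).1 0) =
      AffineMap.lineMap p (s (face i (tl t))) (1 - t.1 0)
    have h0 : (face i.succ t).1 0 = t.1 0 := by
      have := face_succAbove i.succ t 0
      rwa [Fin.succ_succAbove_zero] at this
    rw [h0]
    by_cases h : t.1 0 = 1
    · rw [h, sub_self, AffineMap.lineMap_apply_zero, AffineMap.lineMap_apply_zero]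
    · have h1 : tl (face i.succ t) = face i (tl t) := by
        apply Subtype.ext
        funext j
        rw [tl_apply _ (by rw [h0]; exact h), h0]
        rcases Fin.eq_self_or_eq_succAbove i j with hj | ⟨l, hl⟩
        · rw [hj, face_self, face_self, zero_div]
        · rw [hl, face_succAbove, tl_apply _ h, ← Fin.succ_succAbove_succ, face_succAbove]
      rw [h1]

theorem ecn_map (g : E ≃ᵃ[ℝ] E) (p : E) (k : ℕ) (s s' : C(stdSimplex ℝ (Fin k), E))
    (hs : ∀ q, s' q = g (s q)) (t : stdSimplex ℝ (Fin (k + 1))) :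
    ecn (g p) k s' t = g (ecn p k s t) := by
  cases k with
  | zero => rfl
  | succ k =>
    change AffineMap.lineMap (g p) (s' (tl t)) (1 - t.1 0) =
      g (AffineMap.lineMap p (s (tl t)) (1 - t.1 0))
    rw [hs]
    exact (AffineMap.apply_lineMap (g : E →ᵃ[ℝ] E) p (s (tl t)) (1 - t.1 0)).symm

end cone

section
variable {X E Γ : Type} [TopologicalSpace X] [NormedAddCommGroup E] [NormedSpace ℝ E]

theorem xcn_exists (D : X → E) (hD : IsOpenEmbedding D) (hc : Convex ℝ (Set.range D)) :
    ∃ xcn : X → (k : ℕ) → C(stdSimplex ℝ (Fin k), X) → C(stdSimplex ℝ (Fin (k + 1)), X),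
      ∀ p k s t, D (xcn p k s t) =
        ecn (D p) k ((⟨D, hD.continuous⟩ : C(X, E)).comp s) t := by
  let e : X ≃ₜ Set.range D := hD.isEmbedding.toHomeomorph
  have he : ∀ x, (e x : E) = D x := fun x => rfl
  have hes : ∀ y : Set.range D, D (e.symm y) = y := by
    intro y
    rw [← he, Homeomorph.apply_symm_apply]
  have hm : ∀ p k (s : C(stdSimplex ℝ (Fin k), X)) t,
      ecn (D p) k ((⟨D, hD.continuous⟩ : C(X, E)).comp s) t ∈ Set.range D :=
    fun p k s t => ecn_mem _ hc _ ⟨p, rfl⟩ k _ (fun q => ⟨s q, rfl⟩) t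
  refine ⟨fun p k s => ⟨fun t => e.symm ⟨_, hm p k s t⟩, ?_⟩, ?_⟩
  · exact e.symm.continuous.comp (Continuous.subtype_mk (ContinuousMap.continuous _) _)
  · intro p k s t
    exact hes _

/-- cones in the space -/
noncomputable def xcn (D : X → E) (hD : IsOpenEmbedding D) (hc : Convex ℝ (Set.range D)) :
    X → (k : ℕ) → C(stdSimplex ℝ (Fin k), X) → C(stdSimplex ℝ (Fin (k + 1)), X) :=
  (xcn_exists D hD hc).choose

theorem xcn_spec (D : X → E) (hD : IsOpenEmbedding D) (hc : Convex ℝ (Set.range D)) (p : X)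
    (k : ℕ) (s : C(stdSimplex ℝ (Fin k), X)) (t : stdSimplex ℝ (Fin (k + 1))) :
    D (xcn D hD hc p k s t) = ecn (D p) k ((⟨D, hD.continuous⟩ : C(X, E)).comp s) t :=
  (xcn_exists D hD hc).choose_spec p k s t

/-- the cone structure of the singular complex -/
noncomputable def singCone (D : X → E) (hD : IsOpenEmbedding D) (hc : Convex ℝ (Set.range D)) :
    Coned (Sing X) X where
  cone := xcn D hD hc
  zero := by
    intro p k (s : C(stdSimplex ℝ (Fin k), X))
    refine ContinuousMap.ext fun q => hD.injective ?_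
    change D (xcn D hD hc p k s (fc 0 q)) = D (s q)
    rw [xcn_spec D hD hc, ecn_zero]
    rfl
  succ := by
    intro p k (s : C(stdSimplex ℝ (Fin (k + 1)), X)) i
    refine ContinuousMap.ext fun q => hD.injective ?_
    change D (xcn D hD hc p (k + 1) s (fc i.succ q)) = D (xcn D hD hc p k (s.comp (fc i)) q)
    rw [xcn_spec D hD hc, xcn_spec D hD hc, ecn_succ]
    rfl

theorem xcn_equi (D : X → E) (hD : IsOpenEmbedding D) (hc : Convex ℝ (Set.range D))
    (e : X → X) (he : Continuous e) (g : E ≃ᵃ[ℝ] E) (hg : ∀ x, D (e x) = g (D x)) (p : X) (k : ℕ)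
    (s : C(stdSimplex ℝ (Fin k), X)) :
    xcn D hD hc (e p) k ((⟨e, he⟩ : C(X, X)).comp s) =
      (⟨e, he⟩ : C(X, X)).comp (xcn D hD hc p k s) := by
  refine ContinuousMap.ext fun t => hD.injective ?_
  change _ = D (e _)
  rw [hg, xcn_spec D hD hc, xcn_spec D hD hc, hg]
  exact ecn_map g (D p) k _ _ (fun q => hg _) t

/-- straight simplices -/
noncomputable def strt (D : X → E) (hD : IsOpenEmbedding D) (hc : Convex ℝ (Set.range D)) :
    (k : ℕ) → (Fin k → X) → C(stdSimplex ℝ (Fin k), X)
  | 0, _ => ⟨fun q => False.elim (by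
      have := stdSimplex.sum_eq_one q
      simp at this), by
        rw [continuous_iff_continuousAt]
        intro q
        exfalso
        have := stdSimplex.sum_eq_one q
        simp at this⟩
  | k + 1, τ => xcn D hD hc (τ 0) k (strt D hD hc k (Fin.tail τ))

theorem strt_del (D : X → E) (hD : IsOpenEmbedding D) (hc : Convex ℝ (Set.range D)) (k : ℕ)
    (τ : Fin (k + 1) → X) (i : Fin (k + 1)) :
    (strt D hD hc (k + 1) τ).comp (fc i) = strt D hD hc k (i.removeNth τ) := by
  induction k with
  | zero =>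
    refine ContinuousMap.ext fun q => ?_
    exfalso
    have := stdSimplex.sum_eq_one q
    simp at this
  | succ k ih =>
    refine Fin.cases ?_ (fun i => ?_) i
    · exact ((singCone D hD hc).zero (τ 0) (k + 1) (strt D hD hc (k + 1) (Fin.tail τ)))
    · refine ((singCone D hD hc).succ (τ 0) k (strt D hD hc (k + 1) (Fin.tail τ)) i).trans ?_
      change xcn D hD hc (τ 0) k ((strt D hD hc (k + 1) (Fin.tail τ)).comp (fc i)) = _
      have h1 : Fin.tail (i.succ.removeNth τ) = i.removeNth (Fin.tail τ) := by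
        funext j
        simp [Fin.tail, Fin.removeNth]
      have h2 : (i.succ.removeNth τ) 0 = τ 0 := by simp [Fin.removeNth]
      rw [ih]
      change _ = xcn D hD hc ((i.succ.removeNth τ) 0) k
        (strt D hD hc k (Fin.tail (i.succ.removeNth τ)))
      rw [h1, h2]

theorem strt_equi (D : X → E) (hD : IsOpenEmbedding D) (hc : Convex ℝ (Set.range D))
    (e : X → X) (he : Continuous e) (g : E ≃ᵃ[ℝ] E) (hg : ∀ x, D (e x) = g (D x)) (k : ℕ)
    (τ : Fin k → X) :
    strt D hD hc k (fun i => e (τ i)) = (⟨e, he⟩ : C(X, X)).comp (strt D hD hc k τ) := by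
  induction k with
  | zero =>
    refine ContinuousMap.ext fun q => ?_
    exfalso
    have := stdSimplex.sum_eq_one q
    simp at this
  | succ k ih =>
    change xcn D hD hc (e (τ 0)) k (strt D hD hc k (fun i => e (Fin.tail τ i))) = _
    rw [ih, xcn_equi D hD hc e he g hg]
    rfl

/-- vertices -/
def verts (k : ℕ) (s : C(stdSimplex ℝ (Fin k), X)) : Fin k → X := fun i => s (stdSimplex.vertex i)

theorem verts_del (k : ℕ) (s : C(stdSimplex ℝ (Fin (k + 1)), X)) (i : Fin (k + 1)) :
    verts k (s.comp (fc i)) = i.removeNth (verts (k + 1) s) := by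
  funext j
  change s (fc i (stdSimplex.vertex j)) = s (stdSimplex.vertex (i.succAbove j))
  rw [fc_apply, stdSimplex.map_vertex]

/-- the chain map of the vertices -/
noncomputable def vmap (k : ℕ) : (Sing X).Ch k →ₗ[ℝ] (Tup X).Ch k :=
  Finsupp.lmapDomain ℝ ℝ (verts k)

/-- a singular simplex as a chain -/
noncomputable def ss {k : ℕ} (s : C(stdSimplex ℝ (Fin k), X)) : (Sing X).Ch k :=
  Finsupp.single s 1

theorem sing_ext {k : ℕ} {M : Type*} [AddCommGroup M] [Module ℝ M]
    {f g : (Sing X).Ch k →ₗ[ℝ] M} (h : ∀ s : C(stdSimplex ℝ (Fin k), X), f (ss s) = g (ss s)) :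
    f = g := ch_ext h

theorem vmap_ss (k : ℕ) (s : C(stdSimplex ℝ (Fin k), X)) : vmap k (ss s) = sg (verts k s) := by
  rw [vmap, ss, Finsupp.lmapDomain_apply, Finsupp.mapDomain_single]
  rfl

theorem sing_d (k : ℕ) (s : C(stdSimplex ℝ (Fin (k + 1)), X)) :
    (Sing X).d k (ss s) = ∑ i : Fin (k + 1), (-1 : ℝ) ^ (i : ℕ) • ss (s.comp (fc i)) :=
  (Sing X).d_single k s

theorem d_vmap (k : ℕ) (x : (Sing X).Ch (k + 1)) :
    (Tup X).d k (vmap (k + 1) x) = vmap k ((Sing X).d k x) := by
  have : ((Tup X).d k).comp (vmap (k + 1)) = (vmap k).comp ((Sing X).d k) := by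
    refine sing_ext fun s => ?_
    rw [LinearMap.comp_apply, LinearMap.comp_apply, vmap_ss, tup_d, sing_d, map_sum]
    refine Finset.sum_congr rfl fun i _ => ?_
    rw [map_smul, vmap_ss, verts_del]
  exact LinearMap.congr_fun this x

/-- the chain map of the straight simplices -/
noncomputable def smap (D : X → E) (hD : IsOpenEmbedding D) (hc : Convex ℝ (Set.range D)) (k : ℕ) :
    (Tup X).Ch k →ₗ[ℝ] (Sing X).Ch k :=
  Finsupp.lmapDomain ℝ ℝ (strt D hD hc k)

theorem smap_sg (D : X → E) (hD : IsOpenEmbedding D) (hc : Convex ℝ (Set.range D)) (k : ℕ)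
    (τ : Fin k → X) : smap D hD hc k (sg τ) = ss (strt D hD hc k τ) := by
  rw [smap, sg, Finsupp.lmapDomain_apply, Finsupp.mapDomain_single]
  rfl

theorem d_smap (D : X → E) (hD : IsOpenEmbedding D) (hc : Convex ℝ (Set.range D)) (k : ℕ)
    (x : (Tup X).Ch (k + 1)) :
    (Sing X).d k (smap D hD hc (k + 1) x) = smap D hD hc k ((Tup X).d k x) := by
  have : ((Sing X).d k).comp (smap D hD hc (k + 1)) = (smap D hD hc k).comp ((Tup X).d k) := by
    refine tup_ext fun s => ?_
    rw [LinearMap.comp_apply, LinearMap.comp_apply, smap_sg, tup_d, sing_d, map_sum]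
    refine Finset.sum_congr rfl fun i _ => ?_
    rw [map_smul, smap_sg, strt_del]
  exact LinearMap.congr_fun this x

end

end Run7.h262.SV
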