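import Pool.Agent.Run7.h262.SV.Blk

/-!
The factor of the quotient by the directions of the lines of the domain.
-/

set_option autoImplicit false

open Filter Topology

namespace Run7.h262.SV

section
variable {E : Type} [NormedAddCommGroup E] [NormedSpace ℝ E]

/-- the directions of the lines contained in a convex open set -/
def lines (Ω : Set E) : Submodule ℝ E where
  carrier := {v | ∀ f : E →ₗ[ℝ] ℝ, BddBelow (f '' Ω) → f v = 0}
  add_mem' := by
    intro v w hv hw f hf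
    rw [map_add, hv f hf, hw f hf, add_zero]
  zero_mem' := fun f _ => map_zero f
  smul_mem' := by
    intro r v hv f hf
    rw [map_smul, hv f hf, smul_zero]

theorem add_lines {Ω : Set E} (hΩ : IsOpen Ω) (hc : Convex ℝ Ω) {x : E} (hx : x ∈ Ω) {w : E}
    (hw : w ∈ lines Ω) : x + w ∈ Ω := by
  by_contra hcon
  obtain ⟨f, hf⟩ := geometric_hahn_banach_open_point hc hΩ hcon
  have h1 : BddBelow ((-(f : E →ₗ[ℝ] ℝ)) '' Ω) := by
    refine ⟨-f (x + w), ?_⟩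
    rintro _ ⟨y, hy, rfl⟩
    have := hf y hy
    change -f (x + w) ≤ -f y
    linarith
  have h2 := hw _ h1
  have h3 : f w = 0 := by
    have : -f w = 0 := h2
    linarith
  have h4 := hf x hx
  rw [map_add, h3, add_zero] at h4
  exact lt_irrefl _ h4

variable [FiniteDimensional ℝ E]

theorem exists_functionals (Ω : Set E) : ∃ b : Finset (E →ₗ[ℝ] ℝ),
    (∀ f ∈ b, BddBelow (f '' Ω)) ∧ ∀ v, (∀ f ∈ b, f v = 0) → v ∈ lines Ω := by
  classical
  obtain ⟨b, hbL, hbs, hli⟩ := exists_linearIndependent ℝ {f : E →ₗ[ℝ] ℝ | BddBelow (f '' Ω)}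
  have hfin : b.Finite := hli.setFinite
  refine ⟨hfin.toFinset, fun f hf => hbL (hfin.mem_toFinset.1 hf), fun v hv f hf => ?_⟩
  have h1 : f ∈ Submodule.span ℝ b := by
    rw [hbs]
    exact Submodule.subset_span hf
  refine Submodule.span_induction (p := fun f _ => f v = 0) ?_ ?_ ?_ ?_ h1
  · exact fun f hf => hv f (hfin.mem_toFinset.2 hf)
  · rfl
  · intro f g _ _ hf hg
    rw [LinearMap.add_apply, hf, hg, add_zero]
  · intro r f _ hf
    rw [LinearMap.smul_apply, hf, smul_zero]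

theorem sum_functionals {Ω : Set E} {b : Finset (E →ₗ[ℝ] ℝ)}
    (hb : ∀ v, (∀ f ∈ b, f v = 0) → v ∈ lines Ω) (hb' : ∀ f ∈ b, BddBelow (f '' Ω))
    {π : E →L[ℝ] E} (hπ1 : ∀ v, π v ∈ lines Ω) (hπ2 : ∀ v ∈ lines Ω, π v = v) :
    ∃ m > 0, ∀ v, m * ‖v - π v‖ ≤ ∑ f ∈ b, |f v| := by
  classical
  let Z : Set E := {z | π z = 0 ∧ ‖z‖ = 1}
  have hZc : IsCompact Z := by
    refine Metric.isCompact_of_isClosed_isBounded ?_ ?_
    · exact (isClosed_eq π.continuous continuous_const).inter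
        (isClosed_eq continuous_norm continuous_const)
    · exact isBounded_iff_forall_norm_le.2 ⟨1, fun z hz => hz.2.le⟩
  have hcont : Continuous fun v : E => ∑ f ∈ b, |f v| := by
    refine continuous_finsetSum _ fun f _ => ?_
    exact (LinearMap.continuous_of_finiteDimensional f).abs
  obtain ⟨m, M, hm, hM, hmM⟩ := cpt_bounds hZc hcont.continuousOn (by
    intro z hz
    by_contra hcon
    push Not at hcon
    have h1 : ∀ f ∈ b, f z = 0 := by
      intro f hf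
      have h2 : |f z| ≤ ∑ f ∈ b, |f z| :=
        Finset.single_le_sum (f := fun f : E →ₗ[ℝ] ℝ => |f z|) (fun f _ => abs_nonneg _) hf
      exact abs_eq_zero.1 (le_antisymm (h2.trans hcon) (abs_nonneg _))
    have h2 := hπ2 z (hb z h1)
    rw [hz.1] at h2
    have h3 := hz.2
    rw [← h2, norm_zero] at h3
    exact zero_ne_one h3)
  refine ⟨m, hm, fun v => ?_⟩
  have e1 : ∀ f ∈ b, f v = f (v - π v) := by
    intro f hf
    rw [map_sub, hπ1 v f (hb' f hf), sub_zero]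
  have e2 : ∑ f ∈ b, |f v| = ∑ f ∈ b, |f (v - π v)| :=
    Finset.sum_congr rfl fun f hf => by rw [← e1 f hf]
  rw [e2]
  by_cases hne : v - π v = 0
  · rw [hne, norm_zero, mul_zero]
    exact Finset.sum_nonneg fun f _ => abs_nonneg _
  · have hn : 0 < ‖v - π v‖ := norm_pos_iff.2 hne
    have hz : ‖v - π v‖⁻¹ • (v - π v) ∈ Z := by
      refine ⟨?_, ?_⟩
      · rw [map_smul, map_sub, hπ2 _ (hπ1 v), sub_self, smul_zero]
      · rw [norm_smul, norm_inv, norm_norm, inv_mul_cancel₀ hn.ne']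
    have h1 := (hmM _ hz).1
    have e3 : ∑ f ∈ b, |f (‖v - π v‖⁻¹ • (v - π v))| =
        ‖v - π v‖⁻¹ * ∑ f ∈ b, |f (v - π v)| := by
      rw [Finset.mul_sum]
      refine Finset.sum_congr rfl fun f _ => ?_
      rw [map_smul, smul_eq_mul, abs_mul, abs_inv, abs_norm]
    rw [e3, le_inv_mul_iff₀ hn] at h1
    linarith

end

section
variable {Γ E : Type} [Group Γ] [NormedAddCommGroup E] [NormedSpace ℝ E] [FiniteDimensional ℝ E]
  {hol : Γ →* (E ≃ᵃ[ℝ] E)} {Ω : Set E}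

theorem hol_add (γ : Γ) (x v : E) : hol γ (x + v) = hol γ x + (hol γ).linear v := by
  have h1 := (hol γ).map_vadd x v
  simp only [vadd_eq_add] at h1
  rw [add_comm, h1, add_comm]

theorem hol_inv' (γ : Γ) (x : E) : hol γ (hol γ⁻¹ x) = x := by
  rw [← hol_mul, mul_inv_cancel, map_one]
  rfl

theorem lines_inv (h : AffDom Γ E hol Ω) (γ : Γ) (v : E) (hv : v ∈ lines Ω) :
    (hol γ).linear v ∈ lines Ω := by
  intro f hf
  have h1 : BddBelow ((f ∘ₗ ((hol γ).linear : E →ₗ[ℝ] E)) '' Ω) := by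
    obtain ⟨c, hc⟩ := hf
    refine ⟨c - f (hol γ 0), ?_⟩
    rintro _ ⟨x, hx, rfl⟩
    have h2 := hc ⟨hol γ x, h.inv γ x hx, rfl⟩
    have h3 : hol γ x = (hol γ).linear x + hol γ 0 := aff_apply _ x
    rw [h3, map_add] at h2
    change c - f (hol γ 0) ≤ f ((hol γ).linear x)
    linarith
  exact hv _ h1

/-- the estimate for the linear parts -/
theorem bdd_top (h : AffDom Γ E hol Ω) {b : Finset (E →ₗ[ℝ] ℝ)} {β : (E →ₗ[ℝ] ℝ) → ℝ}
    (hβ : ∀ f ∈ b, ∀ x ∈ Ω, 0 ≤ f x + β f) (hb' : ∀ f ∈ b, BddBelow (f '' Ω))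
    {π : E →L[ℝ] E} (hπ1 : ∀ v, π v ∈ lines Ω) {m : ℝ} (hm : 0 < m)
    (hsum : ∀ v, m * ‖v - π v‖ ≤ ∑ f ∈ b, |f v|) {ρ M : ℝ} (hρ : 0 < ρ) {x z : E} {τ : ℝ}
    (hτ : 0 < τ) (hx : ∀ v, ‖v‖ ≤ ρ → x + v ∈ Ω) (hz : ∀ v, ‖v‖ ≤ ρ → z + τ • v ∈ Ω) (γ : Γ)
    (hzx : hol γ⁻¹ x - z ∈ lines Ω) (hfx : ∀ f ∈ b, f x + β f ≤ M)
    (hfz : ∀ f ∈ b, f z + β f ≤ τ * M) :
    BddBlock hol (lines Ω) ⊤ (b.card * (M / ρ) / m) γ := by
  have hinvf : ∀ f ∈ b, f (hol γ⁻¹ x) = f z := by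
    intro f hf
    have := hzx f (hb' f hf)
    rw [map_sub, sub_eq_zero] at this
    exact this
  have hinvf2 : ∀ f ∈ b, f (hol γ z) = f x := by
    intro f hf
    have h1 := lines_inv h γ _ hzx f (hb' f hf)
    have h2 : hol γ (z + (hol γ⁻¹ x - z)) = hol γ z + (hol γ).linear (hol γ⁻¹ x - z) :=
      hol_add γ _ _
    rw [add_sub_cancel, hol_inv'] at h2
    rw [h2, map_add, h1, add_zero]
  -- the first estimate
  have a1 : ∀ f ∈ b, ∀ v, ‖v‖ ≤ ρ → |f ((hol γ⁻¹).linear v)| ≤ τ * M := by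
    intro f hf v hv
    have h1 := hβ f hf _ (h.inv γ⁻¹ _ (hx v hv))
    have h2 := hβ f hf _ (h.inv γ⁻¹ _ (hx (-v) (by rwa [norm_neg])))
    rw [hol_add, map_add, hinvf f hf] at h1 h2
    rw [map_neg, map_neg] at h2
    have h3 := hfz f hf
    rw [abs_le]
    constructor <;> linarith
  have a2 : ∀ f ∈ b, ∀ v, ‖v‖ ≤ ρ → |τ * f ((hol γ).linear v)| ≤ M := by
    intro f hf v hv
    have h1 := hβ f hf _ (h.inv γ _ (hz v hv))
    have h2 := hβ f hf _ (h.inv γ _ (hz (-v) (by rwa [norm_neg])))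
    rw [hol_add, map_add, hinvf2 f hf] at h1 h2
    rw [map_smul, map_smul, smul_eq_mul] at h1
    rw [map_smul, map_smul, map_neg, map_neg, smul_eq_mul] at h2
    have h3 := hfx f hf
    rw [abs_le]
    constructor <;> linarith
  -- homogeneity
  have hom : ∀ (L : E →ₗ[ℝ] ℝ) (B : ℝ), (∀ v, ‖v‖ ≤ ρ → |L v| ≤ B) → ∀ v, |L v| ≤ B / ρ * ‖v‖ := by
    intro L B hL v
    by_cases hv : v = 0
    · rw [hv, map_zero, norm_zero, abs_zero, mul_zero]
    · have hn : 0 < ‖v‖ := norm_pos_iff.2 hv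
      have h1 := hL ((ρ / ‖v‖) • v) (by
        rw [norm_smul, Real.norm_of_nonneg (by positivity), div_mul_cancel₀ _ hn.ne'])
      rw [map_smul, smul_eq_mul, abs_mul, abs_of_pos (by positivity)] at h1
      rw [div_mul_eq_mul_div, div_le_iff₀ hn] at h1
      rw [div_mul_eq_mul_div, le_div_iff₀ hρ]
      linarith
  refine ⟨τ, hτ, fun v _ => ⟨⟨τ • π ((hol γ).linear v), (lines Ω).smul_mem _ (hπ1 _), ?_⟩,
    ⟨τ⁻¹ • π ((hol γ⁻¹).linear v), (lines Ω).smul_mem _ (hπ1 _), ?_⟩⟩⟩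
  · rw [← smul_sub, norm_smul, Real.norm_of_nonneg hτ.le]
    have h1 := hsum ((hol γ).linear v)
    have h2 : ∑ f ∈ b, |f ((hol γ).linear v)| ≤ ∑ f ∈ b, (M / τ) / ρ * ‖v‖ := by
      refine Finset.sum_le_sum fun f hf => ?_
      refine hom (f ∘ₗ ((hol γ).linear : E →ₗ[ℝ] E)) (M / τ) (fun v hv => ?_) v
      have h3 := a2 f hf v hv
      rw [abs_mul, abs_of_pos hτ] at h3
      rw [le_div_iff₀ hτ, mul_comm]
      exact h3
    rw [Finset.sum_const, nsmul_eq_mul] at h2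
    have h3 := h1.trans h2
    have h4 : ‖(hol γ).linear v - π ((hol γ).linear v)‖ ≤
        (b.card * (M / τ / ρ * ‖v‖)) / m := by
      rw [le_div_iff₀ hm]
      linarith
    calc _ ≤ τ * ((b.card * (M / τ / ρ * ‖v‖)) / m) := mul_le_mul_of_nonneg_left h4 hτ.le
      _ = b.card * (M / ρ) / m * ‖v‖ := by field_simp
  · rw [← smul_sub, norm_smul, Real.norm_of_nonneg (inv_nonneg.2 hτ.le)]
    have h1 := hsum ((hol γ⁻¹).linear v)
    have h2 : ∑ f ∈ b, |f ((hol γ⁻¹).linear v)| ≤ ∑ f ∈ b, (τ * M) / ρ * ‖v‖ := by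
      refine Finset.sum_le_sum fun f hf => ?_
      exact hom (f ∘ₗ ((hol γ⁻¹).linear : E →ₗ[ℝ] E)) (τ * M) (fun v hv => a1 f hf v hv) v
    rw [Finset.sum_const, nsmul_eq_mul] at h2
    have h3 := h1.trans h2
    have h4 : ‖(hol γ⁻¹).linear v - π ((hol γ⁻¹).linear v)‖ ≤
        (b.card * (τ * M / ρ * ‖v‖)) / m := by
      rw [le_div_iff₀ hm]
      linarith
    calc _ ≤ τ⁻¹ * ((b.card * (τ * M / ρ * ‖v‖)) / m) :=
          mul_le_mul_of_nonneg_left h4 (inv_nonneg.2 hτ.le)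
      _ = b.card * (M / ρ) / m * ‖v‖ := by field_simp

end

end Run7.h262.SV
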