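import Pool.Agent.Run7.h262.SV.Top

/-!
The factors of the quotient by the directions of the lines of the domain.
-/

set_option autoImplicit false

open Filter Topology

namespace Run7.h262.SV

section
variable {Γ E : Type} [Group Γ] [NormedAddCommGroup E] [NormedSpace ℝ E] [FiniteDimensional ℝ E]
  {hol : Γ →* (E ≃ᵃ[ℝ] E)} {Ω : Set E}

theorem unif_ball (hΩ : IsOpen Ω) {A : Set E} (hA : IsCompact A) (hAΩ : A ⊆ Ω) :
    ∃ ρ > 0, ∀ x ∈ A, ∀ v : E, ‖v‖ ≤ ρ → x + v ∈ Ω := by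
  obtain ⟨δ, hδ, h1⟩ := hA.exists_cthickening_subset_open hΩ hAΩ
  refine ⟨δ, hδ, fun x hx v hv => h1 ?_⟩
  refine Metric.mem_cthickening_of_dist_le (x + v) x δ A hx ?_
  rw [dist_eq_norm, add_sub_cancel_left]
  exact hv

theorem unif_fun {A : Set E} (hA : IsCompact A) (hAΩ : A ⊆ Ω) {b : Finset (E →ₗ[ℝ] ℝ)}
    {β : (E →ₗ[ℝ] ℝ) → ℝ} (hβ : ∀ f ∈ b, ∀ x ∈ Ω, 0 ≤ f x + β f) :
    ∃ M : ℝ, ∀ x ∈ A, ∀ f ∈ b, f x + β f ≤ M := by
  have hcont : Continuous fun x : E => ∑ f ∈ b, (f x + β f) := by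
    refine continuous_finsetSum _ fun f _ => ?_
    exact (LinearMap.continuous_of_finiteDimensional f).add continuous_const
  obtain ⟨M, hM⟩ := hA.bddAbove_image hcont.continuousOn
  refine ⟨M, fun x hx f hf => ?_⟩
  exact (Finset.single_le_sum (f := fun f : E →ₗ[ℝ] ℝ => f x + β f)
    (fun f hf => hβ f hf x (hAΩ hx)) hf).trans (hM ⟨x, hx, rfl⟩)

theorem top_factor (h : AffDom Γ E hol Ω) {K : Set E} (hK : IsCompact K) (hKΩ : K ⊆ Ω) :
    ∃ g : Γ → E → ℝ, Factor hol Ω K g ∧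
      (∀ x ∈ Ω, ∀ v ∈ lines Ω, ∀ γ, fderiv ℝ (g γ) x v = 0) ∧
      ∀ K₁ : Set E, IsCompact K₁ → K₁ ⊆ Ω → ∃ c : ℝ, ∀ γ, ∀ x ∈ K₁, g γ x ≠ 0 →
        BddBlock hol (lines Ω) ⊤ c γ := by
  classical
  obtain ⟨π, hπ1, hπ2⟩ := exists_pi (lines Ω)
  obtain ⟨b, hb', hb⟩ := exists_functionals Ω
  obtain ⟨m, hm, hsum⟩ := sum_functionals hb hb' hπ1 hπ2
  have hβ : ∃ β : (E →ₗ[ℝ] ℝ) → ℝ, ∀ f ∈ b, ∀ x ∈ Ω, 0 ≤ f x + β f := by
    have h1 : ∀ f : E →ₗ[ℝ] ℝ, ∃ c : ℝ, f ∈ b → ∀ x ∈ Ω, 0 ≤ f x + c := by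
      intro f
      by_cases hf : f ∈ b
      · obtain ⟨c, hc⟩ := hb' f hf
        refine ⟨-c, fun _ x hx => ?_⟩
        have := hc ⟨x, hx, rfl⟩
        linarith
      · exact ⟨0, fun h1 => absurd h1 hf⟩
    choose β hβ using h1
    exact ⟨β, fun f hf => hβ f hf⟩
  obtain ⟨β, hβ⟩ := hβ
  have hP : Continuous fun x : E => x - π x := continuous_id.sub π.continuous
  have hPΩ : ∀ x ∈ Ω, x - π x ∈ Ω := by
    intro x hx
    rw [sub_eq_add_neg]
    exact add_lines h.isOpen h.convex hx ((lines Ω).neg_mem (hπ1 x))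
  have hPK : (fun x => x - π x) '' K ⊆ Ω := by
    rintro _ ⟨x, hx, rfl⟩
    exact hPΩ x (hKΩ hx)
  obtain ⟨χ, K', hχ1, hK', hK'Ω, hχ2, hχ0, hχp⟩ := exists_bump h.isOpen (hK.image hP) hPK
  have hsm : ∀ γ : Γ, ContDiff ℝ 1 fun x => χ (hol γ⁻¹ x - π (hol γ⁻¹ x)) := by
    intro γ
    exact hχ1.comp ((hol_contDiff γ⁻¹).sub (π.contDiff.comp (hol_contDiff γ⁻¹)))
  refine ⟨fun γ x => χ (hol γ⁻¹ x - π (hol γ⁻¹ x)), ⟨?_, ?_, ?_, ?_⟩, ?_, ?_⟩
  · exact fun γ => (hsm γ).contDiffOn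
  · exact fun γ x _ => hχ0 _
  · intro γ δ x _
    rw [mul_inv_rev, hol_mul, hol_inv]
  · intro x hx
    rw [inv_one, map_one]
    exact hχp _ ⟨x, hx, rfl⟩
  · intro x hx v hv γ
    have h1 := path_deriv ((hsm γ).differentiable one_ne_zero x) v
    have h2 : (fun t : ℝ => χ (hol γ⁻¹ (x + t • v) - π (hol γ⁻¹ (x + t • v)))) =
        fun _ => χ (hol γ⁻¹ x - π (hol γ⁻¹ x)) := by
      funext t
      have h3 : (hol γ⁻¹).linear (t • v) ∈ lines Ω :=
        lines_inv h γ⁻¹ _ ((lines Ω).smul_mem t hv)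
      rw [hol_add, map_add, hπ2 _ h3, add_sub_add_right_eq_sub]
    rw [h2] at h1
    exact h1.unique (hasDerivAt_const (0 : ℝ) _)
  · intro K₁ hK₁ hK₁Ω
    have hA : IsCompact (K₁ ∪ K') := hK₁.union hK'
    have hAΩ : K₁ ∪ K' ⊆ Ω := Set.union_subset hK₁Ω hK'Ω
    obtain ⟨ρ, hρ, hball⟩ := unif_ball h.isOpen hA hAΩ
    obtain ⟨M, hM⟩ := unif_fun hA hAΩ hβ
    refine ⟨b.card * (M / ρ) / m, fun γ x hx hg => ?_⟩
    have hz : hol γ⁻¹ x - π (hol γ⁻¹ x) ∈ K₁ ∪ K' := Or.inr (hχ2 _ hg)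
    refine bdd_top h hβ hb' hπ1 hm hsum hρ one_pos (fun v hv => hball x (Or.inl hx) v hv)
      (z := hol γ⁻¹ x - π (hol γ⁻¹ x)) (fun v hv => ?_) γ ?_
      (fun f hf => hM x (Or.inl hx) f hf) (fun f hf => ?_)
    · rw [one_smul]
      exact hball _ hz v hv
    · rw [sub_sub_cancel]
      exact hπ1 _
    · rw [one_mul]
      exact hM _ hz f hf

/-- cones: all functionals bounded below are minimal at the vertex -/
theorem cone_min {o : E} (hcone : ∀ x ∈ Ω, ∀ t : ℝ, 0 < t → o + t • (x - o) ∈ Ω)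
    {f : E →ₗ[ℝ] ℝ} (hf : BddBelow (f '' Ω)) : ∀ x ∈ Ω, f o ≤ f x := by
  intro x hx
  obtain ⟨c, hc⟩ := hf
  by_contra hcon
  push Not at hcon
  have hd : 0 < f o - f x := by linarith
  have h1 := hc ⟨_, hcone x hx ((|f o - c| + 1) / (f o - f x)) (by positivity), rfl⟩
  rw [map_add, map_smul, map_sub, smul_eq_mul] at h1
  have h2 : (|f o - c| + 1) / (f o - f x) * (f x - f o) = -(|f o - c| + 1) := by
    field_simp
    ring
  rw [h2] at h1
  have h3 := le_abs_self (f o - c)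
  linarith

/-- the values at the vertices of a cone are below all bounds -/
theorem cone_le {o : E} (hcone : ∀ x ∈ Ω, ∀ t : ℝ, 0 < t → o + t • (x - o) ∈ Ω)
    (hne : Ω.Nonempty) {f : E →ₗ[ℝ] ℝ} {c : ℝ} (hf : ∀ x ∈ Ω, c ≤ f x) : c ≤ f o := by
  obtain ⟨x, hx⟩ := hne
  have h1 : Tendsto (fun t : ℝ => f o + t * f (x - o)) (𝓝[>] 0) (𝓝 (f o + 0 * f (x - o))) := by
    have h2 : Continuous fun t : ℝ => f o + t * f (x - o) := by fun_prop
    exact (h2.tendsto 0).mono_left nhdsWithin_le_nhds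
  rw [zero_mul, add_zero] at h1
  refine ge_of_tendsto h1 ?_
  filter_upwards [self_mem_nhdsWithin] with t ht
  have h3 := hf _ (hcone x hx t ht)
  rwa [map_add, map_smul, smul_eq_mul] at h3

theorem cone_vertex (h : AffDom Γ E hol Ω) {o : E}
    (hcone : ∀ x ∈ Ω, ∀ t : ℝ, 0 < t → o + t • (x - o) ∈ Ω) (γ : Γ) :
    hol γ o - o ∈ lines Ω := by
  intro f hf
  have hcone' : ∀ x ∈ Ω, ∀ t : ℝ, 0 < t → hol γ o + t • (x - hol γ o) ∈ Ω := by
    intro x hx t ht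
    have h1 := h.inv γ _ (hcone _ (h.inv γ⁻¹ x hx) t ht)
    rw [hol_add, map_smul] at h1
    have h2 : (hol γ).linear (hol γ⁻¹ x - o) = x - hol γ o := by
      have h3 := hol_add (hol := hol) γ o (hol γ⁻¹ x - o)
      rw [add_sub_cancel, hol_inv'] at h3
      exact eq_sub_of_add_eq' h3.symm
    rwa [h2] at h1
  rw [map_sub, sub_eq_zero]
  refine le_antisymm ?_ ?_
  · exact cone_le hcone h.nonempty (cone_min hcone' hf)
  · exact cone_le hcone' h.nonempty (cone_min hcone hf)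

theorem cone_factor (h : AffDom Γ E hol Ω) {K : Set E} (hK : IsCompact K) (hKΩ : K ⊆ Ω)
    {o : E} (ho : o ∉ Ω) (hcone : ∀ x ∈ Ω, ∀ t : ℝ, 0 < t → o + t • (x - o) ∈ Ω) :
    ∃ g : Γ → E → ℝ, Factor hol Ω K g ∧
      (∀ x ∈ Ω, ∀ v, ∀ c : ℝ, v - c • (x - o) ∈ lines Ω → ∀ γ, fderiv ℝ (g γ) x v = 0) ∧
      ∀ K₁ : Set E, IsCompact K₁ → K₁ ⊆ Ω → ∃ c : ℝ, ∀ γ, ∀ x ∈ K₁, g γ x ≠ 0 →
        BddBlock hol (lines Ω) ⊤ c γ := by
  classical
  obtain ⟨π, hπ1, hπ2⟩ := exists_pi (lines Ω)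
  obtain ⟨b, hb', hb⟩ := exists_functionals Ω
  obtain ⟨m, hm, hsum⟩ := sum_functionals hb hb' hπ1 hπ2
  have hβ : ∀ f ∈ b, ∀ x ∈ Ω, 0 ≤ f x + -f o := by
    intro f hf x hx
    have := cone_min hcone (hb' f hf) x hx
    linarith
  let T := toEuclidean (E := E)
  -- the projection
  let A : E → E := fun x => (x - o) - π (x - o)
  have hA1 : ContDiff ℝ 1 A :=
    (contDiff_id.sub contDiff_const).sub (π.contDiff.comp (contDiff_id.sub contDiff_const))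
  have hAΩ : ∀ x ∈ Ω, o + A x ∈ Ω := by
    intro x hx
    have e1 : o + A x = x + -π (x - o) := by
      simp only [A]
      abel
    rw [e1]
    exact add_lines h.isOpen h.convex hx ((lines Ω).neg_mem (hπ1 _))
  have hA0 : ∀ x ∈ Ω, T (A x) ≠ 0 := by
    intro x hx h0
    have h1 : A x = 0 := by
      have := T.injective (h0.trans (map_zero T).symm)
      exact this
    have h2 := hAΩ x hx
    rw [h1, add_zero] at h2
    exact ho h2
  let ν : E → E := fun x => T.symm (nrm (T (A x)))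
  have hν : ∀ x, ν x = ‖T (A x)‖⁻¹ • A x := by
    intro x
    simp only [ν, nrm]
    rw [map_smul, ContinuousLinearEquiv.symm_apply_apply]
  have hνΩ : ∀ x ∈ Ω, o + ν x ∈ Ω := by
    intro x hx
    have h1 := hcone _ (hAΩ x hx) ‖T (A x)‖⁻¹ (inv_pos.2 (norm_pos_iff.2 (hA0 x hx)))
    rw [add_sub_cancel_left, ← hν] at h1
    exact h1
  have hνs : ContDiffOn ℝ 1 (fun x => o + ν x) Ω := by
    refine contDiffOn_const.add (T.symm.contDiff.comp_contDiffOn ?_)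
    refine (nrm_smooth (U := EuclideanSpace ℝ (Fin (Module.finrank ℝ E)))).comp
      (T.contDiff.comp_contDiffOn hA1.contDiffOn) fun x hx => ?_
    exact hA0 x hx
  have hPK : (fun x => o + ν x) '' K ⊆ Ω := by
    rintro _ ⟨x, hx, rfl⟩
    exact hνΩ x (hKΩ hx)
  obtain ⟨χ, K', hχ1, hK', hK'Ω, hχ2, hχ0, hχp⟩ := exists_bump h.isOpen
    (hK.image_of_continuousOn (hνs.continuousOn.mono hKΩ)) hPK
  have hsm : ∀ γ : Γ, ContDiffOn ℝ 1 (fun x => χ (o + ν (hol γ⁻¹ x))) Ω := by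
    intro γ
    refine hχ1.comp_contDiffOn ?_
    exact hνs.comp (hol_contDiff γ⁻¹).contDiffOn fun x hx => h.inv γ⁻¹ x hx
  refine ⟨fun γ x => χ (o + ν (hol γ⁻¹ x)), ⟨hsm, ?_, ?_, ?_⟩, ?_, ?_⟩
  · exact fun γ x _ => hχ0 _
  · intro γ δ x _
    rw [mul_inv_rev, hol_mul, hol_inv]
  · intro x hx
    rw [inv_one, map_one]
    exact hχp _ ⟨x, hx, rfl⟩
  · intro x hx v c hv γ
    have h1 := path_deriv (((hsm γ).differentiableOn one_ne_zero).differentiableAt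
      (h.isOpen.mem_nhds hx)) v
    have e0 : hol γ⁻¹ (x + (0 : ℝ) • v) = hol γ⁻¹ x := by rw [zero_smul, add_zero]
    have e1 : ∀ t : ℝ, A (hol γ⁻¹ (x + t • v)) = A (hol γ⁻¹ x) + t • (c • A (hol γ⁻¹ x)) := by
      intro t
      obtain ⟨u, hu⟩ : ∃ u, u = (hol γ⁻¹).linear (v - c • (x - o)) := ⟨_, rfl⟩
      have h2 : u ∈ lines Ω := by
        rw [hu]
        exact lines_inv h γ⁻¹ _ hv
      have h3 : (hol γ⁻¹).linear (x - o) = (hol γ⁻¹ x - o) - (hol γ⁻¹ o - o) := by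
        have h4 := hol_add (hol := hol) γ⁻¹ o (x - o)
        rw [add_sub_cancel] at h4
        rw [h4]
        abel
      have h5 := cone_vertex h hcone γ⁻¹
      have h6 : (hol γ⁻¹).linear v - π ((hol γ⁻¹).linear v) = c • A (hol γ⁻¹ x) := by
        have h7 : (hol γ⁻¹).linear v = u + (c • (hol γ⁻¹ x - o) - c • (hol γ⁻¹ o - o)) := by
          rw [hu, map_sub, map_smul, h3, smul_sub]
          abel
        rw [h7, map_add, map_sub, hπ2 _ h2, map_smul, map_smul, hπ2 _ h5]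
        simp only [A, smul_sub]
        abel
      have h8 : hol γ⁻¹ (x + t • v) - o = (hol γ⁻¹ x - o) + t • (hol γ⁻¹).linear v := by
        rw [hol_add, map_smul]
        abel
      rw [← h6]
      simp only [A]
      rw [h8, map_add, map_smul, smul_sub]
      abel
    have h2 : HasDerivAt (fun t : ℝ => T (A (hol γ⁻¹ (x + t • v))))
        (c • T (A (hol γ⁻¹ x))) 0 := by
      simp only [e1]
      have h3 : HasDerivAt (fun t : ℝ => A (hol γ⁻¹ x) + t • (c • A (hol γ⁻¹ x)))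
          (c • A (hol γ⁻¹ x)) 0 := by
        have := ((hasDerivAt_id (0 : ℝ)).smul_const (c • A (hol γ⁻¹ x))).const_add (A (hol γ⁻¹ x))
        simpa using this
      have h4 := T.toContinuousLinearMap.hasFDerivAt.comp_hasDerivAt (0 : ℝ) h3
      rw [← map_smul]
      exact h4
    have h3 := nrm_deriv (y := fun t : ℝ => T (A (hol γ⁻¹ (x + t • v)))) (c := c)
      (by
        rw [e0]
        exact hA0 _ (h.inv γ⁻¹ x hx))
      (by
        rw [e0]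
        exact h2)
    have h4 : HasDerivAt (fun t : ℝ => o + ν (hol γ⁻¹ (x + t • v))) 0 0 := by
      have h5 := (T.symm.toContinuousLinearMap.hasFDerivAt.comp_hasDerivAt (0 : ℝ) h3).const_add o
      rw [map_zero] at h5
      exact h5
    have h6 : HasDerivAt (fun t : ℝ => χ (o + ν (hol γ⁻¹ (x + t • v)))) 0 0 := by
      have h5 : DifferentiableAt ℝ χ (o + ν (hol γ⁻¹ (x + (0 : ℝ) • v))) :=
        hχ1.differentiable one_ne_zero _
      have h7 := h5.hasFDerivAt.comp_hasDerivAt (0 : ℝ) h4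
      rw [map_zero] at h7
      exact h7
    exact h1.unique h6
  · intro K₁ hK₁ hK₁Ω
    have hAc : IsCompact (K₁ ∪ K') := hK₁.union hK'
    have hAcΩ : K₁ ∪ K' ⊆ Ω := Set.union_subset hK₁Ω hK'Ω
    obtain ⟨ρ, hρ, hball⟩ := unif_ball h.isOpen hAc hAcΩ
    obtain ⟨M, hM⟩ := unif_fun hAc hAcΩ (β := fun f => -f o) hβ
    refine ⟨b.card * (M / ρ) / m, fun γ x hx hg => ?_⟩
    have hy : o + ν (hol γ⁻¹ x) ∈ K₁ ∪ K' := Or.inr (hχ2 _ hg)
    have hx' : hol γ⁻¹ x ∈ Ω := h.inv γ⁻¹ x (hK₁Ω hx)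
    have hτ : 0 < ‖T (A (hol γ⁻¹ x))‖ := norm_pos_iff.2 (hA0 _ hx')
    have hAν : A (hol γ⁻¹ x) = ‖T (A (hol γ⁻¹ x))‖ • ν (hol γ⁻¹ x) := by
      rw [hν, smul_smul, mul_inv_cancel₀ hτ.ne', one_smul]
    refine bdd_top h (β := fun f => -f o) hβ hb' hπ1 hm hsum hρ hτ
      (fun v hv => hball x (Or.inl hx) v hv) (z := o + A (hol γ⁻¹ x)) (fun v hv => ?_) γ ?_
      (fun f hf => hM x (Or.inl hx) f hf) (fun f hf => ?_)
    · have h1 := hcone _ (hball _ hy v hv) _ hτ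
      have e1 : o + ‖T (A (hol γ⁻¹ x))‖ • (o + ν (hol γ⁻¹ x) + v - o) =
          o + A (hol γ⁻¹ x) + ‖T (A (hol γ⁻¹ x))‖ • v := by
        have e2 : o + ν (hol γ⁻¹ x) + v - o = ν (hol γ⁻¹ x) + v := by abel
        rw [e2, smul_add, ← hAν]
        abel
      rwa [e1] at h1
    · have e1 : hol γ⁻¹ x - (o + A (hol γ⁻¹ x)) = π (hol γ⁻¹ x - o) := by
        simp only [A]
        abel
      rw [e1]
      exact hπ1 _
    · have h1 := hM _ hy f hf
      have e1 : f (o + A (hol γ⁻¹ x)) + -f o = ‖T (A (hol γ⁻¹ x))‖ * f (ν (hol γ⁻¹ x)) := by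
        rw [map_add]
        conv_lhs => rw [hAν]
        rw [map_smul, smul_eq_mul]
        ring
      have e2 : f (o + ν (hol γ⁻¹ x)) + -f o = f (ν (hol γ⁻¹ x)) := by
        rw [map_add]
        ring
      rw [e2] at h1
      rw [e1]
      exact mul_le_mul_of_nonneg_left h1 hτ.le

end

end Run7.h262.SV
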