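import Pool.Agent.Run7.h262.SV.Flow

/-!
Weights of deficient rank from the action of a torus.
-/

set_option autoImplicit false

open Filter Topology

namespace Run7.h262.SV

variable {Γ E : Type} [Group Γ] [NormedAddCommGroup E] [NormedSpace ℝ E] [FiniteDimensional ℝ E]
  {hol : Γ →* (E ≃ᵃ[ℝ] E)} {A : Subgroup Γ} {Ω : Set E}

theorem coset_fix (hN : A.Normal) {a : Γ} (ha : a ∈ A) (s : Γ ⧸ A) : a • s = s := by
  obtain ⟨γ, rfl⟩ := QuotientGroup.mk_surjective s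
  have h1 : a • (γ : Γ ⧸ A) = ((a * γ : Γ) : Γ ⧸ A) := rfl
  rw [h1, QuotientGroup.eq]
  have h2 := hN.conj_mem a⁻¹ (A.inv_mem ha) γ⁻¹
  rw [inv_inv] at h2
  rw [mul_inv_rev]
  exact h2

/-- data of a torus -/
structure Flow (V : Type) [NormedAddCommGroup V] [NormedSpace ℝ V] [FiniteDimensional ℝ V]
    (ι : V →L[ℝ] AA E) (L : AddSubgroup V) (hol : Γ →* (E ≃ᵃ[ℝ] E)) (A : Subgroup Γ) : Prop where
  add : ∀ X Y x, actp (NormedSpace.exp (ι (X + Y))) x =
    actp (NormedSpace.exp (ι X)) (actp (NormedSpace.exp (ι Y)) x)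
  ll : ∀ l ∈ L, ∃ a ∈ A, ∀ x, actp (NormedSpace.exp (ι l)) x = hol a x
  snd : ∀ X w, (ι X w).2 = 0
  conj : ∀ γ : Γ, ∃ α : V ≃L[ℝ] V, (∀ x ∈ L, α x ∈ L) ∧
    ∀ X x, actp (NormedSpace.exp (ι X)) (hol γ x) = hol γ (actp (NormedSpace.exp (ι (α X))) x)
  cpt : ∃ Q : Set V, IsCompact Q ∧ ∀ x, ∃ q ∈ Q, x - q ∈ L

/-- equivariant partitions of unity of deficient rank -/
structure RankW (Γ S E : Type) [Group Γ] [MulAction Γ S] [NormedAddCommGroup E] [NormedSpace ℝ E]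
    (hol : Γ →* (E ≃ᵃ[ℝ] E)) (U : Set E) (l : S → E → ℝ) : Prop extends PreW Γ S E hol U l where
  rank : ∀ x ∈ U, ∃ v : E, v ≠ 0 ∧ ∀ s, fderiv ℝ (l s) x v = 0

theorem flow_weights {V : Type} [NormedAddCommGroup V] [NormedSpace ℝ V]
    [FiniteDimensional ℝ V] {ι : V →L[ℝ] AA E} {L : AddSubgroup V} (F : Flow V ι L hol A)
    (hN : A.Normal) (h : AffDom Γ E hol Ω) (O : Set E) (hO : IsOpen O)
    (hOΩ : ∀ x ∈ O, ∀ X : V, actp (NormedSpace.exp (ι X)) x ∈ Ω)
    (hOi : ∀ γ : Γ, ∀ x ∈ O, hol γ x ∈ O) (X₀ : V)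
    (hX₀ : ∀ x ∈ O, (ι X₀ (x, 1)).1 ≠ 0) :
    ∃ l : (Γ ⧸ A) → E → ℝ, RankW Γ (Γ ⧸ A) E hol O l := by
  classical
  obtain ⟨b₀, hb₀, -⟩ := h.base
  obtain ⟨b, hb⟩ := hb₀.push h.isOpen h.inv (QuotientGroup.mk : Γ → Γ ⧸ A) (fun γ s => rfl)
  have hbA : ∀ a ∈ A, ∀ s, ∀ x ∈ Ω, b s (hol a x) = b s x := by
    intro a ha s x hx
    conv_lhs => rw [← coset_fix hN ha s]
    exact hb.equi a s x hx
  obtain ⟨J, J1, J0, Jsum, Jtr, Jaut, Jsm⟩ := exists_avg L F.cpt
  obtain ⟨Q, hQ, hQL⟩ := F.cpt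
  let g : (Γ ⧸ A) → E → V → ℝ := fun s y X => b s (actp (NormedSpace.exp (ι X)) y)
  have hper : ∀ s, ∀ y ∈ O, Per L (g s y) := by
    intro s y hy X l hl
    obtain ⟨a, ha, h1⟩ := F.ll l hl
    change b s (actp (NormedSpace.exp (ι (X + l))) y) = b s (actp (NormedSpace.exp (ι X)) y)
    rw [add_comm, F.add, h1]
    exact hbA a ha s _ (hOΩ y hy X)
  have hcd : ContDiff ℝ 1 fun p : E × V => actp (NormedSpace.exp (ι p.2)) p.1 := by
    unfold actp
    have h1 : ContDiff ℝ 1 fun p : E × V => NormedSpace.exp (ι p.2) :=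
      exp_contDiff.comp (ι.contDiff.comp contDiff_snd)
    have h2 : ContDiff ℝ 1 fun p : E × V => ((p.1, 1) : E × ℝ) := contDiff_fst.prodMk contDiff_const
    exact (h1.clm_apply h2).fst
  have hgs : ∀ s, ContDiffOn ℝ 1 (fun p : E × V => g s p.1 p.2) (O ×ˢ Set.univ) := by
    intro s
    exact (hb.smooth s).comp hcd.contDiffOn fun p hp => hOΩ p.1 hp.1 p.2
  have hgc : ∀ s, ∀ y ∈ O, Continuous (g s y) := by
    intro s y hy
    have h4 : Continuous fun X : V => (y, X) := by fun_prop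
    exact ((hgs s).continuousOn.comp_continuous h4 fun X => ⟨hy, trivial⟩)
  -- compact sets
  have hKc : ∀ K : Set E, IsCompact K → K ⊆ O →
      IsCompact ((fun p : E × V => actp (NormedSpace.exp (ι p.2)) p.1) '' (K ×ˢ Q)) :=
    fun K hK _ => (hK.prod hQ).image hcd.continuous
  have hKΩ : ∀ K : Set E, K ⊆ O →
      ((fun p : E × V => actp (NormedSpace.exp (ι p.2)) p.1) '' (K ×ˢ Q)) ⊆ Ω := by
    rintro K hK _ ⟨p, hp, rfl⟩
    exact hOΩ p.1 (hK hp.1) p.2
  have hKs : ∀ K : Set E, K ⊆ O → ∀ s, ∀ y ∈ K, ∀ X, g s y X ≠ 0 →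
      ∃ x ∈ ((fun p : E × V => actp (NormedSpace.exp (ι p.2)) p.1) '' (K ×ˢ Q)), b s x ≠ 0 := by
    intro K hK s y hy X h0
    obtain ⟨q, hq, hl⟩ := hQL X
    refine ⟨_, ⟨(y, q), ⟨hy, hq⟩, rfl⟩, ?_⟩
    have h1 := hper s y (hK hy) q (X - q) hl
    rw [add_sub_cancel] at h1
    rw [h1] at h0
    exact h0
  let l : (Γ ⧸ A) → E → ℝ := fun s y => J (g s y)
  have hlfin : ∀ K : Set E, IsCompact K → K ⊆ O → {s | ∃ y ∈ K, l s y ≠ 0}.Finite := by
    intro K hK hKO
    refine (hb.fin _ (hKc K hK hKO) (hKΩ K hKO)).subset ?_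
    rintro s ⟨y, hy, h0⟩
    by_contra hcon
    apply h0
    have h1 : g s y = fun _ => 0 := by
      funext X
      by_contra h2
      obtain ⟨x, hx, h3⟩ := hKs K hKO s y hy X h2
      exact hcon ⟨x, hx, h3⟩
    change J (g s y) = 0
    rw [h1, J0]
  have hlsm : ∀ s, ContDiffOn ℝ 1 (l s) O := fun s => Jsm E O hO (g s) (hper s) (hgs s)
  refine ⟨l, ⟨hlsm, hlfin, ?_, ?_⟩, ?_⟩
  · -- the sum is one
    intro y hy
    have hyO : ({y} : Set E) ⊆ O := by simpa using hy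
    have hf := hb.fin _ (hKc {y} isCompact_singleton hyO) (hKΩ {y} hyO)
    have h1 : ∀ s, l s y ≠ 0 → s ∈ hf.toFinset := by
      intro s hs
      rw [Set.Finite.mem_toFinset]
      by_contra hcon
      apply hs
      have h1 : g s y = fun _ => 0 := by
        funext X
        by_contra h2
        obtain ⟨x, hx, h3⟩ := hKs {y} hyO s y rfl X h2
        exact hcon ⟨x, hx, h3⟩
      change J (g s y) = 0
      rw [h1, J0]
    rw [finsum_eq_sum_of_support_subset (s := hf.toFinset) _ (fun s hs => h1 s hs)]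
    have h2 := Jsum (Γ ⧸ A) hf.toFinset (fun s => g s y) (fun s _ => hgc s y hy)
      (fun s _ => hper s y hy)
    change ∑ s ∈ hf.toFinset, J (g s y) = 1
    rw [← h2, ← J1]
    congr 1
    funext X
    rw [← hb.one _ (hOΩ y hy X)]
    symm
    refine finsum_eq_sum_of_support_subset _ fun s hs => ?_
    rw [Finset.mem_coe, Set.Finite.mem_toFinset]
    exact hKs {y} hyO s y rfl X hs
  · -- equivariance
    intro γ s y hy
    obtain ⟨α, hα, hc⟩ := F.conj γ
    have h1 : g (γ • s) (hol γ y) = fun X => g s y (α X) := by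
      funext X
      change b (γ • s) (actp (NormedSpace.exp (ι X)) (hol γ y)) =
        b s (actp (NormedSpace.exp (ι (α X))) y)
      rw [hc]
      exact hb.equi γ s _ (hOΩ y hy _)
    change J (g (γ • s) (hol γ y)) = J (g s y)
    rw [h1]
    exact Jaut (g s y) (hgc s y hy) (hper s y hy) α hα
  · -- the rank
    intro y hy
    refine ⟨(ι X₀ (y, 1)).1, hX₀ y hy, fun s => ?_⟩
    have h1 : HasFDerivAt (l s) (fderiv ℝ (l s) y) y :=
      (((hlsm s).differentiableOn one_ne_zero).differentiableAt (hO.mem_nhds hy)).hasFDerivAt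
    let c : ℝ → E := fun t => actp (NormedSpace.exp (t • ι X₀)) y
    have hc0 : c 0 = y := by
      change actp (NormedSpace.exp ((0 : ℝ) • ι X₀)) y = y
      rw [zero_smul, NormedSpace.exp_zero]
      rfl
    have hc : HasDerivAt c ((ι X₀ (y, 1)).1) 0 := by
      have h2 : HasDerivAt (fun t : ℝ => NormedSpace.exp (t • ι X₀))
          (NormedSpace.exp ((0 : ℝ) • ι X₀) * ι X₀) 0 := hasDerivAt_exp_smul_const (ι X₀) (0 : ℝ)
      rw [zero_smul, NormedSpace.exp_zero, one_mul] at h2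
      have h3 := h2.clm_apply (hasDerivAt_const (0 : ℝ) ((y, 1) : E × ℝ))
      rw [map_zero, add_zero] at h3
      exact h3.fst
    have h2 : HasDerivAt (fun t => l s (c t)) (fderiv ℝ (l s) y ((ι X₀ (y, 1)).1)) 0 := by
      have h1' : HasFDerivAt (l s) (fderiv ℝ (l s) y) (c 0) := by rw [hc0]; exact h1
      exact h1'.comp_hasDerivAt (0 : ℝ) hc
    have h3 : (fun t => l s (c t)) = fun _ => l s y := by
      funext t
      have h4 : g s (c t) = fun X => g s y (X + t • X₀) := by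
        funext X
        change b s (actp (NormedSpace.exp (ι X)) (actp (NormedSpace.exp (t • ι X₀)) y)) =
          b s (actp (NormedSpace.exp (ι (X + t • X₀))) y)
        rw [F.add, map_smul]
      change J (g s (c t)) = J (g s y)
      rw [h4]
      exact Jtr (g s y) (hper s y hy) _
    rw [h3] at h2
    exact h2.unique (hasDerivAt_const (0 : ℝ) (l s y))

end Run7.h262.SV
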