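import Mathlib

/-!
Small elements of discrete groups (the lemma of Zassenhaus).
-/

set_option autoImplicit false

open Filter Topology

namespace Run7.h262.SV

section est
variable {R : Type} [NormedRing R] [NormOneClass R]

theorem inv_bound {x x' : R} (h : x' * x = 1) (hx : ‖x - 1‖ ≤ 1 / 8) : ‖x'‖ ≤ 8 / 7 := by
  have h1 : x' = 1 - x' * (x - 1) := by rw [mul_sub, h, mul_one]; abel
  have h2 : ‖x'‖ ≤ 1 + ‖x'‖ * ‖x - 1‖ := by
    calc ‖x'‖ = ‖1 - x' * (x - 1)‖ := by rw [← h1]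
      _ ≤ ‖(1 : R)‖ + ‖x' * (x - 1)‖ := norm_sub_le _ _
      _ ≤ 1 + ‖x'‖ * ‖x - 1‖ := by
        rw [norm_one]
        exact add_le_add le_rfl (norm_mul_le _ _)
  have h3 : ‖x'‖ * ‖x - 1‖ ≤ ‖x'‖ * (1 / 8) := mul_le_mul_of_nonneg_left hx (norm_nonneg _)
  linarith

/-- commutators of small elements -/
theorem comm_bound {x x' y y' : R} (hx : x' * x = 1) (hx2 : x * x' = 1) (hy : y' * y = 1)
    (hy2 : y * y' = 1) (h1 : ‖x - 1‖ ≤ 1 / 8) (h2 : ‖y - 1‖ ≤ 1 / 8) :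
    ‖x * y * x' * y' - 1‖ ≤ 1 / 2 * ‖y - 1‖ := by
  have e1 : x * y * x' * y' - 1 = (((x - 1) * (y - 1)) - ((y - 1) * (x - 1))) * (x' * y') := by
    have e2 : ((x - 1) * (y - 1)) - ((y - 1) * (x - 1)) = x * y - y * x := by
      rw [sub_mul, mul_sub, mul_sub, sub_mul, mul_sub, mul_sub]
      simp only [one_mul, mul_one]
      abel
    rw [e2, sub_mul]
    have e3 : y * x * (x' * y') = 1 := by
      rw [mul_assoc, ← mul_assoc x, hx2, one_mul, hy2]
    rw [e3]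
    simp only [mul_assoc]
  rw [e1]
  have b1 := inv_bound hx h1
  have b2 := inv_bound hy h2
  have n1 := norm_nonneg (x - 1)
  have n2 := norm_nonneg (y - 1)
  have h3 : ‖((x - 1) * (y - 1)) - ((y - 1) * (x - 1))‖ ≤ 1 / 8 * ‖y - 1‖ + ‖y - 1‖ * (1 / 8) := by
    refine (norm_sub_le _ _).trans (add_le_add ?_ ?_)
    · exact (norm_mul_le _ _).trans (mul_le_mul_of_nonneg_right h1 n2)
    · exact (norm_mul_le _ _).trans (mul_le_mul_of_nonneg_left h1 n2)
  have h4 : ‖x' * y'‖ ≤ 8 / 7 * (8 / 7) :=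
    (norm_mul_le _ _).trans (mul_le_mul b1 b2 (norm_nonneg _) (by norm_num))
  calc _ ≤ ‖((x - 1) * (y - 1)) - ((y - 1) * (x - 1))‖ * ‖x' * y'‖ := norm_mul_le _ _
    _ ≤ (1 / 8 * ‖y - 1‖ + ‖y - 1‖ * (1 / 8)) * (8 / 7 * (8 / 7)) :=
      mul_le_mul h3 h4 (norm_nonneg _) (by positivity)
    _ ≤ 1 / 2 * ‖y - 1‖ := by nlinarith

end est

section group
variable {Γ R : Type} [Group Γ] [NormedRing R] [NormOneClass R] [NormedAlgebra ℝ R]
  [FiniteDimensional ℝ R]

/-- some central multiple of the conjugate of `ρ γ` is close to one -/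
def Near (ρ : Γ →* R) (Z : Set R) (g g' : R) (γ : Γ) (ε : ℝ) : Prop :=
  ∃ z ∈ Z, ∃ z' : R, z * z' = 1 ∧ z' * z = 1 ∧ ‖z * (g * ρ γ * g') - 1‖ ≤ ε

/-- conjugating elements and central elements -/
structure Frame (ρ : Γ →* R) (Z : Set R) (g g' : R) : Prop where
  inv : g' * g = 1
  inv' : g * g' = 1
  comm : ∀ z ∈ Z, ∀ w ∈ Z, z * w = w * z
  cent : ∀ z ∈ Z, ∀ δ : Γ, z * (g * ρ δ * g') = (g * ρ δ * g') * z

theorem near_comm {ρ : Γ →* R} {Z : Set R} {g g' : R} (hf : Frame ρ Z g g') {a b : Γ} {ε : ℝ}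
    (ha : Near ρ Z g g' a (1 / 8)) (hb : Near ρ Z g g' b ε) (hε : ε ≤ 1 / 8) :
    ‖g * ρ (a * b * a⁻¹ * b⁻¹) * g' - 1‖ ≤ ε / 2 := by
  obtain ⟨z, hzZ, z', hz, hz2, h1⟩ := ha
  obtain ⟨w, hwZ, w', hw, hw2, h2⟩ := hb
  have key : ∀ γ δ : Γ, g * ρ (γ * δ) * g' = (g * ρ γ * g') * (g * ρ δ * g') := by
    intro γ δ
    rw [map_mul]
    calc g * (ρ γ * ρ δ) * g' = g * ρ γ * 1 * ρ δ * g' := by simp only [mul_assoc, one_mul]
      _ = g * ρ γ * (g' * g) * ρ δ * g' := by rw [hf.inv]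
      _ = _ := by simp only [mul_assoc]
  have k1 : g * ρ 1 * g' = 1 := by rw [map_one, mul_one, hf.inv']
  have e1 : g * ρ (a * b * a⁻¹ * b⁻¹) * g' =
      (g * ρ a * g') * (g * ρ b * g') * (g * ρ a⁻¹ * g') * (g * ρ b⁻¹ * g') := by
    rw [key, key, key]
  have zC := hf.cent z hzZ (a * b * a⁻¹ * b⁻¹)
  have wC := hf.cent w hwZ (a * b * a⁻¹ * b⁻¹)
  have zB' := hf.cent z hzZ b⁻¹
  have wA := hf.cent w hwZ a
  rw [e1] at zC wC
  rw [e1]
  have hAA : (g * ρ a * g') * (g * ρ a⁻¹ * g') = 1 := by rw [← key, mul_inv_cancel, k1]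
  have hAA' : (g * ρ a⁻¹ * g') * (g * ρ a * g') = 1 := by rw [← key, inv_mul_cancel, k1]
  have hBB : (g * ρ b * g') * (g * ρ b⁻¹ * g') = 1 := by rw [← key, mul_inv_cancel, k1]
  have hBB' : (g * ρ b⁻¹ * g') * (g * ρ b * g') = 1 := by rw [← key, inv_mul_cancel, k1]
  generalize g * ρ a * g' = A at *
  generalize g * ρ a⁻¹ * g' = A' at *
  generalize g * ρ b * g' = B at *
  generalize g * ρ b⁻¹ * g' = B' at *
  have hx : (A' * z') * (z * A) = 1 := by
    rw [mul_assoc, ← mul_assoc z', hz2, one_mul, hAA']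
  have hx2 : (z * A) * (A' * z') = 1 := by
    rw [mul_assoc, ← mul_assoc A, hAA, one_mul, hz]
  have hy : (B' * w') * (w * B) = 1 := by
    rw [mul_assoc, ← mul_assoc w', hw2, one_mul, hBB']
  have hy2 : (w * B) * (B' * w') = 1 := by
    rw [mul_assoc, ← mul_assoc B, hBB, one_mul, hw]
  have h3 := comm_bound hx hx2 hy hy2 h1 (h2.trans hε)
  have hzw := hf.comm z hzZ w hwZ
  -- the inverse commutes too
  have z'B' : z' * B' = B' * z' := by
    calc z' * B' = z' * B' * (z * z') := by rw [hz, mul_one]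
      _ = z' * (B' * z) * z' := by simp only [mul_assoc]
      _ = z' * (z * B') * z' := by rw [zB']
      _ = (z' * z) * B' * z' := by simp only [mul_assoc]
      _ = B' * z' := by rw [hz2, one_mul]
  have e2 : (z * A) * (w * B) * (A' * z') * (B' * w') = A * B * A' * B' := by
    calc (z * A) * (w * B) * (A' * z') * (B' * w')
        = z * (A * w) * B * A' * (z' * B') * w' := by simp only [mul_assoc]
      _ = z * (w * A) * B * A' * (B' * z') * w' := by rw [wA, z'B']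
      _ = z * (w * (A * B * A' * B')) * z' * w' := by simp only [mul_assoc]
      _ = z * ((A * B * A' * B') * w) * z' * w' := by rw [wC]
      _ = (z * (A * B * A' * B')) * w * z' * w' := by simp only [mul_assoc]
      _ = ((A * B * A' * B') * z) * w * z' * w' := by rw [zC]
      _ = (A * B * A' * B') * (z * w) * z' * w' := by simp only [mul_assoc]
      _ = (A * B * A' * B') * (w * z) * z' * w' := by rw [hzw]
      _ = (A * B * A' * B') * (w * (z * z') * w') := by simp only [mul_assoc]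
      _ = A * B * A' * B' := by rw [hz, mul_one, hw, mul_one]
  rw [e2] at h3
  have h4 : 1 / 2 * ‖w * B - 1‖ ≤ ε / 2 := by linarith
  exact h3.trans h4

/-- iterated commutators -/
def icomm (F : Set Γ) : ℕ → Set Γ
  | 0 => F
  | n + 1 => {c | ∃ a ∈ F, ∃ b ∈ icomm F n, c = a * b * a⁻¹ * b⁻¹}

theorem icomm_closure (F : Set Γ) (n : ℕ) : icomm F n ⊆ Subgroup.closure F := by
  induction n with
  | zero => exact Subgroup.subset_closure
  | succ n ih =>
    rintro _ ⟨a, ha, b, hb, rfl⟩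
    have ha' := Subgroup.subset_closure (k := F) ha
    have hb' := ih hb
    exact Subgroup.mul_mem _ (Subgroup.mul_mem _ (Subgroup.mul_mem _ ha' hb')
      (Subgroup.inv_mem _ ha')) (Subgroup.inv_mem _ hb')

theorem icomm_bound {ρ : Γ →* R} {Z : Set R} {g g' : R} (hf : Frame ρ Z g g') (hZ : (1 : R) ∈ Z)
    {F : Set Γ} (hF : ∀ a ∈ F, Near ρ Z g g' a (1 / 8)) (n : ℕ) :
    ∀ c ∈ icomm F n, Near ρ Z g g' c ((1 / 2) ^ n * (1 / 8)) ∧
      (n ≠ 0 → ‖g * ρ c * g' - 1‖ ≤ (1 / 2) ^ n * (1 / 8)) := by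
  induction n with
  | zero =>
    intro c hc
    rw [pow_zero, one_mul]
    exact ⟨hF c hc, fun h => absurd rfl h⟩
  | succ n ih =>
    rintro _ ⟨a, ha, b, hb, rfl⟩
    have h1 := near_comm hf (hF a ha) (ih b hb).1 (by
      have : (1 / 2 : ℝ) ^ n ≤ 1 := pow_le_one₀ (by norm_num) (by norm_num)
      linarith)
    have h2 : ‖g * ρ (a * b * a⁻¹ * b⁻¹) * g' - 1‖ ≤ (1 / 2) ^ (n + 1) * (1 / 8) := by
      refine h1.trans (le_of_eq ?_)
      rw [pow_succ]
      ring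
    refine ⟨⟨1, hZ, 1, one_mul 1, one_mul 1, ?_⟩, fun _ => h2⟩
    rw [one_mul]
    exact h2

/-- a central element of a group with small generators -/
theorem exists_central {ρ : Γ →* R} (hρ : ∃ r > 0, ∀ γ : Γ, ‖ρ γ - 1‖ < r → γ = 1) {Z : Set R}
    {g g' : R} (hf : Frame ρ Z g g') (hZ : (1 : R) ∈ Z) {F : Set Γ}
    (hF : ∀ a ∈ F, Near ρ Z g g' a (1 / 8)) (f : Γ) (hfF : f ∈ F) (hf1 : f ≠ 1) :
    ∃ c ∈ Subgroup.closure F, c ≠ 1 ∧ ∀ a ∈ F, a * c = c * a := by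
  classical
  obtain ⟨r, hr, hρ⟩ := hρ
  have hex : ∃ n, ∀ c ∈ icomm F n, c = 1 := by
    have h1 : Tendsto (fun n : ℕ => ‖g'‖ * (((1 / 2 : ℝ) ^ n * (1 / 8)) * ‖g‖)) atTop (𝓝 0) := by
      have h2 : Tendsto (fun n : ℕ => (1 / 2 : ℝ) ^ n) atTop (𝓝 0) :=
        tendsto_pow_atTop_nhds_zero_of_lt_one (by norm_num) (by norm_num)
      have h3 := ((h2.mul_const (1 / 8)).mul_const ‖g‖).const_mul ‖g'‖
      simpa using h3
    obtain ⟨n, hn⟩ := ((h1.eventually (gt_mem_nhds hr)).and (eventually_ge_atTop 1)).exists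
    refine ⟨n, fun c hc => hρ c ?_⟩
    have h2 := (icomm_bound hf hZ hF n c hc).2 (by omega)
    have h3 : ρ c - 1 = g' * (g * ρ c * g' - 1) * g := by
      rw [mul_sub, sub_mul, mul_one, hf.inv]
      congr 1
      calc ρ c = 1 * ρ c * 1 := by rw [one_mul, mul_one]
        _ = (g' * g) * ρ c * (g' * g) := by rw [hf.inv]
        _ = _ := by simp only [mul_assoc]
    rw [h3]
    refine lt_of_le_of_lt ?_ hn.1
    rw [mul_assoc]
    refine (norm_mul_le _ _).trans (mul_le_mul_of_nonneg_left ?_ (norm_nonneg _))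
    exact (norm_mul_le _ _).trans (mul_le_mul_of_nonneg_right h2 (norm_nonneg _))
  have hm := Nat.find_spec hex
  have hmin := fun j => @Nat.find_min _ _ hex j
  cases hc : Nat.find hex with
  | zero =>
    rw [hc] at hm
    exact absurd (hm f hfF) hf1
  | succ m =>
    rw [hc] at hm
    have h1 := hmin m (by omega)
    push Not at h1
    obtain ⟨c, hc1, hc2⟩ := h1
    refine ⟨c, icomm_closure F m hc1, hc2, fun a ha => ?_⟩
    have h2 := hm _ ⟨a, ha, c, hc1, rfl⟩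
    have h3 : a * c * (c * a)⁻¹ = 1 := by
      rw [mul_inv_rev, ← mul_assoc]
      exact h2
    exact mul_inv_eq_one.1 h3

end group

end Run7.h262.SV
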