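import Pool.Agent.Run7.h262.SV.Zas

/-!
Commutative normal subgroups of groups with arbitrarily small elements.
-/

set_option autoImplicit false

open Filter Topology

namespace Run7.h262.SV

variable {Γ R : Type} [Group Γ] [NormedRing R] [NormOneClass R] [NormedAlgebra ℝ R]
  [FiniteDimensional ℝ R]

/-- the span of the image of the group generated by a set -/
noncomputable def spn (ρ : Γ →* R) (U : Set Γ) : Submodule ℝ R :=
  Submodule.span ℝ (ρ '' (Subgroup.closure U : Set Γ))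

theorem spn_mem (ρ : Γ →* R) {U : Set Γ} {c : Γ} (hc : c ∈ Subgroup.closure U) :
    ρ c ∈ spn ρ U := Submodule.subset_span ⟨c, hc, rfl⟩

theorem spn_mono (ρ : Γ →* R) {U V : Set Γ} (h : U ⊆ V) : spn ρ U ≤ spn ρ V :=
  Submodule.span_mono (Set.image_mono (Subgroup.closure_mono h))

theorem spn_mul (ρ : Γ →* R) {U : Set Γ} {X Y : R} (hX : X ∈ spn ρ U) (hY : Y ∈ spn ρ U) :
    X * Y ∈ spn ρ U := by
  refine Submodule.span_induction₂ (p := fun X Y _ _ => X * Y ∈ spn ρ U) ?_ ?_ ?_ ?_ ?_ ?_ ?_ hX hY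
  · rintro _ _ ⟨a, ha, rfl⟩ ⟨b, hb, rfl⟩
    rw [← map_mul]
    exact spn_mem ρ (Subgroup.mul_mem _ ha hb)
  · intro Y _
    rw [zero_mul]
    exact Submodule.zero_mem _
  · intro Y _
    rw [mul_zero]
    exact Submodule.zero_mem _
  · intro X Y Z _ _ _ h1 h2
    rw [add_mul]
    exact Submodule.add_mem _ h1 h2
  · intro X Y Z _ _ _ h1 h2
    rw [mul_add]
    exact Submodule.add_mem _ h1 h2
  · intro r X Y _ _ h
    rw [smul_mul_assoc]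
    exact Submodule.smul_mem _ _ h
  · intro r X Y _ _ h
    rw [mul_smul_comm]
    exact Submodule.smul_mem _ _ h

theorem spn_comm (ρ : Γ →* R) {U : Set Γ} {Y : R} (h : ∀ u ∈ U, Y * ρ u = ρ u * Y) {X : R}
    (hX : X ∈ spn ρ U) : Y * X = X * Y := by
  have h1 : ∀ c ∈ Subgroup.closure U, Y * ρ c = ρ c * Y := by
    intro c hc
    refine Subgroup.closure_induction (p := fun c _ => Y * ρ c = ρ c * Y) ?_ ?_ ?_ ?_ hc
    · exact fun u hu => h u hu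
    · rw [map_one, mul_one, one_mul]
    · intro a b _ _ ha hb
      rw [map_mul, ← mul_assoc, ha, mul_assoc, hb, mul_assoc]
    · intro a _ ha
      have h2 : ρ a * ρ a⁻¹ = 1 := by rw [← map_mul, mul_inv_cancel, map_one]
      have h3 : ρ a⁻¹ * ρ a = 1 := by rw [← map_mul, inv_mul_cancel, map_one]
      calc Y * ρ a⁻¹ = (ρ a⁻¹ * ρ a) * Y * ρ a⁻¹ := by rw [h3, one_mul]
        _ = ρ a⁻¹ * (ρ a * Y) * ρ a⁻¹ := by simp only [mul_assoc]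
        _ = ρ a⁻¹ * (Y * ρ a) * ρ a⁻¹ := by rw [ha]
        _ = ρ a⁻¹ * Y * (ρ a * ρ a⁻¹) := by simp only [mul_assoc]
        _ = ρ a⁻¹ * Y := by rw [h2, mul_one]
  refine Submodule.span_induction (p := fun X _ => Y * X = X * Y) ?_ ?_ ?_ ?_ hX
  · rintro _ ⟨c, hc, rfl⟩
    exact h1 c hc
  · rw [mul_zero, zero_mul]
  · intro X Z _ _ h1 h2
    rw [mul_add, add_mul, h1, h2]
  · intro r X _ h1
    rw [mul_smul_comm, smul_mul_assoc, h1]

theorem spn_conj (ρ : Γ →* R) {U V : Set Γ} (γ : Γ) (h : ∀ u ∈ U, γ * u * γ⁻¹ ∈ V) {X : R}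
    (hX : X ∈ spn ρ U) : ρ γ * X * ρ γ⁻¹ ∈ spn ρ V := by
  have h1 : ∀ c ∈ Subgroup.closure U, γ * c * γ⁻¹ ∈ Subgroup.closure V := by
    intro c hc
    have h2 : Subgroup.closure U ≤ (Subgroup.closure V).comap (MulAut.conj γ).toMonoidHom :=
      (Subgroup.closure_le _).2 fun u hu => Subgroup.subset_closure (h u hu)
    exact h2 hc
  refine Submodule.span_induction (p := fun X _ => ρ γ * X * ρ γ⁻¹ ∈ spn ρ V) ?_ ?_ ?_ ?_ hX
  · rintro _ ⟨c, hc, rfl⟩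
    rw [← map_mul, ← map_mul]
    exact spn_mem ρ (h1 c hc)
  · rw [mul_zero, zero_mul]
    exact Submodule.zero_mem _
  · intro X Z _ _ h1 h2
    rw [mul_add, add_mul]
    exact Submodule.add_mem _ h1 h2
  · intro r X _ h1
    rw [mul_smul_comm, smul_mul_assoc]
    exact Submodule.smul_mem _ _ h1

/-- the commutant -/
def cmt (ρ : Γ →* R) (F : Set Γ) : Submodule ℝ R where
  carrier := {Y | ∀ f ∈ F, Y * ρ f = ρ f * Y}
  add_mem' := by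
    intro X Y hX hY f hf
    rw [add_mul, mul_add, hX f hf, hY f hf]
  zero_mem' := fun f _ => by rw [zero_mul, mul_zero]
  smul_mem' := by
    intro r X hX f hf
    rw [smul_mul_assoc, mul_smul_comm, hX f hf]

theorem zassenhaus (ρ : Γ →* R) (hρ : ∃ r > 0, ∀ γ : Γ, ‖ρ γ - 1‖ < r → γ = 1)
    (U : ℝ → Set Γ) (hmono : ∀ δ δ', δ ≤ δ' → U δ ⊆ U δ')
    (hne : ∀ δ > 0, ∃ γ ∈ U δ, γ ≠ 1)
    (hconj : ∀ γ : Γ, ∀ δ > 0, ∃ δ' > 0, ∀ u ∈ U δ', γ * u * γ⁻¹ ∈ U δ)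
    (hsmall : ∃ δ₁ > 0, ∀ F : Finset Γ, (F : Set Γ) ⊆ U δ₁ →
      ∃ (Z : Set R) (g g' : R), Frame ρ Z g g' ∧ (1 : R) ∈ Z ∧
        ∀ a ∈ F, Near ρ Z g g' a (1 / 8)) :
    ∃ A : Subgroup Γ, A.Normal ∧ A ≠ ⊥ ∧ ∀ a ∈ A, ∀ b ∈ A, a * b = b * a := by
  classical
  obtain ⟨δ₁, hδ₁, hsmall⟩ := hsmall
  -- stabilisation
  have hex : ∃ d, ∃ δ, 0 < δ ∧ δ ≤ δ₁ ∧ Module.finrank ℝ (spn ρ (U δ)) = d :=
    ⟨_, δ₁, hδ₁, le_rfl, rfl⟩
  obtain ⟨δ₀, hδ₀, hδ₀₁, hd⟩ := Nat.find_spec hex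
  have hmin := fun j => @Nat.find_min _ _ hex j
  rw [← hd] at hmin
  have hstab : ∀ δ, 0 < δ → δ ≤ δ₀ → spn ρ (U δ) = spn ρ (U δ₀) := by
    intro δ h0 h1
    refine Submodule.eq_of_le_of_finrank_le (spn_mono ρ (hmono _ _ h1)) ?_
    by_contra hcon
    push Not at hcon
    exact hmin _ hcon ⟨δ, h0, h1.trans hδ₀₁, rfl⟩
  set S := spn ρ (U δ₀) with hS
  -- finitely many elements
  obtain ⟨f₀, hf₀, hf₀1⟩ := hne δ₀ hδ₀
  have hex2 : ∃ d, ∃ F : Finset Γ, (F : Set Γ) ⊆ U δ₀ ∧ f₀ ∈ F ∧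
      Module.finrank ℝ (cmt ρ (F : Set Γ)) = d :=
    ⟨_, {f₀}, by simpa using hf₀, Finset.mem_singleton_self _, rfl⟩
  obtain ⟨F, hFU, hf₀F, hFd⟩ := Nat.find_spec hex2
  have hmin2 := fun j => @Nat.find_min _ _ hex2 j
  rw [← hFd] at hmin2
  have hcm : ∀ Y ∈ cmt ρ (F : Set Γ), ∀ u ∈ U δ₀, Y * ρ u = ρ u * Y := by
    intro Y hY u hu
    have h1 : cmt ρ ((insert u F : Finset Γ) : Set Γ) ≤ cmt ρ (F : Set Γ) := by
      intro X hX f hf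
      exact hX f (Finset.mem_coe.2 (Finset.mem_insert_of_mem (Finset.mem_coe.1 hf)))
    have h2 : cmt ρ ((insert u F : Finset Γ) : Set Γ) = cmt ρ (F : Set Γ) := by
      refine Submodule.eq_of_le_of_finrank_le h1 ?_
      by_contra hcon
      push Not at hcon
      refine hmin2 _ hcon ⟨insert u F, ?_, Finset.mem_insert_of_mem hf₀F, rfl⟩
      rw [Finset.coe_insert]
      exact Set.insert_subset hu hFU
    rw [← h2] at hY
    exact hY u (Finset.mem_coe.2 (Finset.mem_insert_self u F))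
  obtain ⟨Z, g, g', hfr, hZ1, hnear⟩ := hsmall F (hFU.trans (hmono _ _ hδ₀₁))
  obtain ⟨c, hcF, hc1, hcc⟩ := exists_central hρ hfr hZ1 (F := (F : Set Γ))
    (fun a ha => hnear a (Finset.mem_coe.1 ha)) f₀ hf₀F hf₀1
  have hcU : c ∈ Subgroup.closure (U δ₀) := Subgroup.closure_mono hFU hcF
  have hcS : ∀ X ∈ S, ρ c * X = X * ρ c := by
    intro X hX
    refine spn_comm ρ (hcm (ρ c) ?_) hX
    intro f hf
    rw [← map_mul, ← map_mul, hcc f hf]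
  -- the subgroup
  have hinvl : ∀ γ : Γ, ρ γ * ρ γ⁻¹ = 1 := fun γ => by rw [← map_mul, mul_inv_cancel, map_one]
  have hinvr : ∀ γ : Γ, ρ γ⁻¹ * ρ γ = 1 := fun γ => by rw [← map_mul, inv_mul_cancel, map_one]
  have hSn : ∀ γ : Γ, ∀ X ∈ S, ρ γ * X * ρ γ⁻¹ ∈ S := by
    intro γ X hX
    obtain ⟨δ', hδ', h1⟩ := hconj γ δ₀ hδ₀
    have hX' : X ∈ spn ρ (U (min δ' δ₀)) := by
      rw [hstab (min δ' δ₀) (lt_min hδ' hδ₀) (min_le_right _ _)]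
      exact hX
    exact spn_conj ρ γ (fun u hu => h1 u (hmono _ _ (min_le_left _ _) hu)) hX'
  let A : Subgroup Γ :=
    { carrier := {γ | ρ γ ∈ S ∧ ρ γ⁻¹ ∈ S ∧ ∀ X ∈ S, ρ γ * X = X * ρ γ}
      mul_mem' := by
        rintro a b ⟨a1, a2, a3⟩ ⟨b1, b2, b3⟩
        refine ⟨?_, ?_, fun X hX => ?_⟩
        · rw [map_mul]
          exact spn_mul ρ a1 b1
        · rw [mul_inv_rev, map_mul]
          exact spn_mul ρ b2 a2
        · rw [map_mul, mul_assoc, b3 X hX, ← mul_assoc, a3 X hX, mul_assoc]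
      one_mem' := by
        have h1 : ρ 1 ∈ S := spn_mem ρ (Subgroup.one_mem _)
        refine ⟨h1, by rw [inv_one]; exact h1, fun X hX => ?_⟩
        rw [map_one, one_mul, mul_one]
      inv_mem' := by
        rintro a ⟨a1, a2, a3⟩
        refine ⟨a2, by rw [inv_inv]; exact a1, fun X hX => ?_⟩
        calc ρ a⁻¹ * X = ρ a⁻¹ * X * (ρ a * ρ a⁻¹) := by rw [hinvl, mul_one]
          _ = ρ a⁻¹ * (X * ρ a) * ρ a⁻¹ := by simp only [mul_assoc]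
          _ = ρ a⁻¹ * (ρ a * X) * ρ a⁻¹ := by rw [a3 X hX]
          _ = (ρ a⁻¹ * ρ a) * X * ρ a⁻¹ := by simp only [mul_assoc]
          _ = X * ρ a⁻¹ := by rw [hinvr, one_mul] }
  refine ⟨A, ⟨?_⟩, ?_, ?_⟩
  · rintro a ⟨a1, a2, a3⟩ γ
    refine ⟨?_, ?_, fun X hX => ?_⟩
    · rw [map_mul, map_mul]
      exact hSn γ _ a1
    · have e : (γ * a * γ⁻¹)⁻¹ = γ * a⁻¹ * γ⁻¹ := by group
      rw [e, map_mul, map_mul]
      exact hSn γ _ a2
    · have h1 := hSn γ⁻¹ X hX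
      rw [inv_inv] at h1
      have h2 := a3 _ h1
      rw [map_mul, map_mul]
      calc ρ γ * ρ a * ρ γ⁻¹ * X = ρ γ * ρ a * ρ γ⁻¹ * X * (ρ γ * ρ γ⁻¹) := by
            rw [hinvl, mul_one]
        _ = ρ γ * (ρ a * (ρ γ⁻¹ * X * ρ γ)) * ρ γ⁻¹ := by simp only [mul_assoc]
        _ = ρ γ * ((ρ γ⁻¹ * X * ρ γ) * ρ a) * ρ γ⁻¹ := by rw [h2]
        _ = (ρ γ * ρ γ⁻¹) * X * (ρ γ * ρ a * ρ γ⁻¹) := by simp only [mul_assoc]
        _ = X * (ρ γ * ρ a * ρ γ⁻¹) := by rw [hinvl, one_mul]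
  · intro hbot
    have h1 : c ∈ A :=
      ⟨spn_mem ρ hcU, spn_mem ρ (Subgroup.inv_mem _ hcU), hcS⟩
    rw [hbot, Subgroup.mem_bot] at h1
    exact hc1 h1
  · rintro a ⟨a1, a2, a3⟩ b ⟨b1, b2, b3⟩
    obtain ⟨r, hr, hρ⟩ := hρ
    have h1 : ρ (a * b * (b * a)⁻¹) = 1 := by
      have h2 : ρ (a * b) = ρ (b * a) := by rw [map_mul, map_mul, a3 _ b1]
      rw [map_mul, h2, hinvl]
    have h2 := hρ (a * b * (b * a)⁻¹) (by rw [h1, sub_self, norm_zero]; exact hr)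
    exact mul_inv_eq_one.1 h2

end Run7.h262.SV
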